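import Pool.Agent.H560DS.Defs

set_option autoImplicit false

namespace Pool.Agent.H560DS

open Finset

/-! DS01: two Hoelder inequalities -/

/-- TARGET 1. Weighted Hoelder with exponents 4/3 and 4 -/
theorem hold34 {ι : Type} (s : Finset ι) (f c : ι → ℝ) (hf : ∀ i ∈ s, 0 ≤ f i) (hc : ∀ i ∈ s, 0 ≤ c i) :
    ∑ i ∈ s, c i * (f i) ^ (3 / 4 : ℝ) ≤ (∑ i ∈ s, f i) ^ (3 / 4 : ℝ) * (∑ i ∈ s, (c i) ^ 4) ^ (1 / 4 : ℝ) := by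
  have hpq : (4 : ℝ).HolderConjugate (4 / 3) := by
    rw [Real.holderConjugate_iff]
    constructor <;> norm_num
  have h := Real.inner_le_Lp_mul_Lq_of_nonneg s hpq hc
    (g := fun i => (f i) ^ (3 / 4 : ℝ)) (fun i hi => Real.rpow_nonneg (hf i hi) _)
  have e1 : ∑ i ∈ s, (c i) ^ (4 : ℝ) = ∑ i ∈ s, (c i) ^ 4 := by
    refine Finset.sum_congr rfl fun i _ => ?_
    exact_mod_cast Real.rpow_natCast (c i) 4
  have e2 : ∑ i ∈ s, ((f i) ^ (3 / 4 : ℝ)) ^ (4 / 3 : ℝ) = ∑ i ∈ s, f i := by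
    refine Finset.sum_congr rfl fun i hi => ?_
    rw [← Real.rpow_mul (hf i hi)]
    norm_num
  have e3 : (1 / (4 / 3) : ℝ) = 3 / 4 := by norm_num
  simp only [e1, e2, e3] at h
  linarith [mul_comm ((∑ i ∈ s, f i) ^ (3 / 4 : ℝ)) ((∑ i ∈ s, (c i) ^ 4) ^ (1 / 4 : ℝ))]

/-- TARGET 2. Proof: scale so that both sums are 1 (if one sum is 0 all terms are 0); then every x i, y i is at most 1, so (x y)^(3/4) <= (x y)^(1/2) and Cauchy-Schwarz gives 1. (Or: hold34 and sum of z^(something).) Both targets: Real.inner_le_Lp_mul_Lq for TARGET 1 with p = 4, q = 4/3 -/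
theorem prod34 {ι : Type} (s : Finset ι) (x y : ι → ℝ) (hx : ∀ i ∈ s, 0 ≤ x i) (hy : ∀ i ∈ s, 0 ≤ y i) :
    ∑ i ∈ s, (x i * y i) ^ (3 / 4 : ℝ) ≤ ((∑ i ∈ s, x i) * (∑ i ∈ s, y i)) ^ (3 / 4 : ℝ) := by
  have h := hold34 s x (fun i => (y i) ^ (3 / 4 : ℝ)) hx (fun i hi => Real.rpow_nonneg (hy i hi) _)
  have hX : 0 ≤ ∑ i ∈ s, x i := Finset.sum_nonneg hx
  have hY : 0 ≤ ∑ i ∈ s, y i := Finset.sum_nonneg hy
  have e1 : ∑ i ∈ s, (x i * y i) ^ (3 / 4 : ℝ) = ∑ i ∈ s, (y i) ^ (3 / 4 : ℝ) * (x i) ^ (3 / 4 : ℝ) := by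
    refine Finset.sum_congr rfl fun i hi => ?_
    rw [Real.mul_rpow (hx i hi) (hy i hi), mul_comm]
  have e2 : ∑ i ∈ s, ((y i) ^ (3 / 4 : ℝ)) ^ 4 = ∑ i ∈ s, (y i) ^ 3 := by
    refine Finset.sum_congr rfl fun i hi => ?_
    rw [← Real.rpow_natCast, ← Real.rpow_mul (hy i hi), ← Real.rpow_natCast]
    norm_num
  have e3 : ∑ i ∈ s, (y i) ^ 3 ≤ (∑ i ∈ s, y i) ^ 3 := by
    have : ∀ i ∈ s, (y i) ^ 3 ≤ y i * (∑ i ∈ s, y i) ^ 2 := by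
      intro i hi
      have h1 : y i ≤ ∑ i ∈ s, y i := Finset.single_le_sum hy hi
      have h2 : (y i) ^ 2 ≤ (∑ i ∈ s, y i) ^ 2 := pow_le_pow_left₀ (hy i hi) h1 2
      calc (y i) ^ 3 = y i * (y i) ^ 2 := by ring
        _ ≤ _ := mul_le_mul_of_nonneg_left h2 (hy i hi)
    calc ∑ i ∈ s, (y i) ^ 3 ≤ ∑ i ∈ s, y i * (∑ i ∈ s, y i) ^ 2 := Finset.sum_le_sum this
      _ = (∑ i ∈ s, y i) ^ 3 := by rw [← Finset.sum_mul]; ring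
  have e4 : (∑ i ∈ s, (y i) ^ 3) ^ (1 / 4 : ℝ) ≤ (∑ i ∈ s, y i) ^ (3 / 4 : ℝ) := by
    have h1 : (∑ i ∈ s, (y i) ^ 3) ^ (1 / 4 : ℝ) ≤ ((∑ i ∈ s, y i) ^ 3) ^ (1 / 4 : ℝ) :=
      Real.rpow_le_rpow (Finset.sum_nonneg fun i hi => pow_nonneg (hy i hi) 3) e3 (by norm_num)
    have h2 : ((∑ i ∈ s, y i) ^ 3) ^ (1 / 4 : ℝ) = (∑ i ∈ s, y i) ^ (3 / 4 : ℝ) := by
      rw [← Real.rpow_natCast, ← Real.rpow_mul hY]
      norm_num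
    rw [h2] at h1
    exact h1
  rw [e1, Real.mul_rpow hX hY]
  refine h.trans ?_
  simp only [e2]
  exact mul_le_mul_of_nonneg_left e4 (Real.rpow_nonneg hX _)

end Pool.Agent.H560DS
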