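import Pool.Agent.H560DS.Defs
import Pool.Agent.H560DS.DS01

set_option autoImplicit false

namespace Pool.Agent.H560DS

open Finset

/-! DS02: off-diagonal sum -/

theorem offdiag_fib (n : ℕ) (x y : ℕ → ℝ) (hx : ∀ i, 0 ≤ x i) (hy : ∀ i, 0 ≤ y i)
    (s : Finset (ℕ × ℕ)) (hs : s ⊆ range n ×ˢ range n)
    (h1 : Set.InjOn Prod.fst (s : Set (ℕ × ℕ))) (h2 : Set.InjOn Prod.snd (s : Set (ℕ × ℕ))) :
    ∑ q ∈ s, (x q.1 * y q.2) ^ (3 / 4 : ℝ) ≤
      ((∑ i ∈ range n, x i) * (∑ i ∈ range n, y i)) ^ (3 / 4 : ℝ) := by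
  have hA : ∑ q ∈ s, x q.1 ≤ ∑ i ∈ range n, x i := by
    rw [← Finset.sum_image (f := x) (g := Prod.fst) h1]
    apply Finset.sum_le_sum_of_subset_of_nonneg
    · intro i hi
      obtain ⟨q, hq, rfl⟩ := Finset.mem_image.mp hi
      exact (Finset.mem_product.mp (hs hq)).1
    · intro i _ _; exact hx i
  have hB : ∑ q ∈ s, y q.2 ≤ ∑ i ∈ range n, y i := by
    rw [← Finset.sum_image (f := y) (g := Prod.snd) h2]
    apply Finset.sum_le_sum_of_subset_of_nonneg
    · intro i hi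
      obtain ⟨q, hq, rfl⟩ := Finset.mem_image.mp hi
      exact (Finset.mem_product.mp (hs hq)).2
    · intro i _ _; exact hy i
  refine (prod34 s (fun q => x q.1) (fun q => y q.2) (fun q _ => hx _) (fun q _ => hy _)).trans ?_
  apply Real.rpow_le_rpow
  · exact mul_nonneg (Finset.sum_nonneg fun q _ => hx _) (Finset.sum_nonneg fun q _ => hy _)
  · exact mul_le_mul hA hB (Finset.sum_nonneg fun q _ => hy _) (Finset.sum_nonneg fun q _ => hx _)
  · norm_num

theorem offdiag_half (t g : ℝ) (ht0 : 0 ≤ t) (ht1 : t < 1) (hg : 0 ≤ g) (n : ℕ) (x y : ℕ → ℝ)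
    (hx : ∀ i, 0 ≤ x i) (hy : ∀ i, 0 ≤ y i) :
    ∑ i ∈ range n, ∑ j ∈ range n,
      (if i < j then g * t ^ (j - i) * (x i * y j) ^ (3 / 4 : ℝ) else 0) ≤
      g * (t / (1 - t)) * ((∑ i ∈ range n, x i) * (∑ i ∈ range n, y i)) ^ (3 / 4 : ℝ) := by
  set C := ((∑ i ∈ range n, x i) * (∑ i ∈ range n, y i)) ^ (3 / 4 : ℝ) with hC
  have hC0 : 0 ≤ C := Real.rpow_nonneg
    (mul_nonneg (Finset.sum_nonneg fun q _ => hx _) (Finset.sum_nonneg fun q _ => hy _)) _
  rw [← Finset.sum_product' (s := range n) (t := range n)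
    (f := fun i j => (if i < j then g * t ^ (j - i) * (x i * y j) ^ (3 / 4 : ℝ) else 0))]
  rw [← Finset.sum_filter (s := range n ×ˢ range n) (p := fun q : ℕ × ℕ => q.1 < q.2)
    (f := fun q => g * t ^ (q.2 - q.1) * (x q.1 * y q.2) ^ (3 / 4 : ℝ))]
  rw [← Finset.sum_fiberwise_of_maps_to (s := (range n ×ˢ range n).filter (fun q : ℕ × ℕ => q.1 < q.2))
    (t := Ico 1 n) (g := fun q : ℕ × ℕ => q.2 - q.1)
    (by
      intro q hq
      rw [Finset.mem_filter, Finset.mem_product, Finset.mem_range, Finset.mem_range] at hq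
      rw [Finset.mem_Ico]; omega)]
  have hstep : ∀ k ∈ Ico 1 n, ∑ q ∈ ((range n ×ˢ range n).filter (fun q : ℕ × ℕ => q.1 < q.2)).filter
      (fun q : ℕ × ℕ => q.2 - q.1 = k), g * t ^ (q.2 - q.1) * (x q.1 * y q.2) ^ (3 / 4 : ℝ) ≤
      g * t ^ k * C := by
    intro k hk
    have e : ∑ q ∈ ((range n ×ˢ range n).filter (fun q : ℕ × ℕ => q.1 < q.2)).filter
      (fun q : ℕ × ℕ => q.2 - q.1 = k), g * t ^ (q.2 - q.1) * (x q.1 * y q.2) ^ (3 / 4 : ℝ) =
      g * t ^ k * ∑ q ∈ ((range n ×ˢ range n).filter (fun q : ℕ × ℕ => q.1 < q.2)).filter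
      (fun q : ℕ × ℕ => q.2 - q.1 = k), (x q.1 * y q.2) ^ (3 / 4 : ℝ) := by
      rw [Finset.mul_sum]
      apply Finset.sum_congr rfl
      intro q hq
      rw [(Finset.mem_filter.mp hq).2]
    rw [e]
    apply mul_le_mul_of_nonneg_left _ (mul_nonneg hg (pow_nonneg ht0 k))
    apply offdiag_fib n x y hx hy
    · exact (Finset.filter_subset _ _).trans (Finset.filter_subset _ _)
    · intro a ha b hb hab
      simp only [Finset.coe_filter, Finset.mem_filter, Finset.mem_product, Finset.mem_range,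
        Set.mem_setOf_eq] at ha hb
      apply Prod.ext hab
      omega
    · intro a ha b hb hab
      simp only [Finset.coe_filter, Finset.mem_filter, Finset.mem_product, Finset.mem_range,
        Set.mem_setOf_eq] at ha hb
      refine Prod.ext ?_ hab
      omega
  refine (Finset.sum_le_sum hstep).trans ?_
  rw [← Finset.sum_mul, ← Finset.mul_sum]
  apply mul_le_mul_of_nonneg_right _ hC0
  apply mul_le_mul_of_nonneg_left _ hg
  have h1t : 0 < 1 - t := by linarith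
  rw [le_div_iff₀ h1t]
  rcases Nat.eq_zero_or_pos n with hn | hn
  · subst hn; simpa using ht0
  · have hg2 := geom_sum_Ico_mul_neg t (m := 1) (n := n) hn
    rw [hg2]
    have := pow_nonneg ht0 n
    linarith [pow_one t]

/-- TARGET. Off-diagonal total, `t = p^(-1/4)` . Proof: group the pairs by n = |i-j| >= 1; for fixed n the
pairs (i,i+n) and (i+n,i) give each at most (X Y)^(3/4) by prod34 applied to the shifted sequence (the shifted
partial sum is at most the full sum), and the weight is g*t^n with t = p^(-1/4) < 1; sum of the geometric series.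
(p^(-n/4) = t^n.) -/
theorem offdiag (p g : ℝ) (hp : 2 ≤ p) (hg : 0 ≤ g) (n : ℕ) (x y : ℕ → ℝ) (hx : ∀ i, 0 ≤ x i) (hy : ∀ i, 0 ≤ y i) :
    ∑ i ∈ range n, ∑ j ∈ range n, (if i = j then 0 else g * p ^ (-(|(i : ℝ) - (j : ℝ)|) / 4) * (x i * y j) ^ (3 / 4 : ℝ)) ≤
      2 * g * p ^ (-(1 / 4) : ℝ) / (1 - p ^ (-(1 / 4) : ℝ)) *
        ((∑ i ∈ range n, x i) * (∑ i ∈ range n, y i)) ^ (3 / 4 : ℝ) := by
  have hp0 : 0 < p := by linarith
  set t := p ^ (-(1 / 4) : ℝ) with ht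
  have ht0 : 0 ≤ t := Real.rpow_nonneg hp0.le _
  have ht1 : t < 1 := Real.rpow_lt_one_of_one_lt_of_neg (by linarith) (by norm_num)
  have hw : ∀ i j : ℕ, i < j → p ^ (-(|(i : ℝ) - (j : ℝ)|) / 4) = t ^ (j - i) := by
    intro i j hij
    rw [ht, ← Real.rpow_natCast, ← Real.rpow_mul hp0.le]
    congr 1
    have hij' : (i : ℝ) < j := by exact_mod_cast hij
    rw [abs_of_neg (by linarith), Nat.cast_sub hij.le]
    ring
  have hw' : ∀ i j : ℕ, j < i → p ^ (-(|(i : ℝ) - (j : ℝ)|) / 4) = t ^ (i - j) := by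
    intro i j hij
    rw [abs_sub_comm]
    exact hw j i hij
  have hsplit : ∀ i j : ℕ, (if i = j then (0:ℝ) else g * p ^ (-(|(i : ℝ) - (j : ℝ)|) / 4) * (x i * y j) ^ (3 / 4 : ℝ)) =
      (if i < j then g * t ^ (j - i) * (x i * y j) ^ (3 / 4 : ℝ) else 0) +
      (if j < i then g * t ^ (i - j) * (y j * x i) ^ (3 / 4 : ℝ) else 0) := by
    intro i j
    rcases lt_trichotomy i j with h | h | h
    · rw [if_neg h.ne, if_pos h, if_neg (by omega), hw i j h, add_zero]
    · subst h; simp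
    · rw [if_neg h.ne', if_pos h, if_neg (by omega), hw' i j h, zero_add, mul_comm (y j)]
  simp_rw [hsplit, Finset.sum_add_distrib]
  have H1 := offdiag_half t g ht0 ht1 hg n x y hx hy
  have H2 := offdiag_half t g ht0 ht1 hg n y x hy hx
  rw [Finset.sum_comm] at H2
  rw [mul_comm (∑ i ∈ range n, y i)] at H2
  calc _ ≤ g * (t / (1 - t)) * ((∑ i ∈ range n, x i) * (∑ i ∈ range n, y i)) ^ (3 / 4 : ℝ) +
      g * (t / (1 - t)) * ((∑ i ∈ range n, x i) * (∑ i ∈ range n, y i)) ^ (3 / 4 : ℝ) :=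
        add_le_add H1 H2
    _ = _ := by ring

end Pool.Agent.H560DS
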