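import Pool.Agent.H560DS.Defs
import Pool.Agent.H560DS.DS01

set_option autoImplicit false

namespace Pool.Agent.H560DS

open Finset

/-! DS03: cross sums -/

theorem DS03.gen (p g C : ℝ) (hp : 2 ≤ p) (hg : 0 ≤ g) (hC : 0 ≤ C) (s : Finset ℕ) (k : ℕ)
    (x : ℕ → ℝ) (hx : ∀ i, 0 ≤ x i)
    (hs : ∑ i ∈ s, p ^ (-(|(i : ℝ) - (k : ℝ)|)) ≤ C) :
    ∑ i ∈ s, g * p ^ (-(|(i : ℝ) - (k : ℝ)|) / 4) * (x i) ^ (3 / 4 : ℝ) ≤
      g * C ^ (1 / 4 : ℝ) * (∑ i ∈ s, x i) ^ (3 / 4 : ℝ) := by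
  have hp0 : 0 < p := by linarith
  have h := hold34 s x (fun i => g * p ^ (-(|(i : ℝ) - (k : ℝ)|) / 4)) (fun i _ => hx i)
    (fun i _ => mul_nonneg hg (Real.rpow_nonneg hp0.le _))
  refine h.trans ?_
  have h4 : ∑ i ∈ s, (g * p ^ (-(|(i : ℝ) - (k : ℝ)|) / 4)) ^ 4 =
      g ^ 4 * ∑ i ∈ s, p ^ (-(|(i : ℝ) - (k : ℝ)|)) := by
    rw [Finset.mul_sum]
    refine Finset.sum_congr rfl fun i _ => ?_
    rw [mul_pow]
    congr 1
    rw [← Real.rpow_natCast, ← Real.rpow_mul hp0.le]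
    congr 1
    push_cast
    ring
  rw [h4]
  have h5 : (g ^ 4 * ∑ i ∈ s, p ^ (-(|(i : ℝ) - (k : ℝ)|))) ^ (1 / 4 : ℝ) ≤ g * C ^ (1 / 4 : ℝ) := by
    have e : (g ^ 4 * C) ^ (1 / 4 : ℝ) = g * C ^ (1 / 4 : ℝ) := by
      rw [Real.mul_rpow (by positivity) hC]
      congr 1
      rw [← Real.rpow_natCast, ← Real.rpow_mul hg]
      norm_num
    rw [← e]
    refine Real.rpow_le_rpow (mul_nonneg (by positivity) (Finset.sum_nonneg fun i _ =>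
      Real.rpow_nonneg hp0.le _)) (mul_le_mul_of_nonneg_left hs (by positivity)) (by norm_num)
  calc (∑ i ∈ s, x i) ^ (3 / 4 : ℝ) *
      (g ^ 4 * ∑ i ∈ s, p ^ (-(|(i : ℝ) - (k : ℝ)|))) ^ (1 / 4 : ℝ)
      ≤ (∑ i ∈ s, x i) ^ (3 / 4 : ℝ) * (g * C ^ (1 / 4 : ℝ)) :=
        mul_le_mul_of_nonneg_left h5 (Real.rpow_nonneg (Finset.sum_nonneg fun i _ => hx i) _)
    _ = _ := by ring

theorem DS03.geom (p : ℝ) (hp : 2 ≤ p) (m : ℕ) :
    ∑ j ∈ range m, (p⁻¹) ^ (j + 1) ≤ 1 / (p - 1) := by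
  have hp0 : 0 < p := by linarith
  have hp1 : 0 < p - 1 := by linarith
  have h : ∀ m : ℕ, ∑ j ∈ range m, (p⁻¹) ^ (j + 1) = (1 - (p⁻¹) ^ m) / (p - 1) := by
    intro m
    induction m with
    | zero => simp
    | succ m ih =>
      have hq : p * p⁻¹ = 1 := mul_inv_cancel₀ hp0.ne'
      rw [Finset.sum_range_succ, ih, eq_div_iff hp1.ne', add_mul, div_mul_cancel₀ _ hp1.ne']
      have e : (p⁻¹) ^ (m + 1) * (p - 1) = (p * p⁻¹) * (p⁻¹) ^ m - (p⁻¹) ^ (m + 1) := by ring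
      rw [e, hq]
      ring
  rw [h]
  refine div_le_div_of_nonneg_right ?_ hp1.le
  have : 0 ≤ (p⁻¹) ^ m := by positivity
  linarith

theorem DS03.below (p : ℝ) (hp : 2 ≤ p) (k : ℕ) :
    ∑ i ∈ range k, p ^ (-(|(i : ℝ) - (k : ℝ)|)) ≤ 1 / (p - 1) := by
  have hp0 : 0 < p := by linarith
  refine le_trans (le_of_eq ?_) (DS03.geom p hp k)
  rw [← Finset.sum_range_reflect]
  refine Finset.sum_congr rfl fun i hi => ?_
  rw [Finset.mem_range] at hi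
  have h1 : |((k - 1 - i : ℕ) : ℝ) - (k : ℝ)| = ((i + 1 : ℕ) : ℝ) := by
    have h2 : ((k - 1 - i : ℕ) : ℝ) + ((i + 1 : ℕ) : ℝ) = (k : ℝ) := by
      rw [← Nat.cast_add]
      congr 1
      omega
    have h3 : (0 : ℝ) ≤ ((i + 1 : ℕ) : ℝ) := Nat.cast_nonneg _
    rw [abs_sub_comm, abs_of_nonneg] <;> linarith
  rw [h1, Real.rpow_neg hp0.le, Real.rpow_natCast, inv_pow]

theorem DS03.above (p : ℝ) (hp : 2 ≤ p) (n k : ℕ) :
    ∑ i ∈ Ico (k + 1) n, p ^ (-(|(i : ℝ) - (k : ℝ)|)) ≤ 1 / (p - 1) := by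
  have hp0 : 0 < p := by linarith
  rw [Finset.sum_Ico_eq_sum_range]
  refine le_trans (le_of_eq ?_) (DS03.geom p hp (n - (k + 1)))
  refine Finset.sum_congr rfl fun i hi => ?_
  have h1 : |((k + 1 + i : ℕ) : ℝ) - (k : ℝ)| = ((i + 1 : ℕ) : ℝ) := by
    have h2 : ((k + 1 + i : ℕ) : ℝ) - (k : ℝ) = ((i + 1 : ℕ) : ℝ) := by
      push_cast
      ring
    rw [h2]
    exact abs_of_nonneg (Nat.cast_nonneg _)
  rw [h1, Real.rpow_neg hp0.le, Real.rpow_natCast, inv_pow]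

/-- TARGET 1. Cross terms with the level `k`. Proof: hold34 with c i = g*p^(-|i-k|/4); the sum of c^4 = g^4 * p^(-|i-k|) over i /= k is at most g^4 * 2 * (1/(p-1)) (two geometric series); (g^4)^(1/4) = g. -/
theorem cross_all (p g : ℝ) (hp : 2 ≤ p) (hg : 0 ≤ g) (n k : ℕ) (x : ℕ → ℝ) (hx : ∀ i, 0 ≤ x i) :
    ∑ i ∈ (range n).filter (fun i => i ≠ k), g * p ^ (-(|(i : ℝ) - (k : ℝ)|) / 4) * (x i) ^ (3 / 4 : ℝ) ≤
      g * (2 / (p - 1)) ^ (1 / 4 : ℝ) * (∑ i ∈ (range n).filter (fun i => i ≠ k), x i) ^ (3 / 4 : ℝ) := by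
  have hp0 : 0 < p := by linarith
  have hp1 : 0 < p - 1 := by linarith
  refine DS03.gen p g (2 / (p - 1)) hp hg (by positivity) _ k x hx ?_
  have hsub : (range n).filter (fun i => i ≠ k) ⊆ range k ∪ Ico (k + 1) n := by
    intro i hi
    rw [Finset.mem_filter, Finset.mem_range] at hi
    rw [Finset.mem_union, Finset.mem_range, Finset.mem_Ico]
    omega
  have hdis : Disjoint (range k) (Ico (k + 1) n) := by
    rw [Finset.disjoint_left]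
    intro i h1 h2
    rw [Finset.mem_range] at h1
    rw [Finset.mem_Ico] at h2
    omega
  calc ∑ i ∈ (range n).filter (fun i => i ≠ k), p ^ (-(|(i : ℝ) - (k : ℝ)|))
      ≤ ∑ i ∈ range k ∪ Ico (k + 1) n, p ^ (-(|(i : ℝ) - (k : ℝ)|)) :=
        Finset.sum_le_sum_of_subset_of_nonneg hsub fun i _ _ => Real.rpow_nonneg hp0.le _
    _ = ∑ i ∈ range k, p ^ (-(|(i : ℝ) - (k : ℝ)|)) +
        ∑ i ∈ Ico (k + 1) n, p ^ (-(|(i : ℝ) - (k : ℝ)|)) := Finset.sum_union hdis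
    _ ≤ 1 / (p - 1) + 1 / (p - 1) := add_le_add (DS03.below p hp k) (DS03.above p hp n k)
    _ = 2 / (p - 1) := by ring

/-- TARGET 2. The same with one geometric series. -/
theorem cross_below (p g : ℝ) (hp : 2 ≤ p) (hg : 0 ≤ g) (k : ℕ) (x : ℕ → ℝ) (hx : ∀ i, 0 ≤ x i) :
    ∑ i ∈ range k, g * p ^ (-(|(i : ℝ) - (k : ℝ)|) / 4) * (x i) ^ (3 / 4 : ℝ) ≤
      g * (1 / (p - 1)) ^ (1 / 4 : ℝ) * (∑ i ∈ range k, x i) ^ (3 / 4 : ℝ) := by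
  have hp1 : 0 < p - 1 := by linarith
  exact DS03.gen p g (1 / (p - 1)) hp hg (by positivity) _ k x hx (DS03.below p hp k)

end Pool.Agent.H560DS
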