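import Pool.Agent.H560DS.Defs
import Pool.Agent.H560DS.DS02
import Pool.Agent.H560DS.DS03

set_option autoImplicit false

namespace Pool.Agent.H560DS

open Finset

/-! DS04: the local inequality -/

lemma tfacts (p : ℝ) (hp : 2 ≤ p) : 0 < p ^ (-(1 / 4) : ℝ) ∧ (p ^ (-(1 / 4) : ℝ)) ^ 4 * p = 1 ∧
    p ^ (-(3 / 2) : ℝ) = (p ^ (-(1 / 4) : ℝ)) ^ 6 := by
  have hp0 : 0 < p := by linarith
  refine ⟨Real.rpow_pos_of_pos hp0 _, ?_, ?_⟩
  · rw [← Real.rpow_natCast, ← Real.rpow_mul hp0.le]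
    norm_num
    rw [Real.rpow_neg_one]
    field_simp
  · rw [← Real.rpow_natCast, ← Real.rpow_mul hp0.le]
    norm_num

lemma bern (u c : ℝ) (hu : u ≤ 1) (hc0 : 0 ≤ c) (hc1 : c ≤ 1) : (1 - u) ^ c ≤ 1 - c * u := by
  have h := rpow_one_add_le_one_add_mul_self (s := -u) (by linarith) hc0 hc1
  have e : 1 + -u = 1 - u := by ring
  rw [e] at h
  linarith

lemma split1 (n k : ℕ) (hk : k < n) (G : ℕ → ℝ) :
    ∑ i ∈ range n, G i = G k + ∑ i ∈ (range n).filter (fun i => i ≠ k), G i := by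
  rw [Finset.filter_ne', Finset.add_sum_erase _ _ (mem_range.2 hk)]

lemma split2 (n k : ℕ) (hk : k < n) (F : ℕ → ℕ → ℝ) :
    ∑ i ∈ range n, ∑ j ∈ range n, F i j = F k k + ∑ j ∈ (range n).filter (fun i => i ≠ k), F k j +
      ∑ i ∈ (range n).filter (fun i => i ≠ k), F i k +
      ∑ i ∈ (range n).filter (fun i => i ≠ k), ∑ j ∈ (range n).filter (fun i => i ≠ k), F i j := by
  rw [split1 n k hk, split1 n k hk (F k)]
  have : ∑ i ∈ (range n).filter (fun i => i ≠ k), ∑ j ∈ range n, F i j =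
      ∑ i ∈ (range n).filter (fun i => i ≠ k), (F i k + ∑ j ∈ (range n).filter (fun i => i ≠ k), F i j) :=
    Finset.sum_congr rfl (fun i _ => split1 n k hk (F i))
  rw [this, Finset.sum_add_distrib]
  ring

lemma splitww (p g : ℝ) (n : ℕ) (x y : ℕ → ℝ) :
    ∑ i ∈ range n, ∑ j ∈ range n, ww p g i j * (x i * y j) ^ (3 / 4 : ℝ) =
      ∑ i ∈ range n, (x i * y i) ^ (3 / 4 : ℝ) +
      ∑ i ∈ range n, ∑ j ∈ range n, (if i = j then 0 else g * p ^ (-(|(i : ℝ) - (j : ℝ)|) / 4) * (x i * y j) ^ (3 / 4 : ℝ)) := by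
  rw [← Finset.sum_add_distrib]
  refine Finset.sum_congr rfl (fun i hi => ?_)
  have : (x i * y i) ^ (3 / 4 : ℝ) = ∑ j ∈ range n, (if i = j then (x i * y j) ^ (3 / 4 : ℝ) else 0) := by
    rw [Finset.sum_ite_eq]
    simp only [hi, if_true]
  rw [this, ← Finset.sum_add_distrib]
  refine Finset.sum_congr rfl (fun j _ => ?_)
  unfold ww
  by_cases h : i = j
  · simp [h]
  · simp [h]

lemma total (p g : ℝ) (hp : 2 ≤ p) (hg : 0 ≤ g) (n : ℕ) (x y : ℕ → ℝ) (hx : ∀ i, 0 ≤ x i) (hy : ∀ i, 0 ≤ y i) :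
    ∑ i ∈ range n, ∑ j ∈ range n, ww p g i j * (x i * y j) ^ (3 / 4 : ℝ) ≤
      (1 + 2 * g * p ^ (-(1 / 4) : ℝ) / (1 - p ^ (-(1 / 4) : ℝ))) *
        ((∑ i ∈ range n, x i) * (∑ i ∈ range n, y i)) ^ (3 / 4 : ℝ) := by
  rw [splitww]
  have h1 := prod34 (range n) x y (fun i _ => hx i) (fun i _ => hy i)
  have h2 := offdiag p g hp hg n x y hx hy
  linarith

/-- the part off the level `k` -/
lemma rest (p g : ℝ) (hp : 2 ≤ p) (hg : 0 ≤ g) (n k : ℕ) (x y : ℕ → ℝ) (hx : ∀ i, 0 ≤ x i) (hy : ∀ i, 0 ≤ y i) :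
    ∑ i ∈ (range n).filter (fun i => i ≠ k), ∑ j ∈ (range n).filter (fun i => i ≠ k), ww p g i j * (x i * y j) ^ (3 / 4 : ℝ) ≤
      (1 + 2 * g * p ^ (-(1 / 4) : ℝ) / (1 - p ^ (-(1 / 4) : ℝ))) *
        ((∑ i ∈ (range n).filter (fun i => i ≠ k), x i) * (∑ i ∈ (range n).filter (fun i => i ≠ k), y i)) ^ (3 / 4 : ℝ) := by
  have h := total p g hp hg n (fun i => if i ≠ k then x i else 0) (fun i => if i ≠ k then y i else 0)
    (fun i => by split_ifs <;> simp [hx]) (fun i => by split_ifs <;> simp [hy])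
  rw [Finset.sum_filter, Finset.sum_filter, Finset.sum_filter]
  refine le_trans (le_of_eq ?_) h
  refine Finset.sum_congr rfl (fun i _ => ?_)
  by_cases hi : i = k
  · simp only [hi, ne_eq, not_true_eq_false, if_false, zero_mul]
    symm
    apply Finset.sum_eq_zero
    intro j _
    rw [Real.zero_rpow (by norm_num), mul_zero]
  · simp only [hi, ne_eq, not_false_eq_true, if_true]
    rw [Finset.sum_filter]
    refine Finset.sum_congr rfl (fun j _ => ?_)
    by_cases hj : j = k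
    · simp only [hj, not_true_eq_false, if_false, mul_zero]
      rw [Real.zero_rpow (by norm_num), mul_zero]
    · simp only [hj, not_false_eq_true, if_true]

/-- cross terms, all -/
lemma crossA (p g : ℝ) (hp : 2 ≤ p) (hg : 0 ≤ g) (n k : ℕ) (x : ℕ → ℝ) (b : ℝ) (hb0 : 0 ≤ b) (hb : b ≤ 1) (hx : ∀ i, 0 ≤ x i) :
    ∑ i ∈ (range n).filter (fun i => i ≠ k), ww p g i k * (x i * b) ^ (3 / 4 : ℝ) ≤
      g * (2 / (p - 1)) ^ (1 / 4 : ℝ) * (∑ i ∈ (range n).filter (fun i => i ≠ k), x i) ^ (3 / 4 : ℝ) := by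
  refine le_trans (Finset.sum_le_sum (fun i hi => ?_)) (cross_all p g hp hg n k x hx)
  have hik : i ≠ k := (Finset.mem_filter.1 hi).2
  unfold ww
  rw [if_neg hik]
  have hpp : 0 ≤ p ^ (-(|(i : ℝ) - (k : ℝ)|) / 4) := Real.rpow_nonneg (by linarith) _
  refine mul_le_mul_of_nonneg_left ?_ (mul_nonneg hg hpp)
  exact Real.rpow_le_rpow (mul_nonneg (hx i) hb0) (mul_le_of_le_one_right (hx i) hb) (by norm_num)

lemma ww_comm (p g : ℝ) (i j : ℕ) : ww p g i j = ww p g j i := by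
  unfold ww
  by_cases h : i = j
  · simp [h]
  · rw [if_neg h, if_neg (Ne.symm h), abs_sub_comm]

/-- cross terms, below -/
lemma crossB (p g : ℝ) (hp : 2 ≤ p) (hg : 0 ≤ g) (n k : ℕ) (hk : k < n) (x : ℕ → ℝ) (b : ℝ) (hb0 : 0 ≤ b) (hb : b ≤ 1) (hx : ∀ i, 0 ≤ x i) :
    ∑ i ∈ (range n).filter (fun i => i ≠ k), (if min i k = k then 0 else ww p g i k * (x i * b) ^ (3 / 4 : ℝ)) ≤
      g * (1 / (p - 1)) ^ (1 / 4 : ℝ) * (∑ i ∈ range k, x i) ^ (3 / 4 : ℝ) := by
  have hsub : range k ⊆ (range n).filter (fun i => i ≠ k) := by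
    intro i hi
    rw [Finset.mem_filter, mem_range]
    have := mem_range.1 hi
    exact ⟨by omega, by omega⟩
  rw [← Finset.sum_subset hsub]
  · refine le_trans (Finset.sum_le_sum (fun i hi => ?_)) (cross_below p g hp hg k x hx)
    have hik : i < k := mem_range.1 hi
    have hne : i ≠ k := by omega
    rw [if_neg (by omega)]
    unfold ww
    rw [if_neg hne]
    have hpp : 0 ≤ p ^ (-(|(i : ℝ) - (k : ℝ)|) / 4) := Real.rpow_nonneg (by linarith) _
    refine mul_le_mul_of_nonneg_left ?_ (mul_nonneg hg hpp)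
    exact Real.rpow_le_rpow (mul_nonneg (hx i) hb0) (mul_le_of_le_one_right (hx i) hb) (by norm_num)
  · intro i _ hi
    rw [mem_range] at hi
    rw [if_pos (by omega)]

lemma young (g q s : ℝ) (hg : 0 ≤ g) (hq : 0 ≤ q) (hs : 0 ≤ s) :
    g * q ^ (1 / 4 : ℝ) * s ^ (3 / 4 : ℝ) ≤ 3 / 4 * s + 1 / 4 * (g ^ 4 * q) := by
  have h := Real.geom_mean_le_arith_mean2_weighted (w₁ := 3 / 4) (w₂ := 1 / 4) (by norm_num) (by norm_num) hs
    (mul_nonneg (pow_nonneg hg 4) hq) (by norm_num)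
  have e : (g ^ 4 * q) ^ (1 / 4 : ℝ) = g * q ^ (1 / 4 : ℝ) := by
    rw [Real.mul_rpow (pow_nonneg hg 4) hq, ← Real.rpow_natCast, ← Real.rpow_mul hg]
    norm_num
  rw [e] at h
  linarith

lemma diag_small (n : ℕ) (x y : ℕ → ℝ) (hx : ∀ i, 0 ≤ x i) (hy : ∀ i, 0 ≤ y i)
    (hsx : ∑ i ∈ range n, x i = 1) (hsy : ∑ i ∈ range n, y i = 1) (u : ℝ) (hu : u ≤ 1)
    (h : ∀ i < n, x i * y i ≤ 1 - u) :
    ∑ i ∈ range n, (x i * y i) ^ (3 / 4 : ℝ) ≤ 1 - 1 / 4 * u := by
  have h1 : ∀ i ∈ range n, (x i * y i) ^ (3 / 4 : ℝ) ≤ (1 - u) ^ (1 / 4 : ℝ) * ((x i + y i) / 2) := by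
    intro i hi
    have hn : 0 ≤ x i * y i := mul_nonneg (hx i) (hy i)
    have e : (x i * y i) ^ (3 / 4 : ℝ) = (x i * y i) ^ (1 / 4 : ℝ) * (x i * y i) ^ (1 / 2 : ℝ) := by
      rw [← Real.rpow_add_of_nonneg hn (by norm_num) (by norm_num)]
      norm_num
    rw [e]
    have h2 : (x i * y i) ^ (1 / 4 : ℝ) ≤ (1 - u) ^ (1 / 4 : ℝ) :=
      Real.rpow_le_rpow hn (h i (mem_range.1 hi)) (by norm_num)
    have h3 : (x i * y i) ^ (1 / 2 : ℝ) ≤ (x i + y i) / 2 := by
      rw [← Real.sqrt_eq_rpow]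
      apply Real.sqrt_le_iff.2
      refine ⟨by linarith [hx i, hy i], by nlinarith [sq_nonneg (x i - y i)]⟩
    exact mul_le_mul h2 h3 (Real.rpow_nonneg hn _) (Real.rpow_nonneg (by linarith) _)
  have h4 := Finset.sum_le_sum h1
  rw [← Finset.mul_sum, ← Finset.sum_div, Finset.sum_add_distrib, hsx, hsy] at h4
  have h5 := bern u (1 / 4) hu (by norm_num) (by norm_num)
  linarith

lemma cross_small (B p g s S : ℝ) (hp : 2 ≤ p) (hg : 1 ≤ g) (hgB : g ≤ B) (hs : 0 ≤ s) (hsS : s ≤ S)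
    (hS : 4 * (16 * B / 3) ^ 4 / p ≤ S) :
    g * (2 / (p - 1)) ^ (1 / 4 : ℝ) * s ^ (3 / 4 : ℝ) ≤ 3 / 16 * S := by
  have hg0 : 0 ≤ g := by linarith
  have hS0 : 0 ≤ S := le_trans hs hsS
  have hp1 : 0 < p - 1 := by linarith
  have hp0 : 0 < p := by linarith
  have e1 : (g ^ 4 * (2 / (p - 1))) ^ (1 / 4 : ℝ) = g * (2 / (p - 1)) ^ (1 / 4 : ℝ) := by
    rw [Real.mul_rpow (pow_nonneg hg0 4) (by positivity), ← Real.rpow_natCast, ← Real.rpow_mul hg0]
    norm_num
  have e2 : ((3 / 16 : ℝ) ^ 4 * S) ^ (1 / 4 : ℝ) = 3 / 16 * S ^ (1 / 4 : ℝ) := by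
    rw [Real.mul_rpow (by positivity) hS0, ← Real.rpow_natCast, ← Real.rpow_mul (by norm_num)]
    norm_num
  have hg4 : g ^ 4 ≤ B ^ 4 := pow_le_pow_left₀ hg0 hgB 4
  have h1 : g ^ 4 * (2 / (p - 1)) ≤ (3 / 16 : ℝ) ^ 4 * S := by
    have a1 : g ^ 4 * (2 / (p - 1)) ≤ B ^ 4 * (4 / p) := by
      have : 2 / (p - 1) ≤ 4 / p := by
        rw [div_le_div_iff₀ hp1 hp0]
        linarith
      exact mul_le_mul hg4 this (by positivity) (by positivity)
    have a2 : B ^ 4 * (4 / p) = (3 / 16 : ℝ) ^ 4 * (4 * (16 * B / 3) ^ 4 / p) := by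
      field_simp
    rw [a2] at a1
    exact le_trans a1 (mul_le_mul_of_nonneg_left hS (by positivity))
  have h2 : g * (2 / (p - 1)) ^ (1 / 4 : ℝ) ≤ 3 / 16 * S ^ (1 / 4 : ℝ) := by
    rw [← e1, ← e2]
    exact Real.rpow_le_rpow (by positivity) h1 (by norm_num)
  have h3 : s ^ (3 / 4 : ℝ) ≤ S ^ (3 / 4 : ℝ) := Real.rpow_le_rpow hs hsS (by norm_num)
  have h4 : S ^ (1 / 4 : ℝ) * S ^ (3 / 4 : ℝ) = S := by
    rw [← Real.rpow_add_of_nonneg hS0 (by norm_num) (by norm_num)]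
    norm_num
  calc g * (2 / (p - 1)) ^ (1 / 4 : ℝ) * s ^ (3 / 4 : ℝ) ≤ (3 / 16 * S ^ (1 / 4 : ℝ)) * S ^ (3 / 4 : ℝ) :=
        mul_le_mul h2 h3 (Real.rpow_nonneg hs _) (by positivity)
    _ = 3 / 16 * (S ^ (1 / 4 : ℝ) * S ^ (3 / 4 : ℝ)) := by ring
    _ = 3 / 16 * S := by rw [h4]

lemma quad_small (a S : ℝ) (ha : 0 ≤ a) (hS0 : 0 ≤ S) (haS : a ≤ S * S) (hS : S ≤ (3 / 16) ^ 2) :
    a ^ (3 / 4 : ℝ) ≤ 3 / 16 * S := by
  have h1 : a ^ (3 / 4 : ℝ) ≤ (S * S) ^ (3 / 4 : ℝ) := Real.rpow_le_rpow ha haS (by norm_num)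
  have h2 : (S * S) ^ (3 / 4 : ℝ) = S * Real.sqrt S := by
    rw [Real.sqrt_eq_rpow, ← sq, ← Real.rpow_natCast, ← Real.rpow_mul hS0]
    nth_rewrite 2 [← Real.rpow_one S]
    rw [← Real.rpow_add_of_nonneg hS0 (by norm_num) (by norm_num)]
    norm_num
  have h3 : Real.sqrt S ≤ 3 / 16 := Real.sqrt_le_iff.2 ⟨by norm_num, hS⟩
  rw [h2] at h1
  nlinarith

lemma fin_ineq (g r q a b k t6 : ℝ) (hg : 1 ≤ g) (hr0 : 0 ≤ r) (hq2 : q ≤ 2 * r) (hqr : q - r ≤ 2 * r ^ 2)
    (ha0 : 0 ≤ a) (hb0 : 0 ≤ b) (hk : 0 ≤ k) (ha : a ≤ k * r) (hb : b ≤ k * r) (ht : r ^ 2 ≤ t6) :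
    (1 - 1 / 2 * r) * ((1 - 3 / 4 * a) * (1 - 3 / 4 * b)) + (3 / 4 * a + 1 / 4 * (g ^ 4 * q)) +
      (3 / 4 * b + 1 / 4 * (g ^ 4 * q)) ≤ 1 + (g ^ 4 - 1) * r + (3 / 4 * k + 9 / 16 * k ^ 2 + 1) * t6 := by
  have hg4 : 1 ≤ g ^ 4 := one_le_pow₀ hg
  have h1 : (g ^ 4 - 1) * q ≤ (g ^ 4 - 1) * (2 * r) := mul_le_mul_of_nonneg_left hq2 (by linarith)
  have h2 : a * b ≤ (k * r) * (k * r) := mul_le_mul ha hb hb0 (by positivity)
  have h3 : r * a ≤ r * (k * r) := mul_le_mul_of_nonneg_left ha hr0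
  have h4 : r * b ≤ r * (k * r) := mul_le_mul_of_nonneg_left hb hr0
  have h5 : 0 ≤ r * (a * b) := mul_nonneg hr0 (mul_nonneg ha0 hb0)
  have h6 : (3 / 4 * k + 9 / 16 * k ^ 2 + 1) * r ^ 2 ≤ (3 / 4 * k + 9 / 16 * k ^ 2 + 1) * t6 :=
    mul_le_mul_of_nonneg_left ht (by positivity)
  have e : (1 - 1 / 2 * r) * ((1 - 3 / 4 * a) * (1 - 3 / 4 * b)) + (3 / 4 * a + 1 / 4 * (g ^ 4 * q)) +
      (3 / 4 * b + 1 / 4 * (g ^ 4 * q)) = 1 + 9 / 16 * (a * b) + 3 / 8 * (r * a) + 3 / 8 * (r * b) - 9 / 32 * (r * (a * b))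
        + 1 / 2 * ((g ^ 4 - 1) * q) + 1 / 2 * (q - r) := by ring
  have e2 : (3 / 4 * k + 9 / 16 * k ^ 2 + 1) * r ^ 2 = 9 / 16 * ((k * r) * (k * r)) + 3 / 8 * (r * (k * r)) + 3 / 8 * (r * (k * r)) + r ^ 2 := by
    ring
  rw [e]
  linarith

/-- TARGET (the local inequality). Proof. Put t = p^(-1/4). Call L_inf the first sum, L_k the second expression.
Off-diagonal part of any such double sum is at most 2 g t/(1-t) times (sum x * sum y)^(3/4) (offdiag; apply it also to the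
sequences with the value at k replaced by 0), diagonal part at most (sum x * sum y)^(3/4) (prod34).
Choose a threshold P0 = P0(B) such that for p >= P0: 2 B t/(1-t) <= 4 B t (t <= 1/2), 16 B t <= (3/16)^2, 16 B t <= 1/2, 4 B t <= 1.
If p < P0: L_inf <= 1 + 2 g t/(1-t) <= 1 + 11 B (t <= 2^(-1/4) < 0.841) and K >= 11 B * P0^(3/2) suffices.
Let p >= P0.
(B2) If x i * y i <= 1 - 16 g t for all i < n: the diagonal part is at most (1-16 g t)^(1/4) * sum (x_i y_i)^(1/2)
  <= (1 - 16 g t)^(1/4) <= 1 - 4 g t (Bernoulli), so L_inf <= 1 - 4 g t + 4 g t = 1.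
Otherwise fix k < n with x k * y k > 1 - 16 g t; then x k, y k > 1 - 16 g t (all values are <= 1). Let s = 1 - x k, s' = 1 - y k
  (the sums of the other values), S = max s s' < 16 g t. Pairs with i /= k and j /= k contribute at most
  (1 + 2 g t/(1-t)) (s s')^(3/4) <= 2 (s s')^(3/4); the pairs (k,j), j /= k, at most g (2/(p-1))^(1/4) s'^(3/4) (cross_all, x k <= 1);
  the pairs (i,k) at most g (2/(p-1))^(1/4) s^(3/4).
(B1) If S >= kappa/p with kappa = 4 (16 B/3)^4: (x k y k)^(3/4) <= (1-S)^(3/4) <= 1 - 3S/4, and 2 g (2/(p-1))^(1/4) S^(3/4) <= 3S/8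
  (because (2/(p-1)) <= 4/p), 2 S^(3/2) <= 3S/8 (because S <= (3/16)^2). So L_inf <= 1.
(A) If S < kappa/p use L_k. k = 0: the first term is 1, the rest are pairs with i,j >= 1: at most 2 (s s')^(3/4) <= 2 (kappa/p)^(3/2).
  k >= 1: let sg = sum_{i<k} x i, sg' = sum_{i<k} y i (<= s, s'). First term = (1-1/p)^(1/2) ((1-sg)(1-sg'))^(3/4)
  <= (1 - 1/(2p)) (1 - 3sg/4)(1 - 3sg'/4). Pairs with min i j /= k and exactly one of i,j equal to k: the other one is < k; by cross_below at most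
  g (1/(p-1))^(1/4) (sg^(3/4) + sg'^(3/4)), and by Young g sg^(3/4) (1/(p-1))^(1/4) <= (3/4) sg + (1/4) g^4/(p-1). The other pairs: at most
  2 (s s')^(3/4) <= 2 (kappa/p)^(3/2). Sum: 1 - 1/(2p) + g^4/(2(p-1)) + (3/8)(sg+sg')/p + (9/16) sg sg' + 2 (kappa/p)^(3/2)
  <= 1 + (g^4-1)/p + K p^(-3/2) (g^4/(2(p-1)) - 1/(2p) = (g^4-1)/(2(p-1)) + 1/(2p(p-1)), and 1/(2(p-1)) <= 1/p; p^(-2) <= p^(-3/2)). -/
theorem loc (B : ℝ) (hB : 1 ≤ B) : ∃ K : ℝ, 0 ≤ K ∧ ∀ (p g : ℝ) (n : ℕ) (x y : ℕ → ℝ), 2 ≤ p → 1 ≤ g → g ≤ B →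
    (∀ i, 0 ≤ x i) → (∀ i, 0 ≤ y i) → ∑ i ∈ range n, x i = 1 → ∑ i ∈ range n, y i = 1 →
    (∑ i ∈ range n, ∑ j ∈ range n, ww p g i j * (x i * y j) ^ (3 / 4 : ℝ) ≤
        1 + (g ^ 4 - 1) / p + K * p ^ (-(3 / 2) : ℝ)) ∨
    (∃ k < n, (if k = 0 then 1 else (1 - 1 / p) ^ (1 / 2 : ℝ)) *
        ((∑ i ∈ (range n).filter (fun i => k ≤ i), x i) * (∑ i ∈ (range n).filter (fun i => k ≤ i), y i)) ^ (3 / 4 : ℝ) +
        ∑ i ∈ range n, ∑ j ∈ range n, (if min i j = k then 0 else ww p g i j * (x i * y j) ^ (3 / 4 : ℝ)) ≤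
        1 + (g ^ 4 - 1) / p + K * p ^ (-(3 / 2) : ℝ)) := by
  have hB0 : 0 < B := by linarith
  set κ : ℝ := 4 * (16 * B / 3) ^ 4 with hκ
  have hκ0 : 0 ≤ κ := by positivity
  refine ⟨11 * B * (512 * B) ^ 6 + (2 * (κ ^ 2) ^ (3 / 4 : ℝ) + (3 / 4 * κ + 9 / 16 * κ ^ 2 + 1)), by positivity, ?_⟩
  intro p g n x y hp hg hgB hx hy hsx hsy
  obtain ⟨ht0, ht4, ht6⟩ := tfacts p hp
  have hp0 : 0 < p := by linarith
  have hg0 : 0 ≤ g := by linarith
  have hg4 : 1 ≤ g ^ 4 := one_le_pow₀ hg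
  rw [ht6]
  have htot := total p g hp hg0 n x y hx hy
  have hoff := offdiag p g hp hg0 n x y hx hy
  rw [hsx, hsy, mul_one, Real.one_rpow, mul_one] at htot hoff
  generalize hte : p ^ (-(1 / 4) : ℝ) = t at *
  have hrr : 1 / p = t ^ 4 := by
    rw [eq_comm, eq_div_iff hp0.ne']
    exact ht4
  have hdiv : (g ^ 4 - 1) / p = (g ^ 4 - 1) * t ^ 4 := by
    rw [← hrr]; ring
  rw [hdiv]
  have ht4h : t ^ 4 ≤ 1 / 2 := by
    rw [← hrr]
    exact one_div_le_one_div_of_le (by norm_num) hp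
  have ht841 : t ≤ 0.841 := by
    by_contra hcon
    push Not at hcon
    have : (0.841 : ℝ) ^ 4 < t ^ 4 := pow_lt_pow_left₀ hcon (by norm_num) (by norm_num)
    norm_num at this
    linarith
  have ht1 : 0 < 1 - t := by linarith
  have hQ0 : 0 ≤ (3 / 4 * κ + 9 / 16 * κ ^ 2 + 1) * t ^ 6 := by positivity
  have hP0 : 0 ≤ (2 * (κ ^ 2) ^ (3 / 4 : ℝ)) * t ^ 6 := by positivity
  have hR0 : 0 ≤ (11 * B * (512 * B) ^ 6) * t ^ 6 := by positivity
  have hgr : 0 ≤ (g ^ 4 - 1) * t ^ 4 := mul_nonneg (by linarith) (by positivity)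
  have hKexp : (11 * B * (512 * B) ^ 6 + (2 * (κ ^ 2) ^ (3 / 4 : ℝ) + (3 / 4 * κ + 9 / 16 * κ ^ 2 + 1))) * t ^ 6 =
      (11 * B * (512 * B) ^ 6) * t ^ 6 + ((2 * (κ ^ 2) ^ (3 / 4 : ℝ)) * t ^ 6 + (3 / 4 * κ + 9 / 16 * κ ^ 2 + 1) * t ^ 6) := by ring
  rw [hKexp]
  by_cases hT : 1 ≤ 512 * B * t
  · -- small p
    left
    have h1 : 1 ≤ (512 * B * t) ^ 6 := one_le_pow₀ hT
    have h2 : (11 * B * (512 * B) ^ 6) * t ^ 6 = 11 * B * (512 * B * t) ^ 6 := by ring
    have h3 : 11 * B * 1 ≤ 11 * B * (512 * B * t) ^ 6 := mul_le_mul_of_nonneg_left h1 (by positivity)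
    have h4 : 2 * g * t / (1 - t) ≤ 11 * B := by
      rw [div_le_iff₀ ht1]
      have e1 : g * t ≤ B * 0.841 := mul_le_mul hgB ht841 ht0.le hB0.le
      have e2 : B * t ≤ B * 0.841 := mul_le_mul_of_nonneg_left ht841 hB0.le
      norm_num at e1 e2
      linarith only [e1, e2, hB0]
    linarith only [h4, h2, h3, htot, hgr, hP0, hQ0]
  · push Not at hT
    have hBt : 0 < B * t := by positivity
    have hgt : g * t ≤ B * t := mul_le_mul_of_nonneg_right hgB ht0.le
    have hgt0 : 0 < g * t := mul_pos (by linarith) ht0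
    have htt : t ≤ 1 / 512 := by
      have := le_mul_of_one_le_left ht0.le hB
      linarith
    have hgtt : (g * t) * t ≤ (g * t) * (1 / 512) := mul_le_mul_of_nonneg_left htt hgt0.le
    have hq : 2 * g * t / (1 - t) ≤ 4 * (g * t) := by
      rw [div_le_iff₀ ht1]
      linarith only [hgtt, hgt0]
    have hC2 : 1 + 2 * g * t / (1 - t) ≤ 2 := by linarith
    have hC0 : 0 ≤ 1 + 2 * g * t / (1 - t) := by positivity
    by_cases hall : ∀ i < n, x i * y i ≤ 1 - 16 * (g * t)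
    · left
      have h1 := diag_small n x y hx hy hsx hsy (16 * (g * t)) (by linarith) hall
      rw [splitww]
      linarith only [h1, hoff, hq, hgr, hP0, hQ0, hR0]
    · push Not at hall
      obtain ⟨k, hk, hxyk⟩ := hall
      have hxk := split1 n k hk x
      have hyk := split1 n k hk y
      rw [hsx] at hxk
      rw [hsy] at hyk
      have hrest := rest p g hp hg0 n k x y hx hy
      rw [hte] at hrest
      have hcx := crossA p g hp hg0 n k x (y k) (hy k)
      have hcy := crossA p g hp hg0 n k y (x k) (hx k)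
      have hs0 : 0 ≤ ∑ i ∈ (range n).filter (fun i => i ≠ k), x i := Finset.sum_nonneg (fun i _ => hx i)
      have hs0' : 0 ≤ ∑ i ∈ (range n).filter (fun i => i ≠ k), y i := Finset.sum_nonneg (fun i _ => hy i)
      have hsgx : ∑ i ∈ range k, x i ≤ ∑ i ∈ (range n).filter (fun i => i ≠ k), x i := by
        apply Finset.sum_le_sum_of_subset_of_nonneg
        · intro i hi
          rw [Finset.mem_filter, mem_range]
          have := mem_range.1 hi
          exact ⟨by omega, by omega⟩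
        · intro i _ _
          exact hx i
      have hsgy : ∑ i ∈ range k, y i ≤ ∑ i ∈ (range n).filter (fun i => i ≠ k), y i := by
        apply Finset.sum_le_sum_of_subset_of_nonneg
        · intro i hi
          rw [Finset.mem_filter, mem_range]
          have := mem_range.1 hi
          exact ⟨by omega, by omega⟩
        · intro i _ _
          exact hy i
      generalize hse : ∑ i ∈ (range n).filter (fun i => i ≠ k), x i = s at *
      generalize hse' : ∑ i ∈ (range n).filter (fun i => i ≠ k), y i = s' at *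
      have hxk1 : x k ≤ 1 := by linarith
      have hyk1 : y k ≤ 1 := by linarith
      have hxy1 : x k * y k ≤ x k := mul_le_of_le_one_right (hx k) hyk1
      have hxy2 : x k * y k ≤ y k := mul_le_of_le_one_left (hy k) hxk1
      have hS1 : max s s' ≤ 16 * (g * t) := max_le (by linarith) (by linarith)
      have hsS : s ≤ max s s' := le_max_left _ _
      have hsS' : s' ≤ max s s' := le_max_right _ _
      have hS0 : 0 ≤ max s s' := le_trans hs0 hsS
      have hxyS : x k * y k ≤ 1 - max s s' := by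
        rcases max_choice s s' with h | h <;> rw [h] <;> linarith
      generalize max s s' = S at *
      have hss : s * s' ≤ S * S := mul_le_mul hsS hsS' hs0' hS0
      by_cases hS : κ / p ≤ S
      · left
        rw [split2 n k hk]
        have e1 : ww p g k k * (x k * y k) ^ (3 / 4 : ℝ) = (x k * y k) ^ (3 / 4 : ℝ) := by
          unfold ww; simp
        have e2 : ∑ j ∈ (range n).filter (fun i => i ≠ k), ww p g k j * (x k * y j) ^ (3 / 4 : ℝ) =
            ∑ j ∈ (range n).filter (fun i => i ≠ k), ww p g j k * (y j * x k) ^ (3 / 4 : ℝ) :=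
          Finset.sum_congr rfl (fun j _ => by rw [ww_comm, mul_comm (x k)])
        rw [e1, e2]
        have h1 : (x k * y k) ^ (3 / 4 : ℝ) ≤ 1 - 3 / 4 * S :=
          le_trans (Real.rpow_le_rpow (mul_nonneg (hx k) (hy k)) hxyS (by norm_num))
            (bern S (3 / 4) (by linarith) (by norm_num) (by norm_num))
        have h2 := cross_small B p g s S hp hg hgB hs0 hsS hS
        have h3 := cross_small B p g s' S hp hg hgB hs0' hsS' hS
        have h4 := quad_small (s * s') S (mul_nonneg hs0 hs0') hS0 hss (by norm_num; linarith)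
        have h5 : (1 + 2 * g * t / (1 - t)) * (s * s') ^ (3 / 4 : ℝ) ≤ 2 * (3 / 16 * S) :=
          mul_le_mul hC2 h4 (Real.rpow_nonneg (mul_nonneg hs0 hs0') _) (by norm_num)
        have h6 := hcx hyk1 hx
        have h7 := hcy hxk1 hy
        linarith only [h1, h2, h3, h5, h6, h7, hrest, hgr, hP0, hQ0, hR0]
      · push Not at hS
        right
        refine ⟨k, hk, ?_⟩
        have hkp : κ / p = κ * t ^ 4 := by rw [← hrr]; ring
        rw [hkp] at hS
        rw [split2 n k hk]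
        have e1 : (if min k k = k then 0 else ww p g k k * (x k * y k) ^ (3 / 4 : ℝ)) = (0 : ℝ) := by simp
        have e2 : ∑ j ∈ (range n).filter (fun i => i ≠ k), (if min k j = k then 0 else ww p g k j * (x k * y j) ^ (3 / 4 : ℝ)) =
            ∑ j ∈ (range n).filter (fun i => i ≠ k), (if min j k = k then 0 else ww p g j k * (y j * x k) ^ (3 / 4 : ℝ)) :=
          Finset.sum_congr rfl (fun j _ => by rw [ww_comm, mul_comm (x k), min_comm])
        have e3 : ∑ i ∈ (range n).filter (fun i => i ≠ k), ∑ j ∈ (range n).filter (fun i => i ≠ k),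
            (if min i j = k then 0 else ww p g i j * (x i * y j) ^ (3 / 4 : ℝ)) =
            ∑ i ∈ (range n).filter (fun i => i ≠ k), ∑ j ∈ (range n).filter (fun i => i ≠ k),
              ww p g i j * (x i * y j) ^ (3 / 4 : ℝ) := by
          refine Finset.sum_congr rfl (fun i hi => Finset.sum_congr rfl (fun j hj => ?_))
          have hi' := (Finset.mem_filter.1 hi).2
          have hj' := (Finset.mem_filter.1 hj).2
          rw [if_neg (by omega)]
        rw [e1, e2, e3, zero_add]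
        have h6 := crossB p g hp hg0 n k hk x (y k) (hy k) hyk1 hx
        have h7 := crossB p g hp hg0 n k hk y (x k) (hx k) hxk1 hy
        have h8 : (1 + 2 * g * t / (1 - t)) * (s * s') ^ (3 / 4 : ℝ) ≤ (2 * (κ ^ 2) ^ (3 / 4 : ℝ)) * t ^ 6 := by
          have a1 : s * s' ≤ κ ^ 2 * t ^ 8 := by
            refine le_trans hss ?_
            have := mul_le_mul hS.le hS.le hS0 (by positivity)
            refine le_trans this (le_of_eq (by ring))
          have a2 : (s * s') ^ (3 / 4 : ℝ) ≤ (κ ^ 2) ^ (3 / 4 : ℝ) * t ^ 6 := by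
            refine le_trans (Real.rpow_le_rpow (mul_nonneg hs0 hs0') a1 (by norm_num)) (le_of_eq ?_)
            rw [Real.mul_rpow (by positivity) (by positivity)]
            congr 1
            rw [← Real.rpow_natCast, ← Real.rpow_mul ht0.le, ← Real.rpow_natCast t 6]
            norm_num
          refine le_trans (mul_le_mul hC2 a2 (Real.rpow_nonneg (mul_nonneg hs0 hs0') _) (by norm_num)) (le_of_eq (by ring))
        have hfx : ∑ i ∈ (range n).filter (fun i => k ≤ i), x i = 1 - ∑ i ∈ range k, x i := by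
          have := Finset.sum_filter_add_sum_filter_not (range n) (fun i => k ≤ i) x
          have e : (range n).filter (fun i => ¬ k ≤ i) = range k := by
            ext i
            simp only [Finset.mem_filter, mem_range]
            omega
          rw [e, hsx] at this
          linarith
        have hfy : ∑ i ∈ (range n).filter (fun i => k ≤ i), y i = 1 - ∑ i ∈ range k, y i := by
          have := Finset.sum_filter_add_sum_filter_not (range n) (fun i => k ≤ i) y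
          have e : (range n).filter (fun i => ¬ k ≤ i) = range k := by
            ext i
            simp only [Finset.mem_filter, mem_range]
            omega
          rw [e, hsy] at this
          linarith
        rw [hfx, hfy]
        by_cases hk0 : k = 0
        · subst hk0
          simp only [Finset.range_zero, Finset.sum_empty, if_true, sub_zero, mul_one, Real.one_rpow] at h6 h7 ⊢
          rw [Real.zero_rpow (by norm_num), mul_zero] at h6 h7
          linarith only [h6, h7, h8, hrest, hgr, hQ0, hR0]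
        · rw [if_neg hk0]
          have ha0 : 0 ≤ ∑ i ∈ range k, x i := Finset.sum_nonneg (fun i _ => hx i)
          have hb0 : 0 ≤ ∑ i ∈ range k, y i := Finset.sum_nonneg (fun i _ => hy i)
          generalize ∑ i ∈ range k, x i = a at *
          generalize ∑ i ∈ range k, y i = b at *
          have hp1 : 0 < p - 1 := by linarith
          have hq0 : 0 ≤ 1 / (p - 1) := by positivity
          have y1 := young g (1 / (p - 1)) a hg0 hq0 ha0
          have y2 := young g (1 / (p - 1)) b hg0 hq0 hb0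
          have b1 : (1 - 1 / p) ^ (1 / 2 : ℝ) ≤ 1 - 1 / 2 * t ^ 4 := by
            rw [hrr]
            exact bern (t ^ 4) (1 / 2) (by linarith only [ht4h]) (by norm_num) (by norm_num)
          have ha1 : a ≤ 1 := by linarith only [hsgx, hxk, hx k]
          have hb1 : b ≤ 1 := by linarith only [hsgy, hyk, hy k]
          have b2 : ((1 - a) * (1 - b)) ^ (3 / 4 : ℝ) ≤ (1 - 3 / 4 * a) * (1 - 3 / 4 * b) := by
            rw [Real.mul_rpow (by linarith only [ha1]) (by linarith only [hb1])]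
            exact mul_le_mul (bern a (3 / 4) ha1 (by norm_num) (by norm_num)) (bern b (3 / 4) hb1 (by norm_num) (by norm_num))
              (Real.rpow_nonneg (by linarith only [hb1]) _) (by linarith only [ha1])
          have b3 : (1 - 1 / p) ^ (1 / 2 : ℝ) * ((1 - a) * (1 - b)) ^ (3 / 4 : ℝ) ≤
              (1 - 1 / 2 * t ^ 4) * ((1 - 3 / 4 * a) * (1 - 3 / 4 * b)) :=
            mul_le_mul b1 b2 (Real.rpow_nonneg (mul_nonneg (by linarith only [ha1]) (by linarith only [hb1])) _) (by linarith only [ht4h])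
          have hq2 : 1 / (p - 1) ≤ 2 * t ^ 4 := by
            rw [← hrr, ← mul_div_assoc, div_le_div_iff₀ hp1 hp0]
            linarith
          have hqr : 1 / (p - 1) - t ^ 4 ≤ 2 * (t ^ 4) ^ 2 := by
            have : 1 / (p - 1) - t ^ 4 = 1 / (p - 1) * t ^ 4 := by
              rw [← hrr]
              field_simp
              ring
            rw [this]
            refine le_trans (mul_le_mul_of_nonneg_right hq2 (by positivity)) (le_of_eq (by ring))
          have ht86 : (t ^ 4) ^ 2 ≤ t ^ 6 := by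
            have : (t ^ 4) ^ 2 = t ^ 6 * t ^ 2 := by ring
            rw [this]
            exact mul_le_of_le_one_right (by positivity) (pow_le_one₀ ht0.le (by linarith))
          have hfin := fin_ineq g (t ^ 4) (1 / (p - 1)) a b κ (t ^ 6) hg (by positivity) hq2 hqr ha0 hb0 hκ0
            (by linarith only [hsgx, hsS, hS]) (by linarith only [hsgy, hsS', hS]) ht86
          linarith only [hfin, b3, y1, y2, h6, h7, h8, hrest, hR0]

end Pool.Agent.H560DS
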