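import Pool.Agent.H560DS.Defs

set_option autoImplicit false

namespace Pool.Agent.H560DS

open Finset

/-! DS05: one pair of exponents -/

theorem piece_fac {p i n : ℕ} (hp : p.Prime) (hn : 0 < n) (hi : n.factorization p = i) :
    n = p ^ i * (n / p ^ i) ∧ 0 < n / p ^ i ∧ ¬ p ∣ n / p ^ i ∧
      ∀ l, l ≠ p → (n / p ^ i).factorization l = n.factorization l := by
  subst hi
  have h1 : n = p ^ n.factorization p * (n / p ^ n.factorization p) :=
    (Nat.ordProj_mul_ordCompl_eq_self n p).symm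
  refine ⟨h1, ?_, Nat.not_dvd_ordCompl hp hn.ne', ?_⟩
  · rcases Nat.eq_zero_or_pos (n / p ^ n.factorization p) with h | h
    · rw [h, mul_zero] at h1; omega
    · exact h
  · intro l hl
    rw [Nat.factorization_ordCompl, Finsupp.erase_ne hl]

theorem piece_dvd {p i n l : ℕ} (hp : p.Prime) (hn : 0 < n) (hi : n.factorization p = i)
    (hl : l.Prime) (hlp : l ≠ p) : l ∣ n / p ^ i ↔ l ∣ n := by
  obtain ⟨h1, h2, h3, h4⟩ := piece_fac hp hn hi
  have e1 : ∀ m : ℕ, 0 < m → (l ∣ m ↔ m.factorization l ≠ 0) := by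
    intro m hm
    rw [← Nat.one_le_iff_ne_zero, ← hl.dvd_iff_one_le_factorization hm.ne']
  rw [e1 _ h2, e1 _ hn, h4 l hlp]

theorem piece_rP {P : Finset ℕ} {p i n : ℕ} (hp : p.Prime) (hpP : p ∉ P) (hP : ∀ l ∈ P, l.Prime)
    (hn : 0 < n) (hi : n.factorization p = i) :
    rP (insert p P) n = (if i = 0 then 1 else 1 - 1 / (p : ℝ)) * rP P (n / p ^ i) := by
  unfold rP
  rw [Finset.prod_insert hpP]
  congr 1
  · have : p ∣ n ↔ i ≠ 0 := by
      rw [← hi, ← Nat.one_le_iff_ne_zero, ← hp.dvd_iff_one_le_factorization hn.ne']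
    by_cases h : i = 0
    · rw [if_pos h, if_neg (fun h' => this.1 h' h)]
    · rw [if_neg h, if_pos (this.2 h)]
  · refine Finset.prod_congr rfl fun l hl => ?_
    have hlp : l ≠ p := fun h => hpP (h ▸ hl)
    simp only [piece_dvd hp hn hi (hP l hl) hlp]

theorem piece_gP {P : Finset ℕ} {p i j n k : ℕ} (hp : p.Prime) (hpP : p ∉ P)
    (hn : 0 < n) (hk : 0 < k) (hi : n.factorization p = i) (hj : k.factorization p = j) :
    gP (insert p P) n k = (p : ℝ) ^ (min i j) * gP P (n / p ^ i) (k / p ^ j) := by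
  unfold gP
  rw [Finset.prod_insert hpP, hi, hj]
  congr 1
  refine Finset.prod_congr rfl fun l hl => ?_
  have hlp : l ≠ p := fun h => hpP (h ▸ hl)
  rw [(piece_fac hp hn hi).2.2.2 l hlp, (piece_fac hp hk hj).2.2.2 l hlp]

theorem piece_kP {U P : Finset ℕ} {g : ℕ → ℝ} {p i j n k : ℕ} (hp : p.Prime) (hpP : p ∉ P)
    (hpU : p ∈ U) (hU : ∀ l ∈ U, l.Prime)
    (hn : 0 < n) (hk : 0 < k) (hi : n.factorization p = i) (hj : k.factorization p = j) :
    kP U (insert p P) g n k = (if i = j then 1 else g p) * kP U P g (n / p ^ i) (k / p ^ j) := by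
  unfold kP
  have hU' : U \ P = insert p (U \ insert p P) := by
    ext l
    simp only [Finset.mem_sdiff, Finset.mem_insert, not_or]
    constructor
    · rintro ⟨h1, h2⟩
      by_cases h : l = p
      · exact Or.inl h
      · exact Or.inr ⟨h1, h, h2⟩
    · rintro (rfl | ⟨h1, -, h2⟩)
      · exact ⟨hpU, hpP⟩
      · exact ⟨h1, h2⟩
  have hnot : p ∉ U \ insert p P := by simp
  rw [hU', Finset.prod_insert hnot, Finset.prod_insert hpP, hi, hj,
    if_neg (piece_fac hp hn hi).2.2.1, if_neg (piece_fac hp hk hj).2.2.1, one_mul, one_mul,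
    mul_assoc]
  congr 2
  · refine Finset.prod_congr rfl fun l hl => ?_
    have hlp : l ≠ p := fun h => hpP (h ▸ hl)
    rw [(piece_fac hp hn hi).2.2.2 l hlp, (piece_fac hp hk hj).2.2.2 l hlp]
  · refine Finset.prod_congr rfl fun l hl => ?_
    have hlU : l ∈ U := (Finset.mem_sdiff.1 hl).1
    have hlp : l ≠ p := by
      intro h
      apply (Finset.mem_sdiff.1 hl).2
      rw [h]; exact Finset.mem_insert_self _ _
    simp only [piece_dvd hp hn hi (hU l hlU) hlp, piece_dvd hp hk hj (hU l hlU) hlp]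

theorem piece_rP_nonneg {P : Finset ℕ} (hP : ∀ l ∈ P, l.Prime) (n : ℕ) : 0 ≤ rP P n := by
  refine Finset.prod_nonneg fun l hl => ?_
  split_ifs
  · have : (1 : ℝ) ≤ l := by exact_mod_cast (hP l hl).one_lt.le
    have : 1 / (l : ℝ) ≤ 1 := by rw [div_le_one (by linarith)]; exact this
    linarith
  · norm_num

/-- TARGET. Proof. m = min i j, v' a = v a / p^i, w' b = w b / p^j (injective on I, J, positive, not divisible by p),
psi~ a = p^(j-m) * psi a, theta~ b = p^(i-m) * theta b. For a in I, b in J: gP (insert p P) (v a) (w b) = p^m * gP P (v' a) (w' b)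
(for l in P, l /= p, the factorization of v a at l is that of v' a), so the condition is max (v' a * theta~ b) (w' b * psi~ a) <= gP P (v' a) (w' b)
[v a * theta b = p^m * (v' a * theta~ b) etc.]; psi a * theta b = p^(-|i-j|) * (psi~ a * theta~ b) since (j-m)+(i-m) = |i-j|;
rP (insert p P) (v a) = u_i * rP P (v' a) with u_i = 1 if i = 0 and 1 - 1/p otherwise; the same for w, j;
kP U (insert p P) g (v a) (w b) = (if i = j then 1 else g p) * kP U P g (v' a) (w' b) (in U \ P the prime p contributes 1 for v', w').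
So FP (insert p P) = p^(-|i-j|) u_i u_j g^[i/=j] * FP U P g I J v' w' psi~ theta~ <= p^(-|i-j|) u_i u_j g^[i/=j] * C * (MP P I v' psi~ * MP P J w' theta~)^(3/4)
and MP P I v' psi~ = p^(j-m) u_i^(-1) MP (insert p P) I v psi, MP P J w' theta~ = p^(i-m) u_j^(-1) MP ..., so the total factor is
g^[i/=j] p^(-|i-j|/4) (u_i u_j)^(1/4) <= ww p (g p) i j. -/
theorem piece (U P : Finset ℕ) (g : ℕ → ℝ) (C : ℝ) (hC : 0 ≤ C) (hcl : Claim U P g C) (p : ℕ) (hp : p.Prime) (hpP : p ∉ P)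
    (hpU : p ∈ U) (hg : ∀ l, 1 ≤ g l) (hP : ∀ l ∈ P, l.Prime) (hU : ∀ l ∈ U, l.Prime) (i j : ℕ) (I J : Finset ℕ) (v w : ℕ → ℕ) (ψ θ : ℕ → ℝ)
    (hv : Set.InjOn v I) (hw : Set.InjOn w J) (hv0 : ∀ a ∈ I, 0 < v a) (hw0 : ∀ b ∈ J, 0 < w b)
    (hψ : ∀ a, 0 ≤ ψ a) (hθ : ∀ b, 0 ≤ θ b) (hi : ∀ a ∈ I, (v a).factorization p = i) (hj : ∀ b ∈ J, (w b).factorization p = j) :
    FP U (insert p P) g I J v w ψ θ ≤ C * (ww p (g p) i j * (MP (insert p P) I v ψ * MP (insert p P) J w θ) ^ (3 / 4 : ℝ)) := by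
  set m := min i j with hm
  set N := (j - m) + (i - m) with hN
  have hp1 : (1 : ℝ) < p := by exact_mod_cast hp.one_lt
  have hp0 : (0 : ℝ) < p := by linarith
  set ui : ℝ := if i = 0 then 1 else 1 - 1 / (p : ℝ) with hui
  set uj : ℝ := if j = 0 then 1 else 1 - 1 / (p : ℝ) with huj
  set G : ℝ := if i = j then 1 else g p with hG
  have hu : 0 < 1 - 1 / (p : ℝ) ∧ 1 - 1 / (p : ℝ) ≤ 1 := by
    have h1 : 1 / (p : ℝ) < 1 := by rw [div_lt_one hp0]; exact hp1
    have h2 : 0 < 1 / (p : ℝ) := by positivity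
    constructor <;> linarith
  have hui0 : 0 < ui := by rw [hui]; split_ifs <;> [norm_num; exact hu.1]
  have huj0 : 0 < uj := by rw [huj]; split_ifs <;> [norm_num; exact hu.1]
  have hui1 : ui ≤ 1 := by rw [hui]; split_ifs <;> [norm_num; exact hu.2]
  have huj1 : uj ≤ 1 := by rw [huj]; split_ifs <;> [norm_num; exact hu.2]
  have hG0 : 0 ≤ G := by
    rw [hG]; split_ifs
    · norm_num
    · linarith [hg p]
  let v' : ℕ → ℕ := fun a => v a / p ^ i
  let w' : ℕ → ℕ := fun b => w b / p ^ j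
  let ψ' : ℕ → ℝ := fun a => (p : ℝ) ^ (j - m) * ψ a
  let θ' : ℕ → ℝ := fun b => (p : ℝ) ^ (i - m) * θ b
  have hvf := fun a (ha : a ∈ I) => piece_fac hp (hv0 a ha) (hi a ha)
  have hwf := fun b (hb : b ∈ J) => piece_fac hp (hw0 b hb) (hj b hb)
  have hv' : Set.InjOn v' I := by
    intro a ha b hb h
    apply hv ha hb
    rw [(hvf a ha).1, (hvf b hb).1]
    exact congrArg (fun x => p ^ i * x) h
  have hw' : Set.InjOn w' J := by
    intro a ha b hb h
    apply hw ha hb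
    rw [(hwf a ha).1, (hwf b hb).1]
    exact congrArg (fun x => p ^ j * x) h
  have hmain := hcl I J v' w' ψ' θ' hv' hw' (fun a ha => (hvf a ha).2.1)
    (fun b hb => (hwf b hb).2.1) (fun a => mul_nonneg (by positivity) (hψ a))
    (fun b => mul_nonneg (by positivity) (hθ b))
  -- the sum
  have hFP : FP U (insert p P) g I J v w ψ θ =
      (((p : ℝ) ^ N)⁻¹ * (ui * uj) * G) * FP U P g I J v' w' ψ' θ' := by
    unfold FP
    rw [Finset.mul_sum]
    refine Finset.sum_congr rfl fun a ha => ?_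
    rw [Finset.mul_sum]
    refine Finset.sum_congr rfl fun b hb => ?_
    have e1 : ((v a : ℕ) : ℝ) = (p : ℝ) ^ i * (v' a : ℝ) := by
      conv_lhs => rw [(hvf a ha).1]
      push_cast
      rfl
    have e2 : ((w b : ℕ) : ℝ) = (p : ℝ) ^ j * (w' b : ℝ) := by
      conv_lhs => rw [(hwf b hb).1]
      push_cast
      rfl
    have hi' : (p : ℝ) ^ i = (p : ℝ) ^ m * (p : ℝ) ^ (i - m) := by
      rw [← pow_add]; congr 1; omega
    have hj' : (p : ℝ) ^ j = (p : ℝ) ^ m * (p : ℝ) ^ (j - m) := by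
      rw [← pow_add]; congr 1; omega
    have c1 : (v a : ℝ) * θ b = (p : ℝ) ^ m * ((v' a : ℝ) * θ' b) := by
      rw [e1, hi']; show _ = (p : ℝ) ^ m * ((v' a : ℝ) * ((p : ℝ) ^ (i - m) * θ b)); ring
    have c2 : (w b : ℝ) * ψ a = (p : ℝ) ^ m * ((w' b : ℝ) * ψ' a) := by
      rw [e2, hj']; show _ = (p : ℝ) ^ m * ((w' b : ℝ) * ((p : ℝ) ^ (j - m) * ψ a)); ring
    have hg1 := piece_gP (P := P) hp hpP (hv0 a ha) (hw0 b hb) (hi a ha) (hj b hb)
    have hcond : (max ((v a : ℝ) * θ b) ((w b : ℝ) * ψ a) ≤ gP (insert p P) (v a) (w b)) ↔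
        (max ((v' a : ℝ) * θ' b) ((w' b : ℝ) * ψ' a) ≤ gP P (v' a) (w' b)) := by
      rw [c1, c2, ← mul_max_of_nonneg _ _ (by positivity), hg1]
      exact mul_le_mul_iff_of_pos_left (by positivity)
    have hr1 := piece_rP (P := P) hp hpP hP (hv0 a ha) (hi a ha)
    have hr2 := piece_rP (P := P) hp hpP hP (hw0 b hb) (hj b hb)
    have hk1 := piece_kP (U := U) (P := P) (g := g) hp hpP hpU hU (hv0 a ha) (hw0 b hb) (hi a ha)
      (hj b hb)
    by_cases hc : max ((v' a : ℝ) * θ' b) ((w' b : ℝ) * ψ' a) ≤ gP P (v' a) (w' b)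
    · rw [if_pos hc, if_pos (hcond.2 hc), hr1, hr2, hk1, ← hui, ← huj, ← hG]
      have hpN : (p : ℝ) ^ N = (p : ℝ) ^ (j - m) * (p : ℝ) ^ (i - m) := by
        rw [← pow_add]
      have h5 : ((p : ℝ) ^ N)⁻¹ * (ψ' a * θ' b) = ψ a * θ b := by
        rw [hpN]
        show ((p : ℝ) ^ (j - m) * (p : ℝ) ^ (i - m))⁻¹ *
          (((p : ℝ) ^ (j - m) * ψ a) * ((p : ℝ) ^ (i - m) * θ b)) = ψ a * θ b
        field_simp
      rw [← h5]
      show _ = ((p : ℝ) ^ N)⁻¹ * (ui * uj) * G * (ψ' a * θ' b * rP P (v' a) * rP P (w' b) *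
        kP U P g (v' a) (w' b))
      show ((p : ℝ) ^ N)⁻¹ * (ψ' a * θ' b) * (ui * rP P (v' a)) * (uj * rP P (w' b)) *
        (G * kP U P g (v' a) (w' b)) = _
      ring
    · rw [if_neg hc, if_neg (fun h => hc (hcond.1 h)), mul_zero]
  -- the masses
  have hMv : MP (insert p P) I v ψ = ui * ∑ a ∈ I, ψ a * rP P (v' a) := by
    unfold MP
    rw [Finset.mul_sum]
    refine Finset.sum_congr rfl fun a ha => ?_
    rw [piece_rP (P := P) hp hpP hP (hv0 a ha) (hi a ha), ← hui]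
    show _ = ui * (ψ a * rP P (v' a))
    show ψ a * (ui * rP P (v' a)) = _
    ring
  have hMw : MP (insert p P) J w θ = uj * ∑ b ∈ J, θ b * rP P (w' b) := by
    unfold MP
    rw [Finset.mul_sum]
    refine Finset.sum_congr rfl fun b hb => ?_
    rw [piece_rP (P := P) hp hpP hP (hw0 b hb) (hj b hb), ← huj]
    show θ b * (uj * rP P (w' b)) = uj * (θ b * rP P (w' b))
    ring
  have hMv' : MP P I v' ψ' = (p : ℝ) ^ (j - m) * ∑ a ∈ I, ψ a * rP P (v' a) := by
    unfold MP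
    rw [Finset.mul_sum]
    refine Finset.sum_congr rfl fun a ha => ?_
    show (p : ℝ) ^ (j - m) * ψ a * rP P (v' a) = _
    ring
  have hMw' : MP P J w' θ' = (p : ℝ) ^ (i - m) * ∑ b ∈ J, θ b * rP P (w' b) := by
    unfold MP
    rw [Finset.mul_sum]
    refine Finset.sum_congr rfl fun b hb => ?_
    show (p : ℝ) ^ (i - m) * θ b * rP P (w' b) = _
    ring
  set A := ∑ a ∈ I, ψ a * rP P (v' a) with hA
  set B := ∑ b ∈ J, θ b * rP P (w' b) with hB
  have hA0 : 0 ≤ A := Finset.sum_nonneg fun a _ => mul_nonneg (hψ a) (piece_rP_nonneg hP _)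
  have hB0 : 0 ≤ B := Finset.sum_nonneg fun b _ => mul_nonneg (hθ b) (piece_rP_nonneg hP _)
  rw [hMv', hMw'] at hmain
  rw [hFP, hMv, hMw]
  set pN : ℝ := (p : ℝ) ^ N with hpN
  have hpN1 : 1 ≤ pN := one_le_pow₀ hp1.le
  have hpN0 : 0 < pN := by linarith
  have hprod : (p : ℝ) ^ (j - m) * A * ((p : ℝ) ^ (i - m) * B) = pN * (A * B) := by
    have : pN = (p : ℝ) ^ (j - m) * (p : ℝ) ^ (i - m) := by rw [hpN, ← pow_add]
    rw [this]; ring
  rw [hprod] at hmain
  have hAB : 0 ≤ A * B := mul_nonneg hA0 hB0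
  have h6 : (pN * (A * B)) ^ (3 / 4 : ℝ) = pN ^ (3 / 4 : ℝ) * (A * B) ^ (3 / 4 : ℝ) :=
    Real.mul_rpow hpN0.le hAB
  have h7 : (ui * A * (uj * B)) ^ (3 / 4 : ℝ) = (ui * uj) ^ (3 / 4 : ℝ) * (A * B) ^ (3 / 4 : ℝ) := by
    rw [show ui * A * (uj * B) = (ui * uj) * (A * B) by ring]
    exact Real.mul_rpow (by positivity) hAB
  have huu0 : 0 < ui * uj := mul_pos hui0 huj0
  have huu1 : ui * uj ≤ 1 := by nlinarith
  have h8 : (ui * uj) ≤ (ui * uj) ^ (3 / 4 : ℝ) := by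
    calc ui * uj = (ui * uj) ^ (1 : ℝ) := (Real.rpow_one _).symm
      _ ≤ (ui * uj) ^ (3 / 4 : ℝ) :=
        Real.rpow_le_rpow_of_exponent_ge huu0 huu1 (by norm_num)
  have h9 : pN⁻¹ * pN ^ (3 / 4 : ℝ) = pN ^ (-(1 / 4) : ℝ) := by
    rw [← Real.rpow_neg_one, ← Real.rpow_add hpN0]
    norm_num
  have h10 : G * pN ^ (-(1 / 4) : ℝ) = ww p (g p) i j := by
    unfold ww
    rw [hG]
    by_cases hij : i = j
    · rw [if_pos hij, if_pos hij, one_mul, hpN]
      have : N = 0 := by omega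
      rw [this, pow_zero, Real.one_rpow]
    · rw [if_neg hij, if_neg hij, hpN, ← Real.rpow_natCast, ← Real.rpow_mul hp0.le]
      congr 2
      have hNr : (N : ℝ) = |(i : ℝ) - (j : ℝ)| := by
        rcases le_total i j with h | h
        · have h1 : m = i := min_eq_left h
          have h2 : N = j - i := by omega
          rw [h2, Nat.cast_sub h, abs_sub_comm, abs_of_nonneg]
          have : (i : ℝ) ≤ j := by exact_mod_cast h
          linarith
        · have h1 : m = j := min_eq_right h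
          have h2 : N = i - j := by omega
          rw [h2, Nat.cast_sub h, abs_of_nonneg]
          have : (j : ℝ) ≤ i := by exact_mod_cast h
          linarith
      rw [hNr]; ring
  calc pN⁻¹ * (ui * uj) * G * FP U P g I J v' w' ψ' θ'
      ≤ pN⁻¹ * (ui * uj) * G * (C * (pN ^ (3 / 4 : ℝ) * (A * B) ^ (3 / 4 : ℝ))) := by
        rw [← h6]
        exact mul_le_mul_of_nonneg_left hmain (by positivity)
    _ = (ui * uj) * (C * ((G * (pN⁻¹ * pN ^ (3 / 4 : ℝ))) * (A * B) ^ (3 / 4 : ℝ))) := by ring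
    _ ≤ (ui * uj) ^ (3 / 4 : ℝ) *
        (C * ((G * (pN⁻¹ * pN ^ (3 / 4 : ℝ))) * (A * B) ^ (3 / 4 : ℝ))) :=
        mul_le_mul_of_nonneg_right h8 (by positivity)
    _ = C * (ww p (g p) i j * (ui * A * (uj * B)) ^ (3 / 4 : ℝ)) := by
        rw [h9, h10, h7]; ring

end Pool.Agent.H560DS
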