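import Pool.Agent.H560DS.Defs

set_option autoImplicit false

namespace Pool.Agent.H560DS

open Finset

/-! DS06: merged level k -/

theorem merged_aux_dvd {p v k : ℕ} (hp : p.Prime) (hv : 0 < v) (hk : k ≤ v.factorization p) :
    p ^ k ∣ v :=
  (hp.pow_dvd_iff_le_factorization hv.ne').mpr hk

theorem merged_aux_fact_ne {p l v k : ℕ} (hp : p.Prime) (hlp : l ≠ p) (hd : p ^ k ∣ v) :
    (v / p ^ k).factorization l = v.factorization l := by
  rw [Nat.factorization_div hd, Finsupp.tsub_apply, hp.factorization_pow,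
    Finsupp.single_eq_of_ne (by exact hlp), Nat.sub_zero]

theorem merged_aux_dvd_ne {p l v k : ℕ} (hp : p.Prime) (hl : l.Prime) (hlp : l ≠ p)
    (hv : 0 < v) (hd : p ^ k ∣ v) : l ∣ v / p ^ k ↔ l ∣ v := by
  have hq : v / p ^ k ≠ 0 := (Nat.div_pos (Nat.le_of_dvd hv hd) (pow_pos hp.pos k)).ne'
  rw [hl.dvd_iff_one_le_factorization hq, hl.dvd_iff_one_le_factorization hv.ne',
    merged_aux_fact_ne hp hlp hd]

theorem merged_aux_dvd_self {p v k : ℕ} (hp : p.Prime)
    (hv : 0 < v) (hd : p ^ k ∣ v) : p ∣ v / p ^ k ↔ k + 1 ≤ v.factorization p := by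
  rw [← hp.pow_dvd_iff_le_factorization hv.ne', pow_succ]
  exact (Nat.dvd_div_iff_mul_dvd hd)

theorem merged_aux_gP (P : Finset ℕ) {p v w k : ℕ} (hp : p.Prime) (hpP : p ∉ P)
    (hdv : p ^ k ∣ v) (hdw : p ^ k ∣ w)
    (hm : min (v.factorization p) (w.factorization p) = k) :
    gP (insert p P) v w = (p : ℝ) ^ k * gP P (v / p ^ k) (w / p ^ k) := by
  unfold gP
  rw [Finset.prod_insert hpP, hm]
  congr 1
  refine Finset.prod_congr rfl fun l hl => ?_
  have hlp : l ≠ p := fun h => hpP (h ▸ hl)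
  rw [merged_aux_fact_ne hp hlp hdv, merged_aux_fact_ne hp hlp hdw]

theorem merged_aux_rP (P : Finset ℕ) {p v k : ℕ} (hp : p.Prime) (hpP : p ∉ P)
    (hP : ∀ l ∈ P, l.Prime) (hv : 0 < v) (hdv : p ^ k ∣ v) :
    rP P (v / p ^ k) = rP P v := by
  unfold rP
  refine Finset.prod_congr rfl fun l hl => ?_
  have hlp : l ≠ p := fun h => hpP (h ▸ hl)
  simp only [merged_aux_dvd_ne hp (hP l hl) hlp hv hdv]

theorem merged_aux_rP_insert (P : Finset ℕ) {p v : ℕ} (hpP : p ∉ P) :
    rP (insert p P) v = (if p ∣ v then 1 - 1 / (p : ℝ) else 1) * rP P v := by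
  unfold rP
  rw [Finset.prod_insert hpP]

theorem merged_aux_kP (U P : Finset ℕ) (g : ℕ → ℝ) {p v w k : ℕ} (hp : p.Prime) (hpP : p ∉ P)
    (hpU : p ∈ U) (hU : ∀ l ∈ U, l.Prime) (hv : 0 < v) (hw : 0 < w)
    (hdv : p ^ k ∣ v) (hdw : p ^ k ∣ w)
    (hm : min (v.factorization p) (w.factorization p) = k) :
    kP U (insert p P) g v w = kP U P g (v / p ^ k) (w / p ^ k) := by
  unfold kP
  have hUP : U \ P = insert p (U \ insert p P) := by
    ext l
    simp only [mem_sdiff, mem_insert]
    constructor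
    · rintro ⟨h1, h2⟩
      by_cases hl : l = p
      · exact Or.inl hl
      · exact Or.inr ⟨h1, fun h => h.elim hl h2⟩
    · rintro (h | ⟨h1, h2⟩)
      · exact ⟨h ▸ hpU, h ▸ hpP⟩
      · exact ⟨h1, fun h => h2 (Or.inr h)⟩
  have hpn : p ∉ U \ insert p P := by simp
  rw [hUP, Finset.prod_insert hpP, Finset.prod_insert hpn]
  have e1 : (∏ l ∈ P, (if v.factorization l = w.factorization l then (1 : ℝ) else g l)) =
      ∏ l ∈ P, (if (v / p ^ k).factorization l = (w / p ^ k).factorization l then (1 : ℝ)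
        else g l) := by
    refine Finset.prod_congr rfl fun l hl => ?_
    have hlp : l ≠ p := fun h => hpP (h ▸ hl)
    rw [merged_aux_fact_ne hp hlp hdv, merged_aux_fact_ne hp hlp hdw]
  have e2 : (∏ l ∈ U \ insert p P, ((if l ∣ v then g l else 1) * (if l ∣ w then g l else 1))) =
      ∏ l ∈ U \ insert p P, ((if l ∣ v / p ^ k then g l else 1) *
        (if l ∣ w / p ^ k then g l else 1)) := by
    refine Finset.prod_congr rfl fun l hl => ?_
    rw [mem_sdiff] at hl
    have hlp : l ≠ p := fun h => hl.2 (h ▸ mem_insert_self _ _)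
    simp only [merged_aux_dvd_ne hp (hU l hl.1) hlp hv hdv,
      merged_aux_dvd_ne hp (hU l hl.1) hlp hw hdw]
  have e3 : (if v.factorization p = w.factorization p then (1 : ℝ) else g p) =
      (if p ∣ v / p ^ k then g p else 1) * (if p ∣ w / p ^ k then g p else 1) := by
    simp only [merged_aux_dvd_self hp hv hdv, merged_aux_dvd_self hp hw hdw]
    rcases Nat.lt_trichotomy (v.factorization p) (w.factorization p) with h | h | h
    · rw [min_eq_left h.le] at hm
      rw [if_neg h.ne, if_neg (by omega), if_pos (by omega), one_mul]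
    · rw [h, min_self] at hm
      rw [if_pos h, if_neg (by omega), if_neg (by omega), one_mul]
    · rw [min_eq_right h.le] at hm
      rw [if_neg h.ne', if_pos (by omega), if_neg (by omega), mul_one]
  rw [e1, e2, e3]
  ring

theorem merged_aux_gP_nonneg (P : Finset ℕ) (v w : ℕ) : 0 ≤ gP P v w :=
  Finset.prod_nonneg fun _ _ => pow_nonneg (Nat.cast_nonneg _) _

theorem merged_aux_rP_nonneg (P : Finset ℕ) (hP : ∀ l ∈ P, l.Prime) (v : ℕ) : 0 ≤ rP P v := by
  refine Finset.prod_nonneg fun l hl => ?_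
  split_ifs
  · have : (1 : ℝ) ≤ l := by exact_mod_cast (hP l hl).one_lt.le
    have h2 : 1 / (l : ℝ) ≤ 1 := by rw [div_le_one (by linarith)]; exact this
    linarith
  · exact zero_le_one

theorem merged_aux_kP_nonneg (U P : Finset ℕ) (g : ℕ → ℝ) (hg : ∀ l, 1 ≤ g l) (v w : ℕ) :
    0 ≤ kP U P g v w := by
  have hg0 : ∀ l, 0 ≤ g l := fun l => zero_le_one.trans (hg l)
  unfold kP
  refine mul_nonneg (Finset.prod_nonneg fun l _ => ?_) (Finset.prod_nonneg fun l _ => ?_)
  · split_ifs
    · exact zero_le_one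
    · exact hg0 l
  · refine mul_nonneg ?_ ?_ <;> split_ifs <;> first | exact hg0 l | exact zero_le_one

/-- TARGET. Proof. v' a = v a / p^k, w' b = w b / p^k (injective, positive). If min (v_p(v a)) (v_p(w b)) = k then
gP (insert p P) (v a) (w b) = p^k * gP P (v' a) (w' b), so the condition is max (v' a * theta b) (w' b * psi a) <= gP P (v' a) (w' b);
kP U (insert p P) g (v a) (w b) = kP U P g (v' a) (w' b) exactly: at l = p the left side has (if v_p(v a) = v_p(w b) then 1 else g p), the right side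
(in the product over U \ P) has (if p | v' a then g p else 1) * (if p | w' b then g p else 1), and p does not divide both of v' a, w' b.
Case k >= 1: rP (insert p P) (v a) = (1-1/p) * rP P (v' a) (p | v a), the same for w b. So the left side is at most (drop the condition min = k in the sum for v',w':
all terms are nonnegative) (1-1/p)^2 * FP U P g I J v' w' psi theta <= (1-1/p)^2 * C * (MP P I v' psi * MP P J w' theta)^(3/4), and
MP P I v' psi = (1-1/p)^(-1) * MP (insert p P) I v psi. Total factor (1-1/p)^(2 - 3/2) = (1-1/p)^(1/2).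
Case k = 0: v' = v, w' = w; let psi^ a = (if p | v a then 1-1/p else 1) * psi a <= psi a and theta^ similarly; then psi a * rP (insert p P) (v a) = psi^ a * rP P (v a),
the condition for psi, theta implies the condition for psi^, theta^ (and P), so the left side is at most FP U P g I J v w psi^ theta^ <= C (MP P I v psi^ * ...)^(3/4),
and MP P I v psi^ = MP (insert p P) I v psi. -/
theorem merged (U P : Finset ℕ) (g : ℕ → ℝ) (C : ℝ) (hC : 0 ≤ C) (hcl : Claim U P g C) (p : ℕ) (hp : p.Prime) (hpP : p ∉ P)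
    (hpU : p ∈ U) (hg : ∀ l, 1 ≤ g l) (hP : ∀ l ∈ P, l.Prime) (hU : ∀ l ∈ U, l.Prime) (k : ℕ) (I J : Finset ℕ) (v w : ℕ → ℕ) (ψ θ : ℕ → ℝ)
    (hv : Set.InjOn v I) (hw : Set.InjOn w J) (hv0 : ∀ a ∈ I, 0 < v a) (hw0 : ∀ b ∈ J, 0 < w b)
    (hψ : ∀ a, 0 ≤ ψ a) (hθ : ∀ b, 0 ≤ θ b) (hi : ∀ a ∈ I, k ≤ (v a).factorization p) (hj : ∀ b ∈ J, k ≤ (w b).factorization p) :
    ∑ a ∈ I, ∑ b ∈ J, (if min ((v a).factorization p) ((w b).factorization p) = k ∧
        max ((v a : ℝ) * θ b) ((w b : ℝ) * ψ a) ≤ gP (insert p P) (v a) (w b) then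
      ψ a * θ b * rP (insert p P) (v a) * rP (insert p P) (w b) * kP U (insert p P) g (v a) (w b) else 0) ≤
    C * ((if k = 0 then 1 else (1 - 1 / (p : ℝ)) ^ (1 / 2 : ℝ)) *
      (MP (insert p P) I v ψ * MP (insert p P) J w θ) ^ (3 / 4 : ℝ)) := by
  have hp0 : (0 : ℝ) < p := by exact_mod_cast hp.pos
  have hp1 : (1 : ℝ) < p := by exact_mod_cast hp.one_lt
  have hP0 := merged_aux_rP_nonneg P hP
  have hK0 := merged_aux_kP_nonneg U P g hg
  obtain ⟨c, hc⟩ : ∃ c : ℝ, c = 1 - 1 / (p : ℝ) := ⟨_, rfl⟩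
  have hc0 : 0 < c := by
    have : 1 / (p : ℝ) < 1 := by rw [div_lt_one hp0]; exact hp1
    linarith
  have hc1 : c ≤ 1 := by
    have : 0 < 1 / (p : ℝ) := by positivity
    linarith
  have hdv : ∀ a ∈ I, p ^ k ∣ v a := fun a ha => merged_aux_dvd hp (hv0 a ha) (hi a ha)
  have hdw : ∀ b ∈ J, p ^ k ∣ w b := fun b hb => merged_aux_dvd hp (hw0 b hb) (hj b hb)
  rw [← hc]
  by_cases hk : k = 0
  · subst hk
    rw [if_pos rfl, one_mul]
    have hr1 : ∀ n : ℕ, 0 ≤ (if p ∣ n then c else (1 : ℝ)) := by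
      intro n; split_ifs
      · exact hc0.le
      · exact zero_le_one
    have hr2 : ∀ n : ℕ, (if p ∣ n then c else (1 : ℝ)) ≤ 1 := by
      intro n; split_ifs
      · exact hc1
      · exact le_rfl
    have h := hcl I J v w (fun a => (if p ∣ v a then c else 1) * ψ a)
      (fun b => (if p ∣ w b then c else 1) * θ b) hv hw hv0 hw0
      (fun a => mul_nonneg (hr1 _) (hψ a)) (fun b => mul_nonneg (hr1 _) (hθ b))
    have hM : MP P I v (fun a => (if p ∣ v a then c else 1) * ψ a) = MP (insert p P) I v ψ := by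
      unfold MP
      refine Finset.sum_congr rfl fun a _ => ?_
      rw [merged_aux_rP_insert P hpP, ← hc]
      ring
    have hN : MP P J w (fun b => (if p ∣ w b then c else 1) * θ b) = MP (insert p P) J w θ := by
      unfold MP
      refine Finset.sum_congr rfl fun a _ => ?_
      rw [merged_aux_rP_insert P hpP, ← hc]
      ring
    rw [hM, hN] at h
    refine le_trans ?_ h
    unfold FP
    refine Finset.sum_le_sum fun a ha => Finset.sum_le_sum fun b hb => ?_
    by_cases hcond : min ((v a).factorization p) ((w b).factorization p) = 0 ∧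
        max ((v a : ℝ) * θ b) ((w b : ℝ) * ψ a) ≤ gP (insert p P) (v a) (w b)
    · rw [if_pos hcond]
      obtain ⟨hm, hmax⟩ := hcond
      have hg1 := merged_aux_gP P hp hpP (hdv a ha) (hdw b hb) hm
      have hk1 := merged_aux_kP U P g hp hpP hpU hU (hv0 a ha) (hw0 b hb) (hdv a ha) (hdw b hb) hm
      rw [pow_zero, Nat.div_one, Nat.div_one] at hk1
      rw [pow_zero, pow_zero, one_mul, Nat.div_one, Nat.div_one] at hg1
      have hmax' : max ((v a : ℝ) * ((if p ∣ w b then c else 1) * θ b))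
          ((w b : ℝ) * ((if p ∣ v a then c else 1) * ψ a)) ≤ gP P (v a) (w b) := by
        rw [← hg1]
        refine le_trans (max_le_max ?_ ?_) hmax
        · exact mul_le_mul_of_nonneg_left
            (mul_le_of_le_one_left (hθ b) (hr2 _)) (Nat.cast_nonneg _)
        · exact mul_le_mul_of_nonneg_left
            (mul_le_of_le_one_left (hψ a) (hr2 _)) (Nat.cast_nonneg _)
      rw [if_pos hmax', merged_aux_rP_insert P hpP, merged_aux_rP_insert P hpP, hk1, ← hc]
      apply le_of_eq
      ring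
    · rw [if_neg hcond]
      by_cases hc2 : max ((v a : ℝ) * ((if p ∣ w b then c else 1) * θ b))
          ((w b : ℝ) * ((if p ∣ v a then c else 1) * ψ a)) ≤ gP P (v a) (w b)
      · rw [if_pos hc2]
        exact mul_nonneg (mul_nonneg (mul_nonneg (mul_nonneg (mul_nonneg (hr1 _) (hψ a))
          (mul_nonneg (hr1 _) (hθ b))) (hP0 _)) (hP0 _)) (hK0 _ _)
      · rw [if_neg hc2]
  · rw [if_neg hk]
    have hpk : (0 : ℝ) < (p : ℝ) ^ k := pow_pos hp0 k
    have hinjv : Set.InjOn (fun a => v a / p ^ k) I := by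
      intro a ha b hb hab
      apply hv ha hb
      have e1 := Nat.div_mul_cancel (hdv a ha)
      have e2 := Nat.div_mul_cancel (hdv b hb)
      simp only at hab
      rw [← e1, ← e2, hab]
    have hinjw : Set.InjOn (fun b => w b / p ^ k) J := by
      intro a ha b hb hab
      apply hw ha hb
      have e1 := Nat.div_mul_cancel (hdw a ha)
      have e2 := Nat.div_mul_cancel (hdw b hb)
      simp only at hab
      rw [← e1, ← e2, hab]
    have h := hcl I J (fun a => v a / p ^ k) (fun b => w b / p ^ k) ψ θ hinjv hinjw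
      (fun a ha => Nat.div_pos (Nat.le_of_dvd (hv0 a ha) (hdv a ha)) (pow_pos hp.pos k))
      (fun b hb => Nat.div_pos (Nat.le_of_dvd (hw0 b hb) (hdw b hb)) (pow_pos hp.pos k)) hψ hθ
    have hpv : ∀ a ∈ I, p ∣ v a := fun a ha => (dvd_pow_self p hk).trans (hdv a ha)
    have hpw : ∀ b ∈ J, p ∣ w b := fun b hb => (dvd_pow_self p hk).trans (hdw b hb)
    have hM : MP (insert p P) I v ψ = c * MP P I (fun a => v a / p ^ k) ψ := by
      unfold MP
      rw [Finset.mul_sum]
      refine Finset.sum_congr rfl fun a ha => ?_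
      rw [merged_aux_rP_insert P hpP, if_pos (hpv a ha), ← hc,
        merged_aux_rP P hp hpP hP (hv0 a ha) (hdv a ha)]
      ring
    have hN : MP (insert p P) J w θ = c * MP P J (fun b => w b / p ^ k) θ := by
      unfold MP
      rw [Finset.mul_sum]
      refine Finset.sum_congr rfl fun a ha => ?_
      rw [merged_aux_rP_insert P hpP, if_pos (hpw a ha), ← hc,
        merged_aux_rP P hp hpP hP (hw0 a ha) (hdw a ha)]
      ring
    have hA0 : 0 ≤ MP P I (fun a => v a / p ^ k) ψ :=
      Finset.sum_nonneg fun a _ => mul_nonneg (hψ a) (hP0 _)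
    have hB0 : 0 ≤ MP P J (fun b => w b / p ^ k) θ :=
      Finset.sum_nonneg fun b _ => mul_nonneg (hθ b) (hP0 _)
    have step : ∑ a ∈ I, ∑ b ∈ J, (if min ((v a).factorization p) ((w b).factorization p) = k ∧
        max ((v a : ℝ) * θ b) ((w b : ℝ) * ψ a) ≤ gP (insert p P) (v a) (w b) then
      ψ a * θ b * rP (insert p P) (v a) * rP (insert p P) (w b) *
        kP U (insert p P) g (v a) (w b) else 0) ≤
        c ^ 2 * FP U P g I J (fun a => v a / p ^ k) (fun b => w b / p ^ k) ψ θ := by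
      unfold FP
      rw [Finset.mul_sum]
      refine Finset.sum_le_sum fun a ha => ?_
      rw [Finset.mul_sum]
      refine Finset.sum_le_sum fun b hb => ?_
      by_cases hcond : min ((v a).factorization p) ((w b).factorization p) = k ∧
          max ((v a : ℝ) * θ b) ((w b : ℝ) * ψ a) ≤ gP (insert p P) (v a) (w b)
      · rw [if_pos hcond]
        obtain ⟨hm, hmax⟩ := hcond
        have hg1 := merged_aux_gP P hp hpP (hdv a ha) (hdw b hb) hm
        have hk1 := merged_aux_kP U P g hp hpP hpU hU (hv0 a ha) (hw0 b hb) (hdv a ha)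
          (hdw b hb) hm
        have ev : (v a : ℝ) = (p : ℝ) ^ k * ((v a / p ^ k : ℕ) : ℝ) := by
          rw [mul_comm]
          exact_mod_cast (Nat.div_mul_cancel (hdv a ha)).symm
        have ew : (w b : ℝ) = (p : ℝ) ^ k * ((w b / p ^ k : ℕ) : ℝ) := by
          rw [mul_comm]
          exact_mod_cast (Nat.div_mul_cancel (hdw b hb)).symm
        have hmax' : max (((v a / p ^ k : ℕ) : ℝ) * θ b) (((w b / p ^ k : ℕ) : ℝ) * ψ a) ≤
            gP P (v a / p ^ k) (w b / p ^ k) := by
          rw [hg1, ev, ew, mul_assoc, mul_assoc, max_le_iff] at hmax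
          exact max_le (le_of_mul_le_mul_left hmax.1 hpk) (le_of_mul_le_mul_left hmax.2 hpk)
        rw [if_pos hmax', merged_aux_rP_insert P hpP, merged_aux_rP_insert P hpP,
          if_pos (hpv a ha), if_pos (hpw b hb), hk1, ← hc,
          merged_aux_rP P hp hpP hP (hv0 a ha) (hdv a ha),
          merged_aux_rP P hp hpP hP (hw0 b hb) (hdw b hb)]
        apply le_of_eq
        ring
      · rw [if_neg hcond]
        refine mul_nonneg (sq_nonneg _) ?_
        split_ifs
        · exact mul_nonneg (mul_nonneg (mul_nonneg (mul_nonneg (hψ a) (hθ b)) (hP0 _))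
            (hP0 _)) (hK0 _ _)
        · exact le_rfl
    refine step.trans ((mul_le_mul_of_nonneg_left h (sq_nonneg c)).trans (le_of_eq ?_))
    rw [hM, hN]
    have e1 : c * MP P I (fun a => v a / p ^ k) ψ * (c * MP P J (fun b => w b / p ^ k) θ) =
        c ^ 2 * (MP P I (fun a => v a / p ^ k) ψ * MP P J (fun b => w b / p ^ k) θ) := by ring
    rw [e1, Real.mul_rpow (sq_nonneg c) (mul_nonneg hA0 hB0), ← Real.rpow_natCast c 2,
      ← Real.rpow_mul hc0.le]
    have e2 : c ^ ((2 : ℕ) : ℝ) = c ^ (1 / 2 : ℝ) * c ^ (((2 : ℕ) : ℝ) * (3 / 4)) := by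
      rw [← Real.rpow_add hc0]
      norm_num
    rw [e2]
    ring

end Pool.Agent.H560DS
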