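import Pool.Agent.H560DS.Defs
import Pool.Agent.H560DS.DS05
import Pool.Agent.H560DS.DS06

set_option autoImplicit false

namespace Pool.Agent.H560DS

open Finset

/-! DS07: induction step of the main estimate -/

/-- TARGET. Proof. Given I J v w psi theta. Take n larger than all factorizations (v a).factorization p, (w b).factorization p (a in I, b in J).
I_i = I.filter (v_p(v a) = i), J_j similarly; X_i = MP (insert p P) I_i v psi, Y_j; sum over i < n of X_i = MP (insert p P) I v psi =: X, the same for Y.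
If X = 0 (or Y = 0): every psi a with a in I is 0 (rP > 0 because all primes are >= 2), so FP = 0 and the claim holds.
Otherwise apply hloc with p, g p, n, x i = X_i/X, y j = Y_j/Y.
First alternative: FP (insert p P) I J = sum_{i,j<n} FP (insert p P) I_i J_j <= C sum_{i,j} ww p (g p) i j (X_i Y_j)^(3/4) (piece), and
(X_i Y_j)^(3/4) = (X Y)^(3/4) (x_i y_j)^(3/4).
Second alternative with k: FP = (sum over pairs with min(v_p,v_p) = k) + sum over (i,j) with min i j /= k of FP I_i J_j; the first part only involves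
I' = I.filter (k <= v_p(v a)) and J', so by merged it is at most C * b_k * (X' Y')^(3/4), X' = sum_{i>=k} X_i; the rest by piece. -/
theorem step (B K : ℝ) (hB : 1 ≤ B) (hK : 0 ≤ K)
    (hloc : ∀ (p g : ℝ) (n : ℕ) (x y : ℕ → ℝ), 2 ≤ p → 1 ≤ g → g ≤ B →
      (∀ i, 0 ≤ x i) → (∀ i, 0 ≤ y i) → ∑ i ∈ range n, x i = 1 → ∑ i ∈ range n, y i = 1 →
      (∑ i ∈ range n, ∑ j ∈ range n, ww p g i j * (x i * y j) ^ (3 / 4 : ℝ) ≤
          1 + (g ^ 4 - 1) / p + K * p ^ (-(3 / 2) : ℝ)) ∨
      (∃ k < n, (if k = 0 then 1 else (1 - 1 / p) ^ (1 / 2 : ℝ)) *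
          ((∑ i ∈ (range n).filter (fun i => k ≤ i), x i) * (∑ i ∈ (range n).filter (fun i => k ≤ i), y i)) ^ (3 / 4 : ℝ) +
          ∑ i ∈ range n, ∑ j ∈ range n, (if min i j = k then 0 else ww p g i j * (x i * y j) ^ (3 / 4 : ℝ)) ≤
          1 + (g ^ 4 - 1) / p + K * p ^ (-(3 / 2) : ℝ)))
    (U P : Finset ℕ) (g : ℕ → ℝ) (C : ℝ) (hC : 0 ≤ C) (hcl : Claim U P g C) (p : ℕ) (hp : p.Prime) (hpP : p ∉ P)
    (hpU : p ∈ U) (hg : ∀ l, 1 ≤ g l) (hgB : ∀ l, g l ≤ B) (hP : ∀ l ∈ P, l.Prime) (hU : ∀ l ∈ U, l.Prime) :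
    Claim U (insert p P) g (C * (1 + ((g p) ^ 4 - 1) / p + K * (p : ℝ) ^ (-(3 / 2) : ℝ))) := by
  classical
  intro I J v w ψ θ hv hw hv0 hw0 hψ hθ
  obtain ⟨n, hnI, hnJ⟩ : ∃ n : ℕ, (∀ a ∈ I, (v a).factorization p < n) ∧ (∀ b ∈ J, (w b).factorization p < n) := by
    refine ⟨I.sup (fun a => (v a).factorization p) + J.sup (fun b => (w b).factorization p) + 1, ?_, ?_⟩
    · intro a ha
      have : (v a).factorization p ≤ I.sup (fun a => (v a).factorization p) :=
        Finset.le_sup (f := fun a => (v a).factorization p) ha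
      omega
    · intro b hb
      have : (w b).factorization p ≤ J.sup (fun b => (w b).factorization p) :=
        Finset.le_sup (f := fun b => (w b).factorization p) hb
      omega
  have hmI : ∀ a ∈ I, (v a).factorization p ∈ range n := fun a ha => Finset.mem_range.2 (hnI a ha)
  have hmJ : ∀ b ∈ J, (w b).factorization p ∈ range n := fun b hb => Finset.mem_range.2 (hnJ b hb)
  have hP' : ∀ l ∈ insert p P, l.Prime := by
    intro l hl
    rcases Finset.mem_insert.1 hl with rfl | hl
    · exact hp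
    · exact hP l hl
  -- nonnegativity of `rP`
  have hr0 : ∀ m : ℕ, 0 ≤ rP (insert p P) m := by
    intro m
    unfold rP
    refine Finset.prod_nonneg fun l hl => ?_
    split_ifs
    · have h2 : (1 : ℝ) ≤ l := by exact_mod_cast (hP' l hl).one_lt.le
      have : 1 / (l : ℝ) ≤ 1 := by
        rw [div_le_one (by linarith)]
        exact h2
      linarith
    · exact zero_le_one
  have hM0 : ∀ (A : Finset ℕ) (u : ℕ → ℕ) (ρ : ℕ → ℝ), (∀ a, 0 ≤ ρ a) → 0 ≤ MP (insert p P) A u ρ := by
    intro A u ρ hρ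
    unfold MP
    exact Finset.sum_nonneg fun a _ => mul_nonneg (hρ a) (hr0 _)
  -- the term
  obtain ⟨T, hT⟩ : ∃ T : ℕ → ℕ → ℝ, T = fun a b => (if max ((v a : ℝ) * θ b) ((w b : ℝ) * ψ a) ≤ gP (insert p P) (v a) (w b) then
    ψ a * θ b * rP (insert p P) (v a) * rP (insert p P) (w b) * kP U (insert p P) g (v a) (w b) else 0) := ⟨_, rfl⟩
  have hFP : ∀ A A' : Finset ℕ, FP U (insert p P) g A A' v w ψ θ = ∑ a ∈ A, ∑ b ∈ A', T a b := by
    intro A A'
    rw [hT]
    rfl
  -- pieces
  obtain ⟨Ii, hIi⟩ : ∃ Ii : ℕ → Finset ℕ, Ii = fun i => I.filter (fun a => (v a).factorization p = i) := ⟨_, rfl⟩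
  obtain ⟨Jj, hJj⟩ : ∃ Jj : ℕ → Finset ℕ, Jj = fun j => J.filter (fun b => (w b).factorization p = j) := ⟨_, rfl⟩
  obtain ⟨X, hX⟩ : ∃ X : ℕ → ℝ, X = fun i => MP (insert p P) (Ii i) v ψ := ⟨_, rfl⟩
  obtain ⟨Y, hY⟩ : ∃ Y : ℕ → ℝ, Y = fun j => MP (insert p P) (Jj j) w θ := ⟨_, rfl⟩
  have hX0 : ∀ i, 0 ≤ X i := fun i => by rw [hX]; exact hM0 _ _ _ hψ
  have hY0 : ∀ i, 0 ≤ Y i := fun i => by rw [hY]; exact hM0 _ _ _ hθ
  have hXs : ∑ i ∈ range n, X i = MP (insert p P) I v ψ := by
    rw [hX, hIi]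
    unfold MP
    exact Finset.sum_fiberwise_of_maps_to hmI _
  have hYs : ∑ i ∈ range n, Y i = MP (insert p P) J w θ := by
    rw [hY, hJj]
    unfold MP
    exact Finset.sum_fiberwise_of_maps_to hmJ _
  -- double sum splitting
  have hsplit : ∀ F : ℕ → ℕ → ℝ, ∑ a ∈ I, ∑ b ∈ J, F a b =
      ∑ i ∈ range n, ∑ j ∈ range n, ∑ a ∈ Ii i, ∑ b ∈ Jj j, F a b := by
    intro F
    rw [← Finset.sum_fiberwise_of_maps_to hmI]
    refine Finset.sum_congr rfl fun i _ => ?_
    rw [hIi, hJj]
    exact (Finset.sum_congr rfl fun a _ => (Finset.sum_fiberwise_of_maps_to hmJ _).symm).trans Finset.sum_comm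
  have hpc : ∀ i j, ∑ a ∈ Ii i, ∑ b ∈ Jj j, T a b ≤ C * (ww p (g p) i j * (X i * Y j) ^ (3 / 4 : ℝ)) := by
    intro i j
    rw [← hFP, hX, hY]
    refine piece U P g C hC hcl p hp hpP hpU hg hP hU i j (Ii i) (Jj j) v w ψ θ ?_ ?_ ?_ ?_ hψ hθ ?_ ?_
    · refine hv.mono ?_
      rw [hIi]
      intro a ha
      exact (Finset.mem_filter.1 ha).1
    · refine hw.mono ?_
      rw [hJj]
      intro a ha
      exact (Finset.mem_filter.1 ha).1
    · rw [hIi]
      intro a ha
      exact hv0 a (Finset.mem_filter.1 ha).1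
    · rw [hJj]
      intro a ha
      exact hw0 a (Finset.mem_filter.1 ha).1
    · rw [hIi]
      intro a ha
      exact (Finset.mem_filter.1 ha).2
    · rw [hJj]
      intro a ha
      exact (Finset.mem_filter.1 ha).2
  rw [← hXs, ← hYs, hFP]
  have hXS0 : 0 ≤ ∑ i ∈ range n, X i := Finset.sum_nonneg fun i _ => hX0 i
  have hYS0 : 0 ≤ ∑ i ∈ range n, Y i := Finset.sum_nonneg fun i _ => hY0 i
  by_cases hz : ∑ i ∈ range n, X i = 0 ∨ ∑ i ∈ range n, Y i = 0
  · -- degenerate case
    have hprod : ((∑ i ∈ range n, X i) * (∑ i ∈ range n, Y i)) = 0 := by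
      rcases hz with h | h
      · rw [h, zero_mul]
      · rw [h, mul_zero]
    have h34 : (0 : ℝ) ^ (3 / 4 : ℝ) = 0 := Real.zero_rpow (by norm_num)
    rw [hprod, h34, mul_zero, hsplit]
    refine Finset.sum_nonpos fun i hi => Finset.sum_nonpos fun j hj => ?_
    refine (hpc i j).trans (le_of_eq ?_)
    have : X i * Y j = 0 := by
      rcases hz with h | h
      · rw [(Finset.sum_eq_zero_iff_of_nonneg fun i _ => hX0 i).1 h i hi, zero_mul]
      · rw [(Finset.sum_eq_zero_iff_of_nonneg fun i _ => hY0 i).1 h j hj, mul_zero]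
    rw [this, h34, mul_zero, mul_zero]
  · push Not at hz
    obtain ⟨SX, hSX⟩ : ∃ SX : ℝ, SX = ∑ i ∈ range n, X i := ⟨_, rfl⟩
    obtain ⟨SY, hSY⟩ : ∃ SY : ℝ, SY = ∑ i ∈ range n, Y i := ⟨_, rfl⟩
    rw [← hSX, ← hSY] at hz ⊢
    rw [← hSX] at hXS0
    rw [← hSY] at hYS0
    have hSXp : 0 < SX := lt_of_le_of_ne hXS0 (Ne.symm hz.1)
    have hSYp : 0 < SY := lt_of_le_of_ne hYS0 (Ne.symm hz.2)
    have hp2 : (2 : ℝ) ≤ p := by exact_mod_cast hp.two_le
    have key : ∀ A B' : ℝ, 0 ≤ A → 0 ≤ B' → (A * B') ^ (3 / 4 : ℝ) =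
        (SX * SY) ^ (3 / 4 : ℝ) * ((A / SX) * (B' / SY)) ^ (3 / 4 : ℝ) := by
      intro A B' hA hB'
      rw [← Real.mul_rpow (mul_nonneg hXS0 hYS0) (mul_nonneg (div_nonneg hA hXS0) (div_nonneg hB' hYS0))]
      congr 1
      field_simp
    have hW0 : 0 ≤ C * (SX * SY) ^ (3 / 4 : ℝ) := mul_nonneg hC (Real.rpow_nonneg (mul_nonneg hXS0 hYS0) _)
    rcases hloc p (g p) n (fun i => X i / SX) (fun i => Y i / SY) hp2 (hg p) (hgB p)
      (fun i => div_nonneg (hX0 i) hXS0) (fun i => div_nonneg (hY0 i) hYS0)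
      (by rw [← Finset.sum_div, ← hSX]; exact div_self hSXp.ne')
      (by rw [← Finset.sum_div, ← hSY]; exact div_self hSYp.ne') with hA | ⟨k, hkn, hA⟩
    · rw [hsplit]
      calc ∑ i ∈ range n, ∑ j ∈ range n, ∑ a ∈ Ii i, ∑ b ∈ Jj j, T a b
          ≤ ∑ i ∈ range n, ∑ j ∈ range n, C * (ww p (g p) i j * (X i * Y j) ^ (3 / 4 : ℝ)) :=
            Finset.sum_le_sum fun i _ => Finset.sum_le_sum fun j _ => hpc i j
        _ = (C * (SX * SY) ^ (3 / 4 : ℝ)) * ∑ i ∈ range n, ∑ j ∈ range n, ww p (g p) i j * ((X i / SX) * (Y j / SY)) ^ (3 / 4 : ℝ) := by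
            rw [Finset.mul_sum]
            refine Finset.sum_congr rfl fun i _ => ?_
            rw [Finset.mul_sum]
            refine Finset.sum_congr rfl fun j _ => ?_
            rw [key (X i) (Y j) (hX0 i) (hY0 j)]
            ring
        _ ≤ (C * (SX * SY) ^ (3 / 4 : ℝ)) * (1 + ((g p) ^ 4 - 1) / p + K * (p : ℝ) ^ (-(3 / 2) : ℝ)) :=
            mul_le_mul_of_nonneg_left hA hW0
        _ = _ := by ring
    · -- second alternative
      obtain ⟨bk, hbk⟩ : ∃ bk : ℝ, bk = (if k = 0 then (1 : ℝ) else (1 - 1 / (p : ℝ)) ^ (1 / 2 : ℝ)) := ⟨_, rfl⟩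
      rw [← hbk] at hA
      have hdec : ∑ a ∈ I, ∑ b ∈ J, T a b =
          ∑ a ∈ I, ∑ b ∈ J, (if min ((v a).factorization p) ((w b).factorization p) = k then T a b else 0) +
          ∑ a ∈ I, ∑ b ∈ J, (if min ((v a).factorization p) ((w b).factorization p) = k then 0 else T a b) := by
        rw [← Finset.sum_add_distrib]
        refine Finset.sum_congr rfl fun a _ => ?_
        rw [← Finset.sum_add_distrib]
        refine Finset.sum_congr rfl fun b _ => ?_
        split_ifs
        · rw [add_zero]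
        · rw [zero_add]
      obtain ⟨I', hI'⟩ : ∃ I' : Finset ℕ, I' = I.filter (fun a => k ≤ (v a).factorization p) := ⟨_, rfl⟩
      obtain ⟨J', hJ'⟩ : ∃ J' : Finset ℕ, J' = J.filter (fun b => k ≤ (w b).factorization p) := ⟨_, rfl⟩
      have hXk : ∑ i ∈ (range n).filter (fun i => k ≤ i), X i = MP (insert p P) I' v ψ := by
        have hm : ∀ a ∈ I', (v a).factorization p ∈ (range n).filter (fun i => k ≤ i) := by
          intro a ha
          rw [hI', Finset.mem_filter] at ha
          exact Finset.mem_filter.2 ⟨hmI a ha.1, ha.2⟩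
        unfold MP
        rw [← Finset.sum_fiberwise_of_maps_to hm]
        refine Finset.sum_congr rfl fun i hi => ?_
        rw [hX]
        unfold MP
        refine Finset.sum_congr ?_ fun _ _ => rfl
        rw [hIi, hI']
        ext a
        simp only [Finset.mem_filter] at hi ⊢
        constructor
        · rintro ⟨h1, h2⟩
          exact ⟨⟨h1, by omega⟩, h2⟩
        · rintro ⟨⟨h1, _⟩, h2⟩
          exact ⟨h1, h2⟩
      have hYk : ∑ i ∈ (range n).filter (fun i => k ≤ i), Y i = MP (insert p P) J' w θ := by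
        have hm : ∀ a ∈ J', (w a).factorization p ∈ (range n).filter (fun i => k ≤ i) := by
          intro a ha
          rw [hJ', Finset.mem_filter] at ha
          exact Finset.mem_filter.2 ⟨hmJ a ha.1, ha.2⟩
        unfold MP
        rw [← Finset.sum_fiberwise_of_maps_to hm]
        refine Finset.sum_congr rfl fun i hi => ?_
        rw [hY]
        unfold MP
        refine Finset.sum_congr ?_ fun _ _ => rfl
        rw [hJj, hJ']
        ext a
        simp only [Finset.mem_filter] at hi ⊢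
        constructor
        · rintro ⟨h1, h2⟩
          exact ⟨⟨h1, by omega⟩, h2⟩
        · rintro ⟨⟨h1, _⟩, h2⟩
          exact ⟨h1, h2⟩
      obtain ⟨XK, hXK⟩ : ∃ XK : ℝ, XK = MP (insert p P) I' v ψ := ⟨_, rfl⟩
      obtain ⟨YK, hYK⟩ : ∃ YK : ℝ, YK = MP (insert p P) J' w θ := ⟨_, rfl⟩
      have hXK0 : 0 ≤ XK := by rw [hXK]; exact hM0 _ _ _ hψ
      have hYK0 : 0 ≤ YK := by rw [hYK]; exact hM0 _ _ _ hθ
      have hfirst : ∑ a ∈ I, ∑ b ∈ J, (if min ((v a).factorization p) ((w b).factorization p) = k then T a b else 0) ≤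
          C * (bk * (XK * YK) ^ (3 / 4 : ℝ)) := by
        have hm := merged U P g C hC hcl p hp hpP hpU hg hP hU k I' J' v w ψ θ
          (hv.mono (by rw [hI']; intro a ha; exact (Finset.mem_filter.1 ha).1))
          (hw.mono (by rw [hJ']; intro a ha; exact (Finset.mem_filter.1 ha).1))
          (by rw [hI']; intro a ha; exact hv0 a (Finset.mem_filter.1 ha).1)
          (by rw [hJ']; intro a ha; exact hw0 a (Finset.mem_filter.1 ha).1)
          hψ hθ
          (by rw [hI']; intro a ha; exact (Finset.mem_filter.1 ha).2)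
          (by rw [hJ']; intro a ha; exact (Finset.mem_filter.1 ha).2)
        rw [← hbk, ← hXK, ← hYK] at hm
        refine (le_of_eq ?_).trans hm
        have e1 : ∑ a ∈ I, ∑ b ∈ J, (if min ((v a).factorization p) ((w b).factorization p) = k then T a b else 0) =
            ∑ a ∈ I', ∑ b ∈ J, (if min ((v a).factorization p) ((w b).factorization p) = k then T a b else 0) := by
          symm
          refine Finset.sum_subset (by rw [hI']; exact Finset.filter_subset _ _) ?_
          intro a ha ha'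
          refine Finset.sum_eq_zero fun b _ => if_neg ?_
          intro h
          apply ha'
          rw [hI', Finset.mem_filter]
          exact ⟨ha, by omega⟩
        rw [e1]
        refine Finset.sum_congr rfl fun a _ => ?_
        have e2 : ∑ b ∈ J, (if min ((v a).factorization p) ((w b).factorization p) = k then T a b else 0) =
            ∑ b ∈ J', (if min ((v a).factorization p) ((w b).factorization p) = k then T a b else 0) := by
          symm
          refine Finset.sum_subset (by rw [hJ']; exact Finset.filter_subset _ _) ?_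
          intro b hb hb'
          refine if_neg ?_
          intro h
          apply hb'
          rw [hJ', Finset.mem_filter]
          exact ⟨hb, by omega⟩
        rw [e2]
        refine Finset.sum_congr rfl fun b _ => ?_
        rw [hT]
        rw [← ite_and]
      have hsecond : ∑ a ∈ I, ∑ b ∈ J, (if min ((v a).factorization p) ((w b).factorization p) = k then 0 else T a b) ≤
          ∑ i ∈ range n, ∑ j ∈ range n, (if min i j = k then 0 else C * (ww p (g p) i j * (X i * Y j) ^ (3 / 4 : ℝ))) := by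
        rw [hsplit]
        refine Finset.sum_le_sum fun i _ => Finset.sum_le_sum fun j _ => ?_
        have e3 : ∑ a ∈ Ii i, ∑ b ∈ Jj j, (if min ((v a).factorization p) ((w b).factorization p) = k then 0 else T a b) =
            ∑ a ∈ Ii i, ∑ b ∈ Jj j, (if min i j = k then 0 else T a b) := by
          refine Finset.sum_congr rfl fun a ha => Finset.sum_congr rfl fun b hb => ?_
          rw [hIi] at ha
          rw [hJj] at hb
          rw [(Finset.mem_filter.1 ha).2, (Finset.mem_filter.1 hb).2]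
        rw [e3]
        split_ifs with hk
        · simp
        · exact hpc i j
      rw [hdec]
      calc _ ≤ C * (bk * (XK * YK) ^ (3 / 4 : ℝ)) + 
            ∑ i ∈ range n, ∑ j ∈ range n, (if min i j = k then 0 else C * (ww p (g p) i j * (X i * Y j) ^ (3 / 4 : ℝ))) :=
            add_le_add hfirst hsecond
        _ = (C * (SX * SY) ^ (3 / 4 : ℝ)) * (bk * ((∑ i ∈ (range n).filter (fun i => k ≤ i), X i / SX) * (∑ i ∈ (range n).filter (fun i => k ≤ i), Y i / SY)) ^ (3 / 4 : ℝ) +
          ∑ i ∈ range n, ∑ j ∈ range n, (if min i j = k then 0 else ww p (g p) i j * ((X i / SX) * (Y j / SY)) ^ (3 / 4 : ℝ))) := by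
            rw [mul_add]
            congr 1
            · rw [← Finset.sum_div, ← Finset.sum_div, hXk, hYk, ← hXK, ← hYK, key XK YK hXK0 hYK0]
              ring
            · rw [Finset.mul_sum]
              refine Finset.sum_congr rfl fun i _ => ?_
              rw [Finset.mul_sum]
              refine Finset.sum_congr rfl fun j _ => ?_
              split_ifs
              · rw [mul_zero]
              · rw [key (X i) (Y j) (hX0 i) (hY0 j)]
                ring
        _ ≤ (C * (SX * SY) ^ (3 / 4 : ℝ)) * (1 + ((g p) ^ 4 - 1) / p + K * (p : ℝ) ^ (-(3 / 2) : ℝ)) :=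
            mul_le_mul_of_nonneg_left hA hW0
        _ = _ := by ring

end Pool.Agent.H560DS
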