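import Pool.Agent.H560DS.Defs

set_option autoImplicit false

namespace Pool.Agent.H560DS

open Finset

/-! DS08: average of a multiplicative function -/

/-- TARGET. Proof: (if p | v then h p else 1) = 1 + (if p | v then h p - 1 else 0); expand the product (Finset.prod_one_add or prod_add) over subsets T of U:
sum over T of prod_{p in T} (h p - 1) * [all p in T divide v] ; all p in T divide v iff prod T divides v (distinct primes), the number of v in [1,x] divisible by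
m = prod T is x / m <= x/m; so the sum is at most x * sum_T prod_{p in T} (h p - 1)/p = x * prod (1 + (h p - 1)/p). -/
theorem avg_prod (U : Finset ℕ) (hU : ∀ p ∈ U, p.Prime) (h : ℕ → ℝ) (hh : ∀ p ∈ U, 1 ≤ h p) (x : ℕ) :
    ∑ v ∈ Finset.Icc 1 x, ∏ p ∈ U, (if p ∣ v then h p else 1) ≤ x * ∏ p ∈ U, (1 + (h p - 1) / (p : ℝ)) := by
  classical
  have e1 : ∀ v : ℕ, ∏ p ∈ U, (if p ∣ v then h p else 1) =
      ∑ T ∈ U.powerset, ∏ p ∈ T, (if p ∣ v then h p - 1 else 0) := by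
    intro v
    rw [← Finset.prod_one_add]
    refine Finset.prod_congr rfl fun p _ => ?_
    split_ifs <;> ring
  have e2 : ∏ p ∈ U, (1 + (h p - 1) / (p : ℝ)) =
      ∑ T ∈ U.powerset, ∏ p ∈ T, ((h p - 1) / (p : ℝ)) := Finset.prod_one_add U
  rw [Finset.sum_congr rfl fun v _ => e1 v, Finset.sum_comm, e2, Finset.mul_sum]
  refine Finset.sum_le_sum fun T hT => ?_
  rw [Finset.mem_powerset] at hT
  have hG : 0 ≤ ∏ p ∈ T, (h p - 1) :=
    Finset.prod_nonneg fun p hp => sub_nonneg.2 (hh p (hT hp))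
  have e3 : ∀ v : ℕ, ∏ p ∈ T, (if p ∣ v then h p - 1 else 0) ≤
      if (∏ p ∈ T, p) ∣ v then ∏ p ∈ T, (h p - 1) else 0 := by
    intro v
    rw [Finset.prod_ite_zero]
    split_ifs with h1 h2 h2
    · exact le_rfl
    · exact absurd (Finset.prod_primes_dvd v (fun p hp => (hU p (hT hp)).prime) h1) h2
    · exact hG
    · exact le_rfl
  refine (Finset.sum_le_sum fun v _ => e3 v).trans ?_
  rw [← Finset.sum_filter, Finset.sum_const, nsmul_eq_mul, Finset.prod_div_distrib,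
    ← Nat.cast_prod]
  have e4 : (Finset.Icc 1 x).filter (fun v => (∏ p ∈ T, p) ∣ v) =
      (Finset.Ioc 0 x).filter (fun v => (∏ p ∈ T, p) ∣ v) := by
    congr 1
  rw [e4, Nat.Ioc_filter_dvd_card_eq_div]
  have e5 : ((x / ∏ p ∈ T, p : ℕ) : ℝ) ≤ (x : ℝ) / ((∏ p ∈ T, p : ℕ) : ℝ) := Nat.cast_div_le
  calc ((x / ∏ p ∈ T, p : ℕ) : ℝ) * ∏ p ∈ T, (h p - 1)
      ≤ (x : ℝ) / ((∏ p ∈ T, p : ℕ) : ℝ) * ∏ p ∈ T, (h p - 1) :=
        mul_le_mul_of_nonneg_right e5 hG
    _ = (x : ℝ) * ((∏ p ∈ T, (h p - 1)) / ((∏ p ∈ T, p : ℕ) : ℝ)) := by ring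

end Pool.Agent.H560DS
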