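import Pool.Agent.H560DS.Defs
import Pool.Agent.H560DS.DS01

set_option autoImplicit false

namespace Pool.Agent.H560DS

open Finset

/-! DS09: base case of the main estimate -/

/-- grouping by keys -/
theorem base_key {κ : Type} [DecidableEq κ] (I J : Finset ℕ) (k k' : ℕ → κ) (x y : ℕ → ℝ) :
    ∑ a ∈ I, ∑ b ∈ J, (if k a = k' b then x a * y b else 0) =
      ∑ c ∈ I.image k, (∑ a ∈ I.filter (fun a => k a = c), x a) * (∑ b ∈ J.filter (fun b => k' b = c), y b) := by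
  have e : ∀ c : κ, (∑ a ∈ I.filter (fun a => k a = c), x a) * (∑ b ∈ J.filter (fun b => k' b = c), y b) =
      ∑ a ∈ I, ∑ b ∈ J, ((if k a = c then x a else (0 : ℝ)) * (if k' b = c then y b else (0 : ℝ)) : ℝ) := by
    intro c
    rw [Finset.sum_filter, Finset.sum_filter, Finset.sum_mul_sum]
  symm
  rw [Finset.sum_congr rfl (fun c _ => e c), Finset.sum_comm]
  refine Finset.sum_congr rfl fun a ha => ?_
  rw [Finset.sum_comm]
  refine Finset.sum_congr rfl fun b _ => ?_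
  rw [Finset.sum_eq_single (k a)]
  · by_cases h : k a = k' b
    · rw [if_pos h, if_pos rfl, if_pos h.symm]
    · rw [if_neg h, if_neg (c := k' b = k a) (fun h' => h h'.symm), mul_zero]
  · intro c _ hc
    rw [if_neg (fun h => hc h.symm), zero_mul]
  · intro h
    exact absurd (Finset.mem_image_of_mem k ha) h

theorem base_G_pos (U : Finset ℕ) (g : ℕ → ℝ) (hg : ∀ p, 1 ≤ g p) (v : ℕ) :
    0 < ∏ p ∈ U, (if p ∣ v then g p else 1) := by
  refine Finset.prod_pos fun p _ => ?_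
  split_ifs
  · linarith [hg p]
  · norm_num

/-- the contribution of one key -/
theorem base_one (G : ℕ → ℝ) (H : ℝ) (hG : ∀ v, 0 < G v) (hH : 1 ≤ H)
    (hS : ∀ x : ℕ, ∑ v ∈ Finset.Icc 1 x, G v ^ 4 ≤ H * x) (I : Finset ℕ) (v : ℕ → ℕ) (ψ : ℕ → ℝ)
    (hv : Set.InjOn v I) (hv0 : ∀ a ∈ I, 0 < v a) (hψ : ∀ a, 0 ≤ ψ a) (l m : ℤ)
    (h1 : ∀ a ∈ I, ψ a < (2 : ℝ) ^ (m + 1)) (h2 : ∀ a ∈ I, (Nat.log 2 (v a) : ℤ) = l) :
    ∑ a ∈ I, ψ a * G (v a) ≤ (∑ a ∈ I, ψ a) ^ (3 / 4 : ℝ) * ((2 : ℝ) ^ (m + 1) * (H * (2 : ℝ) ^ (l + 1))) ^ (1 / 4 : ℝ) := by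
  have hH0 : 0 < H := by linarith
  have h3 := hold34 I ψ (fun a => ψ a ^ (1 / 4 : ℝ) * G (v a)) (fun a _ => hψ a)
    (fun a _ => mul_nonneg (Real.rpow_nonneg (hψ a) _) (hG _).le)
  have e1 : ∀ a ∈ I, (ψ a ^ (1 / 4 : ℝ) * G (v a)) * (ψ a) ^ (3 / 4 : ℝ) = ψ a * G (v a) := by
    intro a _
    have : ψ a ^ (1 / 4 : ℝ) * ψ a ^ (3 / 4 : ℝ) = ψ a := by
      rw [← Real.rpow_add_of_nonneg (hψ a) (by norm_num) (by norm_num)]
      norm_num
    calc (ψ a ^ (1 / 4 : ℝ) * G (v a)) * (ψ a) ^ (3 / 4 : ℝ) = (ψ a ^ (1 / 4 : ℝ) * ψ a ^ (3 / 4 : ℝ)) * G (v a) := by ring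
      _ = _ := by rw [this]
  rw [Finset.sum_congr rfl e1] at h3
  refine h3.trans ?_
  apply mul_le_mul_of_nonneg_left _ (Real.rpow_nonneg (Finset.sum_nonneg fun a _ => hψ a) _)
  apply Real.rpow_le_rpow
  · exact Finset.sum_nonneg fun a _ => by positivity
  · rcases I.eq_empty_or_nonempty with rfl | ⟨a₀, ha₀⟩
    · rw [Finset.sum_empty]; positivity
    have e2 : ∀ a ∈ I, (ψ a ^ (1 / 4 : ℝ) * G (v a)) ^ 4 ≤ (2 : ℝ) ^ (m + 1) * G (v a) ^ 4 := by
      intro a ha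
      rw [mul_pow]
      have : (ψ a ^ (1 / 4 : ℝ)) ^ 4 = ψ a := by
        rw [← Real.rpow_natCast, ← Real.rpow_mul (hψ a)]
        norm_num
      rw [this]
      exact mul_le_mul_of_nonneg_right (h1 a ha).le (by have := hG (v a); positivity)
    refine (Finset.sum_le_sum e2).trans ?_
    rw [← Finset.mul_sum]
    apply mul_le_mul_of_nonneg_left _ (by positivity)
    obtain ⟨n, hn⟩ : ∃ n : ℕ, (n : ℤ) = l := ⟨_, h2 a₀ ha₀⟩
    have e3 : (2 : ℝ) ^ (l + 1) = ((2 ^ (n + 1) : ℕ) : ℝ) := by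
      rw [← hn]; push_cast
      rw [← zpow_natCast]; push_cast; rfl
    rw [e3]
    refine le_trans ?_ (hS (2 ^ (n + 1)))
    rw [← Finset.sum_image (f := fun x => G x ^ 4) (fun a ha b hb hab => hv ha hb hab)]
    apply Finset.sum_le_sum_of_subset_of_nonneg
    · intro x hx
      rw [Finset.mem_image] at hx
      obtain ⟨a, ha, rfl⟩ := hx
      rw [Finset.mem_Icc]
      refine ⟨hv0 a ha, ?_⟩
      have h4 : Nat.log 2 (v a) = n := by have := h2 a ha; omega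
      rw [← h4]
      exact (Nat.lt_pow_succ_log_self (by norm_num) _).le
    · intro x _ _
      have := hG x
      positivity
  · norm_num

/-- fixed offsets -/
theorem base_rq (G : ℕ → ℝ) (H : ℝ) (hG : ∀ v, 0 < G v) (hH : 1 ≤ H)
    (hS : ∀ x : ℕ, ∑ v ∈ Finset.Icc 1 x, G v ^ 4 ≤ H * x) (I J : Finset ℕ) (v w : ℕ → ℕ) (ψ θ : ℕ → ℝ)
    (hv : Set.InjOn v I) (hw : Set.InjOn w J) (hv0 : ∀ a ∈ I, 0 < v a) (hw0 : ∀ b ∈ J, 0 < w b)
    (hψ : ∀ a, 0 ≤ ψ a) (hθ : ∀ a, 0 ≤ θ a) (r q : ℕ) :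
    ∑ a ∈ I, ∑ b ∈ J, (if ((Nat.log 2 (v a) : ℤ) + Int.log 2 (θ b) = -(r : ℤ) ∧
        (Nat.log 2 (w b) : ℤ) + Int.log 2 (ψ a) = -(q : ℤ)) then (ψ a * G (v a)) * (θ b * G (w b)) else 0) ≤
      (16 * H ^ 2 * (1 / 2) ^ (r + q)) ^ (1 / 4 : ℝ) * ((∑ a ∈ I, ψ a) * (∑ b ∈ J, θ b)) ^ (3 / 4 : ℝ) := by
  have hH0 : 0 < H := by linarith
  have e0 : ∀ a b, (((Nat.log 2 (v a) : ℤ) + Int.log 2 (θ b) = -(r : ℤ) ∧
        (Nat.log 2 (w b) : ℤ) + Int.log 2 (ψ a) = -(q : ℤ))) ↔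
      (((Nat.log 2 (v a) : ℤ), Int.log 2 (ψ a)) = (-(r : ℤ) - Int.log 2 (θ b), -(q : ℤ) - (Nat.log 2 (w b) : ℤ))) := by
    intro a b
    rw [Prod.mk.injEq]
    constructor <;> rintro ⟨h1, h2⟩ <;> constructor <;> omega
  simp only [e0]
  rw [base_key I J (fun a => ((Nat.log 2 (v a) : ℤ), Int.log 2 (ψ a)))
    (fun b => (-(r : ℤ) - Int.log 2 (θ b), -(q : ℤ) - (Nat.log 2 (w b) : ℤ))) (fun a => ψ a * G (v a)) (fun b => θ b * G (w b))]
  set K := I.image (fun a => ((Nat.log 2 (v a) : ℤ), Int.log 2 (ψ a))) with hK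
  set c : ℝ := (16 * H ^ 2 * (1 / 2) ^ (r + q)) ^ (1 / 4 : ℝ) with hc
  have hc0 : 0 ≤ c := by rw [hc]; positivity
  have step : ∀ k ∈ K, (∑ a ∈ I.filter (fun a => ((Nat.log 2 (v a) : ℤ), Int.log 2 (ψ a)) = k), ψ a * G (v a)) *
      (∑ b ∈ J.filter (fun b => (-(r : ℤ) - Int.log 2 (θ b), -(q : ℤ) - (Nat.log 2 (w b) : ℤ)) = k), θ b * G (w b)) ≤
      c * ((∑ a ∈ I.filter (fun a => ((Nat.log 2 (v a) : ℤ), Int.log 2 (ψ a)) = k), ψ a) *
      (∑ b ∈ J.filter (fun b => (-(r : ℤ) - Int.log 2 (θ b), -(q : ℤ) - (Nat.log 2 (w b) : ℤ)) = k), θ b)) ^ (3 / 4 : ℝ) := by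
    rintro ⟨l, m⟩ _
    have b1 := base_one G H hG hH hS (I.filter (fun a => ((Nat.log 2 (v a) : ℤ), Int.log 2 (ψ a)) = (l, m))) v ψ
      (hv.mono (fun a ha => (Finset.mem_filter.1 ha).1)) (fun a ha => hv0 a (Finset.mem_filter.1 ha).1) hψ l m
      (by
        intro a ha
        have h := (Finset.mem_filter.1 ha).2
        rw [Prod.mk.injEq] at h
        rw [← h.2]
        exact Int.lt_zpow_succ_log_self (by norm_num) (ψ a))
      (by
        intro a ha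
        have h := (Finset.mem_filter.1 ha).2
        rw [Prod.mk.injEq] at h
        exact h.1)
    have b2 := base_one G H hG hH hS (J.filter (fun b => (-(r : ℤ) - Int.log 2 (θ b), -(q : ℤ) - (Nat.log 2 (w b) : ℤ)) = (l, m))) w θ
      (hw.mono (fun a ha => (Finset.mem_filter.1 ha).1)) (fun a ha => hw0 a (Finset.mem_filter.1 ha).1) hθ (-(q : ℤ) - m) (-(r : ℤ) - l)
      (by
        intro a ha
        have h := (Finset.mem_filter.1 ha).2
        rw [Prod.mk.injEq] at h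
        have h5 : -(r : ℤ) - l = Int.log 2 (θ a) := by omega
        rw [h5]
        exact Int.lt_zpow_succ_log_self (by norm_num) (θ a))
      (by
        intro a ha
        have h := (Finset.mem_filter.1 ha).2
        rw [Prod.mk.injEq] at h
        omega)
    set S := ∑ a ∈ I.filter (fun a => ((Nat.log 2 (v a) : ℤ), Int.log 2 (ψ a)) = (l, m)), ψ a with hSdef
    set T := ∑ b ∈ J.filter (fun b => (-(r : ℤ) - Int.log 2 (θ b), -(q : ℤ) - (Nat.log 2 (w b) : ℤ)) = (l, m)), θ b with hTdef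
    have hS0 : 0 ≤ S := Finset.sum_nonneg fun a _ => hψ a
    have hT0 : 0 ≤ T := Finset.sum_nonneg fun a _ => hθ a
    refine (mul_le_mul b1 b2 (Finset.sum_nonneg fun a _ => mul_nonneg (hθ a) (hG _).le) (by positivity)).trans (le_of_eq ?_)
    have e5 : c = ((2 : ℝ) ^ (m + 1) * (H * (2 : ℝ) ^ (l + 1))) ^ (1 / 4 : ℝ) *
        ((2 : ℝ) ^ (-(r : ℤ) - l + 1) * (H * (2 : ℝ) ^ (-(q : ℤ) - m + 1))) ^ (1 / 4 : ℝ) := by
      rw [hc, ← Real.mul_rpow (by positivity) (by positivity)]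
      congr 1
      have t1 : (2 : ℝ) ^ (m + 1) * (H * (2 : ℝ) ^ (l + 1)) * ((2 : ℝ) ^ (-(r : ℤ) - l + 1) * (H * (2 : ℝ) ^ (-(q : ℤ) - m + 1))) =
          H ^ 2 * ((2 : ℝ) ^ (m + 1) * (2 : ℝ) ^ (l + 1) * (2 : ℝ) ^ (-(r : ℤ) - l + 1) * (2 : ℝ) ^ (-(q : ℤ) - m + 1)) := by ring
      rw [t1, ← zpow_add₀ (by norm_num), ← zpow_add₀ (by norm_num), ← zpow_add₀ (by norm_num)]
      have t2 : m + 1 + (l + 1) + (-(r : ℤ) - l + 1) + (-(q : ℤ) - m + 1) = 4 + -((r + q : ℕ) : ℤ) := by push_cast; ring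
      rw [t2, zpow_add₀ (by norm_num), zpow_neg, zpow_natCast, one_div, inv_pow]
      norm_num
      ring
    rw [e5, Real.mul_rpow hS0 hT0]
    ring
  refine (Finset.sum_le_sum step).trans ?_
  rw [← Finset.mul_sum]
  apply mul_le_mul_of_nonneg_left _ hc0
  refine (prod34 K _ _ (fun k _ => Finset.sum_nonneg fun a _ => hψ a) (fun k _ => Finset.sum_nonneg fun a _ => hθ a)).trans ?_
  apply Real.rpow_le_rpow
  · exact mul_nonneg (Finset.sum_nonneg fun k _ => Finset.sum_nonneg fun a _ => hψ a)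
      (Finset.sum_nonneg fun k _ => Finset.sum_nonneg fun a _ => hθ a)
  · apply mul_le_mul
    · exact (Finset.sum_fiberwise_of_maps_to (fun a ha => Finset.mem_image_of_mem _ ha) ψ).le
    · rw [← Finset.sum_fiberwise_of_maps_to (s := J) (t := J.image (fun b => (-(r : ℤ) - Int.log 2 (θ b), -(q : ℤ) - (Nat.log 2 (w b) : ℤ))))
        (g := fun b => (-(r : ℤ) - Int.log 2 (θ b), -(q : ℤ) - (Nat.log 2 (w b) : ℤ))) (fun b hb => Finset.mem_image_of_mem _ hb) θ]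
      have hs1 : ∑ k ∈ K, ∑ b ∈ J.filter (fun b => (-(r : ℤ) - Int.log 2 (θ b), -(q : ℤ) - (Nat.log 2 (w b) : ℤ)) = k), θ b ≤
          ∑ k ∈ K ∪ J.image (fun b => (-(r : ℤ) - Int.log 2 (θ b), -(q : ℤ) - (Nat.log 2 (w b) : ℤ))),
            ∑ b ∈ J.filter (fun b => (-(r : ℤ) - Int.log 2 (θ b), -(q : ℤ) - (Nat.log 2 (w b) : ℤ)) = k), θ b :=
        Finset.sum_le_sum_of_subset_of_nonneg Finset.subset_union_left
          (fun k _ _ => Finset.sum_nonneg fun a _ => hθ a)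
      refine hs1.trans (le_of_eq ?_)
      symm
      apply Finset.sum_subset Finset.subset_union_right
      intro k _ hk
      apply Finset.sum_eq_zero
      intro b hb
      exfalso
      apply hk
      rw [← (Finset.mem_filter.1 hb).2]
      exact Finset.mem_image_of_mem (fun b => (-(r : ℤ) - Int.log 2 (θ b), -(q : ℤ) - (Nat.log 2 (w b) : ℤ))) (Finset.mem_filter.1 hb).1
    · exact Finset.sum_nonneg fun k _ => Finset.sum_nonneg fun a _ => hθ a
    · exact Finset.sum_nonneg fun a _ => hψ a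
  · norm_num

/-- TARGET (C = 80 * H works; any constant is fine). For P = empty: gP = 1, rP = 1, kP U empty g v w = G v * G w with G v = prod_{p in U} (if p | v then g p else 1) >= 1, MP = sum of psi.
So we must bound F = sum over a in I, b in J with v_a theta_b <= 1 and w_b psi_a <= 1 of psi_a theta_b G(v_a) G(w_b) by C (sum psi * sum theta)^(3/4).
Only a with psi_a > 0 and b with theta_b > 0 matter. l_a = Nat.log 2 (v a), lam_a = Int.log 2 (psi a) (2^lam <= psi < 2^(lam+1)), l'_b = Nat.log 2 (w b), kap_b = Int.log 2 (theta b).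
The conditions give 2^(l_a + kap_b) <= 1 and 2^(l'_b + lam_a) <= 1, so r = -(l_a + kap_b) >= 0 and q = -(l'_b + lam_a) >= 0.
For fixed naturals (r,q) (only finitely many occur) a is paired only with b having key(a) = (l_a, lam_a) = (-r - kap_b, -q - l'_b) = key'(b). For one key
A = sum_{a: key} psi_a G(v_a) <= (sum psi_a)^(3/4) * (sum psi_a G(v_a)^4)^(1/4) (hold34 applied with c = psi^(1/4) G, f = psi; or Hoelder directly)
and sum_{a: key} psi_a G(v_a)^4 <= 2^(lam+1) * sum_{v < 2^(l+1)} G(v)^4 <= 2^(lam+1) * H * 2^(l+1) (v is injective on I). Similarly for b with 2^(kap+1) * H * 2^(l'+1).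
The product of the two last factors is (H^2 2^(4 + lam + l + kap + l'))^(1/4) = (16 H^2 2^(-r-q))^(1/4) = 2 H^(1/2) 2^(-r/4) 2^(-q/4).
Sum over keys: sum (S_key T_key)^(3/4) <= (sum S * sum T)^(3/4) (prod34). Sum over r,q: (sum_r 2^(-r/4))^2 <= 40. -/
theorem base (H : ℝ) (hH : 1 ≤ H) : ∃ C : ℝ, 0 < C ∧ ∀ (U : Finset ℕ) (g : ℕ → ℝ), (∀ p ∈ U, p.Prime) → (∀ p, 1 ≤ g p) →
    (∀ x : ℕ, ∑ v ∈ Finset.Icc 1 x, (∏ p ∈ U, (if p ∣ v then g p else 1)) ^ 4 ≤ H * x) → Claim U ∅ g C := by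
  have hH0 : 0 < H := by linarith
  obtain ⟨ρ, hρ⟩ : ∃ ρ : ℝ, ρ = (1 / 2 : ℝ) ^ (1 / 4 : ℝ) := ⟨_, rfl⟩
  have hρ0 : 0 ≤ ρ := by rw [hρ]; positivity
  have hρ1 : ρ < 1 := by rw [hρ]; exact Real.rpow_lt_one (by norm_num) (by norm_num) (by norm_num)
  have hgeo : ∀ N : ℕ, ∑ r ∈ Finset.range N, ρ ^ r ≤ (1 - ρ)⁻¹ := by
    intro N
    have := Summable.sum_le_tsum (Finset.range N) (fun i _ => pow_nonneg hρ0 i) (summable_geometric_of_lt_one hρ0 hρ1)
    rwa [tsum_geometric_of_lt_one hρ0 hρ1] at this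
  have h1ρ : 0 < 1 - ρ := by linarith
  refine ⟨(16 * H ^ 2) ^ (1 / 4 : ℝ) * ((1 - ρ)⁻¹ * (1 - ρ)⁻¹), by positivity, ?_⟩
  intro U g hU hg hS I J v w ψ θ hv hw hv0 hw0 hψ hθ
  set G : ℕ → ℝ := fun v => ∏ p ∈ U, (if p ∣ v then g p else 1) with hGdef
  have hG : ∀ v, 0 < G v := base_G_pos U g hg
  have hM1 : MP ∅ I v ψ = ∑ a ∈ I, ψ a := by
    unfold MP rP; simp
  have hM2 : MP ∅ J w θ = ∑ b ∈ J, θ b := by
    unfold MP rP; simp
  rw [hM1, hM2]
  -- bound for the offsets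
  obtain ⟨N, hN⟩ : ∃ N : ℕ, ∀ a ∈ I, ∀ b ∈ J, (-((Nat.log 2 (v a) : ℤ) + Int.log 2 (θ b))).toNat < N ∧
      (-((Nat.log 2 (w b) : ℤ) + Int.log 2 (ψ a))).toNat < N := by
    refine ⟨1 + ∑ a ∈ I, ∑ b ∈ J, ((-((Nat.log 2 (v a) : ℤ) + Int.log 2 (θ b))).toNat +
      (-((Nat.log 2 (w b) : ℤ) + Int.log 2 (ψ a))).toNat), ?_⟩
    intro a ha b hb
    have h1 := Finset.single_le_sum (s := J) (f := fun b => ((-((Nat.log 2 (v a) : ℤ) + Int.log 2 (θ b))).toNat +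
      (-((Nat.log 2 (w b) : ℤ) + Int.log 2 (ψ a))).toNat)) (fun _ _ => Nat.zero_le _) hb
    have h2 := Finset.single_le_sum (s := I) (f := fun a => ∑ b ∈ J, ((-((Nat.log 2 (v a) : ℤ) + Int.log 2 (θ b))).toNat +
      (-((Nat.log 2 (w b) : ℤ) + Int.log 2 (ψ a))).toNat)) (fun _ _ => Nat.zero_le _) ha
    omega
  have key : FP U ∅ g I J v w ψ θ ≤ ∑ r ∈ Finset.range N, ∑ q ∈ Finset.range N, ∑ a ∈ I, ∑ b ∈ J,
      (if ((Nat.log 2 (v a) : ℤ) + Int.log 2 (θ b) = -(r : ℤ) ∧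
        (Nat.log 2 (w b) : ℤ) + Int.log 2 (ψ a) = -(q : ℤ)) then (ψ a * G (v a)) * (θ b * G (w b)) else 0) := by
    have e1 : ∑ r ∈ Finset.range N, ∑ q ∈ Finset.range N, ∑ a ∈ I, ∑ b ∈ J,
      (if ((Nat.log 2 (v a) : ℤ) + Int.log 2 (θ b) = -(r : ℤ) ∧
        (Nat.log 2 (w b) : ℤ) + Int.log 2 (ψ a) = -(q : ℤ)) then (ψ a * G (v a)) * (θ b * G (w b)) else 0) =
        ∑ a ∈ I, ∑ b ∈ J, ∑ r ∈ Finset.range N, ∑ q ∈ Finset.range N,
      (if ((Nat.log 2 (v a) : ℤ) + Int.log 2 (θ b) = -(r : ℤ) ∧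
        (Nat.log 2 (w b) : ℤ) + Int.log 2 (ψ a) = -(q : ℤ)) then (ψ a * G (v a)) * (θ b * G (w b)) else 0) := by
      calc _ = ∑ r ∈ Finset.range N, ∑ a ∈ I, ∑ b ∈ J, ∑ q ∈ Finset.range N,
          (if ((Nat.log 2 (v a) : ℤ) + Int.log 2 (θ b) = -(r : ℤ) ∧
          (Nat.log 2 (w b) : ℤ) + Int.log 2 (ψ a) = -(q : ℤ)) then (ψ a * G (v a)) * (θ b * G (w b)) else 0) := by
            refine Finset.sum_congr rfl fun r _ => ?_
            rw [Finset.sum_comm]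
            refine Finset.sum_congr rfl fun a _ => ?_
            rw [Finset.sum_comm]
        _ = _ := by
            rw [Finset.sum_comm]
            refine Finset.sum_congr rfl fun a _ => ?_
            rw [Finset.sum_comm]
    rw [e1]
    unfold FP
    refine Finset.sum_le_sum fun a ha => Finset.sum_le_sum fun b hb => ?_
    have hnn : ∀ r q : ℕ, 0 ≤ (if ((Nat.log 2 (v a) : ℤ) + Int.log 2 (θ b) = -(r : ℤ) ∧
        (Nat.log 2 (w b) : ℤ) + Int.log 2 (ψ a) = -(q : ℤ)) then (ψ a * G (v a)) * (θ b * G (w b)) else 0) := by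
      intro r q
      split_ifs
      · have h1 := hG (v a); have h2 := hG (w b); have h3 := hψ a; have h4 := hθ b
        positivity
      · exact le_rfl
    have hr0 : ∀ n, rP ∅ n = 1 := by intro n; unfold rP; simp
    have hk0 : kP U ∅ g (v a) (w b) = G (v a) * G (w b) := by
      unfold kP
      rw [Finset.prod_empty, one_mul, Finset.sdiff_empty, Finset.prod_mul_distrib]
    have hg0 : gP ∅ (v a) (w b) = 1 := by unfold gP; simp
    rw [hr0, hr0, hk0, hg0]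
    by_cases hcond : max ((v a : ℝ) * θ b) ((w b : ℝ) * ψ a) ≤ 1
    · rw [if_pos hcond]
      by_cases hz : ψ a = 0 ∨ θ b = 0
      · have : ψ a * θ b * 1 * 1 * (G (v a) * G (w b)) = 0 := by
          rcases hz with h | h <;> rw [h] <;> ring
        rw [this]
        exact Finset.sum_nonneg fun r _ => Finset.sum_nonneg fun q _ => hnn r q
      push Not at hz
      have hψ0 : 0 < ψ a := lt_of_le_of_ne (hψ a) (Ne.symm hz.1)
      have hθ0 : 0 < θ b := lt_of_le_of_ne (hθ b) (Ne.symm hz.2)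
      have hc1 := (le_max_left _ _).trans hcond
      have hc2 := (le_max_right _ _).trans hcond
      have off : ∀ (n : ℕ) (x : ℝ), 0 < n → 0 < x → (n : ℝ) * x ≤ 1 → (Nat.log 2 n : ℤ) + Int.log 2 x ≤ 0 := by
        intro n x hn hx hnx
        have h1 : ((2 : ℝ) ^ (Nat.log 2 n : ℤ)) ≤ n := by
          rw [zpow_natCast]
          exact_mod_cast Nat.pow_log_le_self 2 hn.ne'
        have h2 : (2 : ℝ) ^ (Int.log 2 x) ≤ x := Int.zpow_log_le_self (by norm_num) hx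
        have h3 : (2 : ℝ) ^ ((Nat.log 2 n : ℤ) + Int.log 2 x) ≤ 1 := by
          rw [zpow_add₀ (by norm_num)]
          exact (mul_le_mul h1 h2 (by positivity) (by positivity)).trans hnx
        by_contra hcon
        have h4 : (1 : ℝ) < (2 : ℝ) ^ ((Nat.log 2 n : ℤ) + Int.log 2 x) := one_lt_zpow₀ (by norm_num) (not_le.1 hcon)
        linarith
      have o1 := off (v a) (θ b) (hv0 a ha) hθ0 hc1
      have o2 := off (w b) (ψ a) (hw0 b hb) hψ0 hc2
      obtain ⟨n1, n2⟩ := hN a ha b hb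
      have s1 := Finset.single_le_sum (s := Finset.range N) (f := fun r : ℕ => ∑ q ∈ Finset.range N,
        (if ((Nat.log 2 (v a) : ℤ) + Int.log 2 (θ b) = -(r : ℤ) ∧
        (Nat.log 2 (w b) : ℤ) + Int.log 2 (ψ a) = -(q : ℤ)) then (ψ a * G (v a)) * (θ b * G (w b)) else 0))
        (fun r _ => Finset.sum_nonneg fun q _ => hnn r q) (Finset.mem_range.2 n1)
      refine le_trans ?_ s1
      have s2 := Finset.single_le_sum (s := Finset.range N) (f := fun q : ℕ =>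
        (if ((Nat.log 2 (v a) : ℤ) + Int.log 2 (θ b) = -(((-((Nat.log 2 (v a) : ℤ) + Int.log 2 (θ b))).toNat : ℕ) : ℤ) ∧
        (Nat.log 2 (w b) : ℤ) + Int.log 2 (ψ a) = -(q : ℤ)) then (ψ a * G (v a)) * (θ b * G (w b)) else 0))
        (fun q _ => hnn _ q) (Finset.mem_range.2 n2)
      refine le_trans ?_ s2
      rw [if_pos]
      · apply le_of_eq; ring
      · constructor <;> omega
    · rw [if_neg hcond]
      exact Finset.sum_nonneg fun r _ => Finset.sum_nonneg fun q _ => hnn r q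
  refine key.trans ?_
  set M : ℝ := ((∑ a ∈ I, ψ a) * (∑ b ∈ J, θ b)) ^ (3 / 4 : ℝ) with hM
  have hM0 : 0 ≤ M := by
    rw [hM]
    exact Real.rpow_nonneg (mul_nonneg (Finset.sum_nonneg fun a _ => hψ a) (Finset.sum_nonneg fun a _ => hθ a)) _
  have hterm : ∀ r q : ℕ, (16 * H ^ 2 * (1 / 2) ^ (r + q)) ^ (1 / 4 : ℝ) = (16 * H ^ 2) ^ (1 / 4 : ℝ) * (ρ ^ r * ρ ^ q) := by
    intro r q
    rw [Real.mul_rpow (by positivity) (by positivity), ← pow_add, hρ]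
    congr 1
    rw [← Real.rpow_natCast, ← Real.rpow_natCast, ← Real.rpow_mul (by norm_num), ← Real.rpow_mul (by norm_num), mul_comm]
  calc _ ≤ ∑ r ∈ Finset.range N, ∑ q ∈ Finset.range N, (16 * H ^ 2) ^ (1 / 4 : ℝ) * (ρ ^ r * ρ ^ q) * M := by
        refine Finset.sum_le_sum fun r _ => Finset.sum_le_sum fun q _ => ?_
        rw [← hterm]
        exact base_rq G H hG hH hS I J v w ψ θ hv hw hv0 hw0 hψ hθ r q
    _ = (16 * H ^ 2) ^ (1 / 4 : ℝ) * ((∑ r ∈ Finset.range N, ρ ^ r) * (∑ q ∈ Finset.range N, ρ ^ q)) * M := by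
        rw [Finset.sum_mul_sum, Finset.mul_sum, Finset.sum_mul]
        refine Finset.sum_congr rfl fun r _ => ?_
        rw [Finset.mul_sum, Finset.sum_mul]
    _ ≤ _ := by
        apply mul_le_mul_of_nonneg_right _ hM0
        apply mul_le_mul_of_nonneg_left _ (by positivity)
        exact mul_le_mul (hgeo N) (hgeo N) (Finset.sum_nonneg fun i _ => pow_nonneg hρ0 i) (by positivity)

end Pool.Agent.H560DS
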