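import Pool.Agent.H560DS.Defs
import Pool.Agent.H560DS.DS04
import Pool.Agent.H560DS.DS07
import Pool.Agent.H560DS.DS08
import Pool.Agent.H560DS.DS09

set_option autoImplicit false

namespace Pool.Agent.H560DS

open Finset

/-! DS10: Theorem A (assembly of the induction) -/

theorem thmA_claim (B B' : ℝ) (hB : 1 ≤ B) : ∃ C : ℝ, 0 < C ∧ ∀ (g : ℕ → ℝ), (∀ p, 1 ≤ g p) →
    (∀ p, g p ≤ B) →
    (∀ U : Finset ℕ, (∀ p ∈ U, p.Prime) → ∑ p ∈ U, ((g p) ^ 4 - 1) / (p : ℝ) ≤ B') →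
    ∀ U : Finset ℕ, (∀ p ∈ U, p.Prime) → Claim U U g C := by
  obtain ⟨K, hK, hloc⟩ := loc B hB
  have hH : (1 : ℝ) ≤ Real.exp (max B' 0) := Real.one_le_exp (le_max_right _ _)
  obtain ⟨C0, hC0, hbase⟩ := base (Real.exp (max B' 0)) hH
  have hsum : Summable (fun n : ℕ => (n : ℝ) ^ (-(3 / 2) : ℝ)) :=
    Real.summable_nat_rpow.mpr (by norm_num)
  set S : ℝ := ∑' n : ℕ, (n : ℝ) ^ (-(3 / 2) : ℝ) with hS
  have hnn : ∀ n : ℕ, 0 ≤ (n : ℝ) ^ (-(3 / 2) : ℝ) := fun n => Real.rpow_nonneg (Nat.cast_nonneg _) _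
  refine ⟨C0 * Real.exp (max B' 0 + K * S), by positivity, ?_⟩
  intro g hg1 hgB hgs U hU
  have ha : ∀ p : ℕ, 0 ≤ ((g p) ^ 4 - 1) / (p : ℝ) := by
    intro p
    apply div_nonneg _ (Nat.cast_nonneg _)
    have : (1 : ℝ) ≤ (g p) ^ 4 := one_le_pow₀ (hg1 p)
    linarith
  have hfac : ∀ p : ℕ, 0 ≤ 1 + ((g p) ^ 4 - 1) / (p : ℝ) + K * (p : ℝ) ^ (-(3 / 2) : ℝ) := by
    intro p
    have h1 := ha p
    have h2 : 0 ≤ K * (p : ℝ) ^ (-(3 / 2) : ℝ) := mul_nonneg hK (hnn p)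
    linarith
  have hind : ∀ P : Finset ℕ, P ⊆ U → Claim U P g
      (C0 * ∏ p ∈ P, (1 + ((g p) ^ 4 - 1) / (p : ℝ) + K * (p : ℝ) ^ (-(3 / 2) : ℝ))) := by
    intro P
    induction P using Finset.induction_on with
    | empty =>
      intro _
      rw [Finset.prod_empty, mul_one]
      refine hbase U g hU hg1 fun x => ?_
      have h1 := avg_prod U hU (fun p => (g p) ^ 4) (fun p _ => one_le_pow₀ (hg1 p)) x
      have h2 : ∑ v ∈ Finset.Icc 1 x, (∏ p ∈ U, (if p ∣ v then g p else 1)) ^ 4 =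
          ∑ v ∈ Finset.Icc 1 x, ∏ p ∈ U, (if p ∣ v then (g p) ^ 4 else 1) := by
        refine Finset.sum_congr rfl fun v _ => ?_
        rw [← Finset.prod_pow]
        refine Finset.prod_congr rfl fun p _ => ?_
        split_ifs
        · rfl
        · exact one_pow 4
      rw [h2]
      refine h1.trans ?_
      rw [mul_comm]
      refine mul_le_mul_of_nonneg_right ?_ (Nat.cast_nonneg _)
      calc ∏ p ∈ U, (1 + ((g p) ^ 4 - 1) / (p : ℝ))
          ≤ ∏ p ∈ U, Real.exp (((g p) ^ 4 - 1) / (p : ℝ)) := by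
            refine Finset.prod_le_prod (fun p _ => ?_) fun p _ => ?_
            · have := ha p
              linarith
            · rw [add_comm]; exact Real.add_one_le_exp _
        _ = Real.exp (∑ p ∈ U, ((g p) ^ 4 - 1) / (p : ℝ)) := (Real.exp_sum _ _).symm
        _ ≤ Real.exp (max B' 0) := Real.exp_le_exp.mpr ((hgs U hU).trans (le_max_left _ _))
    | insert p P hpP ih =>
      intro hsub
      have hpU : p ∈ U := hsub (Finset.mem_insert_self p P)
      have hPU : P ⊆ U := (Finset.subset_insert p P).trans hsub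
      have h := step B K hB hK hloc U P g _
        (mul_nonneg hC0.le (Finset.prod_nonneg fun q _ => hfac q)) (ih hPU) p (hU p hpU) hpP hpU
        hg1 hgB (fun l hl => hU l (hPU hl)) hU
      rw [Finset.prod_insert hpP]
      have e : C0 * ((1 + ((g p) ^ 4 - 1) / (p : ℝ) + K * (p : ℝ) ^ (-(3 / 2) : ℝ)) *
          ∏ q ∈ P, (1 + ((g q) ^ 4 - 1) / (q : ℝ) + K * (q : ℝ) ^ (-(3 / 2) : ℝ))) =
          (C0 * ∏ q ∈ P, (1 + ((g q) ^ 4 - 1) / (q : ℝ) + K * (q : ℝ) ^ (-(3 / 2) : ℝ))) *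
          (1 + ((g p) ^ 4 - 1) / (p : ℝ) + K * (p : ℝ) ^ (-(3 / 2) : ℝ)) := by ring
      rw [e]
      exact h
  have hprod : ∏ p ∈ U, (1 + ((g p) ^ 4 - 1) / (p : ℝ) + K * (p : ℝ) ^ (-(3 / 2) : ℝ)) ≤
      Real.exp (max B' 0 + K * S) := by
    calc ∏ p ∈ U, (1 + ((g p) ^ 4 - 1) / (p : ℝ) + K * (p : ℝ) ^ (-(3 / 2) : ℝ))
        ≤ ∏ p ∈ U, Real.exp (((g p) ^ 4 - 1) / (p : ℝ) + K * (p : ℝ) ^ (-(3 / 2) : ℝ)) := by
          refine Finset.prod_le_prod (fun p _ => hfac p) fun p _ => ?_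
          have := Real.add_one_le_exp (((g p) ^ 4 - 1) / (p : ℝ) + K * (p : ℝ) ^ (-(3 / 2) : ℝ))
          linarith
      _ = Real.exp (∑ p ∈ U, (((g p) ^ 4 - 1) / (p : ℝ) + K * (p : ℝ) ^ (-(3 / 2) : ℝ))) :=
          (Real.exp_sum _ _).symm
      _ ≤ Real.exp (max B' 0 + K * S) := by
          apply Real.exp_le_exp.mpr
          rw [Finset.sum_add_distrib, ← Finset.mul_sum]
          have h1 := (hgs U hU).trans (le_max_left B' 0)
          have h2 : ∑ p ∈ U, (p : ℝ) ^ (-(3 / 2) : ℝ) ≤ S :=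
            hsum.sum_le_tsum U fun n _ => hnn n
          have h3 := mul_le_mul_of_nonneg_left h2 hK
          linarith
  have hmain := hind U (Finset.Subset.refl U)
  intro I J v w ψ θ hv hw hv0 hw0 hψ hθ
  refine (hmain I J v w ψ θ hv hw hv0 hw0 hψ hθ).trans ?_
  have hr : ∀ n : ℕ, 0 ≤ rP U n := by
    intro n
    unfold rP
    refine Finset.prod_nonneg fun p hp => ?_
    split_ifs
    · have : (1 : ℝ) ≤ p := by exact_mod_cast (hU p hp).one_lt.le
      have h2 : 1 / (p : ℝ) ≤ 1 := by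
        rw [div_le_one (by linarith)]; exact this
      linarith
    · norm_num
  have hM : 0 ≤ MP U I v ψ * MP U J w θ := by
    unfold MP
    exact mul_nonneg (Finset.sum_nonneg fun a _ => mul_nonneg (hψ a) (hr _))
      (Finset.sum_nonneg fun a _ => mul_nonneg (hθ a) (hr _))
  apply mul_le_mul_of_nonneg_right _ (Real.rpow_nonneg hM _)
  exact mul_le_mul_of_nonneg_left hprod hC0.le

theorem thmA_gP {U : Finset ℕ} {q r : ℕ} (hq : 0 < q) (hr : 0 < r)
    (hqU : ∀ p, p.Prime → p ∣ q → p ∈ U) : gP U q r = (Nat.gcd q r : ℝ) := by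
  have hg : Nat.gcd q r ≠ 0 := (Nat.gcd_pos_of_pos_left r hq).ne'
  have h1 : (Nat.gcd q r).factorization.prod (fun p k => p ^ k) = Nat.gcd q r :=
    Nat.prod_factorization_pow_eq_self hg
  have h2 : (Nat.gcd q r).factorization.prod (fun p k => p ^ k) =
      ∏ p ∈ U, p ^ ((Nat.gcd q r).factorization p) := by
    apply Finsupp.prod_of_support_subset
    · intro p hp
      rw [Nat.support_factorization] at hp
      have hp1 := Nat.prime_of_mem_primeFactors hp
      have hp2 := Nat.dvd_of_mem_primeFactors hp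
      exact hqU p hp1 (hp2.trans (Nat.gcd_dvd_left q r))
    · intro p _
      exact pow_zero p
  have h3 : ∀ p, (Nat.gcd q r).factorization p = min (q.factorization p) (r.factorization p) := by
    intro p
    rw [Nat.factorization_gcd hq.ne' hr.ne']
    rfl
  unfold gP
  have h4 : ∏ p ∈ U, p ^ (min (q.factorization p) (r.factorization p)) = Nat.gcd q r := by
    rw [← h1, h2]
    exact Finset.prod_congr rfl fun p _ => by rw [h3]
  rw [← h4]
  push_cast
  rfl

theorem thmA_rP {U : Finset ℕ} {q : ℕ} (hq : 0 < q) (hU : ∀ p ∈ U, p.Prime)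
    (hqU : ∀ p, p.Prime → p ∣ q → p ∈ U) : rP U q = (Nat.totient q : ℝ) / (q : ℝ) := by
  have hq0 : (q : ℝ) ≠ 0 := by exact_mod_cast hq.ne'
  have h1 : (Nat.totient q : ℝ) = q * ∏ p ∈ q.primeFactors, (1 - (p : ℝ)⁻¹) := by
    have h := Nat.totient_eq_mul_prod_factors q
    have h2 : ((Nat.totient q : ℚ) : ℝ) =
        ((q * ∏ p ∈ q.primeFactors, (1 - (p : ℚ)⁻¹) : ℚ) : ℝ) := by rw [h]
    push_cast at h2
    exact h2
  have h3 : U.filter (fun p => p ∣ q) = q.primeFactors := by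
    ext p
    rw [Finset.mem_filter, Nat.mem_primeFactors]
    constructor
    · rintro ⟨h1, h2⟩
      exact ⟨hU p h1, h2, hq.ne'⟩
    · rintro ⟨h1, h2, _⟩
      exact ⟨hqU p h1 h2, h2⟩
  unfold rP
  rw [← Finset.prod_filter, h3, h1]
  simp only [one_div]
  field_simp

theorem thmA_kP {U : Finset ℕ} {q r : ℕ} (g : ℕ → ℝ) (hq : 0 < q) (hr : 0 < r)
    (hU : ∀ p ∈ U, p.Prime)
    (hqU : ∀ p, p.Prime → p ∣ q → p ∈ U) (hrU : ∀ p, p.Prime → p ∣ r → p ∈ U) :
    kP U U g q r = ∏ p ∈ PF q r, g p := by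
  unfold kP
  rw [Finset.sdiff_self, Finset.prod_empty, mul_one]
  have hc1 : cof q r ≠ 0 := by
    unfold cof
    exact (Nat.div_pos (Nat.le_of_dvd hq (Nat.gcd_dvd_left q r)) (Nat.gcd_pos_of_pos_left r hq)).ne'
  have hc2 : cof r q ≠ 0 := by
    unfold cof
    exact (Nat.div_pos (Nat.le_of_dvd hr (Nat.gcd_dvd_left r q)) (Nat.gcd_pos_of_pos_left q hr)).ne'
  have f1 : ∀ p, (cof q r).factorization p = q.factorization p - min (q.factorization p) (r.factorization p) := by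
    intro p
    unfold cof
    rw [Nat.factorization_div (Nat.gcd_dvd_left q r), Nat.factorization_gcd hq.ne' hr.ne']
    rfl
  have f2 : ∀ p, (cof r q).factorization p = r.factorization p - min (r.factorization p) (q.factorization p) := by
    intro p
    unfold cof
    rw [Nat.factorization_div (Nat.gcd_dvd_left r q), Nat.factorization_gcd hr.ne' hq.ne']
    rfl
  have key : U.filter (fun p => ¬ (q.factorization p = r.factorization p)) = PF q r := by
    ext p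
    rw [Finset.mem_filter, PF, Nat.mem_primeFactors]
    have hfac : ∀ (hp : p.Prime), (p ∣ cof q r * cof r q ↔ ¬ (q.factorization p = r.factorization p)) := by
      intro hp
      rw [hp.dvd_mul, hp.dvd_iff_one_le_factorization hc1, hp.dvd_iff_one_le_factorization hc2,
        f1, f2]
      omega
    constructor
    · rintro ⟨h1, h2⟩
      exact ⟨hU p h1, (hfac (hU p h1)).mpr h2, mul_ne_zero hc1 hc2⟩
    · rintro ⟨hp, h2, _⟩
      refine ⟨?_, (hfac hp).mp h2⟩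
      rcases hp.dvd_mul.mp h2 with h | h
      · exact hqU p hp (h.trans (Nat.div_dvd_of_dvd (Nat.gcd_dvd_left q r)))
      · exact hrU p hp (h.trans (Nat.div_dvd_of_dvd (Nat.gcd_dvd_left r q)))
  rw [← key, Finset.prod_filter]
  refine Finset.prod_congr rfl fun p _ => ?_
  by_cases h : q.factorization p = r.factorization p
  · simp [h]
  · simp [h]

theorem thmA_cond {q r : ℕ} (hq : 0 < q) (hr : 0 < r) (ψ : ℕ → ℝ) (T : ℝ) (hT : 0 < T) :
    max ((q : ℝ) * (ψ r / T)) ((r : ℝ) * (ψ q / T)) ≤ (Nat.gcd q r : ℝ) ↔ DD ψ q r ≤ T := by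
  have hg : (0 : ℝ) < (Nat.gcd q r : ℝ) := by exact_mod_cast Nat.gcd_pos_of_pos_left r hq
  have e1 : (cof q r : ℝ) = (q : ℝ) / (Nat.gcd q r : ℝ) := by
    unfold cof
    exact Nat.cast_div (Nat.gcd_dvd_left q r) hg.ne'
  have e2 : (cof r q : ℝ) = (r : ℝ) / (Nat.gcd q r : ℝ) := by
    unfold cof
    rw [Nat.gcd_comm r q]
    exact Nat.cast_div (Nat.gcd_dvd_right q r) hg.ne'
  unfold DD
  rw [e1, e2, max_le_iff, max_le_iff, and_comm]
  have a1 : ∀ x y : ℝ, x * (y / T) ≤ (Nat.gcd q r : ℝ) ↔ x / (Nat.gcd q r : ℝ) * y ≤ T := by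
    intro x y
    rw [← mul_div_assoc, div_le_iff₀ hT, div_mul_eq_mul_div, div_le_iff₀ hg, mul_comm T]
  rw [a1, a1]

/-- TARGET. Proof. H = exp(B') (and B' >= 0, take U empty; use max). avg_prod with h p = (g p)^4 gives the hypothesis of base with H = exp(B')
(prod (1+a) <= exp(sum a)). K from loc. By induction on P subset U (Finset.induction_on, with P subset U): Claim U P g (C0 * prod_{p in P} (1 + ((g p)^4-1)/p + K p^(-3/2)))
and the product is at most exp(B' + K * sum p^(-3/2)) <= exp(B' + 3K) =: constant (sum over naturals p >= 2 of p^(-3/2) is bounded; any bound, e.g. via Real.summable_nat_rpow_inv).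
Now given X psi T: U = all primes <= max X (e.g. (range (X.sup id + 1)).filter Nat.Prime), apply Claim U U g with I = J = X, v = w = id, psi_a = theta_a = psi(a)/T.
For q, r in X: gP U q r = gcd q r; rP U q = phi(q)/q (Nat.totient_eq_mul_prod_factors); kP U U g q r = prod over p in U with v_p(q) /= v_p(r) of g p, and for p prime,
v_p(q) /= v_p(r) iff p divides (q/gcd)*(r/gcd), i.e. p in PF q r (subset of U). Condition max (q psi(r)/T) (r psi(q)/T) <= gcd q r iff DD psi q r <= T.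
So sum <= 4 T^2 * Claim <= 4 T^2 * C1 * ((M/(2T))^2)^(3/4), M = sum mm: = C * T^(1/2) * M^(3/2). -/
theorem thmA (B B' : ℝ) (hB : 1 ≤ B) : ∃ C : ℝ, 0 < C ∧ ∀ (g : ℕ → ℝ), (∀ p, 1 ≤ g p) → (∀ p, g p ≤ B) →
    (∀ U : Finset ℕ, (∀ p ∈ U, p.Prime) → ∑ p ∈ U, ((g p) ^ 4 - 1) / (p : ℝ) ≤ B') →
    ∀ (X : Finset ℕ) (ψ : ℕ → ℝ) (T : ℝ), (∀ q ∈ X, 0 < q) → (∀ q, 0 ≤ ψ q) → 0 < T →
    ∑ q ∈ X, ∑ r ∈ X, (if DD ψ q r ≤ T then mm ψ q * mm ψ r * ∏ p ∈ PF q r, g p else 0) ≤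
      C * T ^ (1 / 2 : ℝ) * (∑ q ∈ X, mm ψ q) ^ (3 / 2 : ℝ) := by
  obtain ⟨C, hC, hcl⟩ := thmA_claim B B' hB
  refine ⟨4 * C, by positivity, ?_⟩
  intro g hg1 hgB hgs X ψ T hX hψ hT
  set U : Finset ℕ := (Finset.range (X.sup id + 1)).filter Nat.Prime with hUdef
  have hU : ∀ p ∈ U, p.Prime := fun p hp => (Finset.mem_filter.mp hp).2
  have hXU : ∀ q ∈ X, ∀ p, p.Prime → p ∣ q → p ∈ U := by
    intro q hq p hp hpq
    refine Finset.mem_filter.mpr ⟨Finset.mem_range.mpr ?_, hp⟩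
    have h1 : p ≤ q := Nat.le_of_dvd (hX q hq) hpq
    have h2 : q ≤ X.sup id := Finset.le_sup (f := id) hq
    omega
  have h := hcl g hg1 hgB hgs U hU X X id id (fun q => ψ q / T) (fun q => ψ q / T)
    (fun a _ b _ hab => hab) (fun a _ b _ hab => hab) (fun a ha => hX a ha) (fun a ha => hX a ha)
    (fun a => div_nonneg (hψ a) hT.le) (fun a => div_nonneg (hψ a) hT.le)
  set M : ℝ := ∑ q ∈ X, mm ψ q with hM
  have hM0 : 0 ≤ M := by
    refine Finset.sum_nonneg fun q _ => ?_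
    unfold mm
    have := hψ q
    positivity
  have hMP : MP U X id (fun q => ψ q / T) = M / (2 * T) := by
    unfold MP
    rw [hM, Finset.sum_div]
    refine Finset.sum_congr rfl fun q hq => ?_
    simp only [id]
    rw [thmA_rP (hX q hq) hU (hXU q hq)]
    unfold mm
    have hq0 : (q : ℝ) ≠ 0 := by exact_mod_cast (hX q hq).ne'
    field_simp
  have hFP : ∑ q ∈ X, ∑ r ∈ X, (if DD ψ q r ≤ T then mm ψ q * mm ψ r * ∏ p ∈ PF q r, g p else 0) =
      4 * T ^ 2 * FP U U g X X id id (fun q => ψ q / T) (fun q => ψ q / T) := by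
    unfold FP
    rw [Finset.mul_sum]
    refine Finset.sum_congr rfl fun q hq => ?_
    rw [Finset.mul_sum]
    refine Finset.sum_congr rfl fun r hr => ?_
    simp only [id]
    rw [thmA_gP (hX q hq) (hX r hr) (hXU q hq), thmA_rP (hX q hq) hU (hXU q hq),
      thmA_rP (hX r hr) hU (hXU r hr), thmA_kP g (hX q hq) (hX r hr) hU (hXU q hq) (hXU r hr)]
    by_cases hc : DD ψ q r ≤ T
    · rw [if_pos hc, if_pos ((thmA_cond (hX q hq) (hX r hr) ψ T hT).mpr hc)]
      unfold mm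
      have hq0 : (q : ℝ) ≠ 0 := by exact_mod_cast (hX q hq).ne'
      have hr0 : (r : ℝ) ≠ 0 := by exact_mod_cast (hX r hr).ne'
      field_simp
      ring
    · rw [if_neg hc, if_neg (fun h' => hc ((thmA_cond (hX q hq) (hX r hr) ψ T hT).mp h')), mul_zero]
  rw [hFP]
  rw [hMP] at h
  have hrp : (M / (2 * T) * (M / (2 * T))) ^ (3 / 4 : ℝ) = (M / (2 * T)) ^ (3 / 2 : ℝ) := by
    have h0 : 0 ≤ M / (2 * T) := by positivity
    rw [← sq, ← Real.rpow_natCast, ← Real.rpow_mul h0]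
    norm_num
  rw [hrp] at h
  have hmono : (M / (2 * T)) ^ (3 / 2 : ℝ) ≤ (M / T) ^ (3 / 2 : ℝ) := by
    apply Real.rpow_le_rpow (by positivity) _ (by norm_num)
    apply div_le_div_of_nonneg_left hM0 hT
    linarith
  have hT2 : T ^ 2 = T ^ (1 / 2 : ℝ) * T ^ (3 / 2 : ℝ) := by
    rw [← Real.rpow_add hT, ← Real.rpow_natCast]
    norm_num
  calc 4 * T ^ 2 * FP U U g X X id id (fun q => ψ q / T) (fun q => ψ q / T)
      ≤ 4 * T ^ 2 * (C * (M / T) ^ (3 / 2 : ℝ)) := by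
        apply mul_le_mul_of_nonneg_left _ (by positivity)
        exact h.trans (mul_le_mul_of_nonneg_left hmono hC.le)
    _ = 4 * C * T ^ (1 / 2 : ℝ) * M ^ (3 / 2 : ℝ) := by
        rw [Real.div_rpow hM0 hT.le, hT2]
        have : T ^ (3 / 2 : ℝ) ≠ 0 := (Real.rpow_pos_of_pos hT _).ne'
        field_simp

end Pool.Agent.H560DS
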