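import Pool.Agent.H560DS.Defs

set_option autoImplicit false

namespace Pool.Agent.H560DS

open Finset

/-! DS11: product formula for a sum over a full period -/

theorem crt_periodic_mul {F : ℤ → ℝ} {n : ℕ} (hF : ∀ k : ℤ, F (k + n) = F k) (q : ℕ) (k : ℤ) :
    F (k + (n * q : ℕ)) = F k := by
  induction q with
  | zero => simp
  | succ q ih =>
    have : k + ((n * (q + 1) : ℕ) : ℤ) = (k + (n * q : ℕ)) + n := by push_cast; ring
    rw [this, hF, ih]

theorem crt_periodic_mod {F : ℤ → ℝ} {n : ℕ} (hF : ∀ k : ℤ, F (k + n) = F k) (k : ℕ) :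
    F ((k % n : ℕ) : ℤ) = F (k : ℤ) := by
  conv_rhs => rw [← Nat.mod_add_div k n]
  rw [Nat.cast_add, crt_periodic_mul hF]

theorem crt_shift {F : ℤ → ℝ} {n : ℕ} (hF : ∀ k : ℤ, F (k + n) = F k) (X : ℤ) :
    ∑ j ∈ range n, F (X + j) = ∑ j ∈ range n, F (j : ℤ) := by
  have step : ∀ Y : ℤ, ∑ j ∈ range n, F (Y + 1 + j) = ∑ j ∈ range n, F (Y + j) := by
    intro Y
    have h1 := Finset.sum_range_succ (fun j : ℕ => F (Y + j)) n
    have h2 := Finset.sum_range_succ' (fun j : ℕ => F (Y + j)) n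
    rw [h2] at h1
    simp only [Nat.cast_zero, add_zero, hF] at h1
    have h3 := add_right_cancel h1
    rw [← h3]
    apply Finset.sum_congr rfl
    intro j _
    congr 1
    push_cast
    ring
  induction X using Int.induction_on with
  | zero => simp
  | succ k ih => rw [step, ih]
  | pred k ih =>
    have := step (-(k : ℤ) - 1)
    rw [sub_add_cancel, ih] at this
    exact this.symm

theorem crt_period_sum {F : ℤ → ℝ} {n : ℕ} (hF : ∀ k : ℤ, F (k + n) = F k) (q : ℕ) (X : ℤ) :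
    ∑ j ∈ range (n * q), F (X + j) = q * ∑ j ∈ range n, F (j : ℤ) := by
  induction q with
  | zero => simp
  | succ q ih =>
    rw [Nat.mul_succ, Finset.sum_range_add, ih]
    have h1 : ∑ x ∈ range n, F (X + ((n * q + x : ℕ) : ℤ)) = ∑ j ∈ range n, F (j : ℤ) := by
      rw [← crt_shift hF (X + (n * q : ℕ))]
      apply Finset.sum_congr rfl
      intro j _
      congr 1
      push_cast
      ring
    rw [h1]
    push_cast
    ring

theorem crt_two {F G : ℤ → ℝ} {m n : ℕ} (hm : m ≠ 0) (hn : n ≠ 0) (h : m.Coprime n)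
    (hF : ∀ k : ℤ, F (k + m) = F k) (hG : ∀ k : ℤ, G (k + n) = G k) :
    ∑ k ∈ range (m * n), F (k : ℤ) * G (k : ℤ) =
      (∑ k ∈ range m, F (k : ℤ)) * ∑ k ∈ range n, G (k : ℤ) := by
  rw [Finset.sum_mul_sum, ← Finset.sum_product']
  refine Finset.sum_bij' (fun k _ => (k % m, k % n))
    (fun x _ => (Nat.chineseRemainder h x.1 x.2 : ℕ)) ?_ ?_ ?_ ?_ ?_
  · intro k _
    simp only [Finset.mem_product, Finset.mem_range]
    exact ⟨Nat.mod_lt _ (Nat.pos_of_ne_zero hm), Nat.mod_lt _ (Nat.pos_of_ne_zero hn)⟩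
  · intro x _
    rw [Finset.mem_range]
    exact Nat.chineseRemainder_lt_mul h x.1 x.2 hm hn
  · intro k hk
    rw [Finset.mem_range] at hk
    have h1 := (Nat.chineseRemainder h (k % m) (k % n)).2
    have h2 : (Nat.chineseRemainder h (k % m) (k % n) : ℕ) ≡ k [MOD m * n] := by
      rw [← Nat.modEq_and_modEq_iff_modEq_mul h]
      exact ⟨h1.1.trans (Nat.mod_modEq k m), h1.2.trans (Nat.mod_modEq k n)⟩
    have h3 := Nat.chineseRemainder_lt_mul h (k % m) (k % n) hm hn
    exact Nat.ModEq.eq_of_lt_of_lt h2 h3 hk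
  · intro x hx
    simp only [Finset.mem_product, Finset.mem_range] at hx
    have h1 := (Nat.chineseRemainder h x.1 x.2).2
    apply Prod.ext
    · exact (show _ % m = x.1 % m from h1.1).trans (Nat.mod_eq_of_lt hx.1)
    · exact (show _ % n = x.2 % n from h1.2).trans (Nat.mod_eq_of_lt hx.2)
  · intro k _
    rw [crt_periodic_mod hF, crt_periodic_mod hG]

theorem crt_base (S : Finset ℕ) (hS : ∀ p ∈ S, p.Prime) (f : ℕ → ℤ → ℝ)
    (hper : ∀ p ∈ S, ∀ k : ℤ, f p (k + p) = f p k) :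
    ∑ k ∈ range (∏ p ∈ S, p), ∏ p ∈ S, f p (k : ℤ) = ∏ p ∈ S, ∑ k ∈ range p, f p (k : ℤ) := by
  classical
  induction S using Finset.induction_on with
  | empty => simp
  | insert a S ha ih =>
    have hS' : ∀ p ∈ S, p.Prime := fun p hp => hS p (Finset.mem_insert_of_mem hp)
    have hper' : ∀ p ∈ S, ∀ k : ℤ, f p (k + p) = f p k :=
      fun p hp => hper p (Finset.mem_insert_of_mem hp)
    have hap : a.Prime := hS a (Finset.mem_insert_self a S)
    rw [Finset.prod_insert ha, Finset.prod_insert ha, ← ih hS' hper']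
    simp only [Finset.prod_insert ha]
    have hcop : a.Coprime (∏ p ∈ S, p) := by
      apply Nat.Coprime.prod_right
      intro p hp
      rw [Nat.coprime_primes hap (hS' p hp)]
      rintro rfl
      exact ha hp
    have hW : (∏ p ∈ S, p) ≠ 0 := Finset.prod_ne_zero_iff.mpr fun p hp => (hS' p hp).ne_zero
    apply crt_two (F := f a) (G := fun k => ∏ p ∈ S, f p k) hap.ne_zero hW hcop
      (hper a (Finset.mem_insert_self a S))
    intro k
    apply Finset.prod_congr rfl
    intro p hp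
    obtain ⟨c, hc⟩ := Finset.dvd_prod_of_mem (fun p : ℕ => p) hp
    have hc' : (∏ p ∈ S, p) = p * c := hc
    rw [hc']
    exact crt_periodic_mul (hper' p hp) c k

/-- TARGET. Proof: W = prod S. The summand is W-periodic, so the sum over N = W * m consecutive integers is m times the sum over any W consecutive integers, e.g. 0 <= k < W.
Sum over 0 <= k < W of prod f p k = prod_p sum_{k < p} f p k by the Chinese remainder theorem: e.g. ZMod.prodEquivPi (pairwise coprime because distinct primes) and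
Finset.prod_univ_sum, or induction on S with: for coprime m, n and F m-periodic, G n-periodic, sum_{k<mn} F k G k = (sum_{k<m} F)(sum_{k<n} G)
(write k = i + m j; for fixed i the map j -> i + m j mod n is a bijection). If N = 0 both sides are 0. -/
theorem crt_sum (S : Finset ℕ) (hS : ∀ p ∈ S, p.Prime) (f : ℕ → ℤ → ℝ)
    (hper : ∀ p ∈ S, ∀ k : ℤ, f p (k + p) = f p k) (N : ℕ) (hN : (∏ p ∈ S, p) ∣ N) (X : ℤ) :
    ∑ k ∈ Finset.Ico X (X + N), ∏ p ∈ S, f p k = N * ∏ p ∈ S, ((∑ k ∈ Finset.range p, f p (k : ℤ)) / (p : ℝ)) := by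
  have hW : (∏ p ∈ S, p) ≠ 0 := Finset.prod_ne_zero_iff.mpr fun p hp => (hS p hp).ne_zero
  obtain ⟨q, rfl⟩ := hN
  have h1 : ∑ k ∈ Finset.Ico X (X + (((∏ p ∈ S, p) * q : ℕ) : ℤ)), ∏ p ∈ S, f p k =
      ∑ j ∈ range ((∏ p ∈ S, p) * q), ∏ p ∈ S, f p (X + (j : ℤ)) := by
    refine Finset.sum_bij' (fun k _ => (k - X).toNat) (fun j _ => X + (j : ℤ)) ?_ ?_ ?_ ?_ ?_
    · intro k hk
      rw [Finset.mem_Ico] at hk
      rw [Finset.mem_range]
      omega
    · intro j hj
      rw [Finset.mem_range] at hj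
      rw [Finset.mem_Ico]
      omega
    · intro k hk
      rw [Finset.mem_Ico] at hk
      show X + ((k - X).toNat : ℤ) = k
      omega
    · intro j _
      show (X + (j : ℤ) - X).toNat = j
      omega
    · intro k hk
      rw [Finset.mem_Ico] at hk
      have : X + (((k - X).toNat : ℕ) : ℤ) = k := by omega
      rw [this]
  have hper2 : ∀ k : ℤ, (fun k : ℤ => ∏ p ∈ S, f p k) (k + ((∏ p ∈ S, p : ℕ) : ℤ)) =
      (fun k : ℤ => ∏ p ∈ S, f p k) k := by
    intro k
    apply Finset.prod_congr rfl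
    intro p hp
    obtain ⟨c, hc⟩ := Finset.dvd_prod_of_mem (fun p : ℕ => p) hp
    have hc' : (∏ p ∈ S, p) = p * c := hc
    rw [hc']
    exact crt_periodic_mul (hper p hp) c k
  have h5 : ∑ j ∈ range ((∏ p ∈ S, p) * q), ∏ p ∈ S, f p (X + (j : ℤ)) =
      q * ∑ j ∈ range (∏ p ∈ S, p), ∏ p ∈ S, f p (j : ℤ) :=
    crt_period_sum (F := fun k : ℤ => ∏ p ∈ S, f p k) (n := ∏ p ∈ S, p) hper2 q X
  rw [h1, h5]
  have h2 := crt_base S hS f hper
  rw [Finset.prod_div_distrib, ← h2]
  have h3 : ((∏ p ∈ S, p : ℕ) : ℝ) = ∏ p ∈ S, (p : ℝ) := by push_cast; rfl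
  have h4 : (∏ p ∈ S, (p : ℝ)) ≠ 0 := by rw [← h3]; exact_mod_cast hW
  rw [Nat.cast_mul, h3]
  field_simp

end Pool.Agent.H560DS
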