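import Pool.Agent.H560DS.Defs
import Pool.Agent.H560DS.DS11

set_option autoImplicit false

namespace Pool.Agent.H560DS

open Finset

/-! DS12: number of pairs of reduced residues with given difference -/

theorem cof_pos {q : ℕ} (hq : 0 < q) (r : ℕ) : 0 < cof q r :=
  Nat.div_pos (Nat.le_of_dvd hq (Nat.gcd_dvd_left q r)) (Nat.gcd_pos_of_pos_left r hq)

theorem gcd_mul_cof (q r : ℕ) : Nat.gcd q r * cof q r = q :=
  Nat.mul_div_cancel' (Nat.gcd_dvd_left q r)

theorem gcd_mul_cof' (q r : ℕ) : Nat.gcd q r * cof r q = r := by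
  rw [Nat.gcd_comm]; exact gcd_mul_cof r q

theorem cof_coprime {q : ℕ} (hq : 0 < q) (r : ℕ) : Nat.Coprime (cof q r) (cof r q) := by
  unfold cof
  rw [Nat.gcd_comm r q]
  exact Nat.coprime_div_gcd_div_gcd (Nat.gcd_pos_of_pos_left r hq)

theorem exists_sol (p : ℕ) (hp : p.Prime) (b r : ℤ) (hr : ¬ (p : ℤ) ∣ r) :
    ∃ k ∈ Finset.range p, (p : ℤ) ∣ b + r * (k : ℤ) := by
  have := Fact.mk hp
  refine ⟨((-(b : ZMod p)) / (r : ZMod p)).val, Finset.mem_range.2 (ZMod.val_lt _), ?_⟩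
  rw [← ZMod.intCast_zmod_eq_zero_iff_dvd]
  have hr' : (r : ZMod p) ≠ 0 := by
    rwa [Ne, ZMod.intCast_zmod_eq_zero_iff_dvd]
  push_cast
  rw [ZMod.natCast_val, ZMod.cast_id', id, mul_div_cancel₀ _ hr']
  ring

/-- the per prime indicator -/
noncomputable def ff (a b q' r' : ℤ) (p : ℕ) (k : ℤ) : ℝ :=
  if (p : ℤ) ∣ a + q' * k ∨ (p : ℤ) ∣ b + r' * k then 0 else 1

theorem ff_nonneg (a b q' r' : ℤ) (p : ℕ) (k : ℤ) : 0 ≤ ff a b q' r' p k := by
  unfold ff; split_ifs <;> norm_num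

theorem ff_le (a b q' r' : ℤ) (p : ℕ) (k : ℤ) : ff a b q' r' p k ≤ 1 := by
  unfold ff; split_ifs <;> norm_num

theorem ff_per (a b q' r' : ℤ) (p : ℕ) (k : ℤ) :
    ff a b q' r' p (k + p) = ff a b q' r' p k := by
  unfold ff
  have h1 : (p : ℤ) ∣ a + q' * (k + p) ↔ (p : ℤ) ∣ a + q' * k := by
    have : a + q' * (k + p) = (a + q' * k) + p * q' := by ring
    rw [this]; exact (dvd_add_left (Dvd.intro _ rfl))
  have h2 : (p : ℤ) ∣ b + r' * (k + p) ↔ (p : ℤ) ∣ b + r' * k := by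
    have : b + r' * (k + p) = (b + r' * k) + p * r' := by ring
    rw [this]; exact (dvd_add_left (Dvd.intro _ rfl))
  simp only [h1, h2]

theorem sum_ff_le_one (a b q' r' : ℤ) (p : ℕ) (k₁ : ℕ) (h1 : k₁ ∈ Finset.range p)
    (hb : ff a b q' r' p k₁ = 0) :
    ∑ k ∈ Finset.range p, ff a b q' r' p (k : ℤ) ≤ (p : ℝ) - 1 := by
  rw [← Finset.add_sum_erase _ _ h1, hb, zero_add]
  calc ∑ k ∈ (Finset.range p).erase k₁, ff a b q' r' p (k : ℤ)
      ≤ ∑ k ∈ (Finset.range p).erase k₁, (1 : ℝ) := Finset.sum_le_sum (fun k _ => ff_le _ _ _ _ _ _)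
    _ = (p : ℝ) - 1 := by
      rw [Finset.sum_const, Finset.card_erase_of_mem h1, Finset.card_range, nsmul_eq_mul, mul_one]
      have : 1 ≤ p := by have := Finset.mem_range.1 h1; omega
      push_cast [Nat.cast_sub this]; ring

theorem sum_ff_le_two (a b q' r' : ℤ) (p : ℕ) (k₁ k₂ : ℕ) (h1 : k₁ ∈ Finset.range p)
    (h2 : k₂ ∈ Finset.range p) (hne : k₁ ≠ k₂)
    (hb : ff a b q' r' p k₁ = 0) (hb2 : ff a b q' r' p k₂ = 0) :
    ∑ k ∈ Finset.range p, ff a b q' r' p (k : ℤ) ≤ (p : ℝ) - 2 := by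
  have h3 : k₂ ∈ (Finset.range p).erase k₁ := Finset.mem_erase.2 ⟨hne.symm, h2⟩
  rw [← Finset.add_sum_erase _ _ h1, hb, zero_add, ← Finset.add_sum_erase _ _ h3, hb2, zero_add]
  calc ∑ k ∈ ((Finset.range p).erase k₁).erase k₂, ff a b q' r' p (k : ℤ)
      ≤ ∑ k ∈ ((Finset.range p).erase k₁).erase k₂, (1 : ℝ) :=
        Finset.sum_le_sum (fun k _ => ff_le _ _ _ _ _ _)
    _ = (p : ℝ) - 2 := by
      rw [Finset.sum_const, Finset.card_erase_of_mem h3, Finset.card_erase_of_mem h1,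
        Finset.card_range, nsmul_eq_mul, mul_one]
      have : 2 ≤ p := by
        have := Finset.mem_range.1 h1
        have := Finset.mem_range.1 h2
        omega
      rw [Nat.sub_sub]
      push_cast [Nat.cast_sub this]; ring

/-- the value of the local factor -/
noncomputable def GG (q r : ℕ) (k : ℤ) (p : ℕ) : ℝ :=
  if p ∈ PF q r then 1 - 1 / (p : ℝ) else if (p : ℤ) ∣ k then 1 - 1 / (p : ℝ) else 1 - 2 / (p : ℝ)

theorem mem_PF {q r p : ℕ} (hq : 0 < q) (hr : 0 < r) (hp : p.Prime) :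
    p ∈ PF q r ↔ p ∣ cof q r ∨ p ∣ cof r q := by
  unfold PF
  rw [Nat.mem_primeFactors]
  constructor
  · rintro ⟨_, h, _⟩; exact hp.dvd_mul.1 h
  · intro h
    exact ⟨hp, hp.dvd_mul.2 h, (Nat.mul_pos (cof_pos hq r) (cof_pos hr q)).ne'⟩

theorem tot_real (n : ℕ) : (Nat.totient n : ℝ) = n * ∏ p ∈ n.primeFactors, (1 - 1 / (p : ℝ)) := by
  have h := Nat.totient_eq_mul_prod_factors n
  have h2 := congrArg (fun x : ℚ => (x : ℝ)) h
  push_cast at h2
  rw [h2]
  congr 1
  refine Finset.prod_congr rfl (fun p _ => ?_)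
  rw [one_div]

theorem rhs_eq (q r : ℕ) (hq : 0 < q) (hr : 0 < r) (k : ℤ)
    (hk : ∀ p ∈ PF q r, ¬ (p : ℤ) ∣ k) :
    (Nat.totient q : ℝ) * (Nat.totient r : ℝ) / (Nat.lcm q r : ℝ) * Rk q r k =
      (Nat.gcd q r : ℝ) * ∏ p ∈ (Nat.gcd q r).primeFactors, GG q r k p := by
  set e := Nat.gcd q r with he
  set q' := cof q r with hq'
  set r' := cof r q with hr'
  have hq'0 : 0 < q' := cof_pos hq r
  have hr'0 : 0 < r' := cof_pos hr q
  have he0 : 0 < e := Nat.gcd_pos_of_pos_left r hq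
  have hqe : e * q' = q := gcd_mul_cof q r
  have hre : e * r' = r := gcd_mul_cof' q r
  have hcop : Nat.Coprime q' r' := cof_coprime hq r
  set x : ℕ → ℝ := fun p => 1 - 1 / (p : ℝ) with hx
  have hqF : q.primeFactors = e.primeFactors ∪ (q'.primeFactors \ e.primeFactors) := by
    rw [← hqe, Nat.primeFactors_mul he0.ne' hq'0.ne', Finset.union_sdiff_self_eq_union]
  have hrF : r.primeFactors = e.primeFactors ∪ (r'.primeFactors \ e.primeFactors) := by
    rw [← hre, Nat.primeFactors_mul he0.ne' hr'0.ne', Finset.union_sdiff_self_eq_union]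
  have hPF : PF q r = q'.primeFactors ∪ r'.primeFactors := by
    unfold PF
    exact Nat.primeFactors_mul hq'0.ne' hr'0.ne'
  have hdisj : Disjoint (q'.primeFactors \ e.primeFactors) (r'.primeFactors \ e.primeFactors) :=
    Finset.disjoint_of_subset_left Finset.sdiff_subset
      (Finset.disjoint_of_subset_right Finset.sdiff_subset hcop.disjoint_primeFactors)
  have hA1 : ∏ p ∈ q.primeFactors, x p =
      (∏ p ∈ e.primeFactors, x p) * ∏ p ∈ q'.primeFactors \ e.primeFactors, x p := by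
    rw [hqF, Finset.prod_union Finset.disjoint_sdiff]
  have hA2 : ∏ p ∈ r.primeFactors, x p =
      (∏ p ∈ e.primeFactors, x p) * ∏ p ∈ r'.primeFactors \ e.primeFactors, x p := by
    rw [hrF, Finset.prod_union Finset.disjoint_sdiff]
  have hC : (∏ p ∈ q'.primeFactors \ e.primeFactors, x p) *
      (∏ p ∈ r'.primeFactors \ e.primeFactors, x p) =
      ∏ p ∈ PF q r \ e.primeFactors, x p := by
    rw [← Finset.prod_union hdisj, hPF, Finset.union_sdiff_distrib]
  have hx0 : ∀ p : ℕ, p.Prime → x p ≠ 0 := by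
    intro p hp
    have h2 : (2 : ℝ) ≤ p := by exact_mod_cast hp.two_le
    have : 1 / (p : ℝ) < 1 := by rw [div_lt_one (by linarith)]; linarith
    simp only [hx]; linarith
  have hPFp : ∀ p ∈ PF q r, p.Prime := fun p hp => Nat.prime_of_mem_primeFactors hp
  have hep : ∀ p ∈ e.primeFactors, p.Prime := fun p hp => Nat.prime_of_mem_primeFactors hp
  have hR1 : ∏ p ∈ PF q r, (if (p : ℤ) ∣ k then 0 else (p : ℝ) / ((p : ℝ) - 1)) =
      (∏ p ∈ PF q r \ e.primeFactors, x p)⁻¹ * (∏ p ∈ PF q r ∩ e.primeFactors, x p)⁻¹ := by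
    rw [← mul_inv, ← Finset.prod_union (Finset.disjoint_sdiff_inter _ _),
      Finset.sdiff_union_inter, ← Finset.prod_inv_distrib]
    refine Finset.prod_congr rfl (fun p hp => ?_)
    rw [if_neg (hk p hp)]
    have hpp := hPFp p hp
    have h2 : (2 : ℝ) ≤ p := by exact_mod_cast hpp.two_le
    simp only [hx]
    have h3 : (p : ℝ) ≠ 0 := by linarith
    have h4 : (p : ℝ) - 1 ≠ 0 := by linarith
    field_simp
  have hAe : ∏ p ∈ e.primeFactors, x p =
      (∏ p ∈ PF q r ∩ e.primeFactors, x p) * ∏ p ∈ e.primeFactors \ PF q r, x p := by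
    rw [Finset.inter_comm, mul_comm, ← Finset.prod_union (Finset.disjoint_sdiff_inter _ _),
      Finset.sdiff_union_inter]
  have hGe : ∏ p ∈ e.primeFactors, GG q r k p =
      (∏ p ∈ PF q r ∩ e.primeFactors, x p) * ∏ p ∈ e.primeFactors \ PF q r, GG q r k p := by
    have h1 : ∏ p ∈ PF q r ∩ e.primeFactors, x p = ∏ p ∈ PF q r ∩ e.primeFactors, GG q r k p := by
      refine Finset.prod_congr rfl (fun p hp => ?_)
      unfold GG
      rw [if_pos (Finset.mem_inter.1 hp).1]
    rw [h1, Finset.inter_comm, mul_comm, ← Finset.prod_union (Finset.disjoint_sdiff_inter _ _),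
      Finset.sdiff_union_inter]
  have hE : (∏ p ∈ e.primeFactors \ PF q r, x p) ^ 2 *
      ∏ p ∈ e.primeFactors \ PF q r,
        (if (p : ℤ) ∣ k then 1 + 1 / ((p : ℝ) - 1) else 1 - 1 / ((p : ℝ) - 1) ^ 2) =
      ∏ p ∈ e.primeFactors \ PF q r, GG q r k p := by
    rw [← Finset.prod_pow, ← Finset.prod_mul_distrib]
    refine Finset.prod_congr rfl (fun p hp => ?_)
    have hpp := hep p (Finset.mem_sdiff.1 hp).1
    have h2 : (2 : ℝ) ≤ p := by exact_mod_cast hpp.two_le
    have h3 : (p : ℝ) ≠ 0 := by linarith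
    have h4 : (p : ℝ) - 1 ≠ 0 := by linarith
    unfold GG
    rw [if_neg (Finset.mem_sdiff.1 hp).2]
    simp only [hx]
    split_ifs
    · field_simp
      ring
    · field_simp
      ring
  have hL : (q : ℝ) * r = e * (Nat.lcm q r : ℝ) := by
    have := Nat.gcd_mul_lcm q r
    exact_mod_cast this.symm
  have hL0 : (Nat.lcm q r : ℝ) ≠ 0 := by
    have := Nat.lcm_pos hq hr
    positivity
  have hD0 : ∏ p ∈ PF q r ∩ e.primeFactors, x p ≠ 0 :=
    Finset.prod_ne_zero_iff.2 (fun p hp => hx0 p (hPFp p (Finset.mem_inter.1 hp).1))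
  have hC0 : ∏ p ∈ PF q r \ e.primeFactors, x p ≠ 0 :=
    Finset.prod_ne_zero_iff.2 (fun p hp => hx0 p (hPFp p (Finset.mem_sdiff.1 hp).1))
  have t1 : (Nat.totient q : ℝ) = q * ((∏ p ∈ e.primeFactors, x p) *
      ∏ p ∈ q'.primeFactors \ e.primeFactors, x p) := by
    rw [tot_real, ← hA1]
  have t2 : (Nat.totient r : ℝ) = r * ((∏ p ∈ e.primeFactors, x p) *
      ∏ p ∈ r'.primeFactors \ e.primeFactors, x p) := by
    rw [tot_real, ← hA2]
  unfold Rk
  rw [← he, hR1, t1, t2, hGe, ← hE]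
  have hq2 : ∀ A B C' D' : ℝ, (q : ℝ) * (A * B) * ((r : ℝ) * (A * C')) / (Nat.lcm q r : ℝ) * D' =
      e * (A ^ 2 * (B * C')) * D' := by
    intro A B C' D'
    have : (q : ℝ) * (A * B) * ((r : ℝ) * (A * C')) = ((q : ℝ) * r) * (A ^ 2 * (B * C')) := by ring
    rw [this, hL]
    field_simp
  rw [hq2, hC, hAe]
  field_simp

theorem cc_zero (q r : ℕ) (hq : 0 < q) (hr : 0 < r) (k : ℤ) (p : ℕ) (hp : p ∈ PF q r)
    (hk : (p : ℤ) ∣ k) : cc q r k = 0 := by
  unfold cc
  rw [Finset.card_eq_zero, Finset.filter_eq_empty_iff]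
  rintro ⟨a, b⟩ hz heq
  simp only [Finset.mem_product, RR, Finset.mem_filter, Finset.mem_range] at hz heq
  have hpp : p.Prime := Nat.prime_of_mem_primeFactors hp
  have hcop : Nat.Coprime (cof q r) (cof r q) := cof_coprime hq r
  rcases (mem_PF hq hr hpp).1 hp with h | h
  · have h1 : (p : ℤ) ∣ (a : ℤ) * (cof r q : ℤ) := by
      have : (a : ℤ) * (cof r q : ℤ) = k + (b : ℤ) * (cof q r : ℤ) := by linarith
      rw [this]
      exact dvd_add hk (Dvd.dvd.mul_left (by exact_mod_cast h) _)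
    have h2 : p ∣ a * cof r q := by exact_mod_cast h1
    rcases hpp.dvd_mul.1 h2 with h3 | h3
    · have h4 : p ∣ q := h.trans ⟨Nat.gcd q r, by rw [mul_comm]; exact (gcd_mul_cof q r).symm⟩
      exact hpp.one_lt.ne' (Nat.eq_one_of_dvd_coprimes hz.1.2 h3 h4)
    · exact hpp.one_lt.ne' (Nat.eq_one_of_dvd_coprimes hcop h h3)
  · have h1 : (p : ℤ) ∣ (b : ℤ) * (cof q r : ℤ) := by
      have : (b : ℤ) * (cof q r : ℤ) = (a : ℤ) * (cof r q : ℤ) - k := by linarith
      rw [this]
      exact dvd_sub (Dvd.dvd.mul_left (by exact_mod_cast h) _) hk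
    have h2 : p ∣ b * cof q r := by exact_mod_cast h1
    rcases hpp.dvd_mul.1 h2 with h3 | h3
    · have h4 : p ∣ r := h.trans ⟨Nat.gcd q r, by rw [mul_comm]; exact (gcd_mul_cof' q r).symm⟩
      exact hpp.one_lt.ne' (Nat.eq_one_of_dvd_coprimes hz.2.2 h3 h4)
    · exact hpp.one_lt.ne' (Nat.eq_one_of_dvd_coprimes hcop h3 h)

theorem GG_nonneg (q r : ℕ) (k : ℤ) (p : ℕ) (hp : p.Prime) : 0 ≤ GG q r k p := by
  have h2 : (2 : ℝ) ≤ p := by exact_mod_cast hp.two_le
  have h3 : 1 / (p : ℝ) ≤ 1 := by rw [div_le_one (by linarith)]; linarith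
  have h4 : 2 / (p : ℝ) ≤ 1 := by rw [div_le_one (by linarith)]; linarith
  unfold GG; split_ifs <;> linarith

theorem cc_main (q r : ℕ) (hq : 0 < q) (hr : 0 < r) (k : ℤ)
    (hk : ∀ p ∈ PF q r, ¬ (p : ℤ) ∣ k) (a₀ b₀ : ℕ) (ha₀ : a₀ ∈ RR q) (hb₀ : b₀ ∈ RR r)
    (h₀ : (a₀ : ℤ) * (cof r q : ℤ) - (b₀ : ℤ) * (cof q r : ℤ) = k) :
    (cc q r k : ℝ) ≤ (Nat.gcd q r : ℝ) * ∏ p ∈ (Nat.gcd q r).primeFactors, GG q r k p := by
  obtain ⟨e, he⟩ : ∃ e, e = Nat.gcd q r := ⟨_, rfl⟩
  obtain ⟨q', hq'⟩ : ∃ q', q' = cof q r := ⟨_, rfl⟩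
  obtain ⟨r', hr'⟩ : ∃ r', r' = cof r q := ⟨_, rfl⟩
  have hq'0 : 0 < q' := hq' ▸ cof_pos hq r
  have hr'0 : 0 < r' := hr' ▸ cof_pos hr q
  have he0 : 0 < e := he ▸ Nat.gcd_pos_of_pos_left r hq
  have hqe : e * q' = q := by rw [he, hq']; exact gcd_mul_cof q r
  have hre : e * r' = r := by rw [he, hr']; exact gcd_mul_cof' q r
  have hcop : Nat.Coprime q' r' := by rw [hq', hr']; exact cof_coprime hq r
  rw [← hq', ← hr'] at h₀
  rw [← he]
  set X : ℤ := -((a₀ / q' : ℕ) : ℤ) with hX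
  -- the counting set
  have hstep1 : cc q r k ≤ ((Finset.Ico X (X + e)).filter (fun t : ℤ =>
      ∀ p ∈ e.primeFactors, ¬ ((p : ℤ) ∣ (a₀ : ℤ) + q' * t ∨ (p : ℤ) ∣ (b₀ : ℤ) + r' * t))).card := by
    unfold cc
    rw [← hq', ← hr']
    refine Finset.card_le_card_of_injOn (fun z => ((z.1 : ℤ) - a₀) / q') ?_ ?_
    · rintro ⟨a, b⟩ hz
      simp only [Finset.coe_filter, Finset.mem_product, RR, Finset.mem_filter, Finset.mem_range,
        Set.mem_ofPred_eq] at hz
      obtain ⟨⟨⟨haq, hac⟩, ⟨hbr, hbc⟩⟩, heq⟩ := hz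
      have h1 : ((a : ℤ) - a₀) * r' = ((b : ℤ) - b₀) * q' := by linarith
      have h2 : (q' : ℤ) ∣ ((a : ℤ) - a₀) := by
        have h3 : (q' : ℤ) ∣ ((a : ℤ) - a₀) * r' := ⟨(b : ℤ) - b₀, by rw [h1]; ring⟩
        exact IsCoprime.dvd_of_dvd_mul_right (Nat.isCoprime_iff_coprime.2 hcop) h3
      obtain ⟨t, ht⟩ := h2
      have hq'Z : (0 : ℤ) < q' := by exact_mod_cast hq'0
      have ht2 : (b : ℤ) - b₀ = r' * t := by
        have : (q' : ℤ) * ((b : ℤ) - b₀) = q' * (r' * t) := by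
          rw [mul_comm, ← h1, ht]; ring
        exact mul_left_cancel₀ hq'Z.ne' this
      have hdiv : ((a : ℤ) - a₀) / q' = t := by rw [ht]; exact Int.mul_ediv_cancel_left _ hq'Z.ne'
      simp only [Finset.coe_filter, Finset.mem_Ico, Set.mem_ofPred_eq, hdiv]
      have haeq : (a : ℤ) = a₀ + q' * t := by linarith
      have hbeq : (b : ℤ) = b₀ + r' * t := by linarith
      have hdm : (a₀ : ℤ) = q' * ((a₀ / q' : ℕ) : ℤ) + ((a₀ % q' : ℕ) : ℤ) := by
        exact_mod_cast (Nat.div_add_mod a₀ q').symm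
      have hml : ((a₀ % q' : ℕ) : ℤ) < q' := by exact_mod_cast Nat.mod_lt a₀ hq'0
      have hm0 : (0 : ℤ) ≤ ((a₀ % q' : ℕ) : ℤ) := by positivity
      have ha0 : (0 : ℤ) ≤ a := by positivity
      have haq' : (a : ℤ) < e * q' := by
        have : a < e * q' := by rw [hqe]; exact haq
        exact_mod_cast this
      refine ⟨⟨?_, ?_⟩, ?_⟩
      · -- lower bound
        by_contra hcon
        push Not at hcon
        have h5 : t + ((a₀ / q' : ℕ) : ℤ) ≤ -1 := by rw [hX] at hcon; linarith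
        nlinarith
      · by_contra hcon
        push Not at hcon
        have h5 : (e : ℤ) ≤ t + ((a₀ / q' : ℕ) : ℤ) := by rw [hX] at hcon; linarith
        nlinarith
      · intro p hp
        have hpp := Nat.prime_of_mem_primeFactors hp
        have hpe : p ∣ e := Nat.dvd_of_mem_primeFactors hp
        rw [← haeq, ← hbeq]
        rintro (h | h)
        · have h6 : p ∣ a := by exact_mod_cast h
          have h7 : p ∣ q := hpe.trans ⟨q', hqe.symm⟩
          exact hpp.one_lt.ne' (Nat.eq_one_of_dvd_coprimes hac h6 h7)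
        · have h6 : p ∣ b := by exact_mod_cast h
          have h7 : p ∣ r := hpe.trans ⟨r', hre.symm⟩
          exact hpp.one_lt.ne' (Nat.eq_one_of_dvd_coprimes hbc h6 h7)
    · rintro ⟨a, b⟩ hz ⟨a', b'⟩ hz' hEq
      simp only [Finset.coe_filter, Finset.mem_product, RR, Finset.mem_filter, Finset.mem_range,
        Set.mem_ofPred_eq] at hz hz' hEq
      have hq'Z : (0 : ℤ) < q' := by exact_mod_cast hq'0
      have key : ∀ a b : ℕ, (a : ℤ) * (r' : ℤ) - (b : ℤ) * (q' : ℤ) = k →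
          (a : ℤ) - a₀ = q' * (((a : ℤ) - a₀) / q') := by
        intro a b heq
        have h1 : ((a : ℤ) - a₀) * r' = ((b : ℤ) - b₀) * q' := by linarith
        have h2 : (q' : ℤ) ∣ ((a : ℤ) - a₀) := by
          have h3 : (q' : ℤ) ∣ ((a : ℤ) - a₀) * r' := ⟨(b : ℤ) - b₀, by rw [h1]; ring⟩
          exact IsCoprime.dvd_of_dvd_mul_right (Nat.isCoprime_iff_coprime.2 hcop) h3
        exact (Int.mul_ediv_cancel' h2).symm
      have k1 := key a b hz.2
      have k2 := key a' b' hz'.2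
      have haa : (a : ℤ) = a' := by
        have : (a : ℤ) - a₀ = (a' : ℤ) - a₀ := by rw [k1, k2, hEq]
        linarith
      have hbb : (b : ℤ) = b' := by
        have h1 : (b : ℤ) * q' = (b' : ℤ) * q' := by
          have := hz.2
          have := hz'.2
          rw [haa] at *
          linarith
        exact mul_right_cancel₀ hq'Z.ne' h1
      have e1 : a = a' := by exact_mod_cast haa
      have e2 : b = b' := by exact_mod_cast hbb
      rw [e1, e2]
  -- as a sum of products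
  have hstep2 : (((Finset.Ico X (X + e)).filter (fun t : ℤ =>
      ∀ p ∈ e.primeFactors, ¬ ((p : ℤ) ∣ (a₀ : ℤ) + q' * t ∨ (p : ℤ) ∣ (b₀ : ℤ) + r' * t))).card : ℝ)
      = ∑ t ∈ Finset.Ico X (X + e), ∏ p ∈ e.primeFactors, ff a₀ b₀ q' r' p t := by
    rw [Finset.card_filter]
    push_cast
    refine Finset.sum_congr rfl (fun t _ => ?_)
    split_ifs with h
    · rw [Finset.prod_eq_one]
      intro p hp
      unfold ff
      rw [if_neg (h p hp)]
    · push Not at h
      obtain ⟨p, hp, hp2⟩ := h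
      rw [Finset.prod_eq_zero hp]
      unfold ff
      rw [if_pos hp2]
  have hstep3 := crt_sum e.primeFactors (fun p hp => Nat.prime_of_mem_primeFactors hp)
    (ff a₀ b₀ q' r') (fun p _ k => ff_per a₀ b₀ q' r' p k) e (Nat.prod_primeFactors_dvd e) X
  calc (cc q r k : ℝ) ≤ _ := by exact_mod_cast hstep1
    _ = _ := hstep2
    _ = _ := hstep3
    _ ≤ (e : ℝ) * ∏ p ∈ e.primeFactors, GG q r k p := by
      refine mul_le_mul_of_nonneg_left ?_ (by positivity)
      refine Finset.prod_le_prod (fun p hp => ?_) (fun p hp => ?_)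
      · exact div_nonneg (Finset.sum_nonneg (fun k _ => ff_nonneg _ _ _ _ _ _)) (by positivity)
      · have hpp := Nat.prime_of_mem_primeFactors hp
        have hpe : p ∣ e := Nat.dvd_of_mem_primeFactors hp
        have hp0 : (0 : ℝ) < p := by exact_mod_cast hpp.pos
        have hone : ∀ k₁ : ℕ, k₁ ∈ Finset.range p → ff a₀ b₀ q' r' p k₁ = 0 →
            (∑ k ∈ Finset.range p, ff a₀ b₀ q' r' p (k : ℤ)) / (p : ℝ) ≤ 1 - 1 / (p : ℝ) := by
          intro k₁ h1 h2
          rw [div_le_iff₀ hp0]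
          have := sum_ff_le_one a₀ b₀ q' r' p k₁ h1 h2
          have e1 : (1 - 1 / (p : ℝ)) * p = p - 1 := by field_simp
          linarith
        by_cases hPFm : p ∈ PF q r
        · have hG : GG q r k p = 1 - 1 / (p : ℝ) := by unfold GG; rw [if_pos hPFm]
          rw [hG]
          rcases (mem_PF hq hr hpp).1 hPFm with h | h
          · -- p ∣ q', so p does not divide r'
            rw [← hq'] at h
            have hnr : ¬ (p : ℤ) ∣ (r' : ℤ) := by
              intro h'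
              have h'' : p ∣ r' := by exact_mod_cast h'
              exact hpp.one_lt.ne' (Nat.eq_one_of_dvd_coprimes hcop h h'')
            obtain ⟨k₁, hk₁, hd⟩ := exists_sol p hpp b₀ r' hnr
            exact hone k₁ hk₁ (by unfold ff; rw [if_pos (Or.inr hd)])
          · rw [← hr'] at h
            have hnq : ¬ (p : ℤ) ∣ (q' : ℤ) := by
              intro h'
              have h'' : p ∣ q' := by exact_mod_cast h'
              exact hpp.one_lt.ne' (Nat.eq_one_of_dvd_coprimes hcop h'' h)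
            obtain ⟨k₁, hk₁, hd⟩ := exists_sol p hpp a₀ q' hnq
            exact hone k₁ hk₁ (by unfold ff; rw [if_pos (Or.inl hd)])
        · have hnd : ¬ (p ∣ cof q r ∨ p ∣ cof r q) := fun h => hPFm ((mem_PF hq hr hpp).2 h)
          push Not at hnd
          rw [← hq', ← hr'] at hnd
          have hnq : ¬ (p : ℤ) ∣ (q' : ℤ) := fun h' => hnd.1 (by exact_mod_cast h')
          have hnr : ¬ (p : ℤ) ∣ (r' : ℤ) := fun h' => hnd.2 (by exact_mod_cast h')
          obtain ⟨k₁, hk₁, hd₁⟩ := exists_sol p hpp a₀ q' hnq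
          obtain ⟨k₂, hk₂, hd₂⟩ := exists_sol p hpp b₀ r' hnr
          by_cases hpk : (p : ℤ) ∣ k
          · have hG : GG q r k p = 1 - 1 / (p : ℝ) := by
              unfold GG; rw [if_neg hPFm, if_pos hpk]
            rw [hG]
            exact hone k₁ hk₁ (by unfold ff; rw [if_pos (Or.inl hd₁)])
          · have hG : GG q r k p = 1 - 2 / (p : ℝ) := by
              unfold GG; rw [if_neg hPFm, if_neg hpk]
            rw [hG]
            have hne : k₁ ≠ k₂ := by
              intro heq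
              apply hpk
              rw [← heq] at hd₂
              have : k = ((a₀ : ℤ) + q' * k₁) * r' - ((b₀ : ℤ) + r' * k₁) * q' := by
                rw [← h₀]; ring
              rw [this]
              exact dvd_sub (Dvd.dvd.mul_right hd₁ _) (Dvd.dvd.mul_right hd₂ _)
            rw [div_le_iff₀ hp0]
            have := sum_ff_le_two a₀ b₀ q' r' p k₁ k₂ hk₁ hk₂ hne
              (by unfold ff; rw [if_pos (Or.inl hd₁)]) (by unfold ff; rw [if_pos (Or.inr hd₂)])
            have e1 : (1 - 2 / (p : ℝ)) * p = p - 2 := by field_simp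
            linarith

/-- TARGET (numerically verified). Notation e = gcd q r, q = e q', r = e r' (q' = cof q r, r' = cof r q), gcd(q',r') = 1. Proof.
If some prime p | q' (say) divides k: a r' - b q' = k gives p | a r', p does not divide r', so p | a, contradiction with gcd(a,q) = 1: cc = 0 and the right side is >= 0 (it is 0).
The same for p | r'. So assume k is coprime to q' r'. If there is no pair, cc = 0 <= right side. Fix one pair (a0,b0) in Z (any solution). Every pair (a,b) counted is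
(a0 + q' t, b0 + r' t) with t an integer; a in [0,q) means that t runs through exactly e consecutive integers t0 <= t < t0 + e (a -> t injective). For a prime p | e we need
p not| a and p not| b. Let f p t = 1 if p not| (a0 + q' t) and p not| (b0 + r' t), else 0 (p-periodic). So cc <= sum_{t0 <= t < t0+e} prod_{p | e} f p t
= e * prod_{p|e} (number of good residues)/p (crt_sum, prod of the primes of e divides e). Number of good residues mod p for a prime p | e:
 p | q' : a0 + q' t = a0 mod p, fine since p not| a0 r' - b0 q' = k; b0 + r' t = 0 has one solution (p not| r'): p - 1 good residues. p | r': the same.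
 p not| q' r': the bad t are -a0/q' and -b0/r' mod p, equal iff a0 r' = b0 q' mod p iff p | k. So p-1 if p | k and p-2 if not.
Right side: phi(q) phi(r)/L = e * prod_{p|e} (1-1/p)^2 * prod_{p | q'r', p not| e} (1-1/p) and Rk = prod_{p | q' r'} (1-1/p)^(-1) * prod_{p|e, p not| q'r'} (...),
where (1-1/p)^2 (1 + 1/(p-1)) = 1 - 1/p and (1-1/p)^2 (1 - 1/(p-1)^2) = 1 - 2/p. So both sides agree prime by prime. -/
theorem cc_le (q r : ℕ) (hq : 0 < q) (hr : 0 < r) (k : ℤ) :
    (cc q r k : ℝ) ≤ (Nat.totient q : ℝ) * (Nat.totient r : ℝ) / (Nat.lcm q r : ℝ) * Rk q r k := by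
  by_cases hk : ∀ p ∈ PF q r, ¬ (p : ℤ) ∣ k
  · rw [rhs_eq q r hq hr k hk]
    rcases Nat.eq_zero_or_pos (cc q r k) with h0 | h0
    · rw [h0]
      have : 0 ≤ ∏ p ∈ (Nat.gcd q r).primeFactors, GG q r k p :=
        Finset.prod_nonneg (fun p hp => GG_nonneg q r k p (Nat.prime_of_mem_primeFactors hp))
      rw [Nat.cast_zero]
      exact mul_nonneg (Nat.cast_nonneg _) this
    · unfold cc at h0
      obtain ⟨⟨a, b⟩, hz⟩ := Finset.card_pos.1 h0
      rw [Finset.mem_filter, Finset.mem_product] at hz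
      exact cc_main q r hq hr k hk a b hz.1.1 hz.1.2 hz.2
  · push Not at hk
    obtain ⟨p, hp, hpk⟩ := hk
    rw [cc_zero q r hq hr k p hp hpk]
    have : Rk q r k = 0 := by
      unfold Rk
      rw [Finset.prod_eq_zero hp (by rw [if_pos hpk]), zero_mul]
    rw [this]
    simp

end Pool.Agent.H560DS
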