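import Pool.Agent.H560DS.Defs
import Pool.Agent.H560DS.DS11

set_option autoImplicit false

namespace Pool.Agent.H560DS

open Finset

/-! DS13: window sums of a periodic function of mean one -/

/-- TARGET. Proof: W = prod S >= 1. The set KS c D = integers in the open interval (c-D, c+D) is contained in an Ico X (X + n) with n < 2D + 1 integers (n = 0 possible);
cover it by m = ceil(n/W) blocks of W consecutive integers: Ico X (X + m W). All terms are >= 0 and the sum over m W consecutive integers is m W by crt_sum and hmean.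
m W <= n + W - 1 <= 2D + W (n natural, n < 2D+1, m W <= n + W - 1). -/
theorem window_sum (S : Finset ℕ) (hS : ∀ p ∈ S, p.Prime) (f : ℕ → ℤ → ℝ) (hf : ∀ p ∈ S, ∀ k : ℤ, 0 ≤ f p k)
    (hper : ∀ p ∈ S, ∀ k : ℤ, f p (k + p) = f p k) (hmean : ∀ p ∈ S, ∑ k ∈ Finset.range p, f p (k : ℤ) = p) (c D : ℝ) (hD : 0 ≤ D) :
    ∑ k ∈ KS c D, ∏ p ∈ S, f p k ≤ 2 * D + ∏ p ∈ S, (p : ℝ) := by
  classical
  have hWpos : 0 < ∏ p ∈ S, p := Finset.prod_pos (fun p hp => (hS p hp).pos)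
  obtain ⟨W, hW⟩ : ∃ W : ℕ, W = ∏ p ∈ S, p := ⟨_, rfl⟩
  rw [← hW] at hWpos
  have hcast : (∏ p ∈ S, (p : ℝ)) = (W : ℝ) := by rw [hW]; push_cast; rfl
  rw [hcast]
  obtain ⟨X, hX⟩ : ∃ X : ℤ, X = ⌊c - D⌋ + 1 := ⟨_, rfl⟩
  obtain ⟨Y, hY⟩ : ∃ Y : ℤ, Y = ⌈c + D⌉ := ⟨_, rfl⟩
  obtain ⟨n, hn⟩ : ∃ n : ℕ, n = (Y - X).toNat := ⟨_, rfl⟩
  obtain ⟨m, hm⟩ : ∃ m : ℕ, m = (n + W - 1) / W := ⟨_, rfl⟩
  have hmW : m * W ≤ n + W - 1 := by rw [hm]; exact Nat.div_mul_le_self _ _
  have hnm : n ≤ m * W := by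
    have h1 : n + W - 1 < W * ((n + W - 1) / W) + W := by
      have h2 := Nat.div_add_mod (n + W - 1) W
      have h3 := Nat.mod_lt (n + W - 1) hWpos
      omega
    rw [← hm, Nat.mul_comm] at h1
    omega
  have hsub : KS c D ⊆ Finset.Ico X (X + (m * W : ℕ)) := by
    intro k hk
    unfold KS at hk
    rw [Finset.mem_filter] at hk
    have habs := abs_lt.mp hk.2
    have hk1 : X ≤ k := by
      have : ⌊c - D⌋ < k := by
        rw [Int.floor_lt]; linarith [habs.1]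
      omega
    have hk2 : k < Y := by
      rw [hY, Int.lt_ceil]; linarith [habs.2]
    rw [Finset.mem_Ico]
    refine ⟨hk1, ?_⟩
    have h4 : (n : ℤ) ≤ (m * W : ℕ) := by exact_mod_cast hnm
    have h5 : Y - X ≤ (n : ℤ) := by rw [hn]; exact Int.self_le_toNat _
    omega
  have hper0 := crt_sum S hS f hper (m * W) (by rw [← hW]; exact Dvd.intro_left m rfl) X
  have hone : ∏ p ∈ S, ((∑ k ∈ Finset.range p, f p (k : ℤ)) / (p : ℝ)) = 1 := by
    apply Finset.prod_eq_one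
    intro p hp
    rw [hmean p hp, div_self]
    have := (hS p hp).pos
    positivity
  rw [hone, mul_one] at hper0
  have hle : ∑ k ∈ KS c D, ∏ p ∈ S, f p k ≤ ∑ k ∈ Finset.Ico X (X + (m * W : ℕ)), ∏ p ∈ S, f p k := by
    apply Finset.sum_le_sum_of_subset_of_nonneg hsub
    intro k _ _
    exact Finset.prod_nonneg (fun p hp => hf p hp k)
  refine hle.trans ?_
  rw [hper0]
  by_cases hn0 : n = 0
  · have hm0 : m * W ≤ W - 1 := by rw [hn0] at hmW; simpa using hmW
    have : m * W ≤ W := hm0.trans (Nat.sub_le _ _)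
    have h6 : ((m * W : ℕ) : ℝ) ≤ (W : ℝ) := by exact_mod_cast this
    linarith
  · have h7 : (n : ℤ) = Y - X := by
      rw [hn]
      apply Int.toNat_of_nonneg
      omega
    have h8 : (n : ℝ) = (Y : ℝ) - (X : ℝ) := by
      have : ((n : ℤ) : ℝ) = ((Y - X : ℤ) : ℝ) := by rw [h7]
      push_cast at this
      exact this
    have h9 : (Y : ℝ) < c + D + 1 := by rw [hY]; exact Int.ceil_lt_add_one _
    have h10 : c - D < (X : ℝ) := by
      rw [hX]; push_cast
      exact Int.lt_floor_add_one _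
    have h11 : m * W + 1 ≤ n + W := by omega
    have h12 : ((m * W : ℕ) : ℝ) + 1 ≤ (n : ℝ) + (W : ℝ) := by exact_mod_cast h11
    linarith

end Pool.Agent.H560DS
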