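import Pool.Agent.H560DS.Defs
import Pool.Agent.H560DS.DS12

set_option autoImplicit false

namespace Pool.Agent.H560DS

open Finset

/-! DS14: the overlap is an average of window sums -/

theorem ds14_cof_mul (q r : ℕ) : q * cof r q = Nat.lcm q r := by
  unfold cof
  rw [Nat.gcd_comm r q, Nat.lcm, ← Nat.mul_div_assoc _ (Nat.gcd_dvd_right q r)]

theorem ds14_mem_KS {c D : ℝ} {k : ℤ} (h : |(k : ℝ) - c| < D) : k ∈ KS c D := by
  unfold KS
  rw [Finset.mem_filter, Finset.mem_Icc]
  have h' := abs_lt.1 h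
  refine ⟨⟨?_, ?_⟩, h⟩
  · rw [Int.ceil_le]; linarith
  · rw [Int.le_floor]; linarith

theorem ds14_mem_KS' {c D : ℝ} {k : ℤ} (h : k ∈ KS c D) : |(k : ℝ) - c| < D := by
  unfold KS at h
  exact (Finset.mem_filter.1 h).2

theorem ds14_Rk_comm (q r : ℕ) (k : ℤ) : Rk r q k = Rk q r (-k) := by
  unfold Rk PF
  simp only [Int.dvd_neg, Nat.gcd_comm r q, mul_comm (cof r q) (cof q r)]

theorem ds14_sum_comm (q r : ℕ) (c D : ℝ) :
    ∑ k ∈ KS c D, Rk r q k = ∑ k ∈ KS (-c) D, Rk q r k := by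
  refine Finset.sum_nbij' (fun k => -k) (fun k => -k) ?_ ?_ ?_ ?_ ?_
  · intro k hk
    apply ds14_mem_KS
    have := ds14_mem_KS' hk
    rw [← abs_neg]
    push_cast
    convert this using 2
    ring
  · intro k hk
    apply ds14_mem_KS
    have := ds14_mem_KS' hk
    rw [← abs_neg]
    push_cast
    convert this using 2
    ring
  · intro k _; simp
  · intro k _; simp
  · intro k _; exact ds14_Rk_comm q r k

/-- volume of an intersection of two intervals -/
theorem ds14_vol (x y al be : ℝ) :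
    MeasureTheory.volume.real (Set.Ioo (x - al) (x + al) ∩ Set.Ioo (y - be) (y + be)) =
      ∫ u in Set.Ioo (-be) be, (if |x - y - u| < al then (1 : ℝ) else 0) := by
  have hset : Set.Ioo (x - al) (x + al) ∩ Set.Ioo (y - be) (y + be) =
      (fun u => u + (-y)) ⁻¹' ({u | |x - y - u| < al} ∩ Set.Ioo (-be) be) := by
    ext u
    simp only [Set.mem_inter_iff, Set.mem_Ioo, Set.mem_preimage, Set.mem_ofPred_eq, abs_lt]
    constructor
    · rintro ⟨⟨h1, h2⟩, h3, h4⟩
      exact ⟨⟨by linarith, by linarith⟩, by linarith, by linarith⟩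
    · rintro ⟨⟨h1, h2⟩, h3, h4⟩
      exact ⟨⟨by linarith, by linarith⟩, by linarith, by linarith⟩
  have hm : MeasurableSet {u : ℝ | |x - y - u| < al} := by
    apply IsOpen.measurableSet
    exact isOpen_lt (by fun_prop) continuous_const
  rw [hset, MeasureTheory.measureReal_def, MeasureTheory.measure_preimage_add_right]
  have e : (fun u : ℝ => (if |x - y - u| < al then (1 : ℝ) else 0)) =
      Set.indicator {u : ℝ | |x - y - u| < al} (fun _ => (1 : ℝ)) := by
    funext u
    simp [Set.indicator]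
  rw [e, MeasureTheory.setIntegral_indicator hm, MeasureTheory.setIntegral_const, smul_eq_mul,
    mul_one, MeasureTheory.measureReal_def, Set.inter_comm]

theorem ds14_intble (x al be : ℝ) : MeasureTheory.IntegrableOn
    (fun u : ℝ => (if |x - u| < al then (1 : ℝ) else 0)) (Set.Ioo (-be) be) := by
  have hm : MeasurableSet {u : ℝ | |x - u| < al} := by
    apply IsOpen.measurableSet
    exact isOpen_lt (by fun_prop) continuous_const
  have e : (fun u : ℝ => (if |x - u| < al then (1 : ℝ) else 0)) =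
      Set.indicator {u : ℝ | |x - u| < al} (fun _ => (1 : ℝ)) := by
    funext u
    simp [Set.indicator]
  rw [e]
  apply MeasureTheory.IntegrableOn.indicator _ hm
  exact MeasureTheory.integrableOn_const (by simp)

/-- counting pairs of residues -/
theorem ds14_count (q r : ℕ) (hq : 0 < q) (hr : 0 < r) (al u : ℝ) :
    ∑ a ∈ RR q, ∑ b ∈ RR r, (if |(a : ℝ) / q - (b : ℝ) / r - u| < al then (1 : ℝ) else 0) ≤
      ∑ k ∈ KS ((Nat.lcm q r : ℝ) * u) ((Nat.lcm q r : ℝ) * al), (cc q r k : ℝ) := by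
  have hL : (0 : ℝ) < (Nat.lcm q r : ℝ) := by
    exact_mod_cast Nat.lcm_pos hq hr
  have hqr : (0 : ℝ) < q := by exact_mod_cast hq
  have hrr : (0 : ℝ) < r := by exact_mod_cast hr
  rw [← Finset.sum_product', ← Finset.sum_filter, Finset.sum_const, nsmul_eq_mul, mul_one]
  rw [← Nat.cast_sum]
  norm_cast
  have hmaps : ∀ z ∈ (RR q ×ˢ RR r).filter
      (fun z : ℕ × ℕ => |(z.1 : ℝ) / q - (z.2 : ℝ) / r - u| < al),
      ((z.1 : ℤ) * (cof r q : ℤ) - (z.2 : ℤ) * (cof q r : ℤ)) ∈
        KS ((Nat.lcm q r : ℝ) * u) ((Nat.lcm q r : ℝ) * al) := by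
    intro z hz
    have hz := (Finset.mem_filter.1 hz).2
    apply ds14_mem_KS
    have e1 : (q : ℝ) * (cof r q : ℝ) = (Nat.lcm q r : ℝ) := by
      exact_mod_cast ds14_cof_mul q r
    have e2 : (r : ℝ) * (cof q r : ℝ) = (Nat.lcm q r : ℝ) := by
      rw [Nat.lcm_comm]
      exact_mod_cast ds14_cof_mul r q
    have e3 : (((z.1 : ℤ) * (cof r q : ℤ) - (z.2 : ℤ) * (cof q r : ℤ) : ℤ) : ℝ) -
        (Nat.lcm q r : ℝ) * u = (Nat.lcm q r : ℝ) * ((z.1 : ℝ) / q - (z.2 : ℝ) / r - u) := by
      have f1 : (Nat.lcm q r : ℝ) * ((z.1 : ℝ) / q) = z.1 * (cof r q : ℝ) := by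
        rw [← e1]; field_simp
      have f2 : (Nat.lcm q r : ℝ) * ((z.2 : ℝ) / r) = z.2 * (cof q r : ℝ) := by
        rw [← e2]; field_simp
      rw [mul_sub, mul_sub, f1, f2]
      push_cast
      ring
    rw [e3, abs_mul, abs_of_pos hL]
    exact mul_lt_mul_of_pos_left hz hL
  rw [Finset.card_eq_sum_card_fiberwise hmaps]
  apply Finset.sum_le_sum
  intro k _
  unfold cc
  apply Finset.card_le_card
  intro z hz
  rw [Finset.mem_filter] at hz ⊢
  exact ⟨(Finset.mem_filter.1 hz.1).1, hz.2⟩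

theorem ds14_main (ψ : ℕ → ℝ) (hψ : ∀ q, 0 ≤ ψ q) (q r : ℕ) (hq : 0 < q) (hr : 0 < r)
    (hle : ψ r / r ≤ ψ q / q) (hD : 0 < DD ψ q r) (S : ℝ)
    (hS : ∀ c : ℝ, |c| ≤ DD ψ q r → ∑ k ∈ KS c (DD ψ q r), Rk q r k ≤ S) :
    EE ψ q r ≤ mm ψ q * mm ψ r * (S / (2 * DD ψ q r)) := by
  have hL : (0 : ℝ) < (Nat.lcm q r : ℝ) := by
    exact_mod_cast Nat.lcm_pos hq hr
  have hqr : (0 : ℝ) < q := by exact_mod_cast hq
  have hrr : (0 : ℝ) < r := by exact_mod_cast hr
  have e1 : (q : ℝ) * (cof r q : ℝ) = (Nat.lcm q r : ℝ) := by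
    exact_mod_cast ds14_cof_mul q r
  have e2 : (r : ℝ) * (cof q r : ℝ) = (Nat.lcm q r : ℝ) := by
    rw [Nat.lcm_comm]
    exact_mod_cast ds14_cof_mul r q
  have f1 : (cof r q : ℝ) * ψ q = (Nat.lcm q r : ℝ) * (ψ q / q) := by
    rw [← e1]; field_simp
  have f2 : (cof q r : ℝ) * ψ r = (Nat.lcm q r : ℝ) * (ψ r / r) := by
    rw [← e2]; field_simp
  have hDD : DD ψ q r = (Nat.lcm q r : ℝ) * (ψ q / q) := by
    unfold DD
    rw [f1, f2]
    exact max_eq_left (mul_le_mul_of_nonneg_left hle hL.le)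
  have hbe : 0 ≤ ψ r / r := div_nonneg (hψ r) hrr.le
  have hEE : EE ψ q r = ∫ u in Set.Ioo (-(ψ r / r)) (ψ r / r), ∑ a ∈ RR q, ∑ b ∈ RR r,
      (if |(a : ℝ) / q - (b : ℝ) / r - u| < ψ q / q then (1 : ℝ) else 0) := by
    rw [MeasureTheory.integral_finsetSum]
    · unfold EE
      apply Finset.sum_congr rfl
      intro a _
      rw [MeasureTheory.integral_finsetSum]
      · apply Finset.sum_congr rfl
        intro b _
        exact ds14_vol _ _ _ _
      · intro b _
        exact ds14_intble _ _ _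
    · intro a _
      apply MeasureTheory.integrable_finsetSum
      intro b _
      exact ds14_intble _ _ _
  have hbound : ∀ u ∈ Set.Ioo (-(ψ r / r)) (ψ r / r), ∑ a ∈ RR q, ∑ b ∈ RR r,
      (if |(a : ℝ) / q - (b : ℝ) / r - u| < ψ q / q then (1 : ℝ) else 0) ≤
        (Nat.totient q : ℝ) * (Nat.totient r : ℝ) / (Nat.lcm q r : ℝ) * S := by
    intro u hu
    refine (ds14_count q r hq hr _ u).trans ?_
    rw [← hDD]
    calc ∑ k ∈ KS ((Nat.lcm q r : ℝ) * u) (DD ψ q r), (cc q r k : ℝ)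
        ≤ ∑ k ∈ KS ((Nat.lcm q r : ℝ) * u) (DD ψ q r),
          (Nat.totient q : ℝ) * (Nat.totient r : ℝ) / (Nat.lcm q r : ℝ) * Rk q r k :=
          Finset.sum_le_sum fun k _ => cc_le q r hq hr k
      _ = (Nat.totient q : ℝ) * (Nat.totient r : ℝ) / (Nat.lcm q r : ℝ) *
          ∑ k ∈ KS ((Nat.lcm q r : ℝ) * u) (DD ψ q r), Rk q r k := by rw [Finset.mul_sum]
      _ ≤ _ := by
          apply mul_le_mul_of_nonneg_left _ (by positivity)
          apply hS
          rw [abs_mul, abs_of_pos hL, hDD]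
          apply mul_le_mul_of_nonneg_left _ hL.le
          exact (abs_lt.2 hu).le.trans hle
  rw [hEE]
  calc (∫ u in Set.Ioo (-(ψ r / r)) (ψ r / r), ∑ a ∈ RR q, ∑ b ∈ RR r,
      (if |(a : ℝ) / q - (b : ℝ) / r - u| < ψ q / q then (1 : ℝ) else 0))
      ≤ ∫ _ in Set.Ioo (-(ψ r / r)) (ψ r / r),
        (Nat.totient q : ℝ) * (Nat.totient r : ℝ) / (Nat.lcm q r : ℝ) * S := by
        apply MeasureTheory.setIntegral_mono_on _ _ measurableSet_Ioo hbound
        · apply MeasureTheory.integrable_finsetSum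
          intro a _
          apply MeasureTheory.integrable_finsetSum
          intro b _
          exact ds14_intble _ _ _
        · exact MeasureTheory.integrableOn_const (by simp)
    _ = 2 * (ψ r / r) * ((Nat.totient q : ℝ) * (Nat.totient r : ℝ) / (Nat.lcm q r : ℝ) * S) := by
        rw [MeasureTheory.setIntegral_const, Real.volume_real_Ioo_of_le (by linarith), smul_eq_mul]
        ring
    _ = mm ψ q * mm ψ r * (S / (2 * DD ψ q r)) := by
        have hal : ψ q / q ≠ 0 := by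
          intro h0
          rw [hDD, h0, mul_zero] at hD
          exact lt_irrefl _ hD
        have hψq : ψ q ≠ 0 := by
          intro h0
          apply hal
          rw [h0, zero_div]
        rw [hDD]
        unfold mm
        field_simp

/-- TARGET. Proof. Everything is symmetric in q and r (Rk q r k = Rk r q (-k), KS symmetric), so assume psi q/q >= psi r/r; al = psi q/q, be = psi r/r, L = lcm q r = q * cof r q = r * cof q r.
Then DD psi q r = L * al =: D (cof r q * psi q = L * al >= cof q r * psi r = L * be), so al > 0. If be = 0 then EE = 0. For a, b: translating by b/r,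
volume (I_a cap J_b) = volume {u in (-be, be) : |a/q - b/r - u| < al}. Hence EE = integral over u in (-be,be) of N(u), N(u) = number of (a,b) in RR q x RR r with |a/q - b/r - u| < al
(sum of integrals of indicators), so EE <= 2 be * sup N(u). a/q - b/r = k/L with k = a * cof r q - b * cof q r, and |k/L - u| < al iff |k - L u| < D.
So N(u) = sum over k in KS (L u) D of cc q r k <= (phi q phi r/L) * sum_{k in KS (L u) D} Rk q r k <= (phi q phi r/L) * S since |L u| < L be <= D.
Finally 2 be phi(q) phi(r)/L * S = mm q * mm r * S/(2 D) because mm q * mm r = 4 al be phi(q) phi(r) and D = L al. -/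
theorem EE_le (ψ : ℕ → ℝ) (hψ : ∀ q, 0 ≤ ψ q) (q r : ℕ) (hq : 0 < q) (hr : 0 < r) (hD : 0 < DD ψ q r) (S : ℝ)
    (hS : ∀ c : ℝ, |c| ≤ DD ψ q r → ∑ k ∈ KS c (DD ψ q r), Rk q r k ≤ S) :
    EE ψ q r ≤ mm ψ q * mm ψ r * (S / (2 * DD ψ q r)) := by
  rcases le_total (ψ r / r) (ψ q / q) with hle | hle
  · exact ds14_main ψ hψ q r hq hr hle hD S hS
  · have hcomm : DD ψ r q = DD ψ q r := by
      unfold DD
      rw [max_comm]
    have hE : EE ψ q r = EE ψ r q := by
      unfold EE
      rw [Finset.sum_comm]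
      simp only [Set.inter_comm]
    rw [hE, ← hcomm, mul_comm (mm ψ q)]
    apply ds14_main ψ hψ r q hr hq hle (by rwa [hcomm])
    intro c hc
    rw [hcomm] at hc ⊢
    rw [ds14_sum_comm]
    apply hS
    rwa [abs_neg]

end Pool.Agent.H560DS
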