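import Pool.Agent.H560DS.Defs
import Pool.Agent.H560DS.DS14

set_option autoImplicit false

namespace Pool.Agent.H560DS

open Finset

/-! DS15: overlap for small and middle D -/

theorem aux_cof_pos (q r : ℕ) (hq : 0 < q) : 0 < cof q r := by
  unfold cof
  exact Nat.div_pos (Nat.le_of_dvd hq (Nat.gcd_dvd_left q r)) (Nat.gcd_pos_of_pos_left r hq)

theorem aux_PF_nonempty (q r : ℕ) (hq : 0 < q) (hr : 0 < r) (hqr : q ≠ r) : (PF q r).Nonempty := by
  unfold PF
  rw [Nat.nonempty_primeFactors]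
  have h1 := aux_cof_pos q r hq
  have h2 := aux_cof_pos r q hr
  by_contra hcon
  have h3 : cof q r * cof r q = 1 := by
    have := Nat.mul_pos h1 h2
    omega
  have h4 : cof q r = 1 := Nat.eq_one_of_mul_eq_one_right h3
  have h5 : cof r q = 1 := by rw [h4, one_mul] at h3; exact h3
  apply hqr
  have e1 : cof q r * Nat.gcd q r = q := Nat.div_mul_cancel (Nat.gcd_dvd_left q r)
  have e2 : cof r q * Nat.gcd r q = r := Nat.div_mul_cancel (Nat.gcd_dvd_left r q)
  rw [h4, one_mul] at e1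
  rw [h5, one_mul, Nat.gcd_comm] at e2
  exact e1.symm.trans e2

theorem aux_Rk_zero (q r : ℕ) (hq : 0 < q) (hr : 0 < r) (hqr : q ≠ r) : Rk q r 0 = 0 := by
  obtain ⟨p, hp⟩ := aux_PF_nonempty q r hq hr hqr
  unfold Rk
  rw [Finset.prod_eq_zero hp (by simp), zero_mul]

theorem aux_DD_nonneg (ψ : ℕ → ℝ) (hψ : ∀ q, 0 ≤ ψ q) (q r : ℕ) : 0 ≤ DD ψ q r := by
  unfold DD
  exact le_max_of_le_left (mul_nonneg (Nat.cast_nonneg _) (hψ q))

theorem aux_mm_nonneg (ψ : ℕ → ℝ) (hψ : ∀ q, 0 ≤ ψ q) (q : ℕ) : 0 ≤ mm ψ q := by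
  unfold mm
  have := hψ q
  positivity

theorem aux_EE_nonneg (ψ : ℕ → ℝ) (q r : ℕ) : 0 ≤ EE ψ q r := by
  unfold EE
  exact Finset.sum_nonneg fun a _ => Finset.sum_nonneg fun b _ => MeasureTheory.measureReal_nonneg

theorem aux_Pz_nonneg (q r : ℕ) : 0 ≤ Pz 0 q r := by
  unfold Pz
  refine Finset.prod_nonneg fun p hp => ?_
  have hp' : p.Prime := Nat.prime_of_mem_primeFactors (Finset.mem_filter.1 hp).1
  have : (1 : ℝ) < p := by exact_mod_cast hp'.one_lt
  exact div_nonneg (by linarith) (by linarith)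

theorem aux_Rk_le (q r : ℕ) (k : ℤ) (hk : k ≠ 0) : Rk q r k ≤ Pz 0 q r * |(k : ℝ)| := by
  have hpr : ∀ p ∈ PF q r, (1 : ℝ) < p := fun p hp => by
    have hp' : p.Prime := Nat.prime_of_mem_primeFactors hp
    exact_mod_cast hp'.one_lt
  have hpr2 : ∀ p ∈ (Nat.gcd q r).primeFactors \ PF q r, (2 : ℝ) ≤ p := fun p hp => by
    have hp' : p.Prime := Nat.prime_of_mem_primeFactors (Finset.mem_sdiff.1 hp).1
    exact_mod_cast hp'.two_le
  have hf : (PF q r).filter (fun p => 0 < p) = PF q r := by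
    refine Finset.filter_true_of_mem fun p hp => ?_
    have hp' : p.Prime := Nat.prime_of_mem_primeFactors hp
    exact hp'.pos
  unfold Rk Pz
  rw [hf]
  refine mul_le_mul ?_ ?_ ?_ ?_
  · refine Finset.prod_le_prod (fun p hp => ?_) (fun p hp => ?_)
    · have := hpr p hp
      split_ifs
      · exact le_rfl
      · exact div_nonneg (by linarith) (by linarith)
    · have := hpr p hp
      split_ifs
      · exact div_nonneg (by linarith) (by linarith)
      · exact le_rfl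
  · -- second product
    have h1 : ∏ p ∈ (Nat.gcd q r).primeFactors \ PF q r,
        (if (p : ℤ) ∣ k then 1 + 1 / ((p : ℝ) - 1) else 1 - 1 / ((p : ℝ) - 1) ^ 2)
        ≤ ∏ p ∈ (Nat.gcd q r).primeFactors \ PF q r, (if (p : ℤ) ∣ k then (p : ℝ) else 1) := by
      refine Finset.prod_le_prod (fun p hp => ?_) (fun p hp => ?_)
      · have := hpr2 p hp
        split_ifs
        · have : 0 ≤ 1 / ((p : ℝ) - 1) := div_nonneg zero_le_one (by linarith)
          linarith
        · rw [sub_nonneg, div_le_one (by nlinarith)]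
          nlinarith
      · have := hpr2 p hp
        split_ifs
        · rw [← sub_nonneg]
          have h2 : (p : ℝ) - 1 ≠ 0 := by linarith
          have : (p : ℝ) - (1 + 1 / ((p : ℝ) - 1)) = (p : ℝ) * (p - 2) / (p - 1) := by
            field_simp; ring
          rw [this]
          exact div_nonneg (mul_nonneg (by linarith) (by linarith)) (by linarith)
        · have : 0 ≤ 1 / ((p : ℝ) - 1) ^ 2 := by positivity
          linarith
    refine h1.trans ?_
    rw [← Finset.prod_filter]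
    have h2 : ((Nat.gcd q r).primeFactors \ PF q r).filter (fun p : ℕ => (p : ℤ) ∣ k) ⊆ k.natAbs.primeFactors := by
      intro p hp
      rw [Finset.mem_filter, Finset.mem_sdiff] at hp
      rw [Nat.mem_primeFactors]
      refine ⟨Nat.prime_of_mem_primeFactors hp.1.1, ?_, Int.natAbs_ne_zero.2 hk⟩
      exact Int.natCast_dvd.1 hp.2
    have h3 : ∏ p ∈ ((Nat.gcd q r).primeFactors \ PF q r).filter (fun p : ℕ => (p : ℤ) ∣ k), p
        ≤ ∏ p ∈ k.natAbs.primeFactors, p := by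
      refine Finset.prod_le_prod_of_subset_of_one_le' h2 fun p hp _ => ?_
      exact (Nat.prime_of_mem_primeFactors hp).one_lt.le
    have h4 : ∏ p ∈ k.natAbs.primeFactors, p ≤ k.natAbs :=
      Nat.le_of_dvd (Int.natAbs_pos.2 hk) (Nat.prod_primeFactors_dvd _)
    have h5 : ((∏ p ∈ ((Nat.gcd q r).primeFactors \ PF q r).filter (fun p : ℕ => (p : ℤ) ∣ k), p : ℕ) : ℝ)
        ≤ ((k.natAbs : ℕ) : ℝ) := by exact_mod_cast h3.trans h4
    rw [Nat.cast_prod] at h5
    refine h5.trans (le_of_eq ?_)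
    rw [Nat.cast_natAbs, Int.cast_abs]
  · refine Finset.prod_nonneg fun p hp => ?_
    have := hpr2 p hp
    split_ifs
    · have : 0 ≤ 1 / ((p : ℝ) - 1) := div_nonneg zero_le_one (by linarith)
      linarith
    · rw [sub_nonneg, div_le_one (by nlinarith)]
      nlinarith
  · refine Finset.prod_nonneg fun p hp => ?_
    have := hpr p hp
    exact div_nonneg (by linarith) (by linarith)

theorem aux_KS_card (c D : ℝ) (hD : 0 ≤ D) : ((KS c D).card : ℝ) ≤ 2 * D + 1 := by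
  unfold KS
  have h1 : (((Finset.Icc ⌈c - D⌉ ⌊c + D⌋).filter (fun k : ℤ => |(k : ℝ) - c| < D)).card : ℝ)
      ≤ ((Finset.Icc ⌈c - D⌉ ⌊c + D⌋).card : ℝ) := by exact_mod_cast Finset.card_filter_le _ _
  refine h1.trans ?_
  rw [Int.card_Icc]
  have h2 : (⌈c - D⌉ : ℝ) ≥ c - D := Int.le_ceil _
  have h3 : (⌊c + D⌋ : ℝ) ≤ c + D := Int.floor_le _
  rcases le_or_gt 0 (⌊c + D⌋ + 1 - ⌈c - D⌉) with h | h
  · have : (((⌊c + D⌋ + 1 - ⌈c - D⌉).toNat : ℕ) : ℝ) = ((⌊c + D⌋ + 1 - ⌈c - D⌉ : ℤ) : ℝ) := by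
      exact_mod_cast Int.toNat_of_nonneg h
    rw [this]
    push_cast
    linarith
  · rw [Int.toNat_of_nonpos h.le]
    push_cast
    linarith

theorem aux_KS_abs (c D : ℝ) (hc : |c| ≤ D) (k : ℤ) (hk : k ∈ KS c D) : |(k : ℝ)| < 2 * D := by
  unfold KS at hk
  rw [Finset.mem_filter] at hk
  have h1 := hk.2
  rw [abs_lt] at h1 ⊢
  rw [abs_le] at hc
  constructor <;> linarith

/-- TARGET 1. Proof: if DD = 0 then psi q = psi r = 0 (the cofactors are positive) and all intervals are empty. If 0 < DD < 1/2: for |c| <= DD and k in KS c DD: |k| < 2 DD < 1 so k = 0, and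
Rk q r 0 = 0 because PF q r is nonempty (q /= r, so cof q r * cof r q > 1) and every prime divides 0. So S = 0 works in EE_le, and EE >= 0. -/
theorem EE_small (ψ : ℕ → ℝ) (hψ : ∀ q, 0 ≤ ψ q) (q r : ℕ) (hq : 0 < q) (hr : 0 < r) (hqr : q ≠ r) (hD : DD ψ q r < 1 / 2) :
    EE ψ q r = 0 := by
  rcases (aux_DD_nonneg ψ hψ q r).eq_or_lt with h0 | h0
  · have h1 : (cof r q : ℝ) * ψ q ≤ 0 := by rw [h0]; exact le_max_left _ _
    have c1 : (0 : ℝ) < cof r q := by exact_mod_cast aux_cof_pos r q hr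
    have h2 : ψ q = 0 := by nlinarith [hψ q]
    unfold EE
    refine Finset.sum_eq_zero fun a _ => Finset.sum_eq_zero fun b _ => ?_
    rw [h2]
    simp
  · refine le_antisymm ?_ (aux_EE_nonneg ψ q r)
    have h1 := EE_le ψ hψ q r hq hr h0 0 (fun c hc => ?_)
    · rw [zero_div, mul_zero] at h1; exact h1
    · refine le_of_eq (Finset.sum_eq_zero fun k hk => ?_)
      have h2 := aux_KS_abs c _ hc k hk
      have h3 : |(k : ℝ)| < 1 := by linarith
      have h4 : |k| < 1 := by exact_mod_cast h3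
      have h5 : k = 0 := Int.abs_lt_one_iff.1 h4
      rw [h5]
      exact aux_Rk_zero q r hq hr hqr

/-- TARGET 2. Proof: D = DD >= 1/2, |c| <= D, k in KS c D: |k| < 2D; Rk q r 0 = 0 (as in TARGET 1); for k /= 0: Rk q r k <= Pz 0 q r * prod_{p | k} p/(p-1) <= Pz 0 q r * |k|
(the factors 1 - 1/(p-1)^2 are <= 1 and >= 0, 1 + 1/(p-1) = p/(p-1); prod_{p | k} p/(p-1) = |k|/phi(|k|) <= |k|). KS c D has at most 2D + 1 <= 4D elements. So S = Pz * 4D * 2D works in EE_le: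
EE <= mm mm * 8 D^2 Pz/(2D) = 4 D Pz mm mm. -/
theorem EE_mid (ψ : ℕ → ℝ) (hψ : ∀ q, 0 ≤ ψ q) (q r : ℕ) (hq : 0 < q) (hr : 0 < r) (hqr : q ≠ r) (hD : 1 / 2 ≤ DD ψ q r) :
    EE ψ q r ≤ 8 * DD ψ q r * Pz 0 q r * (mm ψ q * mm ψ r) := by
  have h0 : 0 < DD ψ q r := by linarith
  have hP := aux_Pz_nonneg q r
  have h1 := EE_le ψ hψ q r hq hr h0 (8 * DD ψ q r ^ 2 * Pz 0 q r) (fun c hc => ?_)
  · refine h1.trans ?_
    have e : 8 * DD ψ q r ^ 2 * Pz 0 q r / (2 * DD ψ q r) = 4 * DD ψ q r * Pz 0 q r := by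
      field_simp; ring
    rw [e]
    have h2 : 0 ≤ mm ψ q * mm ψ r := mul_nonneg (aux_mm_nonneg ψ hψ q) (aux_mm_nonneg ψ hψ r)
    have h3 : 0 ≤ DD ψ q r * Pz 0 q r := mul_nonneg h0.le hP
    nlinarith [mul_nonneg h2 h3]
  · have h2 : ∀ k ∈ KS c (DD ψ q r), Rk q r k ≤ Pz 0 q r * (2 * DD ψ q r) := by
      intro k hk
      have h3 := aux_KS_abs c _ hc k hk
      by_cases hk0 : k = 0
      · rw [hk0, aux_Rk_zero q r hq hr hqr]
        positivity
      · exact (aux_Rk_le q r k hk0).trans (mul_le_mul_of_nonneg_left h3.le hP)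
    refine (Finset.sum_le_card_nsmul _ _ _ h2).trans ?_
    rw [nsmul_eq_mul]
    have h4 := aux_KS_card c (DD ψ q r) h0.le
    have h5 : ((KS c (DD ψ q r)).card : ℝ) ≤ 4 * DD ψ q r := by linarith
    have h6 : 0 ≤ Pz 0 q r * (2 * DD ψ q r) := by positivity
    calc ((KS c (DD ψ q r)).card : ℝ) * (Pz 0 q r * (2 * DD ψ q r))
        ≤ 4 * DD ψ q r * (Pz 0 q r * (2 * DD ψ q r)) := mul_le_mul_of_nonneg_right h5 h6
      _ = 8 * DD ψ q r ^ 2 * Pz 0 q r := by ring

end Pool.Agent.H560DS
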