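import Pool.Agent.H560DS.Defs
import Pool.Agent.H560DS.DS14
import Pool.Agent.H560DS.DS08

set_option autoImplicit false

namespace Pool.Agent.H560DS

open Finset

/-! DS16: diagonal overlap -/

theorem d4_cof (q : ℕ) (hq : 0 < q) : cof q q = 1 := by
  unfold cof
  rw [Nat.gcd_self, Nat.div_self hq]

theorem d4_PF (q : ℕ) (hq : 0 < q) : PF q q = ∅ := by
  unfold PF
  rw [d4_cof q hq]
  simp

theorem d4_DD (ψ : ℕ → ℝ) (q : ℕ) (hq : 0 < q) : DD ψ q q = ψ q := by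
  unfold DD
  rw [d4_cof q hq]
  simp

theorem d4_Rk (q : ℕ) (hq : 0 < q) (k : ℤ) : Rk q q k =
    ∏ p ∈ q.primeFactors, (if (p : ℤ) ∣ k then 1 + 1 / ((p : ℝ) - 1) else 1 - 1 / ((p : ℝ) - 1) ^ 2) := by
  unfold Rk
  rw [d4_PF q hq, Nat.gcd_self]
  simp

theorem d4_two (q p : ℕ) (hp : p ∈ q.primeFactors) : (2 : ℝ) ≤ p := by
  exact_mod_cast (Nat.prime_of_mem_primeFactors hp).two_le

theorem d4_fac (p : ℝ) (hp : 2 ≤ p) (b : Prop) [Decidable b] :
    0 ≤ (if b then 1 + 1 / (p - 1) else 1 - 1 / (p - 1) ^ 2) ∧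
    (if b then 1 + 1 / (p - 1) else 1 - 1 / (p - 1) ^ 2) ≤ (if b then 1 + 1 / (p - 1) else 1) := by
  have h1 : 0 < p - 1 := by linarith
  split_ifs
  · exact ⟨by positivity, le_rfl⟩
  · constructor
    · rw [sub_nonneg, div_le_one (by positivity)]
      nlinarith
    · have : 0 ≤ 1 / (p - 1) ^ 2 := by positivity
      linarith

theorem d4_Rk_nonneg (q : ℕ) (hq : 0 < q) (k : ℤ) : 0 ≤ Rk q q k := by
  rw [d4_Rk q hq]
  exact Finset.prod_nonneg fun p hp => (d4_fac p (d4_two q p hp) _).1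

theorem d4_Rk_le (q : ℕ) (hq : 0 < q) (k : ℤ) : Rk q q k ≤
    ∏ p ∈ q.primeFactors, (if p ∣ k.natAbs then 1 + 1 / ((p : ℝ) - 1) else 1) := by
  rw [d4_Rk q hq]
  apply Finset.prod_le_prod
  · intro p hp
    exact (d4_fac p (d4_two q p hp) _).1
  · intro p hp
    refine (d4_fac p (d4_two q p hp) _).2.trans (le_of_eq ?_)
    have : ((p : ℤ) ∣ k) ↔ p ∣ k.natAbs := by rw [← Int.natCast_dvd]
    simp only [this]

theorem d4_Rk_zero (q : ℕ) (hq : 0 < q) : Rk q q 0 = (q : ℝ) / (Nat.totient q : ℝ) := by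
  rw [d4_Rk q hq]
  have h := Nat.totient_eq_mul_prod_factors q
  have h' : (Nat.totient q : ℝ) = (q : ℝ) * ∏ p ∈ q.primeFactors, (1 - (p : ℝ)⁻¹) := by
    have h2 := congrArg (fun x : ℚ => (x : ℝ)) h
    push_cast at h2
    exact h2
  have hq0 : (q : ℝ) ≠ 0 := by exact_mod_cast hq.ne'
  have hphi : (Nat.totient q : ℝ) ≠ 0 := by
    exact_mod_cast (Nat.totient_pos.mpr hq).ne'
  rw [eq_div_iff hphi, h']
  have : ∏ p ∈ q.primeFactors, (if (p : ℤ) ∣ 0 then 1 + 1 / ((p : ℝ) - 1) else 1 - 1 / ((p : ℝ) - 1) ^ 2) =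
      ∏ p ∈ q.primeFactors, (1 + 1 / ((p : ℝ) - 1)) := by
    apply Finset.prod_congr rfl
    intro p hp
    rw [if_pos (dvd_zero _)]
  rw [this]
  have h3 : (∏ p ∈ q.primeFactors, (1 + 1 / ((p : ℝ) - 1))) * ∏ p ∈ q.primeFactors, (1 - (p : ℝ)⁻¹) = 1 := by
    rw [← Finset.prod_mul_distrib]
    apply Finset.prod_eq_one
    intro p hp
    have := d4_two q p hp
    have h1 : (p : ℝ) - 1 ≠ 0 := by intro h; linarith
    have h2 : (p : ℝ) ≠ 0 := by intro h; linarith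
    field_simp
    ring
  calc _ = (q : ℝ) * ((∏ p ∈ q.primeFactors, (1 + 1 / ((p : ℝ) - 1))) * ∏ p ∈ q.primeFactors, (1 - (p : ℝ)⁻¹)) := by ring
    _ = q := by rw [h3, mul_one]

theorem d4_tel (N : ℕ) : ∑ n ∈ Finset.Icc 2 (N + 1), 1 / ((n : ℝ) * ((n : ℝ) - 1)) = 1 - 1 / ((N : ℝ) + 1) := by
  induction N with
  | zero => simp
  | succ N ih =>
    rw [Finset.sum_Icc_succ_top (by omega), ih]
    push_cast
    have h1 : (N : ℝ) + 1 ≠ 0 := by positivity
    have h2 : (N : ℝ) + 1 + 1 ≠ 0 := by positivity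
    have h3 : (N : ℝ) + 1 + 1 - 1 = N + 1 := by ring
    rw [h3]
    field_simp
    ring

theorem d4_sum (U : Finset ℕ) (hU : ∀ p ∈ U, 2 ≤ p) : ∑ n ∈ U, 1 / ((n : ℝ) * ((n : ℝ) - 1)) ≤ 1 := by
  obtain ⟨N, hN⟩ : ∃ N, U ⊆ Finset.Icc 2 (N + 1) := by
    refine ⟨U.sup id, fun p hp => ?_⟩
    rw [Finset.mem_Icc]
    have : p ≤ U.sup id := Finset.le_sup (f := id) hp
    exact ⟨hU p hp, by omega⟩
  calc _ ≤ ∑ n ∈ Finset.Icc 2 (N + 1), 1 / ((n : ℝ) * ((n : ℝ) - 1)) := by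
        apply Finset.sum_le_sum_of_subset_of_nonneg hN
        intro n hn _
        rw [Finset.mem_Icc] at hn
        have : (2 : ℝ) ≤ n := by exact_mod_cast hn.1
        have h1 : 0 < (n : ℝ) - 1 := by linarith
        positivity
    _ = 1 - 1 / ((N : ℝ) + 1) := d4_tel N
    _ ≤ 1 := by
        have : 0 ≤ 1 / ((N : ℝ) + 1) := by positivity
        linarith

theorem d4_prod (q : ℕ) : ∏ p ∈ q.primeFactors, (1 + ((1 + 1 / ((p : ℝ) - 1)) - 1) / (p : ℝ)) ≤ Real.exp 1 := by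
  calc _ ≤ ∏ p ∈ q.primeFactors, Real.exp (1 / ((p : ℝ) * ((p : ℝ) - 1))) := by
        apply Finset.prod_le_prod
        · intro p hp
          have := d4_two q p hp
          have h1 : 0 < (p : ℝ) - 1 := by linarith
          have h2 : 0 ≤ ((1 + 1 / ((p : ℝ) - 1)) - 1) / (p : ℝ) := by
            rw [add_sub_cancel_left]; positivity
          linarith
        · intro p hp
          have := d4_two q p hp
          have h1 : (p : ℝ) - 1 ≠ 0 := by intro h; linarith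
          have h2 : (p : ℝ) ≠ 0 := by intro h; linarith
          have h3 : ((1 + 1 / ((p : ℝ) - 1)) - 1) / (p : ℝ) = 1 / ((p : ℝ) * ((p : ℝ) - 1)) := by
            rw [add_sub_cancel_left]; field_simp
          rw [h3, add_comm]
          exact Real.add_one_le_exp _
    _ = Real.exp (∑ p ∈ q.primeFactors, 1 / ((p : ℝ) * ((p : ℝ) - 1))) := (Real.exp_sum _ _).symm
    _ ≤ Real.exp 1 := Real.exp_le_exp.mpr (d4_sum _ fun p hp => (Nat.prime_of_mem_primeFactors hp).two_le)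

theorem d4_S (ψ : ℕ → ℝ) (q : ℕ) (hq : 0 < q) (hD : 0 < ψ q) (c : ℝ) (hc : |c| ≤ ψ q) :
    ∑ k ∈ KS c (ψ q), Rk q q k ≤ (q : ℝ) / (Nat.totient q : ℝ) + 4 * Real.exp 1 * ψ q := by
  classical
  set D := ψ q with hDdef
  set x : ℕ := ⌊2 * D⌋₊ with hx
  have hxD : (x : ℝ) ≤ 2 * D := Nat.floor_le (by linarith)
  have hsub : KS c D ⊆ Finset.Icc (-(x : ℤ)) (x : ℤ) := by
    intro k hk
    unfold KS at hk
    rw [Finset.mem_filter] at hk
    have h1 := abs_lt.mp hk.2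
    have h2 := abs_le.mp hc
    have h3 : |(k : ℝ)| ≤ 2 * D := abs_le.mpr ⟨by linarith, by linarith⟩
    have h4 : (k.natAbs : ℝ) ≤ 2 * D := by
      rw [Nat.cast_natAbs, Int.cast_abs]; exact h3
    have h5 : k.natAbs ≤ x := Nat.le_floor h4
    rw [Finset.mem_Icc]
    omega
  have hv : ∑ v ∈ Finset.Icc 1 x, ∏ p ∈ q.primeFactors, (if p ∣ v then 1 + 1 / ((p : ℝ) - 1) else 1) ≤
      x * Real.exp 1 := by
    refine (avg_prod q.primeFactors (fun p hp => Nat.prime_of_mem_primeFactors hp)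
      (fun p => 1 + 1 / ((p : ℝ) - 1)) ?_ x).trans ?_
    · intro p hp
      have := d4_two q p hp
      have h1 : 0 < (p : ℝ) - 1 := by linarith
      have : 0 ≤ 1 / ((p : ℝ) - 1) := by positivity
      linarith
    · exact mul_le_mul_of_nonneg_left (d4_prod q) (by positivity)
  set G : ℕ → ℝ := fun v => ∏ p ∈ q.primeFactors, (if p ∣ v then 1 + 1 / ((p : ℝ) - 1) else 1) with hG
  have hsplit : Finset.Icc (-(x : ℤ)) (x : ℤ) ⊆
      insert 0 ((Finset.Icc 1 x).image (fun v : ℕ => (v : ℤ)) ∪ (Finset.Icc 1 x).image (fun v : ℕ => -(v : ℤ))) := by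
    intro k hk
    rw [Finset.mem_Icc] at hk
    rw [Finset.mem_insert, Finset.mem_union, Finset.mem_image, Finset.mem_image]
    rcases lt_trichotomy k 0 with h | h | h
    · right; right
      exact ⟨k.natAbs, by rw [Finset.mem_Icc]; omega, by omega⟩
    · left; exact h
    · right; left
      exact ⟨k.natAbs, by rw [Finset.mem_Icc]; omega, by omega⟩
  have hnn : ∀ k : ℤ, 0 ≤ Rk q q k := d4_Rk_nonneg q hq
  calc ∑ k ∈ KS c D, Rk q q k ≤ ∑ k ∈ insert (0 : ℤ) ((Finset.Icc 1 x).image (fun v : ℕ => (v : ℤ)) ∪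
        (Finset.Icc 1 x).image (fun v : ℕ => -(v : ℤ))), Rk q q k :=
        Finset.sum_le_sum_of_subset_of_nonneg (hsub.trans hsplit) (fun k _ _ => hnn k)
    _ ≤ Rk q q 0 + ∑ k ∈ ((Finset.Icc 1 x).image (fun v : ℕ => (v : ℤ)) ∪
        (Finset.Icc 1 x).image (fun v : ℕ => -(v : ℤ))), Rk q q k := by
        by_cases h0 : (0 : ℤ) ∈ ((Finset.Icc 1 x).image (fun v : ℕ => (v : ℤ)) ∪
          (Finset.Icc 1 x).image (fun v : ℕ => -(v : ℤ)))
        · rw [Finset.insert_eq_of_mem h0]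
          linarith [hnn 0]
        · rw [Finset.sum_insert h0]
    _ ≤ Rk q q 0 + (∑ k ∈ (Finset.Icc 1 x).image (fun v : ℕ => (v : ℤ)), Rk q q k +
        ∑ k ∈ (Finset.Icc 1 x).image (fun v : ℕ => -(v : ℤ)), Rk q q k) := by
        have := Finset.sum_union_inter (s₁ := (Finset.Icc 1 x).image (fun v : ℕ => (v : ℤ)))
          (s₂ := (Finset.Icc 1 x).image (fun v : ℕ => -(v : ℤ))) (f := fun k => Rk q q k)
        have h2 : 0 ≤ ∑ k ∈ ((Finset.Icc 1 x).image (fun v : ℕ => (v : ℤ)) ∩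
          (Finset.Icc 1 x).image (fun v : ℕ => -(v : ℤ))), Rk q q k := Finset.sum_nonneg fun k _ => hnn k
        linarith
    _ = Rk q q 0 + (∑ v ∈ Finset.Icc 1 x, Rk q q (v : ℤ) + ∑ v ∈ Finset.Icc 1 x, Rk q q (-(v : ℤ))) := by
        rw [Finset.sum_image (by intro a _ b _ h; simp only at h; omega),
          Finset.sum_image (by intro a _ b _ h; simp only at h; omega)]
    _ ≤ Rk q q 0 + (∑ v ∈ Finset.Icc 1 x, G v + ∑ v ∈ Finset.Icc 1 x, G v) := by
        have e1 : ∑ v ∈ Finset.Icc 1 x, Rk q q (v : ℤ) ≤ ∑ v ∈ Finset.Icc 1 x, G v := by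
          apply Finset.sum_le_sum
          intro v _
          have := d4_Rk_le q hq (v : ℤ)
          rwa [Int.natAbs_natCast] at this
        have e2 : ∑ v ∈ Finset.Icc 1 x, Rk q q (-(v : ℤ)) ≤ ∑ v ∈ Finset.Icc 1 x, G v := by
          apply Finset.sum_le_sum
          intro v _
          have := d4_Rk_le q hq (-(v : ℤ))
          rwa [Int.natAbs_neg, Int.natAbs_natCast] at this
        linarith
    _ ≤ (q : ℝ) / (Nat.totient q : ℝ) + (x * Real.exp 1 + x * Real.exp 1) := by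
        rw [d4_Rk_zero q hq]
        linarith
    _ ≤ _ := by
        have := Real.exp_pos 1
        nlinarith

/-- TARGET. Proof: cof q q = 1, PF q q = empty, DD psi q q = psi q. If psi q = 0: EE = 0. Let D = psi q > 0. Rk q q 0 = prod_{p|q} p/(p-1) = q/phi(q); for k /= 0: Rk q q k <= prod_{p|k} p/(p-1).
For |c| <= D: KS c D is contained in |k| < 2D, so sum Rk <= q/phi(q) + 2 * sum_{1 <= k < 2D} prod_{p | k} p/(p-1) <= q/phi(q) + 2 * A * 2D, with
A = exp(sum over primes of 1/(p(p-1))) <= e (avg_prod with h p = p/(p-1), U = primes <= 2D; (h p - 1)/p = 1/(p(p-1)); sum over n >= 2 of 1/(n(n-1)) <= 1).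
EE_le: EE <= mm^2 * (q/phi(q) + 4 A D)/(2D) = mm * [ (2 D phi(q)/q) * (q/phi(q))/(2D) ] + 2 A mm^2 = mm + 2 A mm^2 <= (1 + 2A) mm. -/
theorem EE_diag : ∃ C : ℝ, 0 < C ∧ ∀ (ψ : ℕ → ℝ) (q : ℕ), (∀ q, 0 ≤ ψ q) → 0 < q → mm ψ q ≤ 1 → EE ψ q q ≤ C * mm ψ q := by
  refine ⟨1 + 2 * Real.exp 1, by positivity, ?_⟩
  intro ψ q hψ hq hm
  have hq0 : (0 : ℝ) < q := by exact_mod_cast hq
  have hphi : (0 : ℝ) < (Nat.totient q : ℝ) := by exact_mod_cast Nat.totient_pos.mpr hq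
  have hmm0 : 0 ≤ mm ψ q := by
    unfold mm
    have := hψ q
    positivity
  rcases (hψ q).eq_or_lt with h0 | hD
  · have : EE ψ q q = 0 := by
      unfold EE
      apply Finset.sum_eq_zero
      intro a _
      apply Finset.sum_eq_zero
      intro b _
      rw [← h0]
      simp
    rw [this]
    positivity
  · have h := EE_le ψ hψ q q hq hq (by rw [d4_DD ψ q hq]; exact hD)
      ((q : ℝ) / (Nat.totient q : ℝ) + 4 * Real.exp 1 * ψ q) (by
        rw [d4_DD ψ q hq]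
        intro c hc
        exact d4_S ψ q hq hD c hc)
    rw [d4_DD ψ q hq] at h
    refine h.trans ?_
    have e1 : mm ψ q * mm ψ q * (((q : ℝ) / (Nat.totient q : ℝ) + 4 * Real.exp 1 * ψ q) / (2 * ψ q)) =
        mm ψ q + 2 * Real.exp 1 * (mm ψ q * mm ψ q) := by
      have : mm ψ q * ((q : ℝ) / (Nat.totient q : ℝ)) = 2 * ψ q := by
        unfold mm
        field_simp
      have h2 : mm ψ q * mm ψ q * ((q : ℝ) / (Nat.totient q : ℝ)) = mm ψ q * (2 * ψ q) := by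
        rw [← this]; ring
      have hD' : ψ q ≠ 0 := hD.ne'
      rw [add_div, mul_add, ← mul_div_assoc, h2]
      field_simp
      ring
    rw [e1]
    have e2 : mm ψ q * mm ψ q ≤ mm ψ q := by nlinarith
    have := Real.exp_pos 1
    nlinarith

end Pool.Agent.H560DS
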