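import Pool.Agent.H560DS.Defs
import Pool.Agent.H560DS.DS13
import Pool.Agent.H560DS.DS14

set_option autoImplicit false

namespace Pool.Agent.H560DS

open Finset

/-! DS17: asymptotic independence for large D -/

/-- the local factor -/
noncomputable def eeF (P : Finset ℕ) (p : ℕ) (k : ℤ) : ℝ :=
  if p ∈ P then (if (p : ℤ) ∣ k then 0 else (p : ℝ) / ((p : ℝ) - 1))
  else (if (p : ℤ) ∣ k then 1 + 1 / ((p : ℝ) - 1) else 1 - 1 / ((p : ℝ) - 1) ^ 2)

theorem eeF_nonneg (P : Finset ℕ) {p : ℕ} (hp : 2 ≤ p) (k : ℤ) : 0 ≤ eeF P p k := by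
  have h1 : (1 : ℝ) ≤ (p : ℝ) - 1 := by
    have : (2 : ℝ) ≤ p := by exact_mod_cast hp
    linarith
  unfold eeF
  split_ifs
  · exact le_rfl
  · positivity
  · positivity
  · have : 1 / ((p : ℝ) - 1) ^ 2 ≤ 1 := by
      rw [div_le_one (by positivity)]
      nlinarith
    linarith

theorem eeF_per (P : Finset ℕ) (p : ℕ) (k : ℤ) : eeF P p (k + p) = eeF P p k := by
  unfold eeF
  simp only [dvd_add_self_right]

theorem ee_sum_dvd (p : ℕ) (hp : 0 < p) (a b : ℝ) :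
    ∑ k ∈ range p, (if (p : ℤ) ∣ ((k : ℕ) : ℤ) then a else b) = a + ((p : ℝ) - 1) * b := by
  obtain ⟨m, rfl⟩ : ∃ m, p = m + 1 := ⟨p - 1, by omega⟩
  rw [sum_range_succ', if_pos (by simp)]
  have h1 : ∀ k ∈ range m, (if ((m + 1 : ℕ) : ℤ) ∣ ((k + 1 : ℕ) : ℤ) then a else b) = b := by
    intro k hk
    rw [if_neg]
    intro h
    have h2 := Nat.le_of_dvd (by omega) (Int.natCast_dvd_natCast.mp h)
    have := mem_range.mp hk
    omega
  rw [sum_congr rfl h1, sum_const, card_range, nsmul_eq_mul]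
  push_cast
  ring

theorem eeF_mean (P : Finset ℕ) {p : ℕ} (hp : 2 ≤ p) :
    ∑ k ∈ range p, eeF P p ((k : ℕ) : ℤ) = p := by
  have h1 : (1 : ℝ) ≤ (p : ℝ) - 1 := by
    have : (2 : ℝ) ≤ p := by exact_mod_cast hp
    linarith
  have h2 : (p : ℝ) - 1 ≠ 0 := by linarith
  unfold eeF
  by_cases h : p ∈ P
  · simp only [if_pos h]
    rw [ee_sum_dvd p (by omega)]
    field_simp
    ring
  · simp only [if_neg h]
    rw [ee_sum_dvd p (by omega)]
    field_simp
    ring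

/-- primes dividing both numbers in the same way -/
def eeG (q r : ℕ) : Finset ℕ := (Nat.gcd q r).primeFactors \ PF q r

/-- small primes -/
def eeS (z q r : ℕ) : Finset ℕ := (PF q r).filter (fun p => ¬ z < p) ∪ (eeG q r).filter (fun p => ¬ z < p)

theorem ee_two_le_PF {q r p : ℕ} (h : p ∈ PF q r) : 2 ≤ p := (Nat.prime_of_mem_primeFactors h).two_le

theorem ee_two_le_G {q r p : ℕ} (h : p ∈ eeG q r) : 2 ≤ p :=
  (Nat.prime_of_mem_primeFactors (mem_sdiff.mp h).1).two_le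

theorem ee_prime_S {z q r p : ℕ} (h : p ∈ eeS z q r) : p.Prime := by
  rcases mem_union.mp h with h | h
  · exact Nat.prime_of_mem_primeFactors (mem_filter.mp h).1
  · exact Nat.prime_of_mem_primeFactors (mem_sdiff.mp (mem_filter.mp h).1).1

theorem ee_Rk (z q r : ℕ) (k : ℤ) : Rk q r k = (∏ p ∈ eeS z q r, eeF (PF q r) p k) *
    ((∏ p ∈ (PF q r).filter (fun p => z < p), eeF (PF q r) p k) *
      ∏ p ∈ (eeG q r).filter (fun p => z < p), eeF (PF q r) p k) := by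
  have h1 : Rk q r k = (∏ p ∈ PF q r, eeF (PF q r) p k) * ∏ p ∈ eeG q r, eeF (PF q r) p k := by
    unfold Rk eeG
    congr 1
    · refine prod_congr rfl fun p hp => ?_
      rw [eeF, if_pos hp]
    · refine prod_congr rfl fun p hp => ?_
      rw [eeF, if_neg (mem_sdiff.mp hp).2]
  have hdisj : Disjoint ((PF q r).filter (fun p => ¬ z < p)) ((eeG q r).filter (fun p => ¬ z < p)) := by
    rw [disjoint_left]
    intro p hp hp'
    exact (mem_sdiff.mp (mem_filter.mp hp').1).2 (mem_filter.mp hp).1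
  rw [h1, eeS, prod_union hdisj, ← prod_filter_mul_prod_filter_not (PF q r) (fun p => z < p),
    ← prod_filter_mul_prod_filter_not (eeG q r) (fun p => z < p)]
  ring

theorem ee_P (z q r : ℕ) (k : ℤ) :
    ∏ p ∈ (PF q r).filter (fun p => z < p), eeF (PF q r) p k ≤ Pz z q r := by
  unfold Pz
  refine prod_le_prod (fun p hp => eeF_nonneg _ (ee_two_le_PF (mem_filter.mp hp).1) _) ?_
  intro p hp
  have h1 : (1 : ℝ) ≤ (p : ℝ) - 1 := by
    have : (2 : ℝ) ≤ p := by exact_mod_cast ee_two_le_PF (mem_filter.mp hp).1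
    linarith
  rw [eeF, if_pos (mem_filter.mp hp).1]
  split_ifs
  · positivity
  · exact le_rfl

theorem ee_Pz_nonneg (z q r : ℕ) : 0 ≤ Pz z q r := by
  unfold Pz
  refine prod_nonneg fun p hp => ?_
  have h1 : (1 : ℝ) ≤ (p : ℝ) - 1 := by
    have : (2 : ℝ) ≤ p := by exact_mod_cast ee_two_le_PF (mem_filter.mp hp).1
    linarith
  positivity

theorem ee_H (z q r j : ℕ) (k : ℤ) (hz : 2 ≤ z) (hj : j < 8 * z + 8) (hk : k ≠ 0)
    (hk2 : k.natAbs < 2 ^ (j + 2)) :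
    ∏ p ∈ (eeG q r).filter (fun p => z < p), eeF (PF q r) p k ≤ Real.exp (17 / (Nat.log 2 z : ℕ)) := by
  set B := (eeG q r).filter (fun p => z < p) with hB
  have hzR : (2 : ℝ) ≤ z := by exact_mod_cast hz
  have hf : ∀ p ∈ B, eeF (PF q r) p k ≤ if (p : ℤ) ∣ k then 1 + 1 / (z : ℝ) else 1 := by
    intro p hp
    rw [hB, mem_filter] at hp
    have hp2 : (z : ℝ) ≤ (p : ℝ) - 1 := by
      have : (z : ℝ) + 1 ≤ p := by exact_mod_cast hp.2
      linarith
    rw [eeF, if_neg (mem_sdiff.mp hp.1).2]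
    split_ifs
    · have := one_div_le_one_div_of_le (by linarith) hp2
      linarith
    · have : 0 ≤ 1 / ((p : ℝ) - 1) ^ 2 := by positivity
      linarith
  have hnn : ∀ p ∈ B, 0 ≤ eeF (PF q r) p k := fun p hp =>
    eeF_nonneg _ (ee_two_le_G (mem_filter.mp hp).1) _
  refine (prod_le_prod hnn hf).trans ?_
  rw [prod_ite, prod_const, prod_const_one, mul_one]
  set s := (B.filter (fun p : ℕ => (p : ℤ) ∣ k)).card with hs
  have hk0 : k.natAbs ≠ 0 := Int.natAbs_ne_zero.mpr hk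
  have h1 : z ^ s ≤ ∏ p ∈ B.filter (fun p : ℕ => (p : ℤ) ∣ k), p := by
    refine pow_card_le_prod _ _ _ ?_
    intro p hp
    exact (mem_filter.mp (mem_filter.mp hp).1).2.le
  have h2 : ∏ p ∈ B.filter (fun p : ℕ => (p : ℤ) ∣ k), p ∣ k.natAbs := by
    refine prod_primes_dvd _ ?_ ?_
    · intro p hp
      have := (mem_filter.mp (mem_filter.mp hp).1).1
      exact (Nat.prime_of_mem_primeFactors (mem_sdiff.mp this).1).prime
    · intro p hp
      exact Int.natCast_dvd.mp (mem_filter.mp hp).2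
  have h3 : z ^ s < 2 ^ (j + 2) := (h1.trans (Nat.le_of_dvd (Nat.pos_of_ne_zero hk0) h2)).trans_lt hk2
  set t := Nat.log 2 z with ht
  have ht0 : 0 < t := Nat.log_pos (by norm_num) hz
  have h4 : 2 ^ (t * s) < 2 ^ (j + 2) := by
    rw [pow_mul]
    refine lt_of_le_of_lt (Nat.pow_le_pow_left ?_ s) h3
    exact Nat.pow_log_le_self 2 (by omega)
  have h5 : t * s < j + 2 := (Nat.pow_lt_pow_iff_right (by norm_num)).mp h4
  have h6 : t * s ≤ 17 * z := by omega
  have htR : (0 : ℝ) < t := by exact_mod_cast ht0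
  have h7 : (s : ℝ) * (1 / z) ≤ 17 / t := by
    rw [mul_one_div, div_le_div_iff₀ (by linarith) htR]
    have : (t : ℝ) * s ≤ 17 * z := by exact_mod_cast h6
    linarith
  calc (1 + 1 / (z : ℝ)) ^ s ≤ Real.exp (1 / z) ^ s := by
        refine pow_le_pow_left₀ (by positivity) ?_ s
        have := Real.add_one_le_exp (1 / (z : ℝ))
        linarith
    _ = Real.exp (s * (1 / z)) := by rw [← Real.exp_nat_mul]
    _ ≤ Real.exp (17 / t) := Real.exp_le_exp.mpr h7

theorem ee_W (z q r : ℕ) : ∏ p ∈ eeS z q r, (p : ℝ) ≤ 4 ^ z := by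
  have h1 : ∏ p ∈ eeS z q r, p ≤ primorial z := by
    unfold primorial
    refine prod_le_prod_of_subset_of_one_le' ?_ ?_
    · intro p hp
      rw [mem_filter, mem_range]
      refine ⟨?_, ee_prime_S hp⟩
      rcases mem_union.mp hp with h | h
      · have := (mem_filter.mp h).2
        omega
      · have := (mem_filter.mp h).2
        omega
    · intro p hp _
      exact (mem_filter.mp hp).2.one_lt.le
  have h2 : ((∏ p ∈ eeS z q r, p : ℕ) : ℝ) ≤ ((4 ^ z : ℕ) : ℝ) :=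
    Nat.cast_le.mpr (h1.trans (primorial_le_four_pow z))
  rw [Nat.cast_prod] at h2
  push_cast at h2
  exact h2

theorem ee_PF_nonempty {q r : ℕ} (hq : 0 < q) (hr : 0 < r) (hqr : q ≠ r) : (PF q r).Nonempty := by
  unfold PF
  rw [Nat.nonempty_primeFactors]
  have hg : 0 < Nat.gcd q r := Nat.gcd_pos_of_pos_left _ hq
  have h1 : cof q r * Nat.gcd q r = q := Nat.div_mul_cancel (Nat.gcd_dvd_left q r)
  have h2 : cof r q * Nat.gcd q r = r := by
    rw [Nat.gcd_comm]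
    exact Nat.div_mul_cancel (Nat.gcd_dvd_left r q)
  have h3 : 0 < cof q r := by
    rcases Nat.eq_zero_or_pos (cof q r) with h | h
    · rw [h, zero_mul] at h1
      omega
    · exact h
  have h4 : 0 < cof r q := by
    rcases Nat.eq_zero_or_pos (cof r q) with h | h
    · rw [h, zero_mul] at h2
      omega
    · exact h
  by_contra hlt
  have h5 : cof q r * cof r q = 1 := by
    have := Nat.mul_pos h3 h4
    omega
  have h6 := Nat.eq_one_of_mul_eq_one_right h5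
  have h7 := Nat.eq_one_of_mul_eq_one_left h5
  rw [h6, one_mul] at h1
  rw [h7, one_mul] at h2
  exact hqr (h1.symm.trans h2)

theorem ee_sum (z q r j : ℕ) (hq : 0 < q) (hr : 0 < r) (hqr : q ≠ r) (hz : 2 ≤ z)
    (hj : j < 8 * z + 8) (c D : ℝ) (hD0 : 0 ≤ D) (hD : D < 2 ^ (j + 1)) (hc : |c| ≤ D) :
    ∑ k ∈ KS c D, Rk q r k ≤ Pz z q r * Real.exp (17 / (Nat.log 2 z : ℕ)) * (2 * D + 4 ^ z) := by
  set H := Real.exp (17 / (Nat.log 2 z : ℕ)) with hH
  have hH0 : 0 ≤ H := (Real.exp_pos _).le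
  have hP0 := ee_Pz_nonneg z q r
  have hS0 : ∀ k : ℤ, 0 ≤ ∏ p ∈ eeS z q r, eeF (PF q r) p k := fun k =>
    prod_nonneg fun p hp => eeF_nonneg _ (ee_prime_S hp).two_le _
  have hk : ∀ k ∈ KS c D, Rk q r k ≤ (∏ p ∈ eeS z q r, eeF (PF q r) p k) * (Pz z q r * H) := by
    intro k hk
    have h1 : |(k : ℝ) - c| < D := (mem_filter.mp hk).2
    by_cases hk0 : k = 0
    · have : Rk q r k = 0 := by
        obtain ⟨p, hp⟩ := ee_PF_nonempty hq hr hqr
        unfold Rk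
        rw [prod_eq_zero hp (by rw [if_pos (by rw [hk0]; exact dvd_zero _)]), zero_mul]
      rw [this]
      exact mul_nonneg (hS0 k) (mul_nonneg hP0 hH0)
    · have h2 : |(k : ℝ)| < 2 ^ (j + 2) := by
        have : |(k : ℝ)| ≤ |(k : ℝ) - c| + |c| := by
          have := abs_add_le ((k : ℝ) - c) c
          rwa [sub_add_cancel] at this
        have h3 : (2 : ℝ) ^ (j + 2) = 2 * 2 ^ (j + 1) := by ring
        rw [h3]
        linarith
      have h3 : k.natAbs < 2 ^ (j + 2) := by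
        have : ((k.natAbs : ℕ) : ℝ) < ((2 ^ (j + 2) : ℕ) : ℝ) := by
          rw [Nat.cast_natAbs, Int.cast_abs]
          push_cast
          exact h2
        exact_mod_cast this
      rw [ee_Rk z q r k]
      refine mul_le_mul_of_nonneg_left ?_ (hS0 k)
      exact mul_le_mul (ee_P z q r k) (ee_H z q r j k hz hj hk0 h3)
        (prod_nonneg fun p hp => eeF_nonneg _ (ee_two_le_G (mem_filter.mp hp).1) _) hP0
  refine (sum_le_sum hk).trans ?_
  rw [← sum_mul, mul_comm]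
  refine mul_le_mul_of_nonneg_left ?_ (mul_nonneg hP0 hH0)
  refine (window_sum (eeS z q r) (fun p hp => ee_prime_S hp) (eeF (PF q r))
    (fun p hp k => eeF_nonneg _ (ee_prime_S hp).two_le _) (fun p _ k => eeF_per _ _ _)
    (fun p hp => eeF_mean _ (ee_prime_S hp).two_le) c D hD0).trans ?_
  linarith [ee_W z q r]

theorem ee_lim (ε : ℝ) (hε : 0 < ε) : ∃ J0 : ℕ, ∀ j : ℕ, J0 ≤ j →
    2 ≤ j / 8 ∧ Real.exp (17 / (Nat.log 2 (j / 8) : ℕ)) * (1 + (1 / 2 : ℝ) ^ (j / 8)) ≤ 1 + ε := by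
  have h1 : Filter.Tendsto (fun z : ℕ => Nat.log 2 z) Filter.atTop Filter.atTop := by
    rw [Filter.tendsto_atTop_atTop]
    intro b
    refine ⟨2 ^ b, fun z hz => ?_⟩
    exact Nat.le_log_of_pow_le (by norm_num) hz
  have h2 : Filter.Tendsto (fun z : ℕ => ((Nat.log 2 z : ℕ) : ℝ)) Filter.atTop Filter.atTop :=
    tendsto_natCast_atTop_atTop.comp h1
  have h3 : Filter.Tendsto (fun z : ℕ => 17 / ((Nat.log 2 z : ℕ) : ℝ)) Filter.atTop (nhds 0) :=
    Filter.Tendsto.const_div_atTop h2 17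
  have h4 : Filter.Tendsto (fun z : ℕ => Real.exp (17 / ((Nat.log 2 z : ℕ) : ℝ)) *
      (1 + (1 / 2 : ℝ) ^ z)) Filter.atTop (nhds (Real.exp 0 * (1 + 0))) := by
    refine Filter.Tendsto.mul ((Real.continuous_exp.tendsto 0).comp h3) ?_
    refine Filter.Tendsto.add tendsto_const_nhds ?_
    exact tendsto_pow_atTop_nhds_zero_of_lt_one (by norm_num) (by norm_num)
  rw [Real.exp_zero, add_zero, mul_one] at h4
  have h5 := (h4.eventually (ge_mem_nhds (show (1 : ℝ) < 1 + ε by linarith))).and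
    (Filter.eventually_ge_atTop 2)
  obtain ⟨Z, hZ⟩ := Filter.eventually_atTop.mp h5
  refine ⟨8 * Z, fun j hj => ?_⟩
  have h6 : Z ≤ j / 8 := by omega
  exact ⟨(hZ _ h6).2, (hZ _ h6).1⟩

/-- TARGET. Proof: z = j/8, D = DD. S0 = primes p <= z dividing q r (i.e. in PF q r or in (gcd q r).primeFactors), f p k = the factor of Rk at p. Each f p is >= 0, p-periodic, with mean one:
for p in PF: (p-1) * p/(p-1) = p; for the others: 1 + 1/(p-1) + (p-1)(1 - 1/(p-1)^2) = p. W = prod S0 <= primorial z <= 4^z <= 2^(j/4) (primorial_le_4_pow).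
For 0 < |k| < 2D < 2^(j+2): Rk q r k <= (prod_{p in S0} f p k) * Pz z q r * H, where H = prod_{p | k, p > z} p/(p-1) <= (1 + 1/z)^s, s = number of prime factors of k that are > z, z^s <= |k| < 2^(j+2).
Let t = Nat.log 2 z, so 2^(t s) <= z^s < 2^(j+2), s <= (j+2)/t, H <= exp(s/z) <= exp((j+2)/(t z)), which tends to 1 as j -> infinity (z = j/8, t -> infinity). k = 0: Rk q r 0 = 0 since PF q r is nonempty (q /= r).
So for |c| <= D: sum_{KS c D} Rk <= Pz * H * (2D + W) (window_sum), and EE_le gives EE <= mm mm Pz H (1 + W/(2D)), W/(2D) <= 2^(j/4 - j). -/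
theorem EE_large (ε : ℝ) (hε : 0 < ε) : ∃ J0 : ℕ, ∀ (j : ℕ) (ψ : ℕ → ℝ) (q r : ℕ), J0 ≤ j → (∀ q, 0 ≤ ψ q) → 0 < q → 0 < r → q ≠ r →
    (2 : ℝ) ^ j ≤ DD ψ q r → DD ψ q r < (2 : ℝ) ^ (j + 1) →
    EE ψ q r ≤ (1 + ε) * Pz (j / 8) q r * (mm ψ q * mm ψ r) := by
  obtain ⟨J0, hJ⟩ := ee_lim ε hε
  refine ⟨J0, fun j ψ q r hj hψ hq hr hqr hD1 hD2 => ?_⟩
  obtain ⟨hz, hlim⟩ := hJ j hj
  set z := j / 8 with hzdef
  set D := DD ψ q r with hDdef
  have hD0 : 0 < D := lt_of_lt_of_le (by positivity) hD1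
  have hjz : j < 8 * z + 8 := by omega
  have hP0 := ee_Pz_nonneg z q r
  have hmm : ∀ q, 0 ≤ mm ψ q := by
    intro q
    unfold mm
    have := hψ q
    positivity
  refine (EE_le ψ hψ q r hq hr hD0 (Pz z q r * Real.exp (17 / (Nat.log 2 z : ℕ)) * (2 * D + 4 ^ z))
    (fun c hc => ee_sum z q r j hq hr hqr hz hjz c D hD0.le hD2 hc)).trans ?_
  have hm0 : 0 ≤ mm ψ q * mm ψ r := mul_nonneg (hmm q) (hmm r)
  rw [mul_comm]
  refine mul_le_mul_of_nonneg_right ?_ hm0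
  rw [div_le_iff₀ (by positivity)]
  have h1 : (4 : ℝ) ^ z ≤ (1 / 2) ^ z * (2 * D) := by
    have h2 : (4 : ℝ) ^ z * 2 ^ z ≤ 2 ^ j := by
      rw [← mul_pow]
      calc (4 * 2 : ℝ) ^ z = 2 ^ (3 * z) := by rw [pow_mul]; norm_num
        _ ≤ 2 ^ j := pow_le_pow_right₀ (by norm_num) (by omega)
    have h3 : (4 : ℝ) ^ z = (1 / 2) ^ z * (4 ^ z * 2 ^ z) := by
      rw [← mul_pow, ← mul_pow]
      norm_num
    rw [h3]
    refine mul_le_mul_of_nonneg_left ?_ (by positivity)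
    linarith
  have h4 : 2 * D + 4 ^ z ≤ (1 + (1 / 2) ^ z) * (2 * D) := by
    linarith
  have hE0 : 0 ≤ Real.exp (17 / (Nat.log 2 z : ℕ)) := (Real.exp_pos _).le
  calc Pz z q r * Real.exp (17 / (Nat.log 2 z : ℕ)) * (2 * D + 4 ^ z)
      ≤ Pz z q r * Real.exp (17 / (Nat.log 2 z : ℕ)) * ((1 + (1 / 2) ^ z) * (2 * D)) :=
        mul_le_mul_of_nonneg_left h4 (mul_nonneg hP0 hE0)
    _ = Pz z q r * (Real.exp (17 / (Nat.log 2 z : ℕ)) * (1 + (1 / 2) ^ z)) * (2 * D) := by ring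
    _ ≤ Pz z q r * (1 + ε) * (2 * D) := by gcongr
    _ = (1 + ε) * Pz z q r * (2 * D) := by ring

end Pool.Agent.H560DS
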