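import Pool.Agent.H560DS.Defs
import Pool.Agent.H560DS.DS10

set_option autoImplicit false

namespace Pool.Agent.H560DS

open Finset

/-! DS18: Theorem A for the d-th powers -/

/-- TARGET. Proof: apply thmA (same B, B', C) to psi~ q = psi q * (mm psi q)^(d-1): mm psi~ q = (mm psi q)^d, and for q in X psi~ q <= psi q (0 <= mm <= 1),
so DD psi~ q r <= DD psi q r for q, r in X and the condition DD psi <= T implies DD psi~ <= T (terms are nonnegative). -/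
theorem pairA (d : ℕ) (hd : 1 ≤ d) (B B' : ℝ) (hB : 1 ≤ B) : ∃ C : ℝ, 0 < C ∧ ∀ (g : ℕ → ℝ), (∀ p, 1 ≤ g p) → (∀ p, g p ≤ B) →
    (∀ U : Finset ℕ, (∀ p ∈ U, p.Prime) → ∑ p ∈ U, ((g p) ^ 4 - 1) / (p : ℝ) ≤ B') →
    ∀ (X : Finset ℕ) (ψ : ℕ → ℝ) (T : ℝ), (∀ q ∈ X, 0 < q) → (∀ q, 0 ≤ ψ q) → (∀ q ∈ X, mm ψ q ≤ 1) → 0 < T →
    ∑ q ∈ X, ∑ r ∈ X, (if DD ψ q r ≤ T then (mm ψ q * mm ψ r) ^ d * ∏ p ∈ PF q r, g p else 0) ≤
      C * T ^ (1 / 2 : ℝ) * (∑ q ∈ X, mm ψ q ^ d) ^ (3 / 2 : ℝ) := by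
  classical
  obtain ⟨C, hC, h⟩ := thmA B B' hB
  refine ⟨C, hC, ?_⟩
  intro g hg1 hgB hU X ψ T hX hψ hm hT
  obtain ⟨e, rfl⟩ : ∃ e, d = e + 1 := ⟨d - 1, by omega⟩
  have mmnn : ∀ q, 0 ≤ mm ψ q := by
    intro q
    unfold mm
    have := hψ q
    positivity
  obtain ⟨ψ', hψ'⟩ : ∃ ψ' : ℕ → ℝ, ψ' = fun q => ψ q * mm ψ q ^ e := ⟨_, rfl⟩
  have hψ'q : ∀ q, ψ' q = ψ q * mm ψ q ^ e := fun q => by rw [hψ']
  have hψ'nn : ∀ q, 0 ≤ ψ' q := by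
    intro q
    rw [hψ'q]
    exact mul_nonneg (hψ q) (pow_nonneg (mmnn q) _)
  have hle : ∀ q ∈ X, ψ' q ≤ ψ q := by
    intro q hq
    rw [hψ'q]
    exact mul_le_of_le_one_right (hψ q) (pow_le_one₀ (mmnn q) (hm q hq))
  have hmm : ∀ q, mm ψ' q = mm ψ q ^ (e + 1) := by
    intro q
    rw [pow_succ']
    have h1 : mm ψ' q = 2 * ψ' q * (Nat.totient q : ℝ) / (q : ℝ) := rfl
    have h2 : mm ψ q = 2 * ψ q * (Nat.totient q : ℝ) / (q : ℝ) := rfl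
    rw [h1, hψ'q]
    nth_rewrite 2 [h2]
    ring
  have hDD : ∀ q ∈ X, ∀ r ∈ X, DD ψ' q r ≤ DD ψ q r := by
    intro q hq r hr
    unfold DD
    apply max_le_max
    · exact mul_le_mul_of_nonneg_left (hle q hq) (Nat.cast_nonneg _)
    · exact mul_le_mul_of_nonneg_left (hle r hr) (Nat.cast_nonneg _)
  have key := h g hg1 hgB hU X ψ' T hX hψ'nn hT
  have e1 : ∑ q ∈ X, mm ψ' q = ∑ q ∈ X, mm ψ q ^ (e + 1) := Finset.sum_congr rfl (fun q _ => hmm q)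
  rw [e1] at key
  refine le_trans ?_ key
  apply Finset.sum_le_sum
  intro q hq
  apply Finset.sum_le_sum
  intro r hr
  have hnn : 0 ≤ mm ψ' q * mm ψ' r * ∏ p ∈ PF q r, g p := by
    apply mul_nonneg
    · apply mul_nonneg
      · rw [hmm]; exact pow_nonneg (mmnn q) _
      · rw [hmm]; exact pow_nonneg (mmnn r) _
    · exact Finset.prod_nonneg (fun p _ => le_trans zero_le_one (hg1 p))
  by_cases h1 : DD ψ q r ≤ T
  · have h2 : DD ψ' q r ≤ T := (hDD q hq r hr).trans h1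
    rw [if_pos h1, if_pos h2, hmm, hmm, mul_pow]
  · rw [if_neg h1]
    split_ifs
    · exact hnn
    · exact le_rfl

end Pool.Agent.H560DS
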