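import Pool.Agent.H560DS.Defs

set_option autoImplicit false

namespace Pool.Agent.H560DS

open Finset

/-! DS19: the weights g_j are uniformly bounded -/

theorem ds19_tel (z : ℕ) (hz : 1 ≤ z) (N : ℕ) (h : z ≤ N) :
    ∑ p ∈ Ioc z N, 1 / ((p : ℝ) * ((p : ℝ) - 1)) = 1 / (z : ℝ) - 1 / (N : ℝ) := by
  induction N, h using Nat.le_induction with
  | base => simp
  | succ N hN ih =>
    rw [Finset.sum_Ioc_succ_top hN, ih]
    have hN0 : (0 : ℝ) < N := by exact_mod_cast (lt_of_lt_of_le hz hN)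
    have hz0 : (0 : ℝ) < z := by exact_mod_cast hz
    push_cast
    have e : (N : ℝ) + 1 - 1 = N := by ring
    rw [e]
    field_simp
    ring

theorem ds19_sum (U : Finset ℕ) (z : ℕ) (hz : 1 ≤ z) (hU : ∀ p ∈ U, z < p) :
    ∑ p ∈ U, 1 / ((p : ℝ) * ((p : ℝ) - 1)) ≤ 1 / (z : ℝ) := by
  have hsub : U ⊆ Ioc z (max z (U.sup id)) := by
    intro p hp
    rw [Finset.mem_Ioc]
    exact ⟨hU p hp, le_max_of_le_right (Finset.le_sup (f := id) hp)⟩
  calc ∑ p ∈ U, 1 / ((p : ℝ) * ((p : ℝ) - 1)) ≤ ∑ p ∈ Ioc z (max z (U.sup id)), 1 / ((p : ℝ) * ((p : ℝ) - 1)) := by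
        refine Finset.sum_le_sum_of_subset_of_nonneg hsub ?_
        intro p hp _
        rw [Finset.mem_Ioc] at hp
        have hp1 : (1 : ℝ) < p := by exact_mod_cast (lt_of_le_of_lt hz hp.1)
        have : (0 : ℝ) < (p : ℝ) * ((p : ℝ) - 1) := mul_pos (by linarith) (by linarith)
        positivity
    _ = 1 / (z : ℝ) - 1 / ((max z (U.sup id) : ℕ) : ℝ) := ds19_tel z hz _ (le_max_left _ _)
    _ ≤ 1 / (z : ℝ) := by
        have : (0 : ℝ) ≤ 1 / ((max z (U.sup id) : ℕ) : ℝ) := by positivity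
        linarith

/-- `(p / (p - 1)) ^ k ≤ exp (k / (p - 1))` -/
theorem ds19_pow (p k : ℕ) (hp : 2 ≤ p) : ((p : ℝ) / ((p : ℝ) - 1)) ^ k ≤ Real.exp ((k : ℝ) / ((p : ℝ) - 1)) := by
  have hp1 : (0 : ℝ) < (p : ℝ) - 1 := by
    have : (2 : ℝ) ≤ p := by exact_mod_cast hp
    linarith
  have e : (p : ℝ) / ((p : ℝ) - 1) = 1 / ((p : ℝ) - 1) + 1 := by
    field_simp
    ring
  have h1 : (p : ℝ) / ((p : ℝ) - 1) ≤ Real.exp (1 / ((p : ℝ) - 1)) := by
    rw [e]
    exact Real.add_one_le_exp _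
  have h0 : (0 : ℝ) ≤ (p : ℝ) / ((p : ℝ) - 1) := by positivity
  calc ((p : ℝ) / ((p : ℝ) - 1)) ^ k ≤ (Real.exp (1 / ((p : ℝ) - 1))) ^ k := pow_le_pow_left₀ h0 h1 k
    _ = Real.exp ((k : ℝ) / ((p : ℝ) - 1)) := by
        rw [← Real.exp_nat_mul]
        congr 1
        ring

theorem ds19_exp (x : ℝ) : Real.exp x - 1 ≤ x * Real.exp x := by
  have h1 : 1 - x ≤ Real.exp (-x) := by
    have := Real.add_one_le_exp (-x)
    linarith
  have h2 : 0 < Real.exp x := Real.exp_pos x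
  have h3 : Real.exp (-x) * Real.exp x = 1 := by
    rw [← Real.exp_add, neg_add_cancel, Real.exp_zero]
  have h4 : (1 - x) * Real.exp x ≤ 1 := by
    calc (1 - x) * Real.exp x ≤ Real.exp (-x) * Real.exp x := mul_le_mul_of_nonneg_right h1 h2.le
      _ = 1 := h3
  linarith

/-- TARGET. Proof: n j = d + ceil (j log 4 / log (1+delta)) <= A j + A for a constant A; z = j/8 >= j/16 >= 1 for j >= 16 (natural division), in fact z >= 2. For p > z: p - 1 >= z and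
(p/(p-1))^(n j) = (1 + 1/(p-1))^(n j) <= exp(n j/(p-1)) <= exp(n j/z) <= exp(A j/z + A/z) <= exp(17 A + A): this is B. For the last item with m = 4 n j:
(1+1/(p-1))^m - 1 <= exp(m/(p-1)) - 1 <= (m/(p-1)) exp(m/(p-1)) <= (m/(p-1)) B^4, and sum over p > z of 1/(p(p-1)) <= 1/z (telescoping), so the sum is at most m B^4/z <= constant. -/
theorem gbounds (d : ℕ) (δ : ℝ) (hδ : 0 < δ) : ∃ (B B' : ℝ) (n : ℕ → ℕ), 1 ≤ B ∧ (∀ j, d ≤ n j) ∧ (∀ j, (4 : ℝ) ^ j ≤ (1 + δ) ^ (n j - d)) ∧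
    ∀ j : ℕ, 16 ≤ j →
      (∀ p : ℕ, 1 ≤ (if j / 8 < p then ((p : ℝ) / ((p : ℝ) - 1)) ^ (n j) else 1)) ∧
      (∀ p : ℕ, (if j / 8 < p then ((p : ℝ) / ((p : ℝ) - 1)) ^ (n j) else 1) ≤ B) ∧
      (∀ U : Finset ℕ, (∀ p ∈ U, p.Prime) →
        ∑ p ∈ U, ((if j / 8 < p then ((p : ℝ) / ((p : ℝ) - 1)) ^ (n j) else 1) ^ 4 - 1) / (p : ℝ) ≤ B') := by
  obtain ⟨A0, hA0⟩ := pow_unbounded_of_one_lt (4 : ℝ) (by linarith : (1 : ℝ) < 1 + δ)
  obtain ⟨A, hA⟩ : ∃ A : ℕ, A = d + A0 := ⟨_, rfl⟩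
  have key : ∀ j : ℕ, 16 ≤ j → 1 ≤ j / 8 ∧ d + A0 * j ≤ 12 * A * (j / 8) := by
    intro j hj
    have h1 : 2 ≤ j / 8 := by omega
    have h2 : j ≤ 12 * (j / 8) := by omega
    refine ⟨by omega, ?_⟩
    have h3 : d ≤ d * j := Nat.le_mul_of_pos_right d (by omega)
    calc d + A0 * j ≤ d * j + A0 * j := by omega
      _ = A * j := by rw [hA]; ring
      _ ≤ A * (12 * (j / 8)) := Nat.mul_le_mul_left A h2
      _ = 12 * A * (j / 8) := by ring
  refine ⟨Real.exp (12 * A), 48 * A * Real.exp (48 * A), fun j => d + A0 * j, ?_, fun j => Nat.le_add_right _ _, ?_, ?_⟩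
  · exact Real.one_le_exp (by positivity)
  · intro j
    have e : d + A0 * j - d = A0 * j := by omega
    rw [e, pow_mul]
    exact pow_le_pow_left₀ (by norm_num) hA0.le j
  intro j hj
  obtain ⟨hz1, hn⟩ := key j hj
  obtain ⟨z, hz⟩ : ∃ z, z = j / 8 := ⟨_, rfl⟩
  obtain ⟨n, hnn⟩ : ∃ n, n = d + A0 * j := ⟨_, rfl⟩
  simp only [← hz, ← hnn] at *
  have hz0 : (0 : ℝ) < z := by exact_mod_cast hz1
  have hnR : (n : ℝ) ≤ 12 * A * z := by exact_mod_cast hn
  have hp2 : ∀ p : ℕ, z < p → (z : ℝ) ≤ (p : ℝ) - 1 := by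
    intro p hp
    have : (z : ℝ) + 1 ≤ p := by exact_mod_cast hp
    linarith
  have hge : ∀ p : ℕ, z < p → 1 ≤ (p : ℝ) / ((p : ℝ) - 1) := by
    intro p hp
    have h1 := hp2 p hp
    rw [le_div_iff₀ (by linarith)]
    linarith
  refine ⟨?_, ?_, ?_⟩
  · intro p
    split_ifs with h
    · exact one_le_pow₀ (hge p h)
    · exact le_refl _
  · intro p
    split_ifs with h
    · refine (ds19_pow p n (by omega)).trans (Real.exp_le_exp.2 ?_)
      have h1 := hp2 p h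
      rw [div_le_iff₀ (by linarith)]
      calc (n : ℝ) ≤ 12 * A * z := hnR
        _ ≤ 12 * A * ((p : ℝ) - 1) := mul_le_mul_of_nonneg_left h1 (by positivity)
    · exact Real.one_le_exp (by positivity)
  · intro U _
    have hterm : ∀ p ∈ U, ((if z < p then ((p : ℝ) / ((p : ℝ) - 1)) ^ n else 1) ^ 4 - 1) / (p : ℝ) ≤
        if z < p then (4 * n * Real.exp (48 * A)) * (1 / ((p : ℝ) * ((p : ℝ) - 1))) else 0 := by
      intro p _
      split_ifs with h
      · have h1 := hp2 p h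
        have hp0 : (0 : ℝ) < (p : ℝ) - 1 := by linarith
        have hp1 : (0 : ℝ) < p := by linarith
        have h2 : (((p : ℝ) / ((p : ℝ) - 1)) ^ n) ^ 4 ≤ Real.exp (((n * 4 : ℕ) : ℝ) / ((p : ℝ) - 1)) := by
          rw [← pow_mul]
          exact ds19_pow p (n * 4) (by omega)
        have h3 := ds19_exp (((n * 4 : ℕ) : ℝ) / ((p : ℝ) - 1))
        have h4 : Real.exp (((n * 4 : ℕ) : ℝ) / ((p : ℝ) - 1)) ≤ Real.exp (48 * A) := by
          refine Real.exp_le_exp.2 ?_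
          rw [div_le_iff₀ hp0]
          push_cast
          calc (n : ℝ) * 4 ≤ (12 * A * z) * 4 := mul_le_mul_of_nonneg_right hnR (by norm_num)
            _ = 48 * A * z := by ring
            _ ≤ 48 * A * ((p : ℝ) - 1) := mul_le_mul_of_nonneg_left h1 (by positivity)
        have h5 : (((n * 4 : ℕ) : ℝ) / ((p : ℝ) - 1)) * Real.exp (((n * 4 : ℕ) : ℝ) / ((p : ℝ) - 1)) ≤
            (((n * 4 : ℕ) : ℝ) / ((p : ℝ) - 1)) * Real.exp (48 * A) :=
          mul_le_mul_of_nonneg_left h4 (by positivity)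
        calc ((((p : ℝ) / ((p : ℝ) - 1)) ^ n) ^ 4 - 1) / (p : ℝ)
            ≤ ((((n * 4 : ℕ) : ℝ) / ((p : ℝ) - 1)) * Real.exp (48 * A)) / (p : ℝ) := by
              refine div_le_div_of_nonneg_right ?_ hp1.le
              linarith
          _ = (4 * n * Real.exp (48 * A)) * (1 / ((p : ℝ) * ((p : ℝ) - 1))) := by
              push_cast
              field_simp
      · simp
    calc ∑ p ∈ U, ((if z < p then ((p : ℝ) / ((p : ℝ) - 1)) ^ n else 1) ^ 4 - 1) / (p : ℝ)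
        ≤ ∑ p ∈ U, if z < p then (4 * n * Real.exp (48 * A)) * (1 / ((p : ℝ) * ((p : ℝ) - 1))) else 0 :=
          Finset.sum_le_sum hterm
      _ = (4 * n * Real.exp (48 * A)) * ∑ p ∈ U.filter (fun p => z < p), (1 / ((p : ℝ) * ((p : ℝ) - 1))) := by
          rw [← Finset.sum_filter, Finset.mul_sum]
      _ ≤ (4 * n * Real.exp (48 * A)) * (1 / (z : ℝ)) := by
          refine mul_le_mul_of_nonneg_left ?_ (by positivity)
          exact ds19_sum _ z hz1 (fun p hp => (Finset.mem_filter.1 hp).2)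
      _ ≤ (4 * (12 * A * z) * Real.exp (48 * A)) * (1 / (z : ℝ)) := by
          refine mul_le_mul_of_nonneg_right ?_ (by positivity)
          refine mul_le_mul_of_nonneg_right ?_ (Real.exp_pos _).le
          linarith
      _ = 48 * A * Real.exp (48 * A) := by
          field_simp
          ring

end Pool.Agent.H560DS
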