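import Pool.Agent.H560DS.Defs
import Pool.Agent.H560DS.DS15
import Pool.Agent.H560DS.DS16
import Pool.Agent.H560DS.DS17
import Pool.Agent.H560DS.DS18
import Pool.Agent.H560DS.DS19

set_option autoImplicit false

namespace Pool.Agent.H560DS

open Finset

/-! DS20: second moment bound (assembly) -/

theorem variance_mm_nonneg {ψ : ℕ → ℝ} (hψ : ∀ q, 0 ≤ ψ q) (q : ℕ) : 0 ≤ mm ψ q := by
  unfold mm
  have := hψ q
  positivity

theorem variance_EE_nonneg (ψ : ℕ → ℝ) (q r : ℕ) : 0 ≤ EE ψ q r := by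
  unfold EE
  exact Finset.sum_nonneg fun _ _ => Finset.sum_nonneg fun _ _ => MeasureTheory.measureReal_nonneg

theorem variance_PF_prime {q r p : ℕ} (hp : p ∈ PF q r) : p.Prime := by
  unfold PF at hp
  exact Nat.prime_of_mem_primeFactors hp

theorem variance_Pz_pow (z q r k : ℕ) : Pz z q r ^ k =
    ∏ p ∈ PF q r, (if z < p then ((p : ℝ) / ((p : ℝ) - 1)) ^ k else 1) := by
  unfold Pz
  rw [← Finset.prod_pow, Finset.prod_filter]

theorem variance_Pz_nonneg (z q r : ℕ) : 0 ≤ Pz z q r := by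
  unfold Pz
  refine Finset.prod_nonneg fun p hp => ?_
  rw [Finset.mem_filter] at hp
  have h2 : (2 : ℝ) ≤ p := by exact_mod_cast (variance_PF_prime hp.1).two_le
  exact div_nonneg (by linarith) (by linarith)

/-- the weight used in the middle range -/
noncomputable def variance_g (d p : ℕ) : ℝ := if 2 ≤ p then ((p : ℝ) / ((p : ℝ) - 1)) ^ d else 1

theorem variance_g_pz (d q r : ℕ) : Pz 0 q r ^ d = ∏ p ∈ PF q r, variance_g d p := by
  rw [variance_Pz_pow]
  refine Finset.prod_congr rfl fun p hp => ?_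
  have h2 := (variance_PF_prime hp).two_le
  rw [if_pos (by omega), variance_g, if_pos h2]

theorem variance_frac {p : ℕ} (hp : 2 ≤ p) : (1 : ℝ) ≤ (p : ℝ) / ((p : ℝ) - 1) ∧
    (p : ℝ) / ((p : ℝ) - 1) ≤ 2 := by
  have h2 : (2 : ℝ) ≤ p := by exact_mod_cast hp
  constructor
  · rw [le_div_iff₀ (by linarith)]; linarith
  · rw [div_le_iff₀ (by linarith)]; linarith

theorem variance_g_one (d p : ℕ) : 1 ≤ variance_g d p := by
  unfold variance_g
  split_ifs with h
  · exact one_le_pow₀ (variance_frac h).1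
  · exact le_rfl

theorem variance_g_le (d p : ℕ) : variance_g d p ≤ 2 ^ d := by
  unfold variance_g
  split_ifs with h
  · exact pow_le_pow_left₀ (by linarith [(variance_frac h).1]) (variance_frac h).2 d
  · exact one_le_pow₀ (by norm_num)

theorem variance_pow_sub (k : ℕ) {x : ℝ} (hx0 : 0 ≤ x) (hx1 : x ≤ 1) :
    (1 + x) ^ k - 1 ≤ 2 ^ k * x := by
  induction k with
  | zero => simp; linarith
  | succ k ih =>
    have h1 : (1 + x) ^ k ≤ 2 ^ k := pow_le_pow_left₀ (by linarith) (by linarith) k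
    have h2 : (1 + x) ^ (k + 1) - 1 = ((1 + x) ^ k - 1) + (1 + x) ^ k * x := by ring
    rw [h2]
    have h3 : (1 + x) ^ k * x ≤ 2 ^ k * x := mul_le_mul_of_nonneg_right h1 hx0
    have h4 : (2 : ℝ) ^ (k + 1) * x = 2 ^ k * x + 2 ^ k * x := by ring
    linarith

theorem variance_tele (N : ℕ) : ∑ p ∈ Finset.Icc 2 (N + 2), (1 : ℝ) / (((p : ℝ) - 1) * p) =
    1 - 1 / ((N : ℝ) + 2) := by
  induction N with
  | zero => norm_num
  | succ N ih =>
    rw [Finset.sum_Icc_succ_top (by omega), ih]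
    push_cast
    have h1 : (N : ℝ) + 2 ≠ 0 := by positivity
    have h2 : (N : ℝ) + 3 ≠ 0 := by positivity
    have e1 : (N : ℝ) + 2 + 1 - 1 = (N : ℝ) + 2 := by ring
    have e2 : (N : ℝ) + 1 + 2 = (N : ℝ) + 3 := by ring
    have e3 : (N : ℝ) + 2 + 1 = (N : ℝ) + 3 := by ring
    rw [e1, e2, e3]
    field_simp
    ring

theorem variance_g_sum (d : ℕ) (U : Finset ℕ) (hU : ∀ p ∈ U, p.Prime) :
    ∑ p ∈ U, ((variance_g d p) ^ 4 - 1) / (p : ℝ) ≤ 2 ^ (4 * d) := by
  have h1 : ∀ p ∈ U, ((variance_g d p) ^ 4 - 1) / (p : ℝ) ≤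
      2 ^ (4 * d) * (1 / (((p : ℝ) - 1) * p)) := by
    intro p hp
    have h2 := (hU p hp).two_le
    have h2' : (2 : ℝ) ≤ p := by exact_mod_cast h2
    have hpos : (0 : ℝ) < (p : ℝ) - 1 := by linarith
    have e1 : (variance_g d p) ^ 4 = (1 + 1 / ((p : ℝ) - 1)) ^ (4 * d) := by
      rw [variance_g, if_pos h2, ← pow_mul, mul_comm d 4]
      congr 1
      field_simp
      ring
    rw [e1]
    have h3 := variance_pow_sub (4 * d) (x := 1 / ((p : ℝ) - 1)) (by positivity)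
      (by rw [div_le_one hpos]; linarith)
    calc ((1 + 1 / ((p : ℝ) - 1)) ^ (4 * d) - 1) / (p : ℝ)
        ≤ (2 ^ (4 * d) * (1 / ((p : ℝ) - 1))) / (p : ℝ) :=
          div_le_div_of_nonneg_right h3 (by linarith)
      _ = 2 ^ (4 * d) * (1 / (((p : ℝ) - 1) * p)) := by
          field_simp
  refine (Finset.sum_le_sum h1).trans ?_
  rw [← Finset.mul_sum]
  have hsub : U ⊆ Finset.Icc 2 (U.sup id + 2) := by
    intro p hp
    rw [Finset.mem_Icc]
    refine ⟨(hU p hp).two_le, ?_⟩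
    have : p ≤ U.sup id := Finset.le_sup (f := id) hp
    omega
  have h4 : ∑ p ∈ U, (1 : ℝ) / (((p : ℝ) - 1) * p) ≤
      ∑ p ∈ Finset.Icc 2 (U.sup id + 2), (1 : ℝ) / (((p : ℝ) - 1) * p) := by
    refine Finset.sum_le_sum_of_subset_of_nonneg hsub fun p hp _ => ?_
    rw [Finset.mem_Icc] at hp
    have h2' : (2 : ℝ) ≤ p := by exact_mod_cast hp.1
    have : (0 : ℝ) < (p : ℝ) - 1 := by linarith
    positivity
  rw [variance_tele] at h4
  have h5 : (0 : ℝ) ≤ 1 / (((U.sup id : ℕ) : ℝ) + 2) := by positivity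
  calc (2 : ℝ) ^ (4 * d) * ∑ p ∈ U, 1 / (((p : ℝ) - 1) * p) ≤ 2 ^ (4 * d) * 1 :=
        mul_le_mul_of_nonneg_left (by linarith) (by positivity)
    _ = 2 ^ (4 * d) := mul_one _

theorem variance_delta (d : ℕ) (ε : ℝ) (hε : 0 < ε) :
    ∃ δ : ℝ, 0 < δ ∧ (1 + δ) ^ (2 * d) ≤ 1 + ε := by
  have h1 : Filter.Tendsto (fun x : ℝ => (1 + x) ^ (2 * d)) (nhdsWithin 0 (Set.Ioi 0))
      (nhds 1) := by
    have : Filter.Tendsto (fun x : ℝ => (1 + x) ^ (2 * d)) (nhds 0) (nhds ((1 + 0) ^ (2 * d))) :=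
      ((continuous_const.add continuous_id).pow _).tendsto 0
    simp only [add_zero, one_pow] at this
    exact this.mono_left nhdsWithin_le_nhds
  have h2 := (h1.eventually (gt_mem_nhds (show (1 : ℝ) < 1 + ε by linarith))).and
    self_mem_nhdsWithin
  obtain ⟨x, hx1, hx2⟩ := h2.exists
  exact ⟨x, hx2, le_of_lt hx1⟩

/-- TARGET. Proof. Choose delta > 0 with (1+delta)^(2d) <= 1 + eps; B, B', n from gbounds d delta; J0 from EE_large delta, enlarged to J0 >= 16. D0 = 2^J0. Psi = sum mm^d >= 1 (so Psi <= Psi^(3/2)).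
Bound EE psi q r ^ d (EE >= 0) for q, r in X:
 q = r: EE^d <= C1^d mm^d (EE_diag); the sum over q is at most C1^d * Psi.
 q /= r, DD < 1/2: 0.  q /= r, 1/2 <= DD < D0: EE^d <= (8 D0)^d * (Pz 0 q r)^d * (mm mm)^d, Pz 0 q r = prod over PF of p/(p-1); pairA with g p = (p/(p-1))^d for p >= 2 (1 for p < 2; g <= 2^d,
   sum over primes of (g^4-1)/p is bounded: (1+1/(p-1))^(4d) - 1 <= 2^(4d)/(p-1)) and T = D0.
 q /= r, DD >= D0: let j = floor(log2 DD) >= J0, 2^j <= DD < 2^(j+1). EE <= (1+delta) Pz (j/8) q r mm mm. If Pz <= 1+delta: EE^d <= (1+delta)^(2d) (mm mm)^d; all these sum to at most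
   (1+eps) Psi^2. If Pz > 1+delta: Pz^d <= Pz^(n j) / (1+delta)^(n j - d) <= 4^(-j) Pz^(n j), and Pz^(n j) = prod over p in PF q r of g_j p (g_j as in gbounds), so these pairs with a fixed j contribute at most
   (1+delta)^d 4^(-j) * pairA(g_j, T = 2^(j+1)) <= (1+delta)^d 4^(-j) C2 2^((j+1)/2) Psi^(3/2); sum over the finitely many j that occur <= constant * Psi^(3/2). -/
theorem variance (d : ℕ) (hd : 1 ≤ d) (ε : ℝ) (hε : 0 < ε) : ∃ C : ℝ, 0 < C ∧ ∀ (X : Finset ℕ) (ψ : ℕ → ℝ),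
    (∀ q ∈ X, 0 < q) → (∀ q, 0 ≤ ψ q) → (∀ q ∈ X, mm ψ q ≤ 1) → 1 ≤ ∑ q ∈ X, mm ψ q ^ d →
    ∑ q ∈ X, ∑ r ∈ X, EE ψ q r ^ d ≤
      (1 + ε) * (∑ q ∈ X, mm ψ q ^ d) ^ 2 + C * (∑ q ∈ X, mm ψ q ^ d) ^ (3 / 2 : ℝ) := by
  obtain ⟨δ, hδ, hδε⟩ := variance_delta d ε hε
  obtain ⟨B, B', n, hB, hn1, hn2, hg⟩ := gbounds d δ hδ
  obtain ⟨J0, hJ0⟩ := EE_large δ hδ
  obtain ⟨C1, hC1, hdiag⟩ := EE_diag
  obtain ⟨C2, hC2, hpA⟩ := pairA d hd B B' hB
  obtain ⟨C3, hC3, hpB⟩ := pairA d hd (2 ^ d) (2 ^ (4 * d)) (one_le_pow₀ (by norm_num))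
  set J1 := max J0 16 with hJ1
  have hpB' := hpB (variance_g d) (variance_g_one d) (variance_g_le d) (variance_g_sum d)
  refine ⟨C1 ^ d + (8 * 2 ^ J1) ^ d * (C3 * 2 ^ J1) + 4 * ((1 + δ) ^ d * C2), by positivity, ?_⟩
  intro X ψ hX hψ hmm hΨ
  set Ψ := ∑ q ∈ X, mm ψ q ^ d with hΨd
  have hm0 : ∀ q, 0 ≤ mm ψ q := variance_mm_nonneg hψ
  have hΨ0 : (0 : ℝ) < Ψ := lt_of_lt_of_le one_pos hΨ
  have hΨ32 : Ψ ≤ Ψ ^ (3 / 2 : ℝ) := by
    calc Ψ = Ψ ^ (1 : ℝ) := (Real.rpow_one _).symm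
      _ ≤ Ψ ^ (3 / 2 : ℝ) := Real.rpow_le_rpow_of_exponent_le hΨ (by norm_num)
  set G : ℕ → ℕ → ℝ := fun j p => if j / 8 < p then ((p : ℝ) / ((p : ℝ) - 1)) ^ (n j) else 1 with hG
  -- a bound for the exponents which occur
  obtain ⟨M, hM⟩ : ∃ M : ℕ, ∀ q ∈ X, ∀ r ∈ X, DD ψ q r < 2 ^ M := by
    have h1 : ∃ K : ℝ, ∀ q ∈ X, ∀ r ∈ X, DD ψ q r ≤ K := by
      refine ⟨∑ q ∈ X, ∑ r ∈ X, |DD ψ q r|, fun q hq r hr => ?_⟩
      refine (le_abs_self _).trans ?_
      refine (Finset.single_le_sum (f := fun r => |DD ψ q r|) (fun _ _ => abs_nonneg _) hr).trans ?_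
      exact Finset.single_le_sum (f := fun q => ∑ r ∈ X, |DD ψ q r|)
        (fun _ _ => Finset.sum_nonneg fun _ _ => abs_nonneg _) hq
    obtain ⟨K, hK⟩ := h1
    obtain ⟨M, hM⟩ := pow_unbounded_of_one_lt K (one_lt_two)
    exact ⟨M, fun q hq r hr => (hK q hq r hr).trans_lt hM⟩
  -- the pieces
  set F0 : ℕ → ℕ → ℝ := fun q r =>
    if DD ψ q r ≤ 2 ^ J1 then (mm ψ q * mm ψ r) ^ d * ∏ p ∈ PF q r, variance_g d p else 0 with hF0
  set F : ℕ → ℕ → ℕ → ℝ := fun j q r =>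
    if DD ψ q r ≤ 2 ^ (j + 1) then (mm ψ q * mm ψ r) ^ d * ∏ p ∈ PF q r, G j p else 0 with hF
  have hF0n : ∀ q r, 0 ≤ F0 q r := by
    intro q r
    simp only [hF0]
    split_ifs
    · have : 0 ≤ ∏ p ∈ PF q r, variance_g d p :=
        Finset.prod_nonneg fun p _ => (zero_le_one.trans (variance_g_one d p))
      have := hm0 q
      have := hm0 r
      positivity
    · exact le_rfl
  have hFn : ∀ j q r, 0 ≤ F j q r := by
    intro j q r
    simp only [hF]
    split_ifs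
    · have h1 : 0 ≤ ∏ p ∈ PF q r, G j p := by
        refine Finset.prod_nonneg fun p hp => ?_
        simp only [hG]
        split_ifs
        · exact pow_nonneg (by linarith [(variance_frac (variance_PF_prime hp).two_le).1]) _
        · exact zero_le_one
      exact mul_nonneg (pow_nonneg (mul_nonneg (hm0 q) (hm0 r)) d) h1
    · exact le_rfl
  -- pointwise bound
  have hpt : ∀ q ∈ X, ∀ r ∈ X, EE ψ q r ^ d ≤ (if q = r then C1 ^ d * mm ψ q ^ d else 0) +
      (8 * 2 ^ J1) ^ d * F0 q r + (1 + ε) * (mm ψ q ^ d * mm ψ r ^ d) +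
      ∑ j ∈ Finset.Icc J1 M, (1 + δ) ^ d * (1 / 4) ^ j * F j q r := by
    intro q hq r hr
    have hEE := variance_EE_nonneg ψ q r
    have t1 : 0 ≤ (if q = r then C1 ^ d * mm ψ q ^ d else 0) := by
      have := hm0 q
      split_ifs <;> positivity
    have t2 : 0 ≤ (8 * 2 ^ J1) ^ d * F0 q r := mul_nonneg (by positivity) (hF0n q r)
    have t3 : 0 ≤ (1 + ε) * (mm ψ q ^ d * mm ψ r ^ d) := by
      have := hm0 q
      have := hm0 r
      positivity
    have t4 : 0 ≤ ∑ j ∈ Finset.Icc J1 M, (1 + δ) ^ d * (1 / 4) ^ j * F j q r :=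
      Finset.sum_nonneg fun j _ => mul_nonneg (by positivity) (hFn j q r)
    have hmmn : 0 ≤ mm ψ q * mm ψ r := mul_nonneg (hm0 q) (hm0 r)
    by_cases hqr : q = r
    · subst hqr
      have h1 := hdiag ψ q hψ (hX q hq) (hmm q hq)
      have h2 : EE ψ q q ^ d ≤ C1 ^ d * mm ψ q ^ d := by
        rw [← mul_pow]
        exact pow_le_pow_left₀ hEE h1 d
      rw [if_pos rfl] at t1 ⊢
      linarith
    · rw [if_neg hqr] at t1 ⊢
      by_cases hD1 : DD ψ q r < 1 / 2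
      · rw [EE_small ψ hψ q r (hX q hq) (hX r hr) hqr hD1, zero_pow (by omega)]
        linarith
      · push Not at hD1
        by_cases hD2 : DD ψ q r < 2 ^ J1
        · -- middle range
          have h1 := EE_mid ψ hψ q r (hX q hq) (hX r hr) hqr hD1
          have h2 : EE ψ q r ≤ (8 * 2 ^ J1) * (Pz 0 q r * (mm ψ q * mm ψ r)) := by
            refine h1.trans ?_
            rw [mul_assoc]
            exact mul_le_mul_of_nonneg_right (by linarith)
              (mul_nonneg (variance_Pz_nonneg _ _ _) hmmn)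
          have h3 : EE ψ q r ^ d ≤ (8 * 2 ^ J1) ^ d * F0 q r := by
            refine (pow_le_pow_left₀ hEE h2 d).trans (le_of_eq ?_)
            rw [mul_pow, mul_pow (Pz 0 q r), variance_g_pz]
            simp only [hF0]
            rw [if_pos hD2.le]
            ring
          linarith
        · push Not at hD2
          -- the dyadic exponent
          have hex : ∃ j : ℕ, DD ψ q r < 2 ^ (j + 1) := by
            refine ⟨M, (hM q hq r hr).trans_le ?_⟩
            exact pow_le_pow_right₀ (by norm_num) (by omega)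
          classical
          set j := Nat.find hex with hj
          have hj1 : DD ψ q r < 2 ^ (j + 1) := Nat.find_spec hex
          have hjM : j ≤ M := Nat.find_min' hex ((hM q hq r hr).trans_le
            (pow_le_pow_right₀ (by norm_num) (by omega)))
          have hJj : J1 ≤ j := by
            by_contra hlt
            push Not at hlt
            have : (2 : ℝ) ^ (j + 1) ≤ 2 ^ J1 := pow_le_pow_right₀ (by norm_num) (by omega)
            linarith
          have hj16 : 16 ≤ j := (le_max_right _ _).trans hJj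
          have hj2 : (2 : ℝ) ^ j ≤ DD ψ q r := by
            have h5 : ¬ DD ψ q r < 2 ^ (j - 1 + 1) := Nat.find_min hex (by omega)
            rw [Nat.sub_add_cancel (by omega)] at h5
            exact not_lt.1 h5
          have h1 := hJ0 j ψ q r ((le_max_left _ _).trans hJj) hψ (hX q hq) (hX r hr) hqr hj2 hj1
          set P := Pz (j / 8) q r with hP
          have hP0 : 0 ≤ P := variance_Pz_nonneg _ _ _
          by_cases hPle : P ≤ 1 + δ
          · have h2 : EE ψ q r ≤ (1 + δ) ^ 2 * (mm ψ q * mm ψ r) := by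
              refine h1.trans (mul_le_mul_of_nonneg_right ?_ hmmn)
              rw [sq]
              exact mul_le_mul_of_nonneg_left hPle (by linarith)
            have h3 : EE ψ q r ^ d ≤ (1 + ε) * (mm ψ q ^ d * mm ψ r ^ d) := by
              refine (pow_le_pow_left₀ hEE h2 d).trans ?_
              rw [mul_pow, ← pow_mul, mul_pow]
              exact mul_le_mul_of_nonneg_right hδε
                (mul_nonneg (pow_nonneg (hm0 q) d) (pow_nonneg (hm0 r) d))
            linarith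
          · push Not at hPle
            have h4 : P ^ d * 4 ^ j ≤ P ^ (n j) := by
              have e1 : P ^ (n j) = P ^ d * P ^ (n j - d) := by
                rw [← pow_add, Nat.add_sub_cancel' (hn1 j)]
              rw [e1]
              refine mul_le_mul_of_nonneg_left ((hn2 j).trans ?_) (pow_nonneg hP0 d)
              exact pow_le_pow_left₀ (by linarith) hPle.le _
            have h5 : P ^ d ≤ (1 / 4) ^ j * P ^ (n j) := by
              rw [one_div, inv_pow, inv_mul_eq_div, le_div_iff₀ (by positivity)]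
              exact h4
            have h6 : EE ψ q r ^ d ≤ (1 + δ) ^ d * (1 / 4) ^ j * F j q r := by
              refine (pow_le_pow_left₀ hEE h1 d).trans ?_
              have e1 : F j q r = (mm ψ q * mm ψ r) ^ d * P ^ (n j) := by
                simp only [hF]
                rw [if_pos hj1.le, hP, variance_Pz_pow]
              rw [e1, mul_pow, mul_pow]
              have e2 : (1 + δ) ^ d * P ^ d * (mm ψ q * mm ψ r) ^ d =
                  ((1 + δ) ^ d * (mm ψ q * mm ψ r) ^ d) * P ^ d := by ring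
              have e3 : (1 + δ) ^ d * (1 / 4) ^ j * ((mm ψ q * mm ψ r) ^ d * P ^ (n j)) =
                  ((1 + δ) ^ d * (mm ψ q * mm ψ r) ^ d) * ((1 / 4) ^ j * P ^ (n j)) := by ring
              rw [e2, e3]
              exact mul_le_mul_of_nonneg_left h5
                (mul_nonneg (by positivity) (pow_nonneg hmmn d))
            have h7 : (1 + δ) ^ d * (1 / 4) ^ j * F j q r ≤
                ∑ j ∈ Finset.Icc J1 M, (1 + δ) ^ d * (1 / 4) ^ j * F j q r :=
              Finset.single_le_sum (f := fun j => (1 + δ) ^ d * (1 / 4) ^ j * F j q r)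
                (fun j _ => mul_nonneg (by positivity) (hFn j q r))
                (Finset.mem_Icc.2 ⟨hJj, hjM⟩)
            linarith
  -- summation
  refine (Finset.sum_le_sum fun q hq => Finset.sum_le_sum fun r hr => hpt q hq r hr).trans ?_
  simp only [Finset.sum_add_distrib]
  have s1 : ∑ q ∈ X, ∑ r ∈ X, (if q = r then C1 ^ d * mm ψ q ^ d else 0) ≤
      C1 ^ d * Ψ ^ (3 / 2 : ℝ) := by
    have e1 : ∑ q ∈ X, ∑ r ∈ X, (if q = r then C1 ^ d * mm ψ q ^ d else 0) = C1 ^ d * Ψ := by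
      rw [hΨd, Finset.mul_sum]
      refine Finset.sum_congr rfl fun q hq => ?_
      rw [Finset.sum_ite_eq]
      rw [if_pos hq]
    rw [e1]
    exact mul_le_mul_of_nonneg_left hΨ32 (by positivity)
  have s2 : ∑ q ∈ X, ∑ r ∈ X, (8 * 2 ^ J1) ^ d * F0 q r ≤
      (8 * 2 ^ J1) ^ d * (C3 * 2 ^ J1) * Ψ ^ (3 / 2 : ℝ) := by
    have e1 : ∑ q ∈ X, ∑ r ∈ X, (8 * 2 ^ J1) ^ d * F0 q r =
        (8 * 2 ^ J1) ^ d * ∑ q ∈ X, ∑ r ∈ X, F0 q r := by
      rw [Finset.mul_sum]
      exact Finset.sum_congr rfl fun q _ => (Finset.mul_sum _ _ _).symm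
    rw [e1, mul_assoc]
    refine mul_le_mul_of_nonneg_left ?_ (by positivity)
    refine (hpB' X ψ (2 ^ J1) hX hψ hmm (by positivity)).trans ?_
    refine mul_le_mul_of_nonneg_right ?_ (by positivity)
    refine mul_le_mul_of_nonneg_left ?_ hC3.le
    calc ((2 : ℝ) ^ J1) ^ (1 / 2 : ℝ) ≤ ((2 : ℝ) ^ J1) ^ (1 : ℝ) :=
          Real.rpow_le_rpow_of_exponent_le (one_le_pow₀ (by norm_num)) (by norm_num)
      _ = 2 ^ J1 := Real.rpow_one _
  have s3 : ∑ q ∈ X, ∑ r ∈ X, (1 + ε) * (mm ψ q ^ d * mm ψ r ^ d) = (1 + ε) * Ψ ^ 2 := by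
    rw [hΨd, sq, Finset.sum_mul_sum, Finset.mul_sum]
    exact Finset.sum_congr rfl fun q _ => (Finset.mul_sum _ _ _).symm
  have s4 : ∑ q ∈ X, ∑ r ∈ X, ∑ j ∈ Finset.Icc J1 M, (1 + δ) ^ d * (1 / 4) ^ j * F j q r ≤
      4 * ((1 + δ) ^ d * C2) * Ψ ^ (3 / 2 : ℝ) := by
    have e1 : ∑ q ∈ X, ∑ r ∈ X, ∑ j ∈ Finset.Icc J1 M, (1 + δ) ^ d * (1 / 4) ^ j * F j q r =
        ∑ j ∈ Finset.Icc J1 M, (1 + δ) ^ d * (1 / 4) ^ j * ∑ q ∈ X, ∑ r ∈ X, F j q r := by
      calc ∑ q ∈ X, ∑ r ∈ X, ∑ j ∈ Finset.Icc J1 M, (1 + δ) ^ d * (1 / 4) ^ j * F j q r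
          = ∑ q ∈ X, ∑ j ∈ Finset.Icc J1 M, ∑ r ∈ X, (1 + δ) ^ d * (1 / 4) ^ j * F j q r :=
            Finset.sum_congr rfl fun q _ => Finset.sum_comm
        _ = ∑ j ∈ Finset.Icc J1 M, ∑ q ∈ X, ∑ r ∈ X, (1 + δ) ^ d * (1 / 4) ^ j * F j q r :=
            Finset.sum_comm
        _ = _ := by
            refine Finset.sum_congr rfl fun j _ => ?_
            rw [Finset.mul_sum]
            exact Finset.sum_congr rfl fun q _ => (Finset.mul_sum _ _ _).symm
    rw [e1]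
    have h1 : ∀ j ∈ Finset.Icc J1 M, (1 + δ) ^ d * (1 / 4) ^ j * ∑ q ∈ X, ∑ r ∈ X, F j q r ≤
        (2 * ((1 + δ) ^ d * C2) * Ψ ^ (3 / 2 : ℝ)) * (1 / 2) ^ j := by
      intro j hj
      rw [Finset.mem_Icc] at hj
      have hj16 : 16 ≤ j := (le_max_right _ _).trans hj.1
      obtain ⟨g1, g2, g3⟩ := hg j hj16
      have h2 := hpA (G j) g1 g2 g3 X ψ (2 ^ (j + 1)) hX hψ hmm (by positivity)
      have h3 : ((2 : ℝ) ^ (j + 1)) ^ (1 / 2 : ℝ) ≤ 2 ^ (j + 1) := by
        calc ((2 : ℝ) ^ (j + 1)) ^ (1 / 2 : ℝ) ≤ ((2 : ℝ) ^ (j + 1)) ^ (1 : ℝ) :=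
              Real.rpow_le_rpow_of_exponent_le (one_le_pow₀ (by norm_num)) (by norm_num)
          _ = 2 ^ (j + 1) := Real.rpow_one _
      have h4 : ∑ q ∈ X, ∑ r ∈ X, F j q r ≤ C2 * 2 ^ (j + 1) * Ψ ^ (3 / 2 : ℝ) :=
        h2.trans (mul_le_mul_of_nonneg_right (mul_le_mul_of_nonneg_left h3 hC2.le) (by positivity))
      refine (mul_le_mul_of_nonneg_left h4 (by positivity)).trans (le_of_eq ?_)
      have e5 : (1 / 4 : ℝ) ^ j = (1 / 2) ^ j * (1 / 2) ^ j := by
        rw [← mul_pow]; norm_num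
      have e6 : (1 / 2 : ℝ) ^ j * 2 ^ (j + 1) = 2 := by
        rw [pow_succ, ← mul_assoc, ← mul_pow]; norm_num
      rw [e5]
      calc (1 + δ) ^ d * ((1 / 2) ^ j * (1 / 2) ^ j) * (C2 * 2 ^ (j + 1) * Ψ ^ (3 / 2 : ℝ))
          = (1 + δ) ^ d * C2 * Ψ ^ (3 / 2 : ℝ) * ((1 / 2) ^ j * 2 ^ (j + 1)) * (1 / 2) ^ j := by ring
        _ = _ := by rw [e6]; ring
    refine (Finset.sum_le_sum h1).trans ?_
    rw [← Finset.mul_sum]
    have h5 : ∑ j ∈ Finset.Icc J1 M, (1 / 2 : ℝ) ^ j ≤ 2 := by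
      refine (Finset.sum_le_sum_of_subset_of_nonneg (t := Finset.range (M + 1)) ?_ ?_).trans ?_
      · intro j hj
        rw [Finset.mem_Icc] at hj
        exact Finset.mem_range.2 (by omega)
      · intro j _ _
        positivity
      · have := geom_sum_Ico_le_of_lt_one (x := (1 / 2 : ℝ)) (m := 0) (n := M + 1) (by norm_num)
          (by norm_num)
        rw [← Finset.range_eq_Ico] at this
        refine this.trans ?_
        norm_num
    calc 2 * ((1 + δ) ^ d * C2) * Ψ ^ (3 / 2 : ℝ) * ∑ j ∈ Finset.Icc J1 M, (1 / 2 : ℝ) ^ j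
        ≤ 2 * ((1 + δ) ^ d * C2) * Ψ ^ (3 / 2 : ℝ) * 2 :=
          mul_le_mul_of_nonneg_left h5 (by positivity)
      _ = 4 * ((1 + δ) ^ d * C2) * Ψ ^ (3 / 2 : ℝ) := by ring
  rw [s3]
  nlinarith [s1, s2, s4]

end Pool.Agent.H560DS
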