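import Pool.Agent.H560DS.Defs

set_option autoImplicit false

namespace Pool.Agent.H560DS

open Finset

/-! DS21: most reduced residues are far from the ends -/

theorem card_RR (q : ℕ) : (RR q).card = Nat.totient q := by
  rw [Nat.totient_eq_card_coprime, RR]
  congr 1
  apply Finset.filter_congr
  intro a _
  exact Nat.coprime_comm

theorem q_le (q : ℕ) (hq : 0 < q) : q ≤ q.divisors.card * Nat.totient q := by
  calc q = ∑ m ∈ q.divisors, Nat.totient m := (Nat.sum_totient q).symm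
    _ ≤ ∑ m ∈ q.divisors, Nat.totient q := by
        apply Finset.sum_le_sum
        intro m hm
        exact Nat.le_of_dvd (Nat.totient_pos.2 hq) (Nat.totient_dvd_of_dvd (Nat.dvd_of_mem_divisors hm))
    _ = q.divisors.card * Nat.totient q := by simp

theorem card_GR (q : ℕ) (t : ℝ) (ht : 0 ≤ t) :
    (Nat.totient q : ℝ) ≤ ((GR q t).card : ℝ) + 2 * (t + 1) := by
  classical
  have hsub : RR q ⊆ (GR q t ∪ range ⌈t⌉₊) ∪ (range ⌈t⌉₊).image (fun b => q - b) := by
    intro a ha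
    have haq : a < q := by
      have := (Finset.mem_filter.1 ha).1
      exact Finset.mem_range.1 this
    by_cases h1 : t ≤ (a : ℝ)
    · by_cases h2 : (a : ℝ) + t ≤ (q : ℝ)
      · apply Finset.mem_union_left
        apply Finset.mem_union_left
        unfold GR
        exact Finset.mem_filter.2 ⟨ha, h1, h2⟩
      · apply Finset.mem_union_right
        rw [Finset.mem_image]
        refine ⟨q - a, ?_, by omega⟩
        rw [Finset.mem_range, Nat.lt_ceil, Nat.cast_sub haq.le]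
        push Not at h2
        linarith
    · apply Finset.mem_union_left
      apply Finset.mem_union_right
      rw [Finset.mem_range, Nat.lt_ceil]
      push Not at h1
      exact h1
  have hc : (RR q).card ≤ (GR q t).card + ⌈t⌉₊ + ⌈t⌉₊ := by
    calc (RR q).card ≤ ((GR q t ∪ range ⌈t⌉₊) ∪ (range ⌈t⌉₊).image (fun b => q - b)).card :=
          Finset.card_le_card hsub
      _ ≤ (GR q t ∪ range ⌈t⌉₊).card + ((range ⌈t⌉₊).image (fun b => q - b)).card :=
          Finset.card_union_le _ _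
      _ ≤ ((GR q t).card + (range ⌈t⌉₊).card) + (range ⌈t⌉₊).card := by
          exact Nat.add_le_add (Finset.card_union_le _ _) Finset.card_image_le
      _ = (GR q t).card + ⌈t⌉₊ + ⌈t⌉₊ := by simp
  have hce : (⌈t⌉₊ : ℝ) ≤ t + 1 := (Nat.ceil_lt_add_one ht).le
  have hcR : ((RR q).card : ℝ) ≤ (GR q t).card + ⌈t⌉₊ + ⌈t⌉₊ := by exact_mod_cast hc
  rw [card_RR] at hcR
  linarith

/-- TARGET. Proof: #(RR q) = phi(q). The removed residues satisfy a < t or a > q - t: at most (t + 1) + (t + 1). t <= q/(2 phi(q)). Sum over divisors of q of phi(d) = q and phi(d) <= phi(q) for d | q, so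
q <= tau(q) phi(q), hence q/phi(q) <= C q^(1/8) and phi(q) >= q^(7/8)/C. So the removed number is at most q/phi(q) + 2 <= (C+2) q^(1/8) <= eps * q^(7/8)/C <= eps phi(q) for q >= q0. -/
theorem good_res (hdiv : ∃ C : ℝ, 1 ≤ C ∧ ∀ n : ℕ, n ≠ 0 → (n.divisors.card : ℝ) ≤ C * (n : ℝ) ^ (1 / 8 : ℝ))
    (ε : ℝ) (hε : 0 < ε) : ∃ q0 : ℕ, ∀ (q : ℕ) (t : ℝ), q0 ≤ q → 0 ≤ t → 2 * t * (Nat.totient q : ℝ) / (q : ℝ) ≤ 1 →
    (1 - ε) * (Nat.totient q : ℝ) ≤ ((GR q t).card : ℝ) := by
  obtain ⟨C, hC1, hC⟩ := hdiv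
  have hlim : Filter.Tendsto (fun n : ℕ => (n : ℝ) ^ (3 / 4 : ℝ)) Filter.atTop Filter.atTop :=
    (tendsto_rpow_atTop (by norm_num)).comp tendsto_natCast_atTop_atTop
  obtain ⟨N, hN⟩ := Filter.eventually_atTop.1 (hlim.eventually (Filter.eventually_ge_atTop (C * (C + 2) / ε)))
  refine ⟨N + 1, ?_⟩
  intro q t hq ht h2t
  have hq0 : 0 < q := by omega
  have hqR : (0 : ℝ) < q := by exact_mod_cast hq0
  have hq1 : (1 : ℝ) ≤ q := by exact_mod_cast hq0
  have hφ0 : 0 < Nat.totient q := Nat.totient_pos.2 hq0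
  have hφ : (0 : ℝ) < Nat.totient q := by exact_mod_cast hφ0
  have hNq := hN q (by omega)
  set x : ℝ := (q : ℝ) ^ (1 / 8 : ℝ) with hx
  have hx1 : 1 ≤ x := Real.one_le_rpow hq1 (by norm_num)
  have hx0 : 0 < x := by linarith
  have hx8 : x ^ 8 = q := by
    rw [hx, ← Real.rpow_natCast, ← Real.rpow_mul hqR.le]; norm_num
  have hx6 : (q : ℝ) ^ (3 / 4 : ℝ) = x ^ 6 := by
    rw [hx, ← Real.rpow_natCast, ← Real.rpow_mul hqR.le]; norm_num
  have h1 : (q : ℝ) ≤ C * x * Nat.totient q := by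
    have h := q_le q hq0
    have h' : (q : ℝ) ≤ q.divisors.card * Nat.totient q := by exact_mod_cast h
    have h'' := hC q hq0.ne'
    calc (q : ℝ) ≤ q.divisors.card * Nat.totient q := h'
      _ ≤ C * x * Nat.totient q := by gcongr
  -- 2 t ≤ C x
  have h2 : 2 * t ≤ C * x := by
    rw [div_le_one hqR] at h2t
    have : 2 * t * (Nat.totient q : ℝ) ≤ C * x * Nat.totient q := le_trans h2t h1
    exact le_of_mul_le_mul_right this hφ
  have h3 := card_GR q t ht
  -- (C+2) x ≤ ε φ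
  have h4 : (C + 2) * x ≤ ε * Nat.totient q := by
    change C * (C + 2) / ε ≤ (q : ℝ) ^ (3 / 4 : ℝ) at hNq
    rw [hx6, div_le_iff₀ hε] at hNq
    -- C (C+2) ≤ x^6 ε ; x^8 ≤ C x φ → x^7 ≤ C φ
    rw [← hx8] at h1
    have h5 : x ^ 7 ≤ C * Nat.totient q := by
      have : x ^ 7 * x ≤ C * Nat.totient q * x := by nlinarith [h1]
      exact le_of_mul_le_mul_right this hx0
    have h6 : C * ((C + 2) * x) ≤ C * (ε * Nat.totient q) := by
      calc C * ((C + 2) * x) = C * (C + 2) * x := by ring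
        _ ≤ x ^ 6 * ε * x := by gcongr
        _ = ε * x ^ 7 := by ring
        _ ≤ ε * (C * Nat.totient q) := by gcongr
        _ = C * (ε * Nat.totient q) := by ring
    exact le_of_mul_le_mul_left h6 (by linarith)
  nlinarith

end Pool.Agent.H560DS
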