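import Pool.Agent.H560DS.Defs
import Pool.Agent.H560_K2.Eng

set_option autoImplicit false

namespace Pool.Agent.H560DS

open Finset
open Pool.Agent.H560_K2 (cs_family2)

/-! DS22: Cauchy-Schwarz for boxes in dimension d -/

namespace DS22

/-- the interval of `a / q` -/
def Iv (ψ : ℕ → ℝ) (q a : ℕ) : Set ℝ := Set.Ioo ((a : ℝ) / q - ψ q / q) ((a : ℝ) / q + ψ q / q)

/-- the box -/
def Bx (d : ℕ) (ψ : ℕ → ℝ) (q : ℕ) (a : Fin d → ℕ) : Set (Fin d → ℝ) :=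
  Set.pi Set.univ (fun i => Iv ψ q (a i))

theorem meas_Bx (d : ℕ) (ψ : ℕ → ℝ) (q : ℕ) (a : Fin d → ℕ) : MeasurableSet (Bx d ψ q a) :=
  MeasurableSet.univ_pi fun _ => measurableSet_Ioo

theorem real_pi (d : ℕ) (s : Fin d → Set ℝ) :
    MeasureTheory.volume.real (Set.pi Set.univ s) = ∏ i, MeasureTheory.volume.real (s i) := by
  rw [MeasureTheory.measureReal_def, MeasureTheory.volume_pi_pi, ENNReal.toReal_prod]
  rfl

theorem vol_Bx (d : ℕ) (ψ : ℕ → ℝ) (hψ : ∀ q, 0 ≤ ψ q) (q : ℕ) (a : Fin d → ℕ) :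
    MeasureTheory.volume.real (Bx d ψ q a) = (2 * ψ q / q) ^ d := by
  rw [Bx, real_pi]
  have h : ∀ i, MeasureTheory.volume.real (Iv ψ q (a i)) = 2 * ψ q / q := by
    intro i
    have h0 : 0 ≤ ψ q / q := div_nonneg (hψ q) (Nat.cast_nonneg q)
    rw [Iv, Real.volume_real_Ioo_of_le (by linarith)]
    ring
  rw [Finset.prod_congr rfl fun i _ => h i, Finset.prod_const, Finset.card_univ, Fintype.card_fin]

theorem vol_inter (d : ℕ) (ψ : ℕ → ℝ) (q r : ℕ) (a b : Fin d → ℕ) :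
    MeasureTheory.volume.real (Bx d ψ q a ∩ Bx d ψ r b) =
      ∏ i, MeasureTheory.volume.real (Iv ψ q (a i) ∩ Iv ψ r (b i)) := by
  rw [Bx, Bx, ← Set.pi_inter_distrib, real_pi]

theorem sum_pow (d : ℕ) (A B : Finset ℕ) (V : ℕ → ℕ → ℝ) :
    ∑ a ∈ Fintype.piFinset (fun _ : Fin d => A), ∑ b ∈ Fintype.piFinset (fun _ : Fin d => B),
      ∏ i, V (a i) (b i) = (∑ a ∈ A, ∑ b ∈ B, V a b) ^ d := by
  have h1 : ∀ a : Fin d → ℕ, ∑ b ∈ Fintype.piFinset (fun _ : Fin d => B), ∏ i, V (a i) (b i) =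
      ∏ i, ∑ b ∈ B, V (a i) b := by
    intro a
    exact (Finset.prod_univ_sum (fun _ : Fin d => B) (fun i b => V (a i) b)).symm
  rw [Finset.sum_congr rfl fun a _ => h1 a]
  rw [← Finset.prod_univ_sum (fun _ : Fin d => A) (fun _ a => ∑ b ∈ B, V a b),
    Finset.prod_const, Finset.card_univ, Fintype.card_fin]

/-- the set of one denominator -/
def Dq (d : ℕ) (ψ : ℕ → ℝ) (q : ℕ) : Set (Fin d → ℝ) :=
  {x : Fin d → ℝ | ∀ i, x i ∈ Set.Icc (0 : ℝ) 1 ∧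
        ∃ a : ℤ, Int.gcd a ((q : ℕ) : ℤ) = 1 ∧ |x i - (a : ℝ) / ((q : ℕ) : ℝ)| < ψ q / ((q : ℕ) : ℝ)}

theorem meas_Dq (d : ℕ) (ψ : ℕ → ℝ) (q : ℕ) : MeasurableSet (Dq d ψ q) := by
  have h : Dq d ψ q = Set.pi Set.univ (fun _ : Fin d => Set.Icc (0 : ℝ) 1 ∩
      ⋃ a : ℤ, ⋃ _ : Int.gcd a ((q : ℕ) : ℤ) = 1,
        {y : ℝ | |y - (a : ℝ) / ((q : ℕ) : ℝ)| < ψ q / ((q : ℕ) : ℝ)}) := by
    ext x
    simp [Dq]
  rw [h]
  refine MeasurableSet.univ_pi fun _ => measurableSet_Icc.inter ?_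
  refine MeasurableSet.iUnion fun a => MeasurableSet.iUnion fun _ => ?_
  refine (isOpen_lt ?_ continuous_const).measurableSet
  fun_prop

theorem Dq_sub (d : ℕ) (ψ : ℕ → ℝ) (q : ℕ) :
    Dq d ψ q ⊆ Set.pi Set.univ (fun _ : Fin d => Set.Icc (0 : ℝ) 1) :=
  fun _ hx i _ => (hx i).1

theorem Bx_sub (d : ℕ) (ψ : ℕ → ℝ) (q : ℕ) (hq : 0 < q) (a : Fin d → ℕ)
    (ha : ∀ i, a i ∈ GR q (ψ q)) : Bx d ψ q a ⊆ Dq d ψ q := by
  intro x hx i
  have hxi := hx i (Set.mem_univ i)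
  have hai := ha i
  unfold GR RR at hai
  rw [Finset.mem_filter, Finset.mem_filter] at hai
  obtain ⟨⟨_, hco⟩, h1, h2⟩ := hai
  obtain ⟨h3, h4⟩ := hxi
  have hq' : (0 : ℝ) < q := by exact_mod_cast hq
  refine ⟨⟨?_, ?_⟩, (a i : ℤ), ?_, ?_⟩
  · rw [← sub_div] at h3
    have : 0 ≤ ((a i : ℝ) - ψ q) / q := div_nonneg (by linarith) hq'.le
    linarith
  · rw [← add_div] at h4
    have : ((a i : ℝ) + ψ q) / q ≤ 1 := by
      rw [div_le_one hq']
      exact h2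
    linarith
  · rw [Int.gcd_natCast_natCast]
    exact hco
  · rw [Int.cast_natCast, abs_lt]
    constructor <;> linarith

end DS22

/-- TARGET. Proof: A q = GR q (psi q). J = pairs (q, a) with q in X and a : Fin d -> Nat with all a i in A q (e.g. X.sigma (fun q => Fintype.piFinset (fun _ => A q)), or
an index type Sigma). B (q,a) = {x | for all i, x i in Ioo (a i/q - psi q/q) (a i/q + psi q/q)} = Set.pi univ of intervals, contained in the union D (the coordinates are in [0,1]).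
volume.real (B (q,a)) = (2 psi q/q)^d, so sum over a = (#(A q))^d (2 psi q/q)^d >= (eta phi(q) 2 psi q/q)^d = (eta mm q)^d.
volume.real (B (q,a) cap B (r,b)) = prod_i volume.real (I_{a i} cap J_{b i}); the sum over a, b is (sum_{a in A q, b in A r} volume.real(..))^d <= EE psi q r^d (Finset.prod_univ_sum; A q subset RR q).
D is measurable: each set is {x | for all i, x i in Icc 0 1 and in an open set} (a countable union of intervals), and D is inside [0,1]^d (finite measure). Then cs_family2. -/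
theorem union_lower (d : ℕ) (hd : 1 ≤ d) (X : Finset ℕ) (ψ : ℕ → ℝ) (hX : ∀ q ∈ X, 0 < q) (hψ : ∀ q, 0 ≤ ψ q) (η : ℝ) (hη : 0 ≤ η)
    (hgood : ∀ q ∈ X, η * (Nat.totient q : ℝ) ≤ ((GR q (ψ q)).card : ℝ)) :
    (η ^ d * ∑ q ∈ X, mm ψ q ^ d) ^ 2 ≤
      MeasureTheory.volume.real (⋃ q ∈ X, {x : Fin d → ℝ | ∀ i, x i ∈ Set.Icc (0 : ℝ) 1 ∧
        ∃ a : ℤ, Int.gcd a ((q : ℕ) : ℤ) = 1 ∧ |x i - (a : ℝ) / ((q : ℕ) : ℝ)| < ψ q / ((q : ℕ) : ℝ)}) *
      ∑ q ∈ X, ∑ r ∈ X, EE ψ q r ^ d := by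
  classical
  set D : Set (Fin d → ℝ) := ⋃ q ∈ X, DS22.Dq d ψ q with hDdef
  have hDm : MeasurableSet D :=
    Finset.measurableSet_biUnion X fun q _ => DS22.meas_Dq d ψ q
  have hDf : MeasureTheory.volume D ≠ ⊤ := by
    have hsub : D ⊆ Set.pi Set.univ (fun _ : Fin d => Set.Icc (0 : ℝ) 1) :=
      Set.iUnion₂_subset fun q _ => DS22.Dq_sub d ψ q
    refine ne_top_of_le_ne_top ?_ (MeasureTheory.measure_mono hsub)
    rw [MeasureTheory.volume_pi_pi]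
    simp
  let J : Finset ((_ : ℕ) × (Fin d → ℕ)) :=
    X.sigma (fun q => Fintype.piFinset (fun _ : Fin d => GR q (ψ q)))
  let B : ((_ : ℕ) × (Fin d → ℕ)) → Set (Fin d → ℝ) := fun j => DS22.Bx d ψ j.1 j.2
  have hcs := cs_family2 J B (fun j _ => DS22.meas_Bx d ψ j.1 j.2) D hDm hDf (by
    intro j hj
    rw [Finset.mem_sigma, Fintype.mem_piFinset] at hj
    exact (DS22.Bx_sub d ψ j.1 (hX _ hj.1) j.2 hj.2).trans
      (Set.subset_biUnion_of_mem (u := fun q => DS22.Dq d ψ q) hj.1))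
  have h1 : η ^ d * ∑ q ∈ X, mm ψ q ^ d ≤ ∑ j ∈ J, MeasureTheory.volume.real (B j) := by
    rw [Finset.sum_sigma, Finset.mul_sum]
    refine Finset.sum_le_sum fun q hq => ?_
    rw [Finset.sum_congr rfl fun a _ => DS22.vol_Bx d ψ hψ q a, Finset.sum_const,
      Fintype.card_piFinset, Finset.prod_const, Finset.card_univ, Fintype.card_fin,
      nsmul_eq_mul, Nat.cast_pow, ← mul_pow, ← mul_pow]
    have hq0 : (0 : ℝ) ≤ 2 * ψ q / q :=
      div_nonneg (mul_nonneg (by norm_num) (hψ q)) (Nat.cast_nonneg q)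
    have h2 : η * mm ψ q = (η * (Nat.totient q : ℝ)) * (2 * ψ q / q) := by
      rw [mm]; ring
    rw [h2]
    refine pow_le_pow_left₀ ?_ (mul_le_mul_of_nonneg_right (hgood q hq) hq0) d
    exact mul_nonneg (mul_nonneg hη (Nat.cast_nonneg _)) hq0
  have h0 : 0 ≤ η ^ d * ∑ q ∈ X, mm ψ q ^ d := by
    refine mul_nonneg (pow_nonneg hη d) (Finset.sum_nonneg fun q _ => pow_nonneg ?_ d)
    rw [mm]
    exact div_nonneg (mul_nonneg (mul_nonneg (by norm_num) (hψ q)) (Nat.cast_nonneg _))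
      (Nat.cast_nonneg _)
  have h3 : ∑ j ∈ J, ∑ k ∈ J, MeasureTheory.volume.real (B j ∩ B k) ≤
      ∑ q ∈ X, ∑ r ∈ X, EE ψ q r ^ d := by
    rw [Finset.sum_sigma]
    refine Finset.sum_le_sum fun q _ => ?_
    have h4 : ∀ a : Fin d → ℕ, ∑ k ∈ J, MeasureTheory.volume.real (B ⟨q, a⟩ ∩ B k) =
        ∑ r ∈ X, ∑ b ∈ Fintype.piFinset (fun _ : Fin d => GR r (ψ r)),
          ∏ i, MeasureTheory.volume.real (DS22.Iv ψ q (a i) ∩ DS22.Iv ψ r (b i)) := by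
      intro a
      rw [Finset.sum_sigma]
      refine Finset.sum_congr rfl fun r _ => Finset.sum_congr rfl fun b _ => ?_
      exact DS22.vol_inter d ψ q r a b
    rw [Finset.sum_congr rfl fun a _ => h4 a, Finset.sum_comm]
    refine Finset.sum_le_sum fun r _ => ?_
    rw [DS22.sum_pow d (GR q (ψ q)) (GR r (ψ r))
      (fun a b => MeasureTheory.volume.real (DS22.Iv ψ q a ∩ DS22.Iv ψ r b))]
    refine pow_le_pow_left₀ (Finset.sum_nonneg fun a _ => Finset.sum_nonneg fun b _ =>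
      MeasureTheory.measureReal_nonneg) ?_ d
    unfold EE
    have hsubq : GR q (ψ q) ⊆ RR q := Finset.filter_subset _ _
    have hsubr : GR r (ψ r) ⊆ RR r := Finset.filter_subset _ _
    calc ∑ a ∈ GR q (ψ q), ∑ b ∈ GR r (ψ r),
          MeasureTheory.volume.real (DS22.Iv ψ q a ∩ DS22.Iv ψ r b)
        ≤ ∑ a ∈ GR q (ψ q), ∑ b ∈ RR r,
          MeasureTheory.volume.real (DS22.Iv ψ q a ∩ DS22.Iv ψ r b) :=
          Finset.sum_le_sum fun a _ => Finset.sum_le_sum_of_subset_of_nonneg hsubr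
            fun b _ _ => MeasureTheory.measureReal_nonneg
      _ ≤ ∑ a ∈ RR q, ∑ b ∈ RR r,
          MeasureTheory.volume.real (DS22.Iv ψ q a ∩ DS22.Iv ψ r b) :=
          Finset.sum_le_sum_of_subset_of_nonneg hsubq
            fun a _ _ => Finset.sum_nonneg fun b _ => MeasureTheory.measureReal_nonneg
  have h5 : (η ^ d * ∑ q ∈ X, mm ψ q ^ d) ^ 2 ≤
      (∑ j ∈ J, MeasureTheory.volume.real (B j)) ^ 2 := pow_le_pow_left₀ h0 h1 2
  refine h5.trans (hcs.trans ?_)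
  exact mul_le_mul_of_nonneg_left h3 MeasureTheory.measureReal_nonneg

end Pool.Agent.H560DS
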