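import Pool.Agent.H560DS.Defs
import Pool.Agent.H560DS.DS20
import Pool.Agent.H560DS.DS21
import Pool.Agent.H560DS.DS22
import Pool.Agent.H373R2.T4.DivB

set_option autoImplicit false

namespace Pool.Agent.H560DS

open Finset

theorem hdiv8 : ∃ C : ℝ, 1 ≤ C ∧ ∀ n : ℕ, n ≠ 0 → (n.divisors.card : ℝ) ≤ C * (n : ℝ) ^ (1 / 8 : ℝ) :=
  Pool.Agent.H373R2.T4.DivB.div_bound (δ := 1 / 8) (by norm_num)

/-! DS23: final reduction -/

theorem final_card (n : ℕ) : (RR n).card = Nat.totient n := by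
  rw [Nat.totient_eq_card_coprime]
  unfold RR
  congr 1
  apply Finset.filter_congr
  intro a _
  exact Nat.coprime_comm

theorem final_one (ψ : ℕ → ℝ) (hψ : ∀ n, 0 ≤ ψ n) (n : ℕ) (hn : 0 < n) (hm : mm ψ n ≤ 1) :
    MeasureTheory.volume {x : ℝ | x ∈ Set.Icc (0 : ℝ) 1 ∧ ∃ a : ℤ, Int.gcd a (n : ℤ) = 1 ∧
      |x - (a : ℝ) / (n : ℝ)| < ψ n / (n : ℝ)} ≤ ENNReal.ofReal (3 * mm ψ n) := by
  have hn' : (0 : ℝ) < (n : ℝ) := by exact_mod_cast hn
  have hphi : (1 : ℝ) ≤ (Nat.totient n : ℝ) := by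
    exact_mod_cast Nat.totient_pos.mpr hn
  have hψn : 2 * ψ n ≤ n := by
    have h1 : 2 * ψ n * (Nat.totient n : ℝ) ≤ n := by
      unfold mm at hm
      rwa [div_le_one hn'] at hm
    have h2 : 2 * ψ n * 1 ≤ 2 * ψ n * (Nat.totient n : ℝ) :=
      mul_le_mul_of_nonneg_left hphi (by have := hψ n; linarith)
    linarith
  let I : Finset (ℕ × ℤ) := (RR n) ×ˢ ({-1, 0, 1} : Finset ℤ)
  let J : ℕ × ℤ → Set ℝ := fun p =>
    Set.Ioo (((p.1 : ℝ) + (p.2 : ℝ) * n) / n - ψ n / n) (((p.1 : ℝ) + (p.2 : ℝ) * n) / n + ψ n / n)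
  have hsub : {x : ℝ | x ∈ Set.Icc (0 : ℝ) 1 ∧ ∃ a : ℤ, Int.gcd a (n : ℤ) = 1 ∧
      |x - (a : ℝ) / (n : ℝ)| < ψ n / (n : ℝ)} ⊆ ⋃ p ∈ I, J p := by
    rintro x ⟨⟨hx0, hx1⟩, a, hgcd, hax⟩
    have hnz : (0 : ℤ) < (n : ℤ) := by exact_mod_cast hn
    have hb0 : 0 ≤ a % (n : ℤ) := Int.emod_nonneg _ (ne_of_gt hnz)
    have hbn : a % (n : ℤ) < n := Int.emod_lt_of_pos _ hnz
    have hdec : (n : ℤ) * (a / n) + a % n = a := Int.mul_ediv_add_emod a n
    have hhalf : |x - (a : ℝ) / (n : ℝ)| < 1 / 2 := by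
      refine lt_of_lt_of_le hax ?_
      rw [div_le_iff₀ hn']
      linarith
    rw [abs_lt] at hhalf
    have ha1 : (a : ℝ) < 2 * n := by
      have h1 : (a : ℝ) / n < 2 := by linarith [hhalf.1]
      rwa [div_lt_iff₀ hn'] at h1
    have ha2 : -(n : ℝ) < (a : ℝ) := by
      have h1 : -1 < (a : ℝ) / n := by linarith [hhalf.2]
      rw [lt_div_iff₀ hn'] at h1
      linarith
    have ha1' : a < 2 * (n : ℤ) := by exact_mod_cast ha1
    have ha2' : -(n : ℤ) < a := by exact_mod_cast ha2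
    have hk1 : a / (n : ℤ) < 2 := Int.ediv_lt_of_lt_mul hnz (by linarith)
    have hk2 : -1 ≤ a / (n : ℤ) := by
      rw [Int.le_ediv_iff_mul_le hnz]
      linarith
    have hcast : (((a % (n : ℤ)).toNat : ℕ) : ℤ) = a % (n : ℤ) := Int.toNat_of_nonneg hb0
    have hmem : ((a % (n : ℤ)).toNat, a / (n : ℤ)) ∈ I := by
      simp only [I, Finset.mem_product, RR, Finset.mem_filter, Finset.mem_range, Finset.mem_insert,
        Finset.mem_singleton]
      refine ⟨⟨by omega, ?_⟩, by omega⟩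
      have h1 : Int.gcd (a % (n : ℤ)) (n : ℤ) = 1 := by
        rw [← Int.isCoprime_iff_gcd_eq_one] at hgcd ⊢
        have h2 : IsCoprime (a % (n : ℤ) + (n : ℤ) * (a / n)) (n : ℤ) := by
          rw [add_comm, hdec]
          exact hgcd
        exact h2.of_add_mul_left_left
      rw [← hcast] at h1
      rw [Int.gcd_natCast_natCast] at h1
      exact h1
    have hreal : (((a % (n : ℤ)).toNat : ℕ) : ℝ) + ((a / (n : ℤ) : ℤ) : ℝ) * n = (a : ℝ) := by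
      have h1 : (((a % (n : ℤ)).toNat : ℕ) : ℤ) + (a / (n : ℤ)) * n = a := by
        rw [hcast]; linarith
      exact_mod_cast h1
    refine Set.mem_biUnion hmem ?_
    simp only [J]
    rw [hreal]
    rw [abs_lt] at hax
    constructor
    · linarith [hax.1]
    · linarith [hax.2]
  calc MeasureTheory.volume {x : ℝ | x ∈ Set.Icc (0 : ℝ) 1 ∧ ∃ a : ℤ, Int.gcd a (n : ℤ) = 1 ∧
      |x - (a : ℝ) / (n : ℝ)| < ψ n / (n : ℝ)} ≤ MeasureTheory.volume (⋃ p ∈ I, J p) :=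
        MeasureTheory.measure_mono hsub
    _ ≤ ∑ p ∈ I, MeasureTheory.volume (J p) := MeasureTheory.measure_biUnion_finset_le _ _
    _ = ∑ p ∈ I, ENNReal.ofReal (2 * ψ n / n) := by
        apply Finset.sum_congr rfl
        intro p _
        simp only [J, Real.volume_Ioo]
        congr 1
        ring
    _ = ENNReal.ofReal (3 * mm ψ n) := by
        rw [Finset.sum_const, Finset.card_product, final_card]
        have h3 : ({-1, 0, 1} : Finset ℤ).card = 3 := by decide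
        rw [h3, nsmul_eq_mul, ← ENNReal.ofReal_natCast, ← ENNReal.ofReal_mul (by positivity)]
        congr 1
        unfold mm
        push_cast
        ring

theorem final_box (d : ℕ) (ψ : ℕ → ℝ) (hψ : ∀ n, 0 ≤ ψ n) (n : ℕ) (hn : 0 < n) :
    MeasureTheory.volume {x : Fin d → ℝ | ∀ i, x i ∈ Set.Icc (0 : ℝ) 1 ∧
      ∃ a : ℤ, Int.gcd a (n : ℤ) = 1 ∧ |x i - (a : ℝ) / (n : ℝ)| < ψ n / (n : ℝ)} ≤
      ENNReal.ofReal (3 ^ d) * ENNReal.ofReal ((min (mm ψ n) 1) ^ d) := by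
  have hmm0 : 0 ≤ mm ψ n := by
    unfold mm
    have := hψ n
    positivity
  let E : Set ℝ := {x : ℝ | x ∈ Set.Icc (0 : ℝ) 1 ∧ ∃ a : ℤ, Int.gcd a (n : ℤ) = 1 ∧
      |x - (a : ℝ) / (n : ℝ)| < ψ n / (n : ℝ)}
  have hE : {x : Fin d → ℝ | ∀ i, x i ∈ Set.Icc (0 : ℝ) 1 ∧
      ∃ a : ℤ, Int.gcd a (n : ℤ) = 1 ∧ |x i - (a : ℝ) / (n : ℝ)| < ψ n / (n : ℝ)} =
      Set.pi Set.univ (fun _ : Fin d => E) := by
    ext x
    simp [E, Set.mem_pi]
  have hvol : MeasureTheory.volume E ≤ ENNReal.ofReal (3 * min (mm ψ n) 1) := by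
    rcases le_total (mm ψ n) 1 with h | h
    · rw [min_eq_left h]
      exact final_one ψ hψ n hn h
    · rw [min_eq_right h]
      have h1 : MeasureTheory.volume E ≤ MeasureTheory.volume (Set.Icc (0 : ℝ) 1) :=
        MeasureTheory.measure_mono (fun x hx => hx.1)
      refine le_trans h1 ?_
      rw [Real.volume_Icc]
      apply ENNReal.ofReal_le_ofReal
      norm_num
  rw [hE, MeasureTheory.volume_pi_pi]
  rw [Finset.prod_const, Finset.card_univ, Fintype.card_fin]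
  calc (MeasureTheory.volume E) ^ d ≤ (ENNReal.ofReal (3 * min (mm ψ n) 1)) ^ d :=
        pow_le_pow_left' hvol d
    _ = ENNReal.ofReal (3 ^ d) * ENNReal.ofReal ((min (mm ψ n) 1) ^ d) := by
        rw [← ENNReal.ofReal_pow (by positivity), mul_pow, ENNReal.ofReal_mul (by positivity)]

theorem final_mm (ψ : ℕ → ℝ) (n : ℕ) (hn : 0 < n) :
    mm (fun k => min (ψ k) ((k : ℝ) / (2 * (Nat.totient k : ℝ)))) n = min (mm ψ n) 1 := by
  have hn' : (0 : ℝ) < (n : ℝ) := by exact_mod_cast hn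
  have hphi : (0 : ℝ) < (Nat.totient n : ℝ) := by
    exact_mod_cast Nat.totient_pos.mpr hn
  have h1 : mm (fun k => (k : ℝ) / (2 * (Nat.totient k : ℝ))) n = 1 := by
    unfold mm
    field_simp
  have h2 : ∀ f : ℕ → ℝ, mm f n = f n * (2 * (Nat.totient n : ℝ) / n) := by
    intro f
    unfold mm
    ring
  rw [← h1, h2, h2, h2]
  rw [min_mul_of_nonneg _ _ (by positivity)]

theorem final_eps (d : ℕ) (γ : ℝ) (hγ0 : 0 < γ) (hγ1 : γ < 1) :
    ∃ ε : ℝ, 0 < ε ∧ ε < 1 ∧ 0 < ((1 - ε) ^ d) ^ 2 - γ * (1 + ε) := by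
  have hden : (0 : ℝ) < 2 * (2 * d + 1) := by positivity
  refine ⟨(1 - γ) / (2 * (2 * d + 1)), div_pos (by linarith) hden, ?_, ?_⟩
  · rw [div_lt_one hden]
    have : (0 : ℝ) ≤ d := by positivity
    linarith
  · set ε := (1 - γ) / (2 * (2 * (d : ℝ) + 1)) with hε
    have he : ε * (2 * (2 * d + 1)) = 1 - γ := by
      rw [hε]; field_simp
    have hε0 : 0 < ε := div_pos (by linarith) hden
    have hd0 : (0 : ℝ) ≤ d := by positivity
    have hε1 : ε < 1 := by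
      rw [hε, div_lt_one hden]
      linarith
    have hb := one_add_mul_le_pow (a := -ε) (by linarith) (d * 2)
    rw [← pow_mul]
    have hb' : 1 + ((d * 2 : ℕ) : ℝ) * (-ε) ≤ (1 - ε) ^ (d * 2) := by
      simpa [sub_eq_add_neg] using hb
    push_cast at hb'
    nlinarith [mul_pos hε0 (by linarith : (0 : ℝ) < 1 - γ)]

theorem final_M1 (δ γ C ε : ℝ) (A : ℝ) (hδ : 0 < δ) (hA : A - γ * (1 + ε) = δ)
    (P : ℝ) (hP1 : 1 ≤ P) (hP : (γ * C / δ) ^ 2 ≤ P) :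
    γ * ((1 + ε) * P ^ 2 + C * P ^ (3 / 2 : ℝ)) ≤ A * P ^ 2 := by
  have hP0 : 0 < P := by linarith
  have hs : γ * C / δ ≤ P ^ (1 / 2 : ℝ) := by
    rw [← Real.sqrt_eq_rpow]
    exact Real.le_sqrt_of_sq_le hP
  have hs' : γ * C ≤ P ^ (1 / 2 : ℝ) * δ := by
    rwa [div_le_iff₀ hδ] at hs
  have hprod : P ^ (1 / 2 : ℝ) * P ^ (3 / 2 : ℝ) = P ^ 2 := by
    rw [← Real.rpow_add hP0]
    norm_num
  have h32 : 0 < P ^ (3 / 2 : ℝ) := Real.rpow_pos_of_pos hP0 _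
  have hmul : γ * C * P ^ (3 / 2 : ℝ) ≤ P ^ 2 * δ := by
    calc γ * C * P ^ (3 / 2 : ℝ) ≤ P ^ (1 / 2 : ℝ) * δ * P ^ (3 / 2 : ℝ) :=
          mul_le_mul_of_nonneg_right hs' h32.le
      _ = P ^ 2 * δ := by rw [← hprod]; ring
  rw [← hA] at hmul
  nlinarith

/-- TARGET. Proof. Choose eps in (0,1) with (1-eps)^(2d)/(1+eps) > gamma; C from variance d eps, q0 from good_res eps. Choose M1 >= 1 with
(1-eps)^(2d) P^2 >= gamma ((1+eps) P^2 + C P^(3/2)) for all P >= M1. M = 3^d (M1 + q0 + 2).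
Given psi: psi' n = min (psi n) (n/(2 phi n)), so mm psi' n = min (mm psi n) 1 for n >= 1. Let E_n be the set in the statement (denominator n). Claim: volume E_n <= (3 mm psi' n)^d (as ENNReal): E_n is the product of d copies of
E = {x in [0,1] : exists a ...}; if psi n >= n/(2 phi n) the right side is >= 1 >= volume E_n. Otherwise psi n < n/(2 phi n) <= n/2, the integers a that matter satisfy -n < a < 2n, there are at most
3 phi(n) of them coprime to n, so volume E <= 3 phi(n) * 2 psi n/n = 3 mm psi n.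
So sum over n of (mm psi' (n+1))^d >= M1 + q0 + 2 (in ENNReal, possibly infinite), hence there is a finite set X0 of n with sum >= M1 + q0 + 1; drop the n < q0 (each mm psi' <= 1): X = {n in X0+1, n >= q0},
P = sum over X of mm psi'^d >= M1 >= 1. union_lower with eta = 1 - eps (good_res with t = psi' q), variance: (1-eps)^(2d) P^2 <= vol * ((1+eps) P^2 + C P^(3/2)), so vol >= gamma, where vol is the measure of the
union over X for psi', which is contained in the union for psi (psi' <= psi), of measure <= 1. -/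
theorem final (d : ℕ) (hd : 1 ≤ d) (γ : ℝ) (hγ0 : 0 < γ) (hγ1 : γ < 1) :
    ∃ M : ℝ, 0 < M ∧ ∀ ψ : ℕ → ℝ, (∀ n, 0 ≤ ψ n) →
      ENNReal.ofReal M ≤ ∑' n : ℕ, MeasureTheory.volume
          {x : Fin d → ℝ | ∀ i, x i ∈ Set.Icc (0 : ℝ) 1 ∧
            ∃ a : ℤ, Int.gcd a ((n + 1 : ℕ) : ℤ) = 1 ∧
              |x i - (a : ℝ) / ((n + 1 : ℕ) : ℝ)| < ψ (n + 1) / ((n + 1 : ℕ) : ℝ)} →
        ENNReal.ofReal γ ≤ MeasureTheory.volume (⋃ n : ℕ,
          {x : Fin d → ℝ | ∀ i, x i ∈ Set.Icc (0 : ℝ) 1 ∧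
            ∃ a : ℤ, Int.gcd a ((n + 1 : ℕ) : ℤ) = 1 ∧
              |x i - (a : ℝ) / ((n + 1 : ℕ) : ℝ)| < ψ (n + 1) / ((n + 1 : ℕ) : ℝ)}) := by
  obtain ⟨ε, hε0, hε1, hδ⟩ := final_eps d γ hγ0 hγ1
  obtain ⟨C, hC0, hC⟩ := variance d hd ε hε0
  obtain ⟨q0, hq0⟩ := good_res hdiv8 ε hε0
  set δ := ((1 - ε) ^ d) ^ 2 - γ * (1 + ε) with hδdef
  set M1 : ℝ := max 1 ((γ * C / δ) ^ 2) with hM1
  have hM11 : 1 ≤ M1 := le_max_left _ _
  refine ⟨3 ^ d * (M1 + q0 + 2), by positivity, ?_⟩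
  intro ψ hψ hsum
  set ψ' : ℕ → ℝ := fun k => min (ψ k) ((k : ℝ) / (2 * (Nat.totient k : ℝ))) with hψ'def
  have hψ'0 : ∀ n, 0 ≤ ψ' n := by
    intro n
    exact le_min (hψ n) (by positivity)
  have hψ'le : ∀ n, ψ' n ≤ ψ n := fun n => min_le_left _ _
  have hmm' : ∀ n, 0 < n → mm ψ' n = min (mm ψ n) 1 := fun n hn => final_mm ψ n hn
  have hmm'1 : ∀ n, 0 < n → mm ψ' n ≤ 1 := fun n hn => by
    rw [hmm' n hn]; exact min_le_right _ _
  have hmm'0 : ∀ n, 0 ≤ mm ψ' n := fun n => by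
    unfold mm
    have := hψ'0 n
    positivity
  -- the sum
  have h1 : ENNReal.ofReal (3 ^ d * (M1 + q0 + 2)) ≤
      ∑' n : ℕ, ENNReal.ofReal (3 ^ d) * ENNReal.ofReal ((mm ψ' (n + 1)) ^ d) := by
    refine le_trans hsum (ENNReal.tsum_le_tsum ?_)
    intro n
    rw [hmm' (n + 1) (Nat.succ_pos n)]
    exact final_box d ψ hψ (n + 1) (Nat.succ_pos n)
  rw [ENNReal.tsum_mul_left, ENNReal.ofReal_mul (by positivity)] at h1
  have h3d0 : ENNReal.ofReal ((3 : ℝ) ^ d) ≠ 0 := by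
    rw [Ne, ENNReal.ofReal_eq_zero, not_le]
    positivity
  have h2 : ENNReal.ofReal (M1 + q0 + 2) ≤ ∑' n : ℕ, ENNReal.ofReal ((mm ψ' (n + 1)) ^ d) :=
    (ENNReal.mul_le_mul_iff_right h3d0 ENNReal.ofReal_ne_top).mp h1
  have h3 : ENNReal.ofReal (M1 + q0 + 1) < ∑' n : ℕ, ENNReal.ofReal ((mm ψ' (n + 1)) ^ d) := by
    refine lt_of_lt_of_le ?_ h2
    rw [ENNReal.ofReal_lt_ofReal_iff (by positivity)]
    linarith
  rw [ENNReal.tsum_eq_iSup_sum, lt_iSup_iff] at h3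
  obtain ⟨X0, hX0⟩ := h3
  rw [← ENNReal.ofReal_sum_of_nonneg (fun n _ => pow_nonneg (hmm'0 _) d)] at hX0
  have hX0' : M1 + q0 + 1 < ∑ n ∈ X0, (mm ψ' (n + 1)) ^ d := by
    by_contra hcon
    push Not at hcon
    exact absurd (ENNReal.ofReal_le_ofReal hcon) (not_le.mpr hX0)
  -- remove small denominators
  have hsplit : ∑ n ∈ X0, (mm ψ' (n + 1)) ^ d =
      ∑ n ∈ X0.filter (fun n => q0 ≤ n + 1), (mm ψ' (n + 1)) ^ d +
      ∑ n ∈ X0.filter (fun n => ¬ q0 ≤ n + 1), (mm ψ' (n + 1)) ^ d :=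
    (Finset.sum_filter_add_sum_filter_not X0 _ _).symm
  have hsmall : ∑ n ∈ X0.filter (fun n => ¬ q0 ≤ n + 1), (mm ψ' (n + 1)) ^ d ≤ q0 := by
    have hcard : (X0.filter (fun n => ¬ q0 ≤ n + 1)).card ≤ q0 := by
      calc (X0.filter (fun n => ¬ q0 ≤ n + 1)).card ≤ (Finset.range q0).card := by
            apply Finset.card_le_card
            intro n hn
            rw [Finset.mem_filter] at hn
            rw [Finset.mem_range]
            omega
        _ = q0 := Finset.card_range q0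
    calc ∑ n ∈ X0.filter (fun n => ¬ q0 ≤ n + 1), (mm ψ' (n + 1)) ^ d
        ≤ ∑ n ∈ X0.filter (fun n => ¬ q0 ≤ n + 1), (1 : ℝ) := by
          apply Finset.sum_le_sum
          intro n _
          exact pow_le_one₀ (hmm'0 _) (hmm'1 _ (Nat.succ_pos n))
      _ = ((X0.filter (fun n => ¬ q0 ≤ n + 1)).card : ℝ) := by simp
      _ ≤ q0 := by exact_mod_cast hcard
  set X : Finset ℕ := (X0.filter (fun n => q0 ≤ n + 1)).image (fun n => n + 1) with hXdef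
  have hXsum : ∑ q ∈ X, mm ψ' q ^ d = ∑ n ∈ X0.filter (fun n => q0 ≤ n + 1), (mm ψ' (n + 1)) ^ d := by
    rw [hXdef, Finset.sum_image]
    intro a _ b _ hab
    exact Nat.succ_injective hab
  have hXmem : ∀ q ∈ X, 0 < q ∧ q0 ≤ q := by
    intro q hq
    rw [hXdef, Finset.mem_image] at hq
    obtain ⟨n, hn, rfl⟩ := hq
    rw [Finset.mem_filter] at hn
    exact ⟨Nat.succ_pos n, hn.2⟩
  set P : ℝ := ∑ q ∈ X, mm ψ' q ^ d with hPdef
  have hPM1 : M1 ≤ P := by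
    rw [hXsum]
    linarith
  have hP1 : 1 ≤ P := le_trans hM11 hPM1
  have hvar := hC X ψ' (fun q hq => (hXmem q hq).1) hψ'0 (fun q hq => hmm'1 q (hXmem q hq).1) hP1
  have hul := union_lower d hd X ψ' (fun q hq => (hXmem q hq).1) hψ'0 (1 - ε) (by linarith)
    (fun q hq => hq0 q (ψ' q) (hXmem q hq).2 (hψ'0 q) (hmm'1 q (hXmem q hq).1))
  rw [← hPdef] at hvar hul
  set U' : Set (Fin d → ℝ) := ⋃ q ∈ X, {x : Fin d → ℝ | ∀ i, x i ∈ Set.Icc (0 : ℝ) 1 ∧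
        ∃ a : ℤ, Int.gcd a ((q : ℕ) : ℤ) = 1 ∧ |x i - (a : ℝ) / ((q : ℕ) : ℝ)| < ψ' q / ((q : ℕ) : ℝ)} with hU'
  set D : ℝ := (1 + ε) * P ^ 2 + C * P ^ (3 / 2 : ℝ) with hD
  have hDpos : 0 < D := by
    have hP0 : 0 < P := by linarith
    have : 0 < P ^ (3 / 2 : ℝ) := Real.rpow_pos_of_pos hP0 _
    positivity
  have hkey := final_M1 δ γ C ε (((1 - ε) ^ d) ^ 2) hδ hδdef.symm P hP1
    (le_trans (le_max_right _ _) hPM1)
  have hvolreal : γ ≤ MeasureTheory.volume.real U' := by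
    have h5 : γ * D ≤ MeasureTheory.volume.real U' * D := by
      calc γ * D ≤ ((1 - ε) ^ d) ^ 2 * P ^ 2 := hkey
        _ = ((1 - ε) ^ d * P) ^ 2 := by ring
        _ ≤ MeasureTheory.volume.real U' * ∑ q ∈ X, ∑ r ∈ X, EE ψ' q r ^ d := hul
        _ ≤ MeasureTheory.volume.real U' * D :=
            mul_le_mul_of_nonneg_left hvar MeasureTheory.measureReal_nonneg
    exact le_of_mul_le_mul_right h5 hDpos
  have hsubset : U' ⊆ ⋃ n : ℕ,
          {x : Fin d → ℝ | ∀ i, x i ∈ Set.Icc (0 : ℝ) 1 ∧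
            ∃ a : ℤ, Int.gcd a ((n + 1 : ℕ) : ℤ) = 1 ∧
              |x i - (a : ℝ) / ((n + 1 : ℕ) : ℝ)| < ψ (n + 1) / ((n + 1 : ℕ) : ℝ)} := by
    intro x hx
    rw [hU', Set.mem_iUnion₂] at hx
    obtain ⟨q, hq, hxq⟩ := hx
    obtain ⟨n, rfl⟩ : ∃ n, q = n + 1 := ⟨q - 1, by have := (hXmem q hq).1; omega⟩
    rw [Set.mem_iUnion]
    refine ⟨n, ?_⟩
    intro i
    obtain ⟨hx1, a, ha1, ha2⟩ := hxq i
    refine ⟨hx1, a, ha1, lt_of_lt_of_le ha2 ?_⟩
    exact div_le_div_of_nonneg_right (hψ'le _) (by positivity)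
  calc ENNReal.ofReal γ ≤ ENNReal.ofReal (MeasureTheory.volume.real U') :=
        ENNReal.ofReal_le_ofReal hvolreal
    _ ≤ MeasureTheory.volume U' := ENNReal.ofReal_toReal_le
    _ ≤ _ := MeasureTheory.measure_mono hsubset

end Pool.Agent.H560DS
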