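import Mathlib

/-! Definitions for the Duffin-Schaeffer second moment (S17401). -/

set_option autoImplicit false

namespace Pool.Agent.H560DS

open Finset

/-- gcd restricted to the primes in `P` -/
noncomputable def gP (P : Finset ℕ) (v w : ℕ) : ℝ :=
  ∏ p ∈ P, (p : ℝ) ^ (min (v.factorization p) (w.factorization p))

/-- the part of `φ(v)/v` coming from the primes in `P` -/
noncomputable def rP (P : Finset ℕ) (v : ℕ) : ℝ :=
  ∏ p ∈ P, (if p ∣ v then 1 - 1 / (p : ℝ) else 1)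

/-- weight of a pair -/
noncomputable def kP (U P : Finset ℕ) (g : ℕ → ℝ) (v w : ℕ) : ℝ :=
  (∏ p ∈ P, (if v.factorization p = w.factorization p then 1 else g p)) *
    ∏ p ∈ U \ P, ((if p ∣ v then g p else 1) * (if p ∣ w then g p else 1))

/-- the bilinear sum -/
noncomputable def FP (U P : Finset ℕ) (g : ℕ → ℝ) (I J : Finset ℕ) (v w : ℕ → ℕ) (ψ θ : ℕ → ℝ) : ℝ :=
  ∑ a ∈ I, ∑ b ∈ J, (if max ((v a : ℝ) * θ b) ((w b : ℝ) * ψ a) ≤ gP P (v a) (w b) then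
    ψ a * θ b * rP P (v a) * rP P (w b) * kP U P g (v a) (w b) else 0)

/-- the mass -/
noncomputable def MP (P : Finset ℕ) (I : Finset ℕ) (v : ℕ → ℕ) (ψ : ℕ → ℝ) : ℝ :=
  ∑ a ∈ I, ψ a * rP P (v a)

/-- the inductive claim -/
def Claim (U P : Finset ℕ) (g : ℕ → ℝ) (C : ℝ) : Prop :=
  ∀ (I J : Finset ℕ) (v w : ℕ → ℕ) (ψ θ : ℕ → ℝ), Set.InjOn v I → Set.InjOn w J →
    (∀ a ∈ I, 0 < v a) → (∀ b ∈ J, 0 < w b) → (∀ a, 0 ≤ ψ a) → (∀ b, 0 ≤ θ b) →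
    FP U P g I J v w ψ θ ≤ C * (MP P I v ψ * MP P J w θ) ^ (3 / 4 : ℝ)

/-- weight of the exponent pair `(i,j)` -/
noncomputable def ww (p g : ℝ) (i j : ℕ) : ℝ :=
  if i = j then 1 else g * p ^ (-(|(i : ℝ) - (j : ℝ)|) / 4)

/-- `q / gcd(q,r)` -/
def cof (q r : ℕ) : ℕ := q / Nat.gcd q r

/-- the primes dividing exactly one of the two cofactors -/
def PF (q r : ℕ) : Finset ℕ := (cof q r * cof r q).primeFactors

/-- `D(q,r)` -/
noncomputable def DD (ψ : ℕ → ℝ) (q r : ℕ) : ℝ := max ((cof r q : ℝ) * ψ q) ((cof q r : ℝ) * ψ r)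

/-- `2 ψ(q) φ(q) / q` -/
noncomputable def mm (ψ : ℕ → ℝ) (q : ℕ) : ℝ := 2 * ψ q * (Nat.totient q : ℝ) / (q : ℝ)

/-- reduced residues in `[0,q)` -/
def RR (q : ℕ) : Finset ℕ := (range q).filter (fun a => Nat.Coprime a q)

open Classical in
/-- the reduced residues at distance at least `t` from both ends -/
noncomputable def GR (q : ℕ) (t : ℝ) : Finset ℕ := (RR q).filter (fun a : ℕ => t ≤ (a : ℝ) ∧ (a : ℝ) + t ≤ (q : ℝ))

/-- total overlap of the intervals of `q` and of `r` -/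
noncomputable def EE (ψ : ℕ → ℝ) (q r : ℕ) : ℝ :=
  ∑ a ∈ RR q, ∑ b ∈ RR r, MeasureTheory.volume.real
    (Set.Ioo ((a : ℝ) / q - ψ q / q) ((a : ℝ) / q + ψ q / q) ∩
      Set.Ioo ((b : ℝ) / r - ψ r / r) ((b : ℝ) / r + ψ r / r))

/-- number of pairs of reduced residues with `a r' - b q' = k` -/
def cc (q r : ℕ) (k : ℤ) : ℕ :=
  #{z ∈ RR q ×ˢ RR r | (z.1 : ℤ) * (cof r q : ℤ) - (z.2 : ℤ) * (cof q r : ℤ) = k}

/-- local density product -/
noncomputable def Rk (q r : ℕ) (k : ℤ) : ℝ :=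
  (∏ p ∈ PF q r, (if (p : ℤ) ∣ k then 0 else (p : ℝ) / ((p : ℝ) - 1))) *
    ∏ p ∈ (Nat.gcd q r).primeFactors \ PF q r,
      (if (p : ℤ) ∣ k then 1 + 1 / ((p : ℝ) - 1) else 1 - 1 / ((p : ℝ) - 1) ^ 2)

/-- integers `k` with `|k - c| < D` -/
noncomputable def KS (c D : ℝ) : Finset ℤ := (Finset.Icc ⌈c - D⌉ ⌊c + D⌋).filter (fun k => |(k : ℝ) - c| < D)

/-- product over the primes `> z` of `PF q r` of `p/(p-1)` -/
noncomputable def Pz (z q r : ℕ) : ℝ := ∏ p ∈ (PF q r).filter (fun p => z < p), (p : ℝ) / ((p : ℝ) - 1)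

end Pool.Agent.H560DS
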